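import Pool.Agent.Lib.SE.P.SpecF

set_option autoImplicit false

open Module HC HC.SE SE
open scoped ComplexConjugate

noncomputable section

namespace SEP

namespace N1

theorem cx (σ : ℂ) (hσ : σ.im ≠ 0) (c : ℂ) : ∃ a b : ℝ, c = a + b * σ := by
  refine ⟨c.re - c.im / σ.im * σ.re, c.im / σ.im, ?_⟩
  apply Complex.ext
  · simp
  · simp [hσ]

theorem root {V : Type} [AddCommGroup V] [Module ℂ V] [Nontrivial V] (m : ℕ) (hm : 3 ≤ m) (z : ℂ)
    (h : Polynomial.aeval (algebraMap ℂ (Module.End ℂ V) z) (Polynomial.cyclotomic m ℤ) = 0) :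
    z.im ≠ 0 := by
  rw [Polynomial.aeval_algebraMap_apply] at h
  have h1 : Polynomial.aeval z (Polynomial.cyclotomic m ℤ) = 0 := by
    apply (algebraMap ℂ (Module.End ℂ V)).injective
    rw [h, map_zero]
  rw [Polynomial.aeval_def, Polynomial.eval₂_eq_eval_map, Polynomial.map_cyclotomic] at h1
  have hm0 : ((m : ℕ) : ℂ) ≠ 0 := Nat.cast_ne_zero.2 (by omega)
  haveI : NeZero ((m : ℕ) : ℂ) := ⟨hm0⟩
  have h2 : IsPrimitiveRoot z m := Polynomial.isRoot_cyclotomic_iff.1 h1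
  intro hz
  have h3 : ‖z‖ = 1 := h2.norm'_eq_one (by omega)
  have h4 : z = (z.re : ℂ) := by
    apply Complex.ext
    · simp
    · simp [hz]
  have h5 : z.re ^ 2 = 1 := by
    rw [h4, Complex.norm_real, Real.norm_eq_abs] at h3
    rw [← sq_abs, h3, one_pow]
  have h6 : z ^ 2 = 1 := by
    rw [h4]
    exact_mod_cast h5
  have h7 := Nat.le_of_dvd (by norm_num) (h2.dvd_of_pow_eq_one 2 h6)
  omega

theorem lin {T : AV} {m : ℕ} (D : SEB.Cyc T m) (z : ℂ) (hz : z.im ≠ 0) (hZ : ∀ v, D.Z v = z • v)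
    (P : Module.End ℝ T.V) (hP : P ∈ Lef T D.Z D.ψ) (c : ℂ) (v : T.V) : P (c • v) = c • P v := by
  have h1 : ∀ u, P (z • u) = z • P u := by
    intro u
    rw [← hZ u, hP.1, hZ]
  have h2 : ∀ (a : ℝ) (u : T.V), P ((a : ℂ) • u) = (a : ℂ) • P u := by
    intro a u
    rw [Complex.coe_smul, Complex.coe_smul, P.map_smul]
  obtain ⟨a, b, hab⟩ := cx z hz c
  rw [hab, add_smul, mul_smul, P.map_add, h2, h2, h1, add_smul, mul_smul]

end N1

theorem tN1 : S_N1 := by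
  intro T m D hm h1 h _ _ _ P Q hP hQ
  have hnt : Nontrivial T.V := Module.nontrivial_of_finrank_pos (R := ℂ) (by rw [h1]; exact one_pos)
  obtain ⟨v0, hv0, hw⟩ := finrank_eq_one_iff'.1 h1
  obtain ⟨z, hz⟩ := hw (D.Z v0)
  have hZ : ∀ v, D.Z v = z • v := by
    intro v
    obtain ⟨c, rfl⟩ := hw v
    rw [map_smul, ← hz, smul_comm]
  have hZa : D.Z = algebraMap ℂ (Module.End ℂ T.V) z := by
    ext v
    rw [hZ, Module.algebraMap_end_apply]
  have hz0 : z.im ≠ 0 := by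
    refine N1.root (V := T.V) m hm z ?_
    rw [← hZa]
    exact D.cyc
  have h0 : P * Q - Q * P = 0 := by
    funext i
    refine LinearMap.ext fun v => ?_
    obtain ⟨c, rfl⟩ := hw v
    obtain ⟨p, hp⟩ := hw (P i v0)
    obtain ⟨q, hq⟩ := hw (Q i v0)
    have lP := N1.lin D z hz0 hZ (P i) (hP i)
    have lQ := N1.lin D z hz0 hZ (Q i) (hQ i)
    show P i (Q i (c • v0)) - Q i (P i (c • v0)) = 0
    rw [lP, lQ, lP, lQ, ← hp, ← hq, lP, lQ, ← hp, ← hq, smul_comm p q, sub_self]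
  rw [h0]
  exact Submodule.zero_mem _

theorem tApm : S_Apm := by
  intro T m D hm g _
  rcases hm with rfl | rfl
  · have h3 : ∀ x : (ZMod 3)ˣ, x = 1 ∨ x = -1 := by decide
    exact h3 g
  · have h3 : ∀ x : (ZMod 4)ˣ, x = 1 ∨ x = -1 := by decide
    exact h3 g

end SEP
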