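import Pool.Agent.Lib.SE.P.SpecF

/-!
# PROJECT SE-P, Pp: the signature in the sense of SE/Big
-/

set_option autoImplicit false

open Module HC HC.SE SE
open scoped ComplexConjugate

noncomputable section

namespace SEP

namespace Pp

variable {T : AV} {m : ℕ}

/-- an eigenvalue of `Z` is a primitive `m`-th root of unity -/
theorem prim (D : SEB.Cyc T m) (hm : 3 ≤ m) (z : ℂ)
    (hz : finrank ℂ (Module.End.eigenspace (D.Z : Module.End ℂ T.V) z) = 1) :
    IsPrimitiveRoot z m := by
  have h1 : Module.End.eigenspace (D.Z : Module.End ℂ T.V) z ≠ ⊥ := by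
    intro h
    rw [h, finrank_bot] at hz
    exact zero_ne_one hz
  obtain ⟨v, hv, hv0⟩ := Submodule.exists_mem_ne_zero_of_ne_bot h1
  have h2 : Module.End.HasEigenvector (D.Z : Module.End ℂ T.V) z v := ⟨hv, hv0⟩
  have h3 : Polynomial.aeval (D.Z : Module.End ℂ T.V) (Polynomial.cyclotomic m ℂ) = 0 := by
    have h4 := D.cyc
    rw [← Polynomial.map_cyclotomic_int m ℂ]
    have h5 := Polynomial.aeval_map_algebraMap ℂ (D.Z : Module.End ℂ T.V)
      (Polynomial.cyclotomic m ℤ)
    exact h5.trans h4
  have h4 := Module.End.aeval_apply_of_hasEigenvector (p := Polynomial.cyclotomic m ℂ) h2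
  rw [h3, LinearMap.zero_apply] at h4
  have h5 : (Polynomial.cyclotomic m ℂ).eval z = 0 := by
    rcases smul_eq_zero.1 h4.symm with h | h
    · exact h
    · exact absurd h hv0
  have : NeZero (m : ℂ) := ⟨by exact_mod_cast (by omega : m ≠ 0)⟩
  exact Polynomial.isRoot_cyclotomic_iff.1 h5

/-- a complex linear form as a real linear form -/
def rs (T : AV) : Module.Dual ℂ T.V →ₗ[ℂ] SEB.Frm T where
  toFun a := a.restrictScalars ℝ
  map_add' _ _ := rfl
  map_smul' _ _ := rfl

theorem rs_inj (T : AV) : Function.Injective (rs T) := by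
  intro a b h
  ext v
  exact congrArg (fun c : SEB.Frm T => c v) h

theorem map_ker (D : SEB.Cyc T m) (s : (ZMod m)ˣ) :
    Submodule.map (rs T) (LinearMap.ker (LinearMap.dualMap
      ((D.Z : Module.End ℂ T.V) - SEB.zet m s • (1 : Module.End ℂ T.V)))) = SEB.Ws10 D s := by
  ext a
  rw [Submodule.mem_map]
  constructor
  · rintro ⟨b, hb, rfl⟩
    rw [LinearMap.mem_ker] at hb
    refine ⟨fun v => ?_, fun v => ?_⟩
    · have h1 := congrArg (fun c : Module.Dual ℂ T.V => c v) hb
      simp only [LinearMap.dualMap_apply, LinearMap.sub_apply, LinearMap.smul_apply,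
        Module.End.one_apply, map_sub, map_smul, LinearMap.zero_apply, smul_eq_mul] at h1
      exact sub_eq_zero.1 h1
    · show b (Complex.I • v) = Complex.I * b v
      rw [map_smul, smul_eq_mul]
  · rintro ⟨h1, h2⟩
    refine ⟨{ toFun := a, map_add' := map_add a, map_smul' := fun c v => ?_ }, ?_, rfl⟩
    · have h3 : c • v = (c.re : ℝ) • v + (c.im : ℝ) • (Complex.I • v) := by
        conv_lhs => rw [← Complex.re_add_im c]
        rw [add_smul, mul_smul]
        rfl
      rw [h3, map_add, map_smul, map_smul, h2, RingHom.id_apply]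
      conv_rhs => rw [← Complex.re_add_im c]
      rw [smul_eq_mul, Complex.real_smul, Complex.real_smul]
      ring
    · rw [LinearMap.mem_ker]
      ext v
      show a (D.Z v - SEB.zet m s • v) = 0
      have h3 : a (SEB.zet m s • v) = SEB.zet m s * a v := by
        have h4 : SEB.zet m s • v = ((SEB.zet m s).re : ℝ) • v +
            ((SEB.zet m s).im : ℝ) • (Complex.I • v) := by
          conv_lhs => rw [← Complex.re_add_im (SEB.zet m s)]
          rw [add_smul, mul_smul]
          rfl
        rw [h4, map_add, map_smul, map_smul, h2]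
        conv_rhs => rw [← Complex.re_add_im (SEB.zet m s)]
        rw [Complex.real_smul, Complex.real_smul]
        ring
      rw [map_sub, h1, h3, sub_self]

theorem ker_dual {V : Type} [AddCommGroup V] [Module ℂ V] [FiniteDimensional ℂ V]
    (f : Module.End ℂ V) :
    finrank ℂ (LinearMap.ker (LinearMap.dualMap f)) = finrank ℂ (LinearMap.ker f) := by
  have h1 := LinearMap.finrank_range_add_finrank_ker (LinearMap.dualMap f)
  have h2 := LinearMap.finrank_range_add_finrank_ker f
  have h3 := LinearMap.finrank_range_dualMap_eq_finrank_range f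
  have h4 := Subspace.dual_finrank_eq (K := ℂ) (V := V)
  omega

end Pp

open Pp in
theorem tPp : S_Pp := by
  intro T m D hm z hz
  have h1 := prim D hm z hz
  obtain ⟨i, hi, hc, he⟩ := (Complex.isPrimitiveRoot_iff z m (by omega)).1 h1
  have : NeZero m := ⟨by omega⟩
  have hs : SEB.zet m (ZMod.unitOfCoprime i hc) = z := by
    unfold SEB.zet
    rw [ZMod.coe_unitOfCoprime, ZMod.val_natCast_of_lt hi, ← Complex.exp_nat_mul, ← he]
    congr 1
    ring
  refine ⟨ZMod.unitOfCoprime i hc, ?_⟩
  unfold SEB.Cyc.p
  rw [← map_ker, hs, ← LinearEquiv.finrank_eq (Submodule.equivMapOfInjective (rs T) (rs_inj T) _),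
    ker_dual]
  rw [Module.End.eigenspace_def] at hz
  exact hz

end SEP
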