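import Pool.Agent.Lib.SE.P.SpecF

/-!
# PROJECT SE-P, module Ltz (helper69): a lattice stable under `Z`
-/

set_option autoImplicit false

open Module HC HC.SE SE
open scoped ComplexConjugate Matrix

noncomputable section

namespace SEP.Ltz

/-- the lattice vectors `v` with `Z v` in the lattice -/
def Lz (T : AV) (Z : Module.End ℂ T.V) : Submodule ℤ T.V where
  carrier := {v | v ∈ T.L ∧ Z v ∈ T.L}
  add_mem' := fun ha hb => ⟨T.L.add_mem ha.1 hb.1, by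
    rw [map_add]; exact T.L.add_mem ha.2 hb.2⟩
  zero_mem' := ⟨T.L.zero_mem, by rw [map_zero]; exact T.L.zero_mem⟩
  smul_mem' := fun c x hx => ⟨T.L.smul_mem c hx.1, by
    rw [map_zsmul]; exact T.L.smul_mem c hx.2⟩

theorem mem_Lz {T : AV} {Z : Module.End ℂ T.V} {v : T.V} :
    v ∈ Lz T Z ↔ v ∈ T.L ∧ Z v ∈ T.L := Iff.rfl

theorem exk (T : AV) (Z : Module.End ℂ T.V) (h : RatEnd T (Z.restrictScalars ℝ)) :
    ∃ k : ℕ, k ≠ 0 ∧ ∀ v ∈ T.L, k • Z v ∈ T.L := by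
  classical
  obtain ⟨S, hS⟩ := ZLattice.FG ℝ T.L
  have h' : ∀ v : T.V, ∃ N : ℕ, N ≠ 0 ∧ (v ∈ T.L → N • Z v ∈ T.L) := by
    intro v
    by_cases hv : v ∈ T.L
    · obtain ⟨N, hN, hN'⟩ := h v hv
      exact ⟨N, hN, fun _ => hN'⟩
    · exact ⟨1, one_ne_zero, fun h => absurd h hv⟩
  choose N hN hN' using h'
  refine ⟨∏ s ∈ S, N s, Finset.prod_ne_zero_iff.2 fun s _ => hN s, ?_⟩
  intro v hv
  rw [← hS] at hv
  induction hv using Submodule.span_induction with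
  | mem x hx =>
    have hxL : x ∈ T.L := by rw [← hS]; exact Submodule.subset_span hx
    obtain ⟨m, hm⟩ := Finset.dvd_prod_of_mem N (Finset.mem_coe.1 hx)
    rw [hm, mul_comm, mul_smul]
    exact T.L.nsmul_mem (hN' x hxL) m
  | zero => rw [map_zero, smul_zero]; exact T.L.zero_mem
  | add x y _ _ h1 h2 => rw [map_add, smul_add]; exact T.L.add_mem h1 h2
  | smul a x _ h1 => rw [map_zsmul, smul_comm]; exact T.L.smul_mem a h1

theorem disc (T : AV) (Z : Module.End ℂ T.V) : DiscreteTopology (Lz T Z) :=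
  DiscreteTopology.of_subset (s := (T.L : Set T.V)) T.disc fun _ hv => hv.1

theorem latt (T : AV) (Z : Module.End ℂ T.V) (h : RatEnd T (Z.restrictScalars ℝ)) :
    @IsZLattice ℝ _ T.V _ _ (Lz T Z) (disc T Z) := by
  obtain ⟨k, hk, hkv⟩ := exk T Z h
  have := disc T Z
  refine ⟨?_⟩
  rw [eq_top_iff, ← IsZLattice.span_top (K := ℝ) (L := T.L)]
  rw [Submodule.span_le]
  intro v hv
  have h1 : k • v ∈ Lz T Z := ⟨T.L.nsmul_mem hv k, by rw [map_nsmul]; exact hkv v hv⟩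
  have h2 : v = (k : ℝ)⁻¹ • (k • v) := by
    rw [← Nat.cast_smul_eq_nsmul ℝ k v, smul_smul, inv_mul_cancel₀ (Nat.cast_ne_zero.2 hk),
      one_smul]
  rw [h2]
  exact Submodule.smul_mem _ _ (Submodule.subset_span h1)

end SEP.Ltz

namespace SEP

theorem tLtz : S_Ltz := by
  intro T e Z hR hZ
  obtain ⟨E, hE1, hE2, hE3, hE4⟩ := T.pol
  obtain ⟨k, hk, hkv⟩ := Ltz.exk T Z hR
  have hp : ∃ E : T.V →ₗ[ℝ] T.V →ₗ[ℝ] ℝ, (∀ x ∈ Ltz.Lz T Z, ∀ y ∈ Ltz.Lz T Z, ∃ n : ℤ, E x y = n) ∧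
      (∀ x y, E x y = -E y x) ∧ (∀ x y, E (Complex.I • x) (Complex.I • y) = E x y) ∧
      ∀ x, x ≠ 0 → 0 < E (Complex.I • x) x :=
    ⟨E, fun x hx y hy => hE1 x hx.1 y hy.1, hE2, hE3, hE4⟩
  refine ⟨@AV.mk T.V T.nacg T.nsp T.fd (Ltz.Lz T Z) (Ltz.disc T Z) (Ltz.latt T Z hR) hp,
    LinearEquiv.refl ℂ T.V, fun v hv => hv.1, ⟨k, hk, fun v hv => ?_⟩, fun v hv => ?_⟩
  · exact ⟨T.L.nsmul_mem hv k, by
      show Z (k • v) ∈ T.L
      rw [map_nsmul]; exact hkv v hv⟩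
  · refine ⟨hv.2, ?_⟩
    show Z (Z v) ∈ T.L
    have h1 : Z (Z v) = e • Z v - v := by
      have h2 := LinearMap.congr_fun hZ v
      rw [Module.End.mul_apply] at h2
      rw [h2, LinearMap.sub_apply, LinearMap.smul_apply, Module.End.one_apply,
        Int.cast_smul_eq_zsmul]
    rw [h1]
    exact T.L.sub_mem (T.L.smul_mem e hv.2) hv.1

end SEP
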