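import Pool.Agent.Lib.SE.P.Spec
import Pool.Agent.Lib.SE.J.Def2
import Pool.Agent.Lib.SE.W.Defs
import Pool.Agent.Lib.SE.Defs

/-!
# PROJECT SE-P (note 4600 on MP_640417_ag), part P5: from the periods to THEOREM P

`E = ℚ(ζ)`, `ζ² = e ζ - 1`: `e = 1`: `ℚ(√-3)`, `ζ` a 6th root of unity; `e = 0`: `ℚ(i)`. `φ` a label of `E`
with `Im τ(φ ζ) > 0`. An abelian variety with multiplication by `E` is of Picard type if exactly one of
the combinations `∑ f_i b(φ,i)` is complex linear up to a factor (`PicU`).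
-/

set_option autoImplicit false

open MeasureTheory Filter Topology SEJ HC HC.SE SE
open scoped ComplexConjugate Matrix

noncomputable section

namespace SEP

/-- `E = ℚ(√-3)` (`e = 1`) or `ℚ(i)` (`e = 0`). -/
structure IQ (e : ℤ) (E : Type) [Field E] (ζ : E) : Prop where
  he : e = 0 ∨ e = 1
  sq : ζ ^ 2 = (e : E) * ζ - 1
  gen : ∀ x : E, ∃ p q : ℚ, x = (p : E) + (q : E) * ζ

/-- the order of `ζ` -/
def me (e : ℤ) : ℕ := if e = 1 then 6 else 4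

/-- the rank of the curves -/
def re (e : ℤ) : ℕ := if e = 1 then 10 else 6

/-- the exponents of the form of the first kind: `1 / 6`, `1 / 4` -/
def muP (e : ℤ) (_ : Fin (re e + 1)) : ℝ := 1 / (me e : ℝ)

/-- `2 ζ - e = √-3, 2 i` -/
def th {E : Type} [Field E] (e : ℤ) (ζ : E) : E := 2 * ζ - (e : E)

/-- the hermitian matrix of the curves: `θ⁻¹ (Nm⁻¹)ᵀ` -/
def HJ (e : ℤ) {E : Type} [Field E] (ζ : E) : Matrix (Fin (re e)) (Fin (re e)) E :=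
  (th e ζ)⁻¹ • ((Nm (fun _ : Fin (re e + 1) => ζ))⁻¹)ᵀ

/-- the value `w^T H conj w'` -/
def hv {r : ℕ} (H : Matrix (Fin r) (Fin r) ℂ) (w w' : Fin r → ℂ) : ℂ :=
  w ⬝ᵥ H.mulVec (star w')

/-! ## The matrix statement -/

/-- **G** (from P2, P3j, P4). `inv` the conjugation of `E`, `σ : E → ℂ` with `Im σ ζ > 0`, `H` hermitian
of signature `(n - 1, 1)`, positive on `f = 0`. PROOF. (1) P2 (helper81): `a`, `P₁` with
`P₁ᵀ HJ conj P₁ = c₀ diag (H, a)`. (2) `F = (f, 0) σ(P₁)⁻¹` (row vector) satisfies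
`F^* σ(HJ)⁻¹ F < 0` (dual form: `f^* σ(H)⁻¹ f < 0` since `conj (H⁻¹ f)` is orthogonal to `ker f`, where `H`
is positive, and `H` is not positive definite), and so does `p⁰ = (per s₀ k)_k`, `s₀ = i β`, since
`HJ⁻¹ = θ Nmᵀ` and `p⁰ᵀ Nm conj p⁰ = 2 i ∫ |xi|² ` (SE/J E3, S_N2). (3) P3j: the vectors
`(per s k)_(k < re)` for `s` near `s₀` fill a neighbourhood `U` of `p⁰` (forget the last coordinate, which
is determined: `∑ (1 - λ) t_j = 0`). (4) P4 for the matrix `σ(HJ)⁻¹`, `F = σ(E)` dense, `v = F`, `w = p⁰`: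
`g`, `z g F ∈ U`, `g^* HJ⁻¹ g = HJ⁻¹`, `g = σ(g₁)`. (5) `P = g₁^(-T) P₁`:
`Pᵀ HJ conj P = P₁ᵀ (g₁⁻¹ HJ conj (g₁^(-T))) conj P₁ = P₁ᵀ HJ conj P₁`, and
`per(s)ᵀ σ(P) = z Fᵀ gᵀ g^(-T) σ(P₁) = z (f, 0)`. -/
def S_G : Prop := ∀ (e : ℤ) (E : Type) [Field E] (ζ : E), IQ e E ζ → ∀ (inv : E ≃+* E)
  (σ : E →+* ℂ), (∀ x, σ (inv x) = conj (σ x)) → 0 < (σ ζ).im → ∀ (n l : ℕ), 0 < n → 0 < l →
  n + l = re e → ∀ (H : Matrix (Fin n) (Fin n) E), (∀ i j, inv (H i j) = H j i) → ∀ f : Fin n → ℂ,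
  f ≠ 0 → (∀ w : Fin n → ℂ, f ⬝ᵥ w = 0 → w ≠ 0 → 0 < (hv (H.map σ) w w).re) →
  (∃ w : Fin n → ℂ, (hv (H.map σ) w w).re < 0) →
  ∃ (a : Fin l → ℚ) (s : Fin (re e + 1) → ℂ) (P : Matrix (Fin (re e)) (Fin n ⊕ Fin l) E)
    (P' : Matrix (Fin n ⊕ Fin l) (Fin (re e)) E) (c₀ : ℚ) (z : ℂ), (∀ i, 0 < a i) ∧
    (StrictMono fun j => (s j).im) ∧ P * P' = 1 ∧ P' * P = 1 ∧ 0 < c₀ ∧ z ≠ 0 ∧
    Pᵀ * HJ e ζ * P.map inv =
      (c₀ : E) • Matrix.fromBlocks H 0 0 (Matrix.diagonal fun i => ((a i : ℚ) : E)) ∧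
    (∀ i, ∑ k, per (muP e) s k.castSucc * σ (P k (Sum.inl i)) = z * f i) ∧
    ∀ i, ∑ k, per (muP e) s k.castSucc * σ (P k (Sum.inr i)) = 0

/-! ## Abelian varieties with multiplication by `E` -/

section
variable {X : GF} {T : AV} {E : Type} [Field E] [NumberField E] {r : ℕ}

/-- the coordinates at the label `φ` -/
def zc (B : Blk X T E r) (φ : E →+* X.K) (v : T.V) : Fin r → ℂ := fun i => B.b (φ, i) v

/-- Picard type: `∑ f_i b(φ,i)` is complex linear; where it vanishes, the multiplication by `i` is `-i` in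
the coordinates of `φ` -/
structure PicU (B : Blk X T E r) (φ : E →+* X.K) (f : Fin r → ℂ) : Prop where
  ne : f ≠ 0
  hol : ∀ v, f ⬝ᵥ zc B φ (Complex.I • v) = Complex.I * f ⬝ᵥ zc B φ v
  ahol : ∀ v, f ⬝ᵥ zc B φ v = 0 → zc B φ (Complex.I • v) = (-Complex.I) • zc B φ v

/-- `S` is the (skew hermitian) matrix of the Riemann form -/
def IsFm (B : Blk X T E r) (φ : E →+* X.K) (R : T.V →ₗ[ℝ] T.V →ₗ[ℝ] ℝ)
    (S : Matrix (Fin r) (Fin r) E) : Prop :=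
  ∀ u v, R u v = 2 * (hv (S.map (X.τ.comp φ)) (zc B φ u) (zc B φ v)).re

end

/-- **Zi**: the coordinates at one label are an `ℝ`-isomorphism, semilinear for `E`; the other label is
the conjugate. PROOF. The labels of `E` are `φ` and `c φ` (`IQ.gen`; `Im τ φ ζ ≠ 0`);
`b (c φ, i) = conj b (φ, i)` (on lattice vectors, so everywhere); `b` is a basis of `H^1(T, ℂ)`
(`2 dim T = 2 r`). -/
def S_Zi : Prop := ∀ (X : GF) (T : AV) (E : Type) [Field E] [NumberField E] (r : ℕ)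
  (B : Blk X T E r) (e : ℤ) (ζ : E) (φ : E →+* X.K), IQ e E ζ → 0 < (X.τ (φ ζ)).im →
  (∃ Z : T.V ≃ₗ[ℝ] (Fin r → ℂ), ∀ v, Z v = zc B φ v) ∧
  (∀ φ' : E →+* X.K, φ' = φ ∨ φ' = gl X.c φ) ∧
  ∀ i v, B.b (gl X.c φ, i) v = conj (B.b (φ, i) v)

/-- **Mat**: the matrix of a compatible form. PROOF. `E^r` with the form `R_ℚ(y, y') = R(v, v') / (N N')` for
lattice vectors with coordinates `N y`, `N' y'` (`B.mem`; well defined since the coordinates are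
injective, S_Zi): `x ↦ R_ℚ(x e_i, e_j)` is `ℚ`-linear `E → ℚ`, so `= tr(S_ij x) = 2 Re σ(S_ij x)`
(`Algebra.traceForm_nondegenerate`, or solve the two linear equations `x = 1`, `x = ζ`);
`R_ℚ(x e_i, x' e_j) = R_ℚ(inv x' x e_i, e_j)` by the compatibility; `inv S_ij = - S_ji` by the
antisymmetry. Both sides of IsFm are real bilinear and agree on `L`, which spans. -/
def S_Mat : Prop := ∀ (X : GF) (T : AV) (E : Type) [Field E] [NumberField E] (r : ℕ)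
  (B : Blk X T E r) (e : ℤ) (ζ : E) (φ : E →+* X.K), IQ e E ζ → 0 < (X.τ (φ ζ)).im →
  ∀ (inv : E ≃+* E), (∀ x, X.τ (φ (inv x)) = conj (X.τ (φ x))) →
  ∀ R : T.V →ₗ[ℝ] T.V →ₗ[ℝ] ℝ, (∀ u ∈ T.L, ∀ v ∈ T.L, ∃ n : ℤ, R u v = n) →
  (∀ u v, R u v = -R v u) → (∀ x u v, R (B.ρ x u) v = R u (B.ρ (inv x) v)) →
  ∃ S : Matrix (Fin r) (Fin r) E, (∀ i j, inv (S i j) = -S j i) ∧ IsFm B φ R S

/-- **Sig**: the signature. `H = θ⁻¹ S`. PROOF. In the coordinates `Z` (S_Zi) the multiplication by `i` is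
a complex matrix `J` (it commutes with `E`, so with `ℂ`), `fᵀ J = i fᵀ`, `J = - i` on `ker f`, `J² = -1`.
`R(i v, v) > 0`. For `w ∈ ker f`, `w ≠ 0`: `2 Re (- i wᵀ S conj w) > 0`, and `S = θ H`, `σ θ = i κ`, `κ > 0`
(`κ = 2 Im σ ζ`): `wᵀ S conj w = i κ wᵀ H conj w`. There is `w₊ ≠ 0` with `J w₊ = i w₊` (`J ≠ -i`):
`R(i v, v) = 2 Re (i wᵀ S conj w) = - 2 κ wᵀ H conj w > 0`. -/
def S_Sig : Prop := ∀ (X : GF) (T : AV) (E : Type) [Field E] [NumberField E] (r : ℕ)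
  (B : Blk X T E r) (e : ℤ) (ζ : E) (φ : E →+* X.K), IQ e E ζ → 0 < (X.τ (φ ζ)).im →
  ∀ R : T.V →ₗ[ℝ] T.V →ₗ[ℝ] ℝ, (∀ v, v ≠ 0 → 0 < R (Complex.I • v) v) →
  ∀ S : Matrix (Fin r) (Fin r) E, IsFm B φ R S → ∀ f : Fin r → ℂ, PicU B φ f →
  (∀ w : Fin r → ℂ, f ⬝ᵥ w = 0 → w ≠ 0 →
    0 < (hv (((th e ζ)⁻¹ • S).map (X.τ.comp φ)) w w).re) ∧
  ∃ w : Fin r → ℂ, (hv (((th e ζ)⁻¹ • S).map (X.τ.comp φ)) w w).re < 0

/-- **Iso**: isometric data give isomorphic complex structures. `T` and `U` are of Picard type, `T'` has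
the multiplication by `i` equal to `-i` in the coordinates of `φ`; `P` maps the forms to each other and
`(f, 0)` to `fU`. PROOF. `ψ` real linear with `zc (ψ v) = σ(P) (zc v.1, zc v.2)` (S_Zi). Complex linear:
let `J₁` (block of `T`, `-i` on `T'`) and `J₂ = σ(P)⁻¹ J_U σ(P)`. Both preserve the form
`Q(w, w') = wᵀ diag (S, θ a) conj w'` (`R (i u, i v) = R(u, v)`; `-i` preserves it), both are `-i` on
`ker (f, 0)` (for `J₂`: `z (f,0) = fU σ(P)`), and `(f,0) J = i (f,0)`. `ker (f,0)` is a hyperplane on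
which `Q / i` is positive definite (S_Sig, `a > 0`), so it has a complement `ℂ w₀ = ker^⊥`, `J` preserves
`ker`, so it preserves `ℂ w₀`: `J w₀ = λ w₀`, and `(f,0) w₀ ≠ 0` gives `λ = i`. So `J₁ = J₂`. -/
def S_Iso : Prop := S_Zi → S_Sig → ∀ (X : GF) (T T' U : AV) (E : Type) [Field E] [NumberField E]
  (n l r : ℕ) (B : Blk X T E n) (B' : Blk X T' E l) (BU : Blk X U E r) (e : ℤ) (ζ : E)
  (φ : E →+* X.K), IQ e E ζ → 0 < (X.τ (φ ζ)).im → ∀ (inv : E ≃+* E),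
  (∀ x, X.τ (φ (inv x)) = conj (X.τ (φ x))) →
  ∀ (R : T.V →ₗ[ℝ] T.V →ₗ[ℝ] ℝ) (RU : U.V →ₗ[ℝ] U.V →ₗ[ℝ] ℝ),
  (∀ v, v ≠ 0 → 0 < R (Complex.I • v) v) → (∀ u v, R (Complex.I • u) (Complex.I • v) = R u v) →
  (∀ v, v ≠ 0 → 0 < RU (Complex.I • v) v) →
  (∀ u v, RU (Complex.I • u) (Complex.I • v) = RU u v) →
  ∀ (S : Matrix (Fin n) (Fin n) E) (SU : Matrix (Fin r) (Fin r) E), IsFm B φ R S →
  IsFm BU φ RU SU → (∀ i j, inv (S i j) = -S j i) → (∀ i j, inv (SU i j) = -SU j i) →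
  ∀ (f : Fin n → ℂ) (fU : Fin r → ℂ), PicU B φ f → PicU BU φ fU →
  (∀ v, zc B' φ (Complex.I • v) = (-Complex.I) • zc B' φ v) →
  ∀ (P : Matrix (Fin r) (Fin n ⊕ Fin l) E) (P' : Matrix (Fin n ⊕ Fin l) (Fin r) E)
    (a : Fin l → ℚ) (c₀ : ℚ) (z : ℂ), P * P' = 1 → P' * P = 1 → 0 < c₀ → z ≠ 0 → (∀ i, 0 < a i) →
  Pᵀ * SU * P.map inv = (c₀ : E) • Matrix.fromBlocks S 0 0
    (Matrix.diagonal fun i => th e ζ * ((a i : ℚ) : E)) →
  (∀ i, ∑ k, fU k * X.τ (φ (P k (Sum.inl i))) = z * f i) →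
  (∀ i, ∑ k, fU k * X.τ (φ (P k (Sum.inr i))) = 0) →
  ∃ ψ : (T.V × T'.V) ≃ₗ[ℂ] U.V, ∀ v k, BU.b (φ, k) (ψ v) =
    ∑ i, X.τ (φ (P k (Sum.inl i))) * B.b (φ, i) v.1 +
      ∑ i, X.τ (φ (P k (Sum.inr i))) * B'.b (φ, i) v.2

/-- **Cmx**: CM abelian varieties with given signs (products of copies of `ℂ / O_E`). PROOF. SE/S5/CmC.lean
`blkC` with `Φ_i = {τ ∘ φ}` or `{τ ∘ c φ}` (`IsType`, the embeddings of `E` are these two), `cm1`, `tPex`,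
`isCMC`; `E` is a CM field. -/
def S_Cmx : Prop := ∀ (X : GF) (E : Type) [Field E] [NumberField E] (e : ℤ) (ζ : E)
  (φ : E →+* X.K), IQ e E ζ → 0 < (X.τ (φ ζ)).im → ∀ (r : ℕ) (ε : Fin r → Bool),
  ∃ (C : AV) (B : Blk X C E r), IsCM C ∧ B.Pure ∧
    ∀ i v, B.b (φ, i) (Complex.I • v) =
      (if ε i then Complex.I else -Complex.I) * B.b (φ, i) v

/-- **Del**: the traces. PROOF. In the coordinates (S_Zi) the multiplication by `i` is a matrix with the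
eigenvalue `i` once and `-i` `r - 1` times; at `c φ` the conjugate. -/
def S_Del : Prop := S_Zi → ∀ (X : GF) (T : AV) (E : Type) [Field E] [NumberField E] (r : ℕ)
  (B : Blk X T E r) (e : ℤ) (ζ : E) (φ : E →+* X.K), IQ e E ζ → 0 < (X.τ (φ ζ)).im →
  ∀ f : Fin r → ℂ, PicU B φ f →
  B.δ φ = Complex.I - (r - 1) * Complex.I ∧ B.δ (gl X.c φ) = -(Complex.I - (r - 1) * Complex.I)

/-- **Fac**: determinant classes of a factor. `u.T` is isogenous (compatibly with `E`, by the matrix `P`)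
to `t.T × T'`, `T'` of CM type. PROOF. With the tools of SE/S6 (`AM`): push the class of `u` to
`t.T × T' × C_u` (`ψ⁻¹` times an integer): it is a multiple of the wedge of `x_(φ,i)` (t), `x'_(φ,j)` (T'),
`y_(cφ,k)` (C_u), because the wedge of the `u.B.b.coord (φ, k)` is a multiple of the wedge of the
coordinates of `t.T × T'` (base change by `P`). The tuple `x'_(cφ,j)`, `y_(φ,k)`, `w_(cφ,i)` (`w` for
`C₀`) on `T' × C_u × C₀` is balanced: `δ_u = δ_t + δ_T'` (by `ψ`), `δ_(C_u) = δ_u`, `δ_(C₀) = δ_t`, so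
algebraic (CMbal, HodgeCM). Multiply and remove the pairs `x', x'` and `y, y` by divisors (`AM.cap_all`).
-/
def S_Fac : Prop := HodgeCM → ∀ (Q : (T : AV) → (m : ℕ) → Hlg T m → Prop), Cl Q →
  ∀ (X : GF) (t u : Tp X) (ε : t.E ≃+* u.E) (T' : AV) (l : ℕ) (B' : Blk X T' t.E l) (C₀ : AV)
    (B₀ : Blk X C₀ t.E t.r), IsCM T' → B'.Pure → IsCM C₀ → B₀.Pure → (∀ φ, t.B.δ φ = B₀.δ φ) →
  ∀ (P : Matrix (Fin u.r) (Fin t.r ⊕ Fin l) t.E) (P' : Matrix (Fin t.r ⊕ Fin l) (Fin u.r) t.E)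
    (ψ : (t.T.V × T'.V) ≃ₗ[ℂ] u.T.V), P * P' = 1 → P' * P = 1 →
  (∀ (φ : t.E →+* X.K) v k, u.B.b (φ.comp (ε.symm : u.E →+* t.E), k) (ψ v) =
    ∑ i, X.τ (φ (P k (Sum.inl i))) * t.B.b (φ, i) v.1 +
      ∑ i, X.τ (φ (P k (Sum.inr i))) * B'.b (φ, i) v.2) →
  Nonempty (DA Q u) → Nonempty (DA Q t)

/-- **Jt** (helper76): the new Jacobian of `y ^ m = ∏ (x - s_j)`, `m = me e`, `re e + 1` points, with its
coordinates. `ζ₀ = ζ⁻¹` acts as `D.Z` at ... : `D.Z = ρ (inv ζ)`, `τ φ (inv ζ) = exp (- 2 π i / m)`, the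
character of `φ` is `u = m - 1`, its only form of the first kind is `∏ (x - s_j)^(-1/m) dx`. -/
def S_Jt : Prop := ∀ (X : GF) (E : Type) [Field E] [NumberField E] (e : ℤ) (ζ : E)
  (φ : E →+* X.K), IQ e E ζ → 0 < (X.τ (φ ζ)).im → ∀ (inv : E ≃+* E),
  (∀ x, X.τ (φ (inv x)) = conj (X.τ (φ x))) → ∀ s : Fin (re e + 1) → ℂ,
  (StrictMono fun j => (s j).im) →
  ∃ (U : AV) (D : New U (me e) s fun _ => 1) (B : Blk X U E (re e))
    (R : U.V →ₗ[ℝ] U.V →ₗ[ℝ] ℝ) (c₁ : ℚ), IsPol U D.Z R ∧ (B.ρ (inv ζ) = D.Z) ∧ 0 < c₁ ∧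
    IsFm B φ R ((c₁ : E) • th e ζ • HJ e ζ) ∧
    PicU B φ fun k => per (muP e) s k.castSucc

/-- **THE TARGET of P5**: determinant classes for types of Picard type. PROOF. `X.K` contains
`φ(t.E)`. S_Mat: `S`, `H = θ⁻¹ S`, S_Sig, S_G with `n = t.r`, `l = re e - n`; S_Jt for `s`; `SU = c₁ θ HJ`, so
`Pᵀ SU conj P = c₁ c₀ θ diag (H, a)`: S_Iso with `c₀ c₁`. S_Cmx for `T'` (all signs `-`) and `C₀` (signs
`+, -, …, -`), S_Del. S_DA gives a type `u'` with `u'.T = U` and `DA`; S_Fac (with `T'` of rank 0) moves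
`DA` to the type `u` of `(U, B)`, then S_Fac for `t`, `u`. -/
def S_PDA : Prop := ∀ (X : GF) (t : Tp X) (e : ℤ) (ζ : t.E) (φ : t.E →+* X.K) (f : Fin t.r → ℂ),
  IQ e t.E ζ → 0 < (X.τ (φ ζ)).im → 0 < t.r → t.r < re e → PicU t.B φ f →
  Nonempty (DA @Alg2 t)

end SEP
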