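import Pool.Agent.Lib.SE.P.SpecH
import Pool.Agent.Lib.SE.P.SpecQ
import Pool.Agent.Lib.SE.J.A1
import Pool.Agent.Lib.SE.J.A2
import Pool.Agent.Lib.SE.J.B1
import Pool.Agent.Lib.SE.J.B2
import Pool.Agent.Lib.SE.J.C1
import Pool.Agent.Lib.SE.J.C2
import Pool.Agent.Lib.SE.J.C3
import Pool.Agent.Lib.SE.J.C4
import Pool.Agent.Lib.SE.J.C5
import Pool.Agent.Lib.SE.J.D1
import Pool.Agent.Lib.SE.J.D2
import Pool.Agent.Lib.SE.J.D3
import Pool.Agent.Lib.SE.J.D4
import Pool.Agent.Lib.SE.J.E1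
import Pool.Agent.Lib.SE.J.E2
import Pool.Agent.Lib.SE.J.E3
import Pool.Agent.Lib.SE.J.E5
import Pool.Agent.Lib.SE.J.N2

/-!
# PROJECT SE-P: the matrix statement `S_G` (helper85)

`tG`: from P2 (with H8-H11), the conclusion of P3j and P4. The period relations come from SE/J
(E1, E2, E3, E5, N2).
-/

set_option autoImplicit false

open MeasureTheory Filter Topology SEJ HC HC.SE SE
open scoped ComplexConjugate Matrix

noncomputable section

namespace SEP

/-! ## hermitian forms -/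

section hvl
variable {n : ℕ} (H : Matrix (Fin n) (Fin n) ℂ)

theorem G_hv_add (w₁ w₂ w : Fin n → ℂ) : hv H (w₁ + w₂) w = hv H w₁ w + hv H w₂ w := by
  simp [hv, add_dotProduct]

theorem G_hv_add' (w w₁ w₂ : Fin n → ℂ) : hv H w (w₁ + w₂) = hv H w w₁ + hv H w w₂ := by
  simp [hv, star_add, Matrix.mulVec_add, dotProduct_add]

theorem G_hv_smul (c : ℂ) (w w' : Fin n → ℂ) : hv H (c • w) w' = c * hv H w w' := by
  simp [hv, smul_dotProduct]

theorem G_hv_smul' (c : ℂ) (w w' : Fin n → ℂ) : hv H w (c • w') = conj c * hv H w w' := by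
  simp [hv, star_smul, Matrix.mulVec_smul, dotProduct_smul]

variable {H}

theorem G_hv_conj (hH : ∀ i j, conj (H i j) = H j i) (w w' : Fin n → ℂ) :
    conj (hv H w w') = hv H w' w := by
  simp only [hv, dotProduct, Matrix.mulVec, map_sum, map_mul, Finset.mul_sum, hH, Pi.star_apply,
    RCLike.star_def, Complex.conj_conj]
  rw [Finset.sum_comm]
  refine Finset.sum_congr rfl fun i _ => Finset.sum_congr rfl fun j _ => ?_
  ring

variable (hH : ∀ i j, conj (H i j) = H j i) {f : Fin n → ℂ}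
  (hp : ∀ w, f ⬝ᵥ w = 0 → w ≠ 0 → 0 < (hv H w w).re) (hn : ∃ w, (hv H w w).re < 0)
include hH hp hn

theorem G_key (u : Fin n → ℂ) (h1 : ∀ w, f ⬝ᵥ w = 0 → hv H w u = 0) (h2 : f ⬝ᵥ u ≠ 0) :
    (hv H u u).re < 0 := by
  by_contra h3
  rw [not_lt] at h3
  obtain ⟨w, hw⟩ := hn
  obtain ⟨t, ht⟩ : ∃ t : ℂ, t = f ⬝ᵥ w / f ⬝ᵥ u := ⟨_, rfl⟩
  obtain ⟨w', hw'⟩ : ∃ w', w' = w - t • u := ⟨_, rfl⟩
  have h4 : f ⬝ᵥ w' = 0 := by
    rw [hw', dotProduct_sub, dotProduct_smul, ht, smul_eq_mul, div_mul_cancel₀ _ h2, sub_self]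
  have h5 : w = t • u + w' := by
    rw [hw']; abel
  have h6 : hv H u w' = 0 := by
    rw [← G_hv_conj hH, h1 w' h4, map_zero]
  have h7 : hv H w w = (t * conj t) * hv H u u + hv H w' w' := by
    rw [h5, G_hv_add, G_hv_add', G_hv_add', G_hv_smul, G_hv_smul', G_hv_smul, h6, G_hv_smul', h1 w' h4]
    ring
  have h8 : 0 ≤ (hv H w' w').re := by
    by_cases h9 : w' = 0
    · rw [h9]; simp [hv]
    · exact (hp w' h4 h9).le
  have h9 : (hv H w w).re = Complex.normSq t * (hv H u u).re + (hv H w' w').re := by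
    rw [h7, Complex.add_re, Complex.mul_conj, Complex.re_ofReal_mul]
  have h10 := mul_nonneg (Complex.normSq_nonneg t) h3
  linarith

theorem G_sig (hf : f ≠ 0) : H.det ≠ 0 ∧ ∃ v, H.mulVec (star v) = f ∧ (f ⬝ᵥ v).re < 0 ∧
    ∀ w, hv H w v = f ⬝ᵥ w := by
  have h1 : H.det ≠ 0 := by
    intro h
    obtain ⟨x, hx, hx0⟩ := Matrix.exists_mulVec_eq_zero_iff.2 h
    have h2 : ∀ w, hv H w (star x) = 0 := fun w => by
      rw [hv, star_star, hx0, dotProduct_zero]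
    have h3 : f ⬝ᵥ star x ≠ 0 := fun h3 => by
      have := hp (star x) h3 (fun h => hx (by rw [← star_star x, h, star_zero]))
      rw [h2, Complex.zero_re] at this
      exact lt_irrefl _ this
    have h4 := G_key hH hp hn (star x) (fun w _ => h2 w) h3
    rw [h2, Complex.zero_re] at h4
    exact lt_irrefl _ h4
  refine ⟨h1, star (H⁻¹.mulVec f), ?_⟩
  have h2 : H.mulVec (star (star (H⁻¹.mulVec f))) = f := by
    rw [star_star, Matrix.mulVec_mulVec, Matrix.mul_nonsing_inv _ (isUnit_iff_ne_zero.2 h1),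
      Matrix.one_mulVec]
  generalize star (H⁻¹.mulVec f) = v at h2
  have h3 : ∀ w, hv H w v = f ⬝ᵥ w := fun w => by rw [hv, h2, dotProduct_comm]
  have h4 : f ⬝ᵥ v ≠ 0 := fun h4 => by
    have h5 : v ≠ 0 := fun h5 => hf (by rw [← h2, h5, star_zero, Matrix.mulVec_zero])
    have := hp v h4 h5
    rw [h3, h4, Complex.zero_re] at this
    exact lt_irrefl _ this
  refine ⟨h2, ?_, h3⟩
  rw [← h3]
  exact G_key hH hp hn v (fun w hw => by rw [h3, hw]) h4

end hvl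

/-! ## Step 1 -/

theorem G_cT_mul {e : ℤ} {E : Type} [Field E] (q : QF e E) {ι κ ν : Type} [Fintype κ]
    (A : Matrix ι κ E) (B : Matrix κ ν E) : q.cT (A * B) = q.cT B * q.cT A := by
  simp only [QF.cT]
  rw [← Matrix.transpose_mul]
  congr 1
  exact Matrix.map_mul

theorem G_cT_one {e : ℤ} {E : Type} [Field E] (q : QF e E) {ι : Type} [DecidableEq ι] :
    q.cT (1 : Matrix ι ι E) = 1 := by
  simp only [QF.cT]
  rw [Matrix.map_one _ (map_zero q.inv) (map_one q.inv), Matrix.transpose_one]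

theorem G_step1 {e : ℤ} {E : Type} [Field E] (q : QF e E) (hP2 : S_P2) (h11 : S_H11)
    (N n l : ℕ) (hn : n + l = N + 1) (hl : 1 ≤ l) (hI : q.Iso (D0 E N) (q.HN (N + 1)))
    (H : Matrix (Fin n) (Fin n) E) (hH : q.cT H = H) (hd : H.det ≠ 0) (hs : q.Sig Hᵀ) :
    ∃ a : Fin l → ℚ, (∀ i, 0 < a i) ∧ ∃ (P : Matrix (Fin (N + 1)) (Fin n ⊕ Fin l) E)
      (P' : Matrix (Fin n ⊕ Fin l) (Fin (N + 1)) E), P * P' = 1 ∧ P' * P = 1 ∧
      Pᵀ * ((q.HN (N + 1))⁻¹)ᵀ * P.map q.inv = Matrix.fromBlocks H 0 0 (dg E a) := by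
  have hHt : q.cT Hᵀ = Hᵀ := by
    have h0 : (H.map q.inv)ᵀ = H := hH
    have h1 := congrArg Matrix.transpose h0
    rw [Matrix.transpose_transpose] at h1
    rw [QF.cT, Matrix.transpose_map, Matrix.transpose_transpose, h1]
  obtain ⟨a, ha, R, R', hR1, hR2, hR⟩ := hP2 q N n l hn hl Hᵀ hHt (by rwa [Matrix.det_transpose]) hs
  obtain ⟨-, ⟨Q, Q', hQ1, hQ2, hQ⟩, -, -, -⟩ := h11 q N (q.HN (N + 1)) hI
  refine ⟨a, ha, Q' * R, R' * Q, ?_, ?_, ?_⟩
  · rw [Matrix.mul_assoc, ← Matrix.mul_assoc R, hR1, Matrix.one_mul, hQ2]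
  · rw [Matrix.mul_assoc, ← Matrix.mul_assoc Q, hQ1, Matrix.one_mul, hR2]
  · have h1 : q.cT (Q' * R) * (q.HN (N + 1))⁻¹ * (Q' * R) = Matrix.fromBlocks Hᵀ 0 0 (dg E a) := by
      have h2 : q.cT Q' * q.cT Q = 1 := by
        rw [← G_cT_mul, hQ1, G_cT_one]
      calc q.cT (Q' * R) * (q.HN (N + 1))⁻¹ * (Q' * R)
          = q.cT R * (q.cT Q' * q.cT Q) * D0 E N * (Q * Q') * R := by
            rw [← hQ, G_cT_mul]
            simp only [Matrix.mul_assoc]
        _ = q.cT R * D0 E N * R := by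
            rw [h2, hQ1, Matrix.mul_one, Matrix.mul_one]
        _ = _ := hR
    generalize Q' * R = S at h1 ⊢
    have h3 := congrArg Matrix.transpose h1
    rw [Matrix.transpose_mul, Matrix.transpose_mul, Matrix.fromBlocks_transpose,
      Matrix.transpose_transpose, ← Matrix.mul_assoc] at h3
    have h4 : (dg E a)ᵀ = dg E a := by
      rw [dg, Matrix.diagonal_transpose]
    rw [h4, Matrix.transpose_zero, Matrix.transpose_zero] at h3
    rw [← h3, QF.cT, Matrix.transpose_transpose]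



/-! ## The bilinear relations for the form `xi` -/

theorem G_frm_one {k : ℕ} (s : Fin k → ℂ) (μ : Fin k → ℝ) : frm s μ 1 = xi s μ := by
  funext x; simp [frm]

theorem G_good {k : ℕ} {s : Fin k → ℂ} {μ : Fin k → ℝ} (hμ : Mu μ)
    (hs : StrictMono fun j => (s j).im) : Good s μ 1 where
  im := hs
  pos := hμ.pos
  lt := hμ.lt
  deg := fun i hi => by
    have : i = 0 := by
      by_contra h
      exact hi (by rw [Polynomial.coeff_one, if_neg h])
    rw [this, Nat.cast_zero, zero_add]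
    exact hμ.one

theorem G_rel {k : ℕ} (μ : Fin k → ℝ) (s : Fin k → ℂ) (hμ : Mu μ)
    (hs : StrictMono fun j => (s j).im) : ∑ j, (1 - lam μ j) * per μ s j = 0 := by
  have := tE1 tA1 tA2 tB1 tB2 tC1 tC2 tC3 tC4 tC5 s μ 1 (G_good hμ hs)
  rwa [G_frm_one] at this

theorem G_lam_conj {k : ℕ} (μ : Fin k → ℝ) (j : Fin k) : conj (lam μ j) = (lam μ j)⁻¹ := by
  rw [lam, ← Complex.exp_conj, ← Complex.exp_neg]
  congr 1
  simp only [map_mul, Complex.conj_I, Complex.conj_ofReal, map_ofNat]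
  ring

theorem G_lam_ne {k : ℕ} (μ : Fin k → ℝ) (j : Fin k) : lam μ j ≠ 0 := Complex.exp_ne_zero _

theorem G_neg {r : ℕ} (μ : Fin (r + 1) → ℝ) (s : Fin (r + 1) → ℂ) (hμ : Mu μ)
    (hs : StrictMono fun j => (s j).im) (h1 : ∀ j, lam μ j ≠ 1) :
    ∃ ρ : ℝ, 0 < ρ ∧ ∑ l : Fin r, ∑ j : Fin r,
      per μ s l.castSucc * Nm (lam μ) l j * conj (per μ s j.castSucc) = 2 * Complex.I * ρ := by
  have hg := G_good hμ hs
  obtain ⟨-, h2⟩ := tE5 tA1 tC1 tC2 s μ 1 hg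
  refine ⟨_, h2 one_ne_zero, ?_⟩
  have h3 := tE3 tA1 tA2 tB1 tB2 tC1 tC2 tC3 tC4 tC5 tD1 tD2 tD3 tD4 s μ 1 1 hg hg
  have h4 := tE2 tA1 tA2 tB1 tB2 tC1 tC2 tC3 tC4 tC5 s μ 1 hg
  have h5 : ∑ j, (1 - (lam μ j)⁻¹) * conj (per μ s j) = 0 := by
    have h6 := congrArg conj (G_rel μ s hμ hs)
    rw [map_sum, map_zero] at h6
    rw [← h6]
    refine Finset.sum_congr rfl fun j _ => ?_
    rw [map_mul, map_sub, map_one, G_lam_conj]
  have h7 := tN2 (lam μ) (per μ s) (fun j => conj (per μ s j)) (G_lam_ne μ) h1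
    (G_rel μ s hμ hs) h5
  rw [← h7]
  rw [G_frm_one] at h3 h4
  have h8 : ∫ x : ℂ, xi s μ x * conj (xi s μ x) = ((∫ x : ℂ, ‖frm s μ 1 x‖ ^ 2 : ℝ) : ℂ) := by
    rw [← integral_complex_ofReal]
    refine integral_congr_ae (ae_of_all _ fun x => ?_)
    simp only [G_frm_one]
    rw [Complex.mul_conj, Complex.normSq_eq_norm_sq]
  rw [← h8, h3]
  congr 1
  refine Finset.sum_congr rfl fun j _ => ?_
  rw [h4]
  rfl



/-! ## The field `σ(E)` -/

theorem G_dense {E : Type} [Field E] (σ : E →+* ℂ) (ζ : E) (h : 0 < (σ ζ).im) :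
    Dense (σ.fieldRange : Set ℂ) := by
  have h1 := Complex.subfield_eq_of_closed (Subfield.isClosed_topologicalClosure σ.fieldRange)
  have h2 : σ ζ ∈ σ.fieldRange.topologicalClosure :=
    Subfield.le_topologicalClosure _ ⟨ζ, rfl⟩
  rcases h1 with h1 | h1
  · rw [h1] at h2
    obtain ⟨x, hx⟩ := h2
    exfalso
    rw [← hx] at h
    simp at h
  · rw [dense_iff_closure_eq]
    have h3 : ((σ.fieldRange.topologicalClosure : Subfield ℂ) : Set ℂ) = Set.univ := by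
      rw [h1]; rfl
    exact h3

/-! ## The periods fill an open set of `ℂ^r` -/

theorem G_sm {k : ℕ} (β : Fin k → ℝ) (hβ : StrictMono β) :
    {s : Fin k → ℂ | StrictMono fun j => (s j).im} ∈ 𝓝 (fun j => Complex.I * (β j : ℂ)) := by
  have h1 : ∀ i j : Fin k, i < j → ∀ᶠ s : Fin k → ℂ in 𝓝 (fun j => Complex.I * (β j : ℂ)),
      (s i).im < (s j).im := by
    intro i j hij
    have h2 : Continuous fun s : Fin k → ℂ => (s i).im := Complex.continuous_im.comp (continuous_apply i)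
    have h3 : Continuous fun s : Fin k → ℂ => (s j).im := Complex.continuous_im.comp (continuous_apply j)
    refine h2.continuousAt.eventually_lt h3.continuousAt ?_
    simpa using hβ hij
  have h4 : ∀ᶠ s : Fin k → ℂ in 𝓝 (fun j => Complex.I * (β j : ℂ)), ∀ i j : Fin k, i < j →
      (s i).im < (s j).im := by
    rw [Filter.eventually_all]
    intro i
    rw [Filter.eventually_all]
    intro j
    by_cases hij : i < j
    · exact (h1 i j hij).mono fun s hs _ => hs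
    · exact Filter.Eventually.of_forall fun s h => absurd h hij
  filter_upwards [h4] with s hs
  exact fun i j hij => hs i j hij

/-- the point with the coordinates `t` and the last coordinate `- ∑ t_k` -/
def G_ext {r : ℕ} (t : Fin r → ℂ) (j : Fin (r + 1)) : ℂ :=
  Fin.lastCases (motive := fun _ => ℂ) (-∑ k, t k) (fun k => t k) j

theorem G_ext_cast {r : ℕ} (t : Fin r → ℂ) (k : Fin r) : G_ext t k.castSucc = t k := by
  rw [G_ext, Fin.lastCases_castSucc]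

theorem G_ext_last {r : ℕ} (t : Fin r → ℂ) : G_ext t (Fin.last r) = -∑ k, t k := by
  rw [G_ext, Fin.lastCases_last]

theorem G_ext_cont {r : ℕ} : Continuous (G_ext : (Fin r → ℂ) → Fin (r + 1) → ℂ) := by
  refine continuous_pi fun j => ?_
  refine Fin.lastCases ?_ (fun k => ?_) j
  · simp only [G_ext_last]
    exact (continuous_finsetSum _ fun k _ => continuous_apply k).neg
  · simp only [G_ext_cast]
    exact continuous_apply k

theorem G_open
    (hP3 : ∀ {k : ℕ} (μ β : Fin k → ℝ), Mu μ → StrictMono β →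
      ∀ A ∈ 𝓝 (fun j => Complex.I * (β j : ℂ)), (fun s j => per μ s j) '' A ∈
        𝓝[{t : Fin k → ℂ | ∑ j, (1 - lam μ j) * t j = 0}]
          (fun j => per μ (fun j => Complex.I * (β j : ℂ)) j))
    {r : ℕ} (μ β : Fin (r + 1) → ℝ) (hμ : Mu μ) (hβ : StrictMono β) (l₀ : ℂ)
    (hl : ∀ j, lam μ j = l₀) (hl1 : l₀ ≠ 1) :
    ∃ U ∈ 𝓝 (fun k : Fin r => per μ (fun j => Complex.I * (β j : ℂ)) k.castSucc),
      ∀ t ∈ U, ∃ s : Fin (r + 1) → ℂ, (StrictMono fun j => (s j).im) ∧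
        ∀ k : Fin r, per μ s k.castSucc = t k := by
  have h1 := hP3 μ β hμ hβ _ (G_sm β hβ)
  rw [mem_nhdsWithin_iff_exists_mem_nhds_inter] at h1
  obtain ⟨V, hV, hVA⟩ := h1
  have hs0 : StrictMono fun j => ((fun j => Complex.I * (β j : ℂ)) j : ℂ).im := by
    intro i j hij
    simpa using hβ hij
  have hrel := G_rel μ (fun j => Complex.I * (β j : ℂ)) hμ hs0
  have h2 : G_ext (fun k : Fin r => per μ (fun j => Complex.I * (β j : ℂ)) k.castSucc) =
      fun j => per μ (fun j => Complex.I * (β j : ℂ)) j := by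
    funext j
    refine Fin.lastCases ?_ (fun k => ?_) j
    · rw [G_ext_last]
      simp only [hl] at hrel
      rw [← Finset.mul_sum, Fin.sum_univ_castSucc] at hrel
      have h3 := (mul_eq_zero.1 hrel).resolve_left (sub_ne_zero.2 (Ne.symm hl1))
      rw [neg_eq_iff_add_eq_zero]
      exact h3
    · rw [G_ext_cast]
  refine ⟨G_ext ⁻¹' V, ?_, ?_⟩
  · apply G_ext_cont.continuousAt
    rw [h2]
    exact hV
  · intro t ht
    have h3 : G_ext t ∈ {t : Fin (r + 1) → ℂ | ∑ j, (1 - lam μ j) * t j = 0} := by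
      rw [Set.mem_ofPred_eq]
      simp only [hl]
      rw [← Finset.mul_sum, Fin.sum_univ_castSucc, G_ext_last]
      simp only [G_ext_cast]
      rw [add_neg_cancel, mul_zero]
    obtain ⟨s, hs, hst⟩ := hVA ⟨ht, h3⟩
    refine ⟨s, hs, fun k => ?_⟩
    rw [← G_ext_cast t k, ← hst]

/-! ## The core -/

section core
variable {r : ℕ} {ι : Type} [Fintype ι] [DecidableEq ι] {E : Type} [Field E]

omit [DecidableEq ι] in
theorem G_map_mul {κ ν : Type} (σ : E →+* ℂ) (A : Matrix κ ι E) (B : Matrix ι ν E) :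
    (A * B).map σ = A.map σ * B.map σ := Matrix.map_mul

omit [DecidableEq ι] in
theorem G_map_mul' {κ ν : Type} (σ : E ≃+* E) (A : Matrix κ ι E) (B : Matrix ι ν E) :
    (A * B).map σ = A.map σ * B.map σ := Matrix.map_mul

theorem G_core (hP4 : S_P4)
    (hP3 : ∀ {k : ℕ} (μ β : Fin k → ℝ), Mu μ → StrictMono β →
      ∀ A ∈ 𝓝 (fun j => Complex.I * (β j : ℂ)), (fun s j => per μ s j) '' A ∈
        𝓝[{t : Fin k → ℂ | ∑ j, (1 - lam μ j) * t j = 0}]
          (fun j => per μ (fun j => Complex.I * (β j : ℂ)) j))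
    (ζ θ : E) (inv : E ≃+* E) (σ : E →+* ℂ) (hσ : ∀ x, σ (inv x) = conj (σ x))
    (him : 0 < (σ ζ).im) (κ : ℝ) (hκ : 0 < κ) (hθ : σ θ = Complex.I * κ)
    (B : Matrix (Fin r) (Fin r) E) (hB : B = θ • Nm (fun _ : Fin (r + 1) => ζ))
    (hBh : ∀ i j, inv (B i j) = B j i) (hBd : B.det ≠ 0) (μ : Fin (r + 1) → ℝ) (hμ : Mu μ)
    (hlam : ∀ j, lam μ j = σ ζ) (P₁ : Matrix (Fin r) ι E) (P₁' : Matrix ι (Fin r) E)
    (h1 : P₁ * P₁' = 1) (h2 : P₁' * P₁ = 1) (D : Matrix ι ι E)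
    (hD : P₁ᵀ * (B⁻¹)ᵀ * P₁.map inv = D) (f₀ x : ι → ℂ) (hx : (D.map σ).mulVec x = f₀)
    (hneg : (star f₀ ⬝ᵥ x).re < 0) :
    ∃ (s : Fin (r + 1) → ℂ) (P : Matrix (Fin r) ι E) (P' : Matrix ι (Fin r) E) (z : ℂ),
      (StrictMono fun j => (s j).im) ∧ P * P' = 1 ∧ P' * P = 1 ∧ z ≠ 0 ∧
      Pᵀ * (B⁻¹)ᵀ * P.map inv = D ∧
      ∀ i, ∑ k, per μ s k.castSucc * σ (P k i) = z * f₀ i := by
  have hBB : B * B⁻¹ = 1 := Matrix.mul_nonsing_inv _ (isUnit_iff_ne_zero.2 hBd)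
  have hBB' : B⁻¹ * B = 1 := Matrix.nonsing_inv_mul _ (isUnit_iff_ne_zero.2 hBd)
  have hBt : Bᵀ * (B⁻¹)ᵀ = 1 := by rw [← Matrix.transpose_mul, hBB', Matrix.transpose_one]
  have hBt' : (B⁻¹)ᵀ * Bᵀ = 1 := by rw [← Matrix.transpose_mul, hBB, Matrix.transpose_one]
  -- `F`
  obtain ⟨F, hF⟩ : ∃ F, F = ((P₁'.map σ)ᵀ).mulVec f₀ := ⟨_, rfl⟩
  have ha : ((P₁.map σ)ᵀ).mulVec F = f₀ := by
    rw [hF, Matrix.mulVec_mulVec, ← Matrix.transpose_mul, ← G_map_mul, h2,
      Matrix.map_one _ (map_zero σ) (map_one σ), Matrix.transpose_one, Matrix.one_mulVec]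
  have hb : ((Bᵀ).map σ).mulVec F = ((P₁.map inv).map σ).mulVec x := by
    have h3 : P₁.map inv = Bᵀ * P₁'ᵀ * D := by
      rw [← hD]
      calc P₁.map inv = (Bᵀ * ((P₁ * P₁')ᵀ) * (B⁻¹)ᵀ) * P₁.map inv := by
            rw [h1, Matrix.transpose_one, Matrix.mul_one, hBt, Matrix.one_mul]
        _ = _ := by
            rw [Matrix.transpose_mul]
            simp only [Matrix.mul_assoc]
    rw [h3, G_map_mul, G_map_mul, ← Matrix.mulVec_mulVec, hx, ← Matrix.mulVec_mulVec, hF]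
    rfl
  have hc : star F ⬝ᵥ ((Bᵀ).map σ).mulVec F = star f₀ ⬝ᵥ x := by
    rw [hb, Matrix.dotProduct_mulVec]
    congr 1
    funext j
    rw [← ha]
    simp only [Matrix.vecMul, dotProduct, Matrix.mulVec, Pi.star_apply, RCLike.star_def, map_sum,
      map_mul, Matrix.map_apply, Matrix.transpose_apply, hσ]
    refine Finset.sum_congr rfl fun i _ => ?_
    ring
  -- `p⁰`
  obtain ⟨β, hβ⟩ : ∃ β : Fin (r + 1) → ℝ, StrictMono β :=
    ⟨fun j => ((j : ℕ) : ℝ), fun i j hij => by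
      change ((i : ℕ) : ℝ) < ((j : ℕ) : ℝ)
      exact_mod_cast hij⟩
  have hs0 : StrictMono fun j => ((fun j => Complex.I * (β j : ℂ)) j : ℂ).im := by
    intro i j hij
    simpa using hβ hij
  have hl1 : σ ζ ≠ 1 := fun h => by rw [h] at him; simp at him
  obtain ⟨ρ, hρ, hp⟩ := G_neg μ (fun j => Complex.I * (β j : ℂ)) hμ hs0
    (fun j => by rw [hlam]; exact hl1)
  obtain ⟨U, hU, hUs⟩ := G_open hP3 μ β hμ hβ (σ ζ) hlam hl1
  obtain ⟨p, hpd⟩ : ∃ p : Fin r → ℂ, p = fun k => per μ (fun j => Complex.I * (β j : ℂ)) k.castSucc :=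
    ⟨_, rfl⟩
  rw [← hpd] at hU
  have hd : star p ⬝ᵥ ((Bᵀ).map σ).mulVec p = -(2 * κ * ρ : ℝ) := by
    have h3 : lam μ = fun _ => σ ζ := funext hlam
    have h4 : ∀ l j : Fin r, σ (Nm (fun _ : Fin (r + 1) => ζ) l j) =
        Nm (fun _ : Fin (r + 1) => σ ζ) l j := by
      intro l j
      simp only [Nm, map_mul, map_sub, map_one, map_inv₀]
      congr 2
      congr 1
      · split_ifs <;> simp
      · split_ifs <;> simp
    have h5 : star p ⬝ᵥ ((Bᵀ).map σ).mulVec p = σ θ * ∑ l : Fin r, ∑ j : Fin r,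
        p l * Nm (lam μ) l j * conj (p j) := by
      rw [h3, Finset.mul_sum]
      simp only [dotProduct, Matrix.mulVec, Pi.star_apply, RCLike.star_def, Matrix.map_apply,
        Matrix.transpose_apply, Finset.mul_sum]
      rw [Finset.sum_comm]
      refine Finset.sum_congr rfl fun l _ => Finset.sum_congr rfl fun j _ => ?_
      rw [hB, Matrix.smul_apply, smul_eq_mul, map_mul, h4]
      ring
    have h6 : ∑ l : Fin r, ∑ j : Fin r, p l * Nm (lam μ) l j * conj (p j) = 2 * Complex.I * ρ := by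
      rw [hpd]; exact hp
    rw [h5, h6, hθ]
    push_cast
    have := Complex.I_mul_I
    linear_combination (2 * (κ : ℂ) * ρ) * this
  -- P4
  have hHerm : ((Bᵀ).map σ).IsHermitian := by
    ext i j
    rw [Matrix.conjTranspose_apply, Matrix.map_apply, Matrix.map_apply, Matrix.transpose_apply,
      Matrix.transpose_apply, RCLike.star_def, ← hσ, hBh]
  have hdet : ((Bᵀ).map σ).det ≠ 0 := by
    have : ((Bᵀ).map σ).det = σ (Bᵀ).det := by
      rw [RingHom.map_det]; rfl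
    rw [this, Matrix.det_transpose]
    exact (map_ne_zero σ).2 hBd
  obtain ⟨g, hgF, hg, z, hz, hzU⟩ := hP4 σ.fieldRange (G_dense σ ζ him)
    (fun y hy => by
      obtain ⟨w, rfl⟩ := hy
      exact ⟨inv w, hσ w⟩) r ((Bᵀ).map σ) hHerm (fun i j => ⟨_, rfl⟩) hdet F p
    (by rw [hc]; exact hneg) (by
      rw [hd, ← Complex.ofReal_neg, Complex.ofReal_re]
      have := mul_pos hκ hρ
      linarith) U hU
  choose g₁ hg₁ using hgF
  have hg₁' : (Matrix.of g₁).map σ = g := by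
    ext i j
    exact hg₁ i j
  generalize Matrix.of g₁ = G at hg₁'
  -- over `E`
  have hinj : Function.Injective σ := σ.injective
  have hG : (G.map inv)ᵀ * Bᵀ * G = Bᵀ := by
    have h3 : ((G.map inv)ᵀ * Bᵀ * G).map σ = (Bᵀ).map σ := by
      rw [G_map_mul, G_map_mul, hg₁', ← hg]
      congr 2
      rw [← hg₁']
      ext i j
      rw [Matrix.map_apply, Matrix.transpose_apply, Matrix.map_apply, hσ,
        Matrix.conjTranspose_apply, Matrix.map_apply]
      rfl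
    exact Matrix.map_injective hinj h3
  obtain ⟨G', hG'⟩ : ∃ G', G' = (B⁻¹)ᵀ * (G.map inv)ᵀ * Bᵀ := ⟨_, rfl⟩
  have hG1 : G' * G = 1 := by
    rw [hG', Matrix.mul_assoc, Matrix.mul_assoc, ← Matrix.mul_assoc _ Bᵀ G, hG, hBt']
  have hG2 : G * G' = 1 := mul_eq_one_comm.1 hG1
  have hG3 : G' * (B⁻¹)ᵀ * (G'ᵀ).map inv = (B⁻¹)ᵀ := by
    have h3 : G' * (B⁻¹)ᵀ = (B⁻¹)ᵀ * (G.map inv)ᵀ := by
      rw [hG', Matrix.mul_assoc, hBt, Matrix.mul_one]
    rw [h3, Matrix.mul_assoc, ← Matrix.transpose_map, ← G_map_mul', ← Matrix.transpose_mul, hG1,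
      Matrix.transpose_one, Matrix.map_one _ (map_zero inv) (map_one inv), Matrix.mul_one]
  obtain ⟨s, hs, hst⟩ := hUs _ hzU
  refine ⟨s, G'ᵀ * P₁, P₁' * Gᵀ, z, hs, ?_, ?_, hz, ?_, ?_⟩
  · rw [Matrix.mul_assoc, ← Matrix.mul_assoc P₁, h1, Matrix.one_mul, ← Matrix.transpose_mul, hG2,
      Matrix.transpose_one]
  · rw [Matrix.mul_assoc, ← Matrix.mul_assoc Gᵀ, ← Matrix.transpose_mul, hG1,
      Matrix.transpose_one, Matrix.one_mul, h2]
  · rw [← hD, Matrix.transpose_mul, Matrix.transpose_transpose, G_map_mul']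
    calc P₁ᵀ * G' * (B⁻¹)ᵀ * ((G'ᵀ).map inv * P₁.map inv)
        = P₁ᵀ * (G' * (B⁻¹)ᵀ * (G'ᵀ).map inv) * P₁.map inv := by
          simp only [Matrix.mul_assoc]
      _ = _ := by rw [hG3]
  · intro i
    have h3 : (((G'ᵀ * P₁).map σ)ᵀ).mulVec (z • g.mulVec F) = z • f₀ := by
      rw [Matrix.mulVec_smul, Matrix.mulVec_mulVec, G_map_mul, ← hg₁']
      have h4 : ((G'ᵀ).map σ * P₁.map σ)ᵀ * G.map σ = (P₁.map σ)ᵀ := by
        rw [Matrix.transpose_mul, Matrix.mul_assoc]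
        have h5 : ((G'ᵀ).map σ)ᵀ * G.map σ = 1 := by
          have h6 : ((G'ᵀ).map σ)ᵀ = G'.map σ := by
            ext a b; rfl
          rw [h6, ← G_map_mul, hG1, Matrix.map_one _ (map_zero σ) (map_one σ)]
        rw [h5, Matrix.mul_one]
      rw [h4, ha]
    have h7 := congrFun h3 i
    rw [Pi.smul_apply, smul_eq_mul] at h7
    rw [← h7]
    simp only [Matrix.mulVec, dotProduct, Matrix.transpose_apply, Matrix.map_apply]
    refine Finset.sum_congr rfl fun k _ => ?_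
    rw [hst k, mul_comm]

end core

/-! ## The final step for one `e` -/

theorem G_fin (hP2 : S_P2) (h11 : S_H11) (hP4 : S_P4)
    (hP3 : ∀ {k : ℕ} (μ β : Fin k → ℝ), Mu μ → StrictMono β →
      ∀ A ∈ 𝓝 (fun j => Complex.I * (β j : ℂ)), (fun s j => per μ s j) '' A ∈
        𝓝[{t : Fin k → ℂ | ∑ j, (1 - lam μ j) * t j = 0}]
          (fun j => per μ (fun j => Complex.I * (β j : ℂ)) j))
    {e : ℤ} {E : Type} [Field E] (q : QF e E) (ζ θ : E) (him : 0 < (q.σ ζ).im)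
    (κ : ℝ) (hκ : 0 < κ) (hθ : q.σ θ = Complex.I * κ) (N : ℕ) (c : ℚ) (hc : 0 < c)
    (hHN : θ • Nm (fun _ : Fin (N + 1 + 1) => ζ) = (c : E) • q.HN (N + 1))
    (hIso : q.Iso (D0 E N) (q.HN (N + 1))) (μ : Fin (N + 1 + 1) → ℝ) (hμ : Mu μ)
    (hlam : ∀ j, lam μ j = q.σ ζ) (n l : ℕ) (hl : 0 < l) (hnl : n + l = N + 1)
    (H : Matrix (Fin n) (Fin n) E) (hH : ∀ i j, q.inv (H i j) = H j i) (f : Fin n → ℂ)
    (hf : f ≠ 0) (hp : ∀ w : Fin n → ℂ, f ⬝ᵥ w = 0 → w ≠ 0 → 0 < (hv (H.map q.σ) w w).re)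
    (hn : ∃ w : Fin n → ℂ, (hv (H.map q.σ) w w).re < 0) :
    ∃ (a : Fin l → ℚ) (s : Fin (N + 1 + 1) → ℂ) (P : Matrix (Fin (N + 1)) (Fin n ⊕ Fin l) E)
      (P' : Matrix (Fin n ⊕ Fin l) (Fin (N + 1)) E) (c₀ : ℚ) (z : ℂ), (∀ i, 0 < a i) ∧
      (StrictMono fun j => (s j).im) ∧ P * P' = 1 ∧ P' * P = 1 ∧ 0 < c₀ ∧ z ≠ 0 ∧
      Pᵀ * (θ⁻¹ • ((Nm (fun _ : Fin (N + 1 + 1) => ζ))⁻¹)ᵀ) * P.map q.inv =
        (c₀ : E) • Matrix.fromBlocks H 0 0 (Matrix.diagonal fun i => ((a i : ℚ) : E)) ∧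
      (∀ i, ∑ k, per μ s k.castSucc * q.σ (P k (Sum.inl i)) = z * f i) ∧
      ∀ i, ∑ k, per μ s k.castSucc * q.σ (P k (Sum.inr i)) = 0 := by
  have : CharZero E := q.σ.charZero
  have hHc : ∀ i j, conj ((H.map q.σ) i j) = (H.map q.σ) j i := fun i j => by
    rw [Matrix.map_apply, Matrix.map_apply, ← q.hσ, hH]
  obtain ⟨hd, v, hv1, hv2, hv3⟩ := G_sig hHc hp hn hf
  have hd' : H.det ≠ 0 := by
    intro h
    apply hd
    have h1 : (H.map q.σ).det = q.σ H.det := by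
      rw [RingHom.map_det]; rfl
    rw [h1, h, map_zero]
  have hHcT : q.cT H = H := by
    ext i j
    exact hH j i
  have hcT0 : ∀ v w : Fin n → ℂ, star v ⬝ᵥ ((Hᵀ).map q.σ).mulVec w = hv (H.map q.σ) w v := by
    intro v w
    simp only [hv, dotProduct, Matrix.mulVec, Matrix.map_apply, Matrix.transpose_apply,
      Finset.mul_sum]
    rw [Finset.sum_comm]
    refine Finset.sum_congr rfl fun i _ => Finset.sum_congr rfl fun j _ => ?_
    ring
  have hs : q.Sig Hᵀ := by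
    refine ⟨v, ?_, fun w hw hw2 => ?_⟩
    · rw [hcT0, hv3]; exact hv2
    · rw [hcT0, hv3] at hw2
      rw [hcT0]
      exact hp w hw2 hw
  obtain ⟨a, ha, P₁, P₁', hP1, hP2, hP3'⟩ := G_step1 q hP2 h11 N n l hnl hl hIso H hHcT hd' hs
  obtain ⟨-, -, -, hu, hHNc⟩ := h11 q N (q.HN (N + 1)) hIso
  have hc0 : (c : E) ≠ 0 := by exact_mod_cast hc.ne'
  obtain ⟨B, hB⟩ : ∃ B : Matrix (Fin (N + 1)) (Fin (N + 1)) E,
    B = θ • Nm (fun _ : Fin (N + 1 + 1) => ζ) := ⟨_, rfl⟩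
  have hBd : B.det ≠ 0 := by
    rw [hB, hHN, Matrix.det_smul]
    exact mul_ne_zero (pow_ne_zero _ hc0) hu.ne_zero
  have hθ0 : θ ≠ 0 := by
    rintro rfl
    rw [map_zero] at hθ
    have := congrArg Complex.im hθ
    simp at this
    exact hκ.ne this
  have hNd : IsUnit (Nm (fun _ : Fin (N + 1 + 1) => ζ)).det := by
    rw [isUnit_iff_ne_zero]
    intro h
    apply hBd
    rw [hB, Matrix.det_smul, h, mul_zero]
  have hBinv : B⁻¹ = θ⁻¹ • (Nm (fun _ : Fin (N + 1 + 1) => ζ))⁻¹ := by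
    apply Matrix.inv_eq_right_inv
    rw [hB, Matrix.smul_mul, Matrix.mul_smul, smul_smul, mul_inv_cancel₀ hθ0, one_smul,
      Matrix.mul_nonsing_inv _ hNd]
  have hBinv' : B⁻¹ = (c : E)⁻¹ • (q.HN (N + 1))⁻¹ := by
    apply Matrix.inv_eq_right_inv
    rw [hB, hHN, Matrix.smul_mul, Matrix.mul_smul, smul_smul, mul_inv_cancel₀ hc0, one_smul,
      Matrix.mul_nonsing_inv _ hu]
  have hBh : ∀ i j, q.inv (B i j) = B j i := by
    intro i j
    rw [hB, hHN, Matrix.smul_apply, Matrix.smul_apply, smul_eq_mul, smul_eq_mul, map_mul,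
      map_ratCast]
    congr 1
    exact congrFun (congrFun hHNc j) i
  have hD : P₁ᵀ * (B⁻¹)ᵀ * P₁.map q.inv = (((c⁻¹ : ℚ) : E)) •
      Matrix.fromBlocks H 0 0 (dg E a) := by
    rw [hBinv', Matrix.transpose_smul, Matrix.mul_smul, Matrix.smul_mul, hP3', Rat.cast_inv]
  have hfx : ((((c⁻¹ : ℚ) : E) • Matrix.fromBlocks H 0 0 (dg E a)).map q.σ).mulVec
      ((c : ℂ) • Sum.elim (star v) 0) = Sum.elim f 0 := by
    have h1 : (((c⁻¹ : ℚ) : E) • Matrix.fromBlocks H 0 0 (dg E a)).map q.σ =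
        (((c⁻¹ : ℚ) : ℂ)) • Matrix.fromBlocks (H.map q.σ) 0 0 ((dg E a).map q.σ) := by
      ext i j
      rcases i with i | i <;> rcases j with j | j <;>
        simp [Matrix.fromBlocks]
    have hc1 : (c : ℂ) ≠ 0 := by exact_mod_cast hc.ne'
    rw [h1, Matrix.smul_mulVec, Matrix.mulVec_smul, smul_smul, Rat.cast_inv, inv_mul_cancel₀ hc1,
      one_smul, Matrix.fromBlocks_mulVec]
    simp [hv1]
  have hneg : (star (Sum.elim f 0 : Fin n ⊕ Fin l → ℂ) ⬝ᵥ
      ((c : ℂ) • Sum.elim (star v) 0)).re < 0 := by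
    have h1 : star (Sum.elim f 0 : Fin n ⊕ Fin l → ℂ) ⬝ᵥ ((c : ℂ) • Sum.elim (star v) 0) =
        (c : ℂ) * conj (f ⬝ᵥ v) := by
      rw [dotProduct_smul, smul_eq_mul]
      congr 1
      simp only [dotProduct, Fintype.sum_sum_type, Pi.star_apply, Sum.elim_inl, Sum.elim_inr,
        Pi.zero_apply, mul_zero, Finset.sum_const_zero, add_zero, map_sum, map_mul]
      rfl
    rw [h1]
    have h2 : ((c : ℂ) * conj (f ⬝ᵥ v)).re = (c : ℝ) * (f ⬝ᵥ v).re := by
      rw [show (c : ℂ) = ((c : ℝ) : ℂ) by push_cast; rfl, Complex.re_ofReal_mul, Complex.conj_re]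
    rw [h2]
    exact mul_neg_of_pos_of_neg (by exact_mod_cast hc) hv2
  obtain ⟨s, P, P', z, hs1, hPP, hPP', hz, hPD, hper⟩ := G_core hP4 hP3 ζ θ q.inv q.σ q.hσ him κ hκ
    hθ B hB hBh hBd μ hμ hlam P₁ P₁' hP1 hP2 _ hD (Sum.elim f 0) _ hfx hneg
  refine ⟨a, s, P, P', c⁻¹, z, ha, hs1, hPP, hPP', inv_pos.2 hc, hz, ?_, fun i => ?_, fun i => ?_⟩
  · rw [← Matrix.transpose_smul, ← hBinv]
    exact hPD
  · exact hper (Sum.inl i)
  · rw [hper (Sum.inr i)]
    simp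

/-- `σ ζ` is the standard root of unity -/
theorem G_root (e : ℤ) (he : e = 0 ∨ e = 1) (x : ℂ) (hx : x ^ 2 = e * x - 1) (him : 0 < x.im) :
    x = Complex.exp (2 * Real.pi * Complex.I * ((1 / (me e : ℝ) : ℝ) : ℂ)) := by
  obtain ⟨y, hy, hyim⟩ : ∃ y : ℂ, y ^ 2 = e * y - 1 ∧ 0 < y.im ∧
      y = Complex.exp (2 * Real.pi * Complex.I * ((1 / (me e : ℝ) : ℝ) : ℂ)) := by
    rcases he with rfl | rfl
    · refine ⟨Complex.I, ?_, ?_, ?_⟩
      · simp
      · simp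
      · rw [show (2 * Real.pi * Complex.I * ((1 / (me 0 : ℝ) : ℝ) : ℂ)) =
          Real.pi / 2 * Complex.I by
            have : me 0 = 4 := rfl
            rw [this]; push_cast; ring]
        rw [Complex.exp_mul_I, Complex.cos_pi_div_two, Complex.sin_pi_div_two]
        simp
    · refine ⟨_, ?_, ?_, rfl⟩
      · rw [show (2 * Real.pi * Complex.I * ((1 / (me 1 : ℝ) : ℝ) : ℂ)) =
          ((Real.pi / 3 : ℝ) : ℂ) * Complex.I by
            have : me 1 = 6 := rfl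
            rw [this]; push_cast; ring]
        rw [Complex.exp_mul_I, ← Complex.ofReal_cos, ← Complex.ofReal_sin, Real.cos_pi_div_three,
          Real.sin_pi_div_three]
        push_cast
        have h1 : ((√3 : ℝ) : ℂ) ^ 2 = 3 := by
          rw [← Complex.ofReal_pow, Real.sq_sqrt (by norm_num)]; norm_num
        have h2 := Complex.I_sq
        linear_combination (1 / 4 : ℂ) * Complex.I ^ 2 * h1 + (3 / 4 : ℂ) * h2
      · rw [show (2 * Real.pi * Complex.I * ((1 / (me 1 : ℝ) : ℝ) : ℂ)) =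
          ((Real.pi / 3 : ℝ) : ℂ) * Complex.I by
            have : me 1 = 6 := rfl
            rw [this]; push_cast; ring]
        rw [Complex.exp_ofReal_mul_I_im, Real.sin_pi_div_three]
        positivity
  obtain ⟨hyim, hyx⟩ := hyim
  rw [← hyx]
  have h1 : (x - y) * (x + y - e) = 0 := by
    linear_combination hx - hy
  rcases mul_eq_zero.1 h1 with h | h
  · exact sub_eq_zero.1 h
  · exfalso
    have h2 := congrArg Complex.im h
    simp at h2
    linarith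

/-! ## The theorem -/

theorem G_mu (e : ℤ) (he : e = 0 ∨ e = 1) : Mu (muP e) := by
  rcases he with rfl | rfl
  · refine ⟨fun j => ?_, fun j => ?_, ?_⟩
    · change (0 : ℝ) < 1 / ((4 : ℕ) : ℝ); norm_num
    · change 1 / ((4 : ℕ) : ℝ) < 1; norm_num
    · change 1 < ∑ j : Fin 7, 1 / ((4 : ℕ) : ℝ)
      rw [Finset.sum_const, Finset.card_univ, Fintype.card_fin]; norm_num
  · refine ⟨fun j => ?_, fun j => ?_, ?_⟩
    · change (0 : ℝ) < 1 / ((6 : ℕ) : ℝ); norm_num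
    · change 1 / ((6 : ℕ) : ℝ) < 1; norm_num
    · change 1 < ∑ j : Fin 11, 1 / ((6 : ℕ) : ℝ)
      rw [Finset.sum_const, Finset.card_univ, Fintype.card_fin]; norm_num

theorem G_lam (e : ℤ) (he : e = 0 ∨ e = 1) (x : ℂ) (hx : x ^ 2 = e * x - 1) (him : 0 < x.im) :
    ∀ j, lam (muP e) j = x := fun _ => (G_root e he x hx him).symm

/-- the field `E` with the generator `e - ζ` -/
theorem G_q {e : ℤ} {E : Type} [Field E] {ζ : E} (hI : IQ e E ζ) (inv : E ≃+* E) (σ : E →+* ℂ)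
    (hσ : ∀ x, σ (inv x) = conj (σ x)) (him : 0 < (σ ζ).im) :
    ∃ q : QF e E, q.z = e - ζ ∧ q.inv = inv ∧ q.σ = σ := by
  have hx : (σ ζ) ^ 2 = (e : ℂ) * σ ζ - 1 := by
    rw [← map_pow, hI.sq, map_sub, map_mul, map_one, map_intCast]
  have hi : inv ζ = e - ζ := by
    apply σ.injective
    rw [hσ, map_sub, map_intCast]
    have h1 : conj (σ ζ) ^ 2 = (e : ℂ) * conj (σ ζ) - 1 := by
      rw [← map_pow, hx, map_sub, map_mul, map_one, map_intCast]
    have h2 : (conj (σ ζ) - σ ζ) * (conj (σ ζ) + σ ζ - e) = 0 := by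
      linear_combination h1 - hx
    rcases mul_eq_zero.1 h2 with h | h
    · exfalso
      have h3 := congrArg Complex.im h
      simp at h3
      linarith
    · linear_combination h
  refine ⟨⟨hI.he, e - ζ, inv, σ, ?_, ?_, ?_, hσ⟩, rfl, rfl, rfl⟩
  · linear_combination hI.sq
  · intro x
    obtain ⟨p, r, hpr⟩ := hI.gen x
    refine ⟨p + r * e, -r, ?_⟩
    rw [hpr]
    have : CharZero E := σ.charZero
    push_cast
    ring
  · rw [map_sub, hi, map_intCast]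

/-- **G** -/
theorem tG : S_P2 → S_H8 → S_H9 → S_H10 → S_H11 →
    (∀ {k : ℕ} (μ β : Fin k → ℝ), Mu μ → StrictMono β →
      ∀ A ∈ 𝓝 (fun j => Complex.I * (β j : ℂ)), (fun s j => per μ s j) '' A ∈
        𝓝[{t : Fin k → ℂ | ∑ j, (1 - lam μ j) * t j = 0}]
          (fun j => per μ (fun j => Complex.I * (β j : ℂ)) j)) → S_P4 → S_G := by
  intro hP2 h8 h9 h10 h11 hP3 hP4 e E _ ζ hI inv σ hσ him n l hn0 hl hnl H hH f hf hp hn
  obtain ⟨q, hqz, rfl, rfl⟩ := G_q hI inv σ hσ him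
  have hx : (q.σ ζ) ^ 2 = (e : ℂ) * q.σ ζ - 1 := by
    rw [← map_pow, hI.sq, map_sub, map_mul, map_one, map_intCast]
  have hzi : q.z⁻¹ = ζ := by
    apply inv_eq_of_mul_eq_one_right
    rw [hqz]
    linear_combination -hI.sq
  have hmu := G_mu e hI.he
  have hlam := G_lam e hI.he _ hx him
  have hth : q.σ (th e ζ) = Complex.I * ((2 * (q.σ ζ).im : ℝ) : ℂ) := by
    rw [th, map_sub, map_mul, map_ofNat, map_intCast]
    have h1 := congrArg Complex.im hx
    have h2 : 2 * (q.σ ζ).re = e := by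
      have h3 : (q.σ ζ).im * (2 * (q.σ ζ).re - e) = 0 := by
        simp [sq] at h1
        linear_combination h1
      rcases mul_eq_zero.1 h3 with h | h
      · exact absurd h him.ne'
      · linarith
    apply Complex.ext
    · simp; linarith
    · simp
  have hk : 0 < 2 * (q.σ ζ).im := by linarith
  have key := fun (N : ℕ) (c : ℚ) (hc : 0 < c) (h1 : th e ζ • Nm (fun _ : Fin (N + 1 + 1) => ζ) =
      (c : E) • q.HN (N + 1)) (h2 : q.Iso (D0 E N) (q.HN (N + 1))) (μ : Fin (N + 1 + 1) → ℝ)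
      (hμ : Mu μ) (hl' : ∀ j, lam μ j = q.σ ζ) (hnl' : n + l = N + 1) =>
    G_fin hP2 h11 hP4 hP3 q ζ (th e ζ) him _ hk hth N c hc h1 h2 μ hμ hl' n l hl hnl' H hH f hf hp hn
  rcases hI.he with rfl | rfl
  · refine key 5 2 (by norm_num) ?_ (h10 q) (muP 0) hmu hlam hnl
    ext i j
    rw [Matrix.smul_apply, Matrix.smul_apply, smul_eq_mul, smul_eq_mul, h8.2 q 6 i j, hzi, hqz, th]
    push_cast
    ring
  · refine key 9 1 (by norm_num) ?_ (h9 q) (muP 1) hmu hlam hnl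
    ext i j
    rw [Matrix.smul_apply, Matrix.smul_apply, smul_eq_mul, smul_eq_mul, h8.1 q 10 i j, hzi, hqz, th]
    push_cast
    ring

/-- the same from the statement P3j -/
theorem tG' (hP2 : S_P2) (h8 : S_H8) (h9 : S_H9) (h10 : S_H10) (h11 : S_H11) (h3j : S_P3j)
    (h3a : S_P3a) (h3i : S_P3i) (hP4 : S_P4) : S_G :=
  tG hP2 h8 h9 h10 h11 (h3j h3a h3i fun μ s hμ hs => G_rel μ s hμ hs) hP4

end SEP
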