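import Pool.Agent.Lib.SE.P.Spec

/-!
# PROJECT SE-P, module P3a: the periods are strictly differentiable (helper92)
-/

set_option autoImplicit false

open MeasureTheory Filter Topology SEJ
open scoped ComplexConjugate

noncomputable section

namespace SEP

namespace P3a

variable {k : ℕ}

/-! ### Elementary bounds -/

theorem norm_pw (z : ℂ) (x : ℝ) : ‖z ^ (-(x : ℂ))‖ = ‖z‖ ^ (-x) := by
  have h : (-(x : ℂ)) = ((-x : ℝ) : ℂ) := by push_cast; ring
  rw [h, Complex.norm_cpow_real]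

/-- The distance from `z` (not real) to `t ≥ 0`. -/
theorem dist_low (z : ℂ) (hz : z.im ≠ 0) : ∃ c : ℝ, 0 < c ∧ ∀ t : ℝ, 0 ≤ t →
    c * (1 + t) ≤ ‖z - t‖ := by
  have h0 : 0 < |z.im| := abs_pos.2 hz
  refine ⟨min (1 / 2) (|z.im| / (2 + 2 * ‖z‖)), by positivity, fun t ht => ?_⟩
  by_cases h : t ≤ 2 * ‖z‖ + 1
  · have h1 : |z.im| ≤ ‖z - t‖ := by
      have := Complex.abs_im_le_norm (z - t)
      simpa using this
    refine le_trans ?_ h1
    calc min (1 / 2) (|z.im| / (2 + 2 * ‖z‖)) * (1 + t)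
        ≤ (|z.im| / (2 + 2 * ‖z‖)) * (2 + 2 * ‖z‖) := by
          refine mul_le_mul (min_le_right _ _) (by linarith) (by linarith) (by positivity)
      _ = |z.im| := by field_simp
  · push Not at h
    have h1 : t - ‖z‖ ≤ ‖z - t‖ := by
      have h2 := norm_sub_norm_le (t : ℂ) z
      rw [Complex.norm_real, Real.norm_eq_abs, abs_of_nonneg ht, norm_sub_rev] at h2
      exact h2
    refine le_trans ?_ h1
    calc min (1 / 2) (|z.im| / (2 + 2 * ‖z‖)) * (1 + t) ≤ 1 / 2 * (1 + t) := by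
          refine mul_le_mul_of_nonneg_right (min_le_left _ _) (by linarith)
      _ ≤ t - ‖z‖ := by linarith

/-- Integrability of the majorants. -/
theorem maj_int (α β : ℝ) (hα : α < 1) (hab : 1 < α + β) :
    IntegrableOn (fun t : ℝ => t ^ (-α) * (1 + t) ^ (-β)) (Set.Ioi 0) := by
  have hm : Measurable (fun t : ℝ => t ^ (-α) * (1 + t) ^ (-β)) := by
    refine Measurable.mul ?_ ?_
    · exact measurable_id.pow_const _
    · exact (measurable_const.add measurable_id).pow_const _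
  have h1 : IntegrableOn (fun t : ℝ => t ^ (-α) * (1 + t) ^ (-β)) (Set.Ioc 0 1) := by
    have h2 : IntegrableOn (fun t : ℝ => t ^ (-α)) (Set.Ioc 0 1) := by
      have h3 := intervalIntegral.intervalIntegrable_rpow' (a := 0) (b := 1) (r := -α)
        (by linarith)
      rwa [intervalIntegrable_iff_integrableOn_Ioc_of_le zero_le_one] at h3
    refine h2.mono' hm.aestronglyMeasurable ?_
    refine (ae_restrict_mem measurableSet_Ioc).mono fun t ht => ?_
    have e1 : 0 ≤ t ^ (-α) := Real.rpow_nonneg ht.1.le _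
    have e2 : (1 + t) ^ (-β) ≤ 1 :=
      Real.rpow_le_one_of_one_le_of_nonpos (by linarith [ht.1]) (by linarith)
    have e3 : 0 ≤ (1 + t) ^ (-β) := Real.rpow_nonneg (by linarith [ht.1]) _
    rw [Real.norm_eq_abs, abs_of_nonneg (mul_nonneg e1 e3)]
    nlinarith
  have h2 : IntegrableOn (fun t : ℝ => t ^ (-α) * (1 + t) ^ (-β)) (Set.Ioi 1) := by
    have h3 : IntegrableOn (fun t : ℝ => t ^ (-α - β)) (Set.Ioi 1) :=
      integrableOn_Ioi_rpow_of_lt (by linarith) zero_lt_one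
    refine h3.mono' hm.aestronglyMeasurable ?_
    refine (ae_restrict_mem measurableSet_Ioi).mono fun t ht => ?_
    have ht0 : (0 : ℝ) < t := lt_trans zero_lt_one ht
    have e1 : 0 ≤ t ^ (-α) := Real.rpow_nonneg ht0.le _
    have e2 : (1 + t) ^ (-β) ≤ t ^ (-β) :=
      Real.rpow_le_rpow_of_nonpos ht0 (by linarith) (by linarith)
    have e3 : 0 ≤ (1 + t) ^ (-β) := Real.rpow_nonneg (by linarith) _
    rw [Real.norm_eq_abs, abs_of_nonneg (mul_nonneg e1 e3), sub_eq_add_neg, Real.rpow_add ht0]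
    exact mul_le_mul_of_nonneg_left e2 e1
  have h3 := h1.union h2
  rwa [Set.Ioc_union_Ioi_eq_Ioi zero_le_one] at h3

/-! ### The integrand -/

/-- `z_l` -/
def zz (s : Fin k → ℂ) (j l : Fin k) (t : ℝ) : ℂ := s j - t - s l

/-- The integrand. -/
def GG (μ : Fin k → ℝ) (j : Fin k) (s : Fin k → ℂ) (t : ℝ) : ℂ :=
  (-(t : ℂ)) ^ (-(μ j : ℂ)) * ∏ l ∈ Finset.univ.erase j, zz s j l t ^ (-(μ l : ℂ))

theorem GG_eq (μ : Fin k → ℝ) (j : Fin k) (s : Fin k → ℂ) (t : ℝ) :
    xi s μ (s j - t) = GG μ j s t := by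
  unfold xi GG zz
  rw [← Finset.mul_prod_erase Finset.univ _ (Finset.mem_univ j)]
  congr 2
  ring

/-- The condition. -/
def Cnd (s : Fin k → ℂ) (j : Fin k) : Prop := ∀ l, l ≠ j → (s l).im ≠ (s j).im

theorem zz_slit {s : Fin k → ℂ} {j : Fin k} (h : Cnd s j) (l : Fin k) (hl : l ≠ j) (t : ℝ) :
    zz s j l t ∈ Complex.slitPlane := by
  right
  unfold zz
  simp only [Complex.sub_im, Complex.ofReal_im, sub_zero]
  exact sub_ne_zero.2 (h l hl).symm

/-- Uniform bound below. -/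
theorem low {s : Fin k → ℂ} {j : Fin k} (h : Cnd s j) : ∃ c : ℝ, 0 < c ∧
    ∀ᶠ s' in 𝓝 s, Cnd s' j ∧ ∀ l, l ≠ j → ∀ t : ℝ, 0 ≤ t → c * (1 + t) ≤ ‖zz s' j l t‖ := by
  classical
  have h1 : ∀ l, ∃ c : ℝ, 0 < c ∧ (l ≠ j → ∀ t : ℝ, 0 ≤ t → c * (1 + t) ≤ ‖zz s j l t‖) := by
    intro l
    by_cases hl : l = j
    · exact ⟨1, one_pos, fun h' => absurd hl h'⟩
    · obtain ⟨c, hc, hb⟩ := dist_low (s j - s l) (by
        rw [Complex.sub_im]
        exact sub_ne_zero.2 (h l hl).symm)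
      refine ⟨c, hc, fun _ t ht => ?_⟩
      have := hb t ht
      have e : zz s j l t = s j - s l - t := by unfold zz; ring
      rw [e]
      exact this
  choose c hc hb using h1
  obtain ⟨c0, hc0, hle⟩ : ∃ c0 : ℝ, 0 < c0 ∧ ∀ l, c0 ≤ c l := by
    have : Nonempty (Fin k) := ⟨j⟩
    obtain ⟨l0, hl0⟩ := Finite.exists_min c
    exact ⟨c l0, hc l0, hl0⟩
  refine ⟨c0 / 2, by positivity, ?_⟩
  have hcnd : ∀ᶠ s' in 𝓝 s, Cnd s' j := by
    unfold Cnd
    rw [eventually_all]
    intro l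
    by_cases hl : l = j
    · exact Eventually.of_forall fun _ h' => absurd hl h'
    · have hcont : ContinuousAt (fun s' : Fin k → ℂ => (s' l).im - (s' j).im) s := by
        fun_prop
      have := hcont.eventually_ne (sub_ne_zero.2 (h l hl))
      exact this.mono fun s' hs' _ => sub_ne_zero.1 hs'
  have hball : ∀ᶠ s' in 𝓝 s, dist s' s < c0 / 4 := Metric.ball_mem_nhds s (by positivity)
  filter_upwards [hcnd, hball] with s' h1 h2
  refine ⟨h1, fun l hl t ht => ?_⟩
  have h3 := hb l hl t ht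
  have h4 : ‖zz s j l t - zz s' j l t‖ ≤ c0 / 2 := by
    have e : zz s j l t - zz s' j l t = (s j - s' j) - (s l - s' l) := by unfold zz; ring
    rw [e]
    refine (norm_sub_le _ _).trans ?_
    have e1 : ‖s j - s' j‖ ≤ c0 / 4 := by
      rw [← dist_eq_norm, dist_comm]
      exact (dist_le_pi_dist s' s j).trans h2.le
    have e2 : ‖s l - s' l‖ ≤ c0 / 4 := by
      rw [← dist_eq_norm, dist_comm]
      exact (dist_le_pi_dist s' s l).trans h2.le
    linarith
  have h5 : ‖zz s j l t‖ - ‖zz s' j l t‖ ≤ c0 / 2 := (norm_sub_norm_le _ _).trans h4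
  have h6 : c0 * (1 + t) ≤ c l * (1 + t) := mul_le_mul_of_nonneg_right (hle l) (by linarith)
  nlinarith

/-- the sum of the other exponents -/
def bet (μ : Fin k → ℝ) (j : Fin k) : ℝ := ∑ l ∈ Finset.univ.erase j, μ l

theorem bet_nonneg {μ : Fin k → ℝ} (hμ : Mu μ) (j : Fin k) : 0 ≤ bet μ j :=
  Finset.sum_nonneg fun l _ => (hμ.pos l).le

theorem bet_sum {μ : Fin k → ℝ} (hμ : Mu μ) (j : Fin k) : 1 < μ j + bet μ j := by
  unfold bet
  rw [Finset.add_sum_erase Finset.univ _ (Finset.mem_univ j)]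
  exact hμ.one

/-- Bound for the integrand. -/
theorem GG_le {μ : Fin k → ℝ} (hμ : Mu μ) (j : Fin k) (s : Fin k → ℂ) (c : ℝ) (hc : 0 < c)
    (t : ℝ) (ht : 0 < t) (h : ∀ l, l ≠ j → c * (1 + t) ≤ ‖zz s j l t‖) :
    ‖GG μ j s t‖ ≤ c ^ (-bet μ j) * (t ^ (-μ j) * (1 + t) ^ (-bet μ j)) := by
  have ht1 : 0 < 1 + t := by linarith
  have h1 : ∏ l ∈ Finset.univ.erase j, ‖zz s j l t ^ (-(μ l : ℂ))‖ ≤
      ∏ l ∈ Finset.univ.erase j, (c * (1 + t)) ^ (-μ l) := by
    refine Finset.prod_le_prod (fun l _ => norm_nonneg _) fun l hl => ?_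
    rw [norm_pw]
    exact Real.rpow_le_rpow_of_nonpos (by positivity) (h l (Finset.ne_of_mem_erase hl))
      (by linarith [hμ.pos l])
  have h2 : ∏ l ∈ Finset.univ.erase j, (c * (1 + t)) ^ (-μ l) =
      c ^ (-bet μ j) * (1 + t) ^ (-bet μ j) := by
    rw [← Real.mul_rpow hc.le ht1.le]
    unfold bet
    rw [← Finset.sum_neg_distrib, Real.rpow_sum_of_pos (by positivity)]
  unfold GG
  rw [norm_mul, norm_pw, norm_prod, norm_neg, Complex.norm_real, Real.norm_eq_abs, abs_of_pos ht]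
  calc t ^ (-μ j) * ∏ l ∈ Finset.univ.erase j, ‖zz s j l t ^ (-(μ l : ℂ))‖
      ≤ t ^ (-μ j) * (c ^ (-bet μ j) * (1 + t) ^ (-bet μ j)) := by
        rw [← h2]
        exact mul_le_mul_of_nonneg_left h1 (Real.rpow_nonneg ht.le _)
    _ = _ := by ring

/-- coefficients of the derivative of the integrand -/
def co (μ : Fin k → ℝ) (j m : Fin k) (s : Fin k → ℂ) (t : ℝ) : ℂ :=
  if m = j then 0 else μ m * (GG μ j s t / zz s j m t)

/-- Bound for the coefficients. -/
theorem co_le {μ : Fin k → ℝ} (hμ : Mu μ) (j m : Fin k) (s : Fin k → ℂ) (c : ℝ) (hc : 0 < c)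
    (t : ℝ) (ht : 0 < t) (h : ∀ l, l ≠ j → c * (1 + t) ≤ ‖zz s j l t‖) :
    ‖co μ j m s t‖ ≤ (c ^ (-bet μ j) * c⁻¹) * (t ^ (-μ j) * (1 + t) ^ (-(bet μ j + 1))) := by
  have ht1 : 0 < 1 + t := by linarith
  have e1 : 0 ≤ c ^ (-bet μ j) := Real.rpow_nonneg hc.le _
  have e2 : 0 ≤ t ^ (-μ j) := Real.rpow_nonneg ht.le _
  have e3 : 0 ≤ (1 + t) ^ (-(bet μ j + 1)) := Real.rpow_nonneg ht1.le _
  unfold co
  split_ifs with hm
  · rw [norm_zero]
    positivity
  · have h1 := GG_le hμ j s c hc t ht h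
    have h2 : (c * (1 + t))⁻¹ ≥ ‖zz s j m t‖⁻¹ := inv_anti₀ (by positivity) (h m hm)
    have h3 : (1 + t) ^ (-(bet μ j + 1)) = (1 + t) ^ (-bet μ j) * (1 + t)⁻¹ := by
      rw [neg_add, Real.rpow_add ht1, Real.rpow_neg_one]
    rw [norm_mul, norm_div, div_eq_mul_inv]
    have h4 : ‖(μ m : ℂ)‖ ≤ 1 := by
      rw [Complex.norm_real, Real.norm_eq_abs, abs_of_pos (hμ.pos m)]
      exact (hμ.lt m).le
    have h5 : ‖GG μ j s t‖ * ‖zz s j m t‖⁻¹ ≤
        (c ^ (-bet μ j) * (t ^ (-μ j) * (1 + t) ^ (-bet μ j))) * (c * (1 + t))⁻¹ :=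
      mul_le_mul h1 h2 (by positivity) (by positivity)
    calc ‖(μ m : ℂ)‖ * (‖GG μ j s t‖ * ‖zz s j m t‖⁻¹)
        ≤ 1 * ((c ^ (-bet μ j) * (t ^ (-μ j) * (1 + t) ^ (-bet μ j))) * (c * (1 + t))⁻¹) :=
          mul_le_mul h4 h5 (by positivity) zero_le_one
      _ = _ := by
          rw [h3, mul_inv]
          ring

/-! ### Measurability -/

theorem meas_zz (s : Fin k → ℂ) (j l : Fin k) : Measurable (zz s j l) := by
  unfold zz
  exact (measurable_const.sub Complex.measurable_ofReal).sub_const _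

theorem meas_GG (μ : Fin k → ℝ) (j : Fin k) (s : Fin k → ℂ) : Measurable (GG μ j s) := by
  unfold GG
  refine Measurable.mul ?_ ?_
  · exact Complex.measurable_ofReal.neg.pow_const _
  · exact Finset.measurable_fun_prod _ fun l _ => (meas_zz s j l).pow_const _

theorem meas_co (μ : Fin k → ℝ) (j m : Fin k) (s : Fin k → ℂ) : Measurable (co μ j m s) := by
  unfold co
  split_ifs
  · exact measurable_const
  · exact ((meas_GG μ j s).div (meas_zz s j m)).const_mul _

/-! ### Differentiability of the integrand -/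

/-- `c ↦ c_m - c_j` -/
def pj (j m : Fin k) : (Fin k → ℂ) →L[ℂ] ℂ :=
  ContinuousLinearMap.proj (R := ℂ) (φ := fun _ => ℂ) m -
    ContinuousLinearMap.proj (R := ℂ) (φ := fun _ => ℂ) j

theorem der_zz (s : Fin k → ℂ) (j l : Fin k) (t : ℝ) :
    HasFDerivAt (fun s' => zz s' j l t) (-pj j l) s := by
  unfold zz pj
  rw [neg_sub]
  exact ((hasFDerivAt_apply j s).sub_const (t : ℂ)).sub (hasFDerivAt_apply l s)

theorem der_GG (μ : Fin k → ℝ) {s : Fin k → ℂ} {j : Fin k} (h : Cnd s j) (t : ℝ) :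
    HasFDerivAt (fun s' => GG μ j s' t) (∑ m, co μ j m s t • pj j m) s := by
  classical
  have h1 : ∀ l ∈ Finset.univ.erase j, HasFDerivAt (fun s' => zz s' j l t ^ (-(μ l : ℂ)))
      ((-(μ l : ℂ) * zz s j l t ^ (-(μ l : ℂ) - 1)) • (-pj j l)) s := by
    intro l hl
    have e := zz_slit h l (Finset.ne_of_mem_erase hl) t
    have h2 : HasDerivAt (fun z : ℂ => z ^ (-(μ l : ℂ))) (-(μ l : ℂ) * zz s j l t ^ (-(μ l : ℂ) - 1))
        (zz s j l t) := by
      have := (hasDerivAt_id (zz s j l t)).cpow_const (c := -(μ l : ℂ)) e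
      simpa using this
    exact h2.comp_hasFDerivAt s (der_zz s j l t)
  have h3 := (HasFDerivAt.finsetProd h1).const_mul ((-(t : ℂ)) ^ (-(μ j : ℂ)))
  unfold GG
  refine h3.congr_fderiv ?_
  rw [Finset.smul_sum, ← Finset.add_sum_erase Finset.univ _ (Finset.mem_univ j)]
  have e0 : co μ j j s t = 0 := by
    unfold co
    rw [if_pos rfl]
  rw [e0, zero_smul ℂ (pj j j), zero_add]
  refine Finset.sum_congr rfl fun l hl => ?_
  have hlj := Finset.ne_of_mem_erase hl
  have hz : zz s j l t ≠ 0 := Complex.slitPlane_ne_zero (zz_slit h l hlj t)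
  rw [smul_neg, smul_neg, smul_neg, ← neg_smul, smul_smul, smul_smul]
  congr 1
  unfold co GG
  rw [if_neg hlj, ← Finset.mul_prod_erase _ _ hl, Complex.cpow_sub _ _ hz, Complex.cpow_one]
  field_simp

/-! ### The integrals -/

/-- Substitution. -/
theorem subst_Iic (f : ℝ → ℂ) (r : ℝ) :
    ∫ a in Set.Iic r, f a = ∫ t in Set.Ioi (0 : ℝ), f (r - t) := by
  rw [← integral_Ici_eq_integral_Ioi, ← integral_indicator measurableSet_Iic,
    ← integral_indicator measurableSet_Ici,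
    ← integral_sub_left_eq_self ((Set.Iic r).indicator f) volume r]
  refine integral_congr_ae (Eventually.of_forall fun t => ?_)
  show (Set.Iic r).indicator f (r - t) = (Set.Ici (0 : ℝ)).indicator (fun t => f (r - t)) t
  by_cases h : 0 ≤ t
  · rw [Set.indicator_of_mem (show r - t ∈ Set.Iic r by simpa using h),
      Set.indicator_of_mem (show t ∈ Set.Ici (0 : ℝ) from h)]
  · rw [Set.indicator_of_notMem (show r - t ∉ Set.Iic r by simpa using h),
      Set.indicator_of_notMem (show t ∉ Set.Ici (0 : ℝ) from h)]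

theorem pt_eq (z : ℂ) (t : ℝ) : pt (z.re - t) z.im = z - t := by
  unfold pt
  push_cast
  conv_rhs => rw [← Complex.re_add_im z]
  ring

theorem per_eq (μ : Fin k → ℝ) (j : Fin k) (s : Fin k → ℂ) :
    per μ s j = ∫ t in Set.Ioi (0 : ℝ), GG μ j s t := by
  unfold per Tp
  rw [subst_Iic]
  refine integral_congr_ae (Eventually.of_forall fun t => ?_)
  show xi s μ (pt ((s j).re - t) (s j).im) = _
  rw [pt_eq, GG_eq]

theorem tau_eq (μ : Fin k → ℝ) (j m : Fin k) (s : Fin k → ℂ) :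
    tau μ s j m = ∫ t in Set.Ioi (0 : ℝ), co μ j m s t := by
  unfold tau co
  split_ifs with h
  · rw [integral_zero]
  · rw [subst_Iic, integral_const_mul]
    congr 1
    refine integral_congr_ae (Eventually.of_forall fun t => ?_)
    show xi s μ (pt ((s j).re - t) (s j).im) / (pt ((s j).re - t) (s j).im - s m) = _
    rw [pt_eq, GG_eq]
    rfl

/-- The majorant of the coefficients. -/
theorem bnd_int {μ : Fin k → ℝ} (hμ : Mu μ) (j : Fin k) (C : ℝ) :
    IntegrableOn (fun t : ℝ => C * (t ^ (-μ j) * (1 + t) ^ (-(bet μ j + 1)))) (Set.Ioi 0) :=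
  (maj_int (μ j) (bet μ j + 1) (hμ.lt j) (by linarith [bet_sum hμ j])).const_mul C

theorem int_GG {μ : Fin k → ℝ} (hμ : Mu μ) {s : Fin k → ℂ} {j : Fin k} (h : Cnd s j) :
    IntegrableOn (GG μ j s) (Set.Ioi 0) := by
  obtain ⟨c, hc, hev⟩ := low h
  have h1 := hev.self_of_nhds
  refine ((maj_int (μ j) (bet μ j) (hμ.lt j) (bet_sum hμ j)).const_mul (c ^ (-bet μ j))).mono'
    (meas_GG μ j s).aestronglyMeasurable ?_
  refine (ae_restrict_mem measurableSet_Ioi).mono fun t ht => ?_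
  exact GG_le hμ j s c hc t ht fun l hl => h1.2 l hl t (le_of_lt ht)

theorem int_co {μ : Fin k → ℝ} (hμ : Mu μ) {s : Fin k → ℂ} {j : Fin k} (h : Cnd s j) (m : Fin k) :
    IntegrableOn (co μ j m s) (Set.Ioi 0) := by
  obtain ⟨c, hc, hev⟩ := low h
  have h1 := hev.self_of_nhds
  refine (bnd_int hμ j (c ^ (-bet μ j) * c⁻¹)).mono' (meas_co μ j m s).aestronglyMeasurable ?_
  refine (ae_restrict_mem measurableSet_Ioi).mono fun t ht => ?_
  exact co_le hμ j m s c hc t ht fun l hl => h1.2 l hl t (le_of_lt ht)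

theorem dper_eq {μ : Fin k → ℝ} (hμ : Mu μ) {s : Fin k → ℂ} {j : Fin k} (h : Cnd s j) :
    dper μ s j = ∫ t in Set.Ioi (0 : ℝ), ∑ m, co μ j m s t • pj j m := by
  rw [integral_finsetSum _ fun m _ => (int_co hμ h m).smul_const (pj j m)]
  unfold dper
  refine Finset.sum_congr rfl fun m _ => ?_
  rw [integral_smul_const, tau_eq]
  rfl

theorem der_per {μ : Fin k → ℝ} (hμ : Mu μ) {s : Fin k → ℂ} {j : Fin k} (h : Cnd s j) :
    HasFDerivAt (fun s' => per μ s' j) (dper μ s j) s := by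
  obtain ⟨c, hc, hev⟩ := low h
  have e : (fun s' => per μ s' j) = fun s' => ∫ t in Set.Ioi (0 : ℝ), GG μ j s' t :=
    funext fun s' => per_eq μ j s'
  rw [e, dper_eq hμ h]
  refine hasFDerivAt_integral_of_dominated_of_fderiv_le (𝕜 := ℂ)
    (F' := fun s' t => ∑ m, co μ j m s' t • pj j m) (s := {s' | Cnd s' j ∧ ∀ l, l ≠ j →
    ∀ t : ℝ, 0 ≤ t → c * (1 + t) ≤ ‖zz s' j l t‖})
    (bound := fun t => ∑ m, ((c ^ (-bet μ j) * c⁻¹) * (t ^ (-μ j) * (1 + t) ^ (-(bet μ j + 1)))) *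
      ‖pj j m‖) hev ?_ (int_GG hμ h) ?_ ?_ ?_ ?_
  · exact Eventually.of_forall fun s' => (meas_GG μ j s').aestronglyMeasurable
  · refine Finset.aestronglyMeasurable_fun_sum _ fun m _ => ?_
    exact (meas_co μ j m s).aestronglyMeasurable.smul_const _
  · refine (ae_restrict_mem measurableSet_Ioi).mono fun t ht s' hs' => ?_
    refine (norm_sum_le _ _).trans (Finset.sum_le_sum fun m _ => ?_)
    rw [norm_smul]
    exact mul_le_mul_of_nonneg_right (co_le hμ j m s' c hc t ht fun l hl =>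
      hs'.2 l hl t (le_of_lt ht)) (norm_nonneg _)
  · exact integrable_finsetSum _ fun m _ => (bnd_int hμ j _).mul_const _
  · exact Eventually.of_forall fun t s' hs' => der_GG μ hs'.1 t

theorem cont_dper {μ : Fin k → ℝ} (hμ : Mu μ) {s : Fin k → ℂ} {j : Fin k} (h : Cnd s j) :
    ContinuousAt (fun s' => dper μ s' j) s := by
  obtain ⟨c, hc, hev⟩ := low h
  have h1 : ∀ m, ContinuousAt (fun s' => tau μ s' j m) s := by
    intro m
    have e : (fun s' => tau μ s' j m) = fun s' => ∫ t in Set.Ioi (0 : ℝ), co μ j m s' t :=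
      funext fun s' => tau_eq μ j m s'
    rw [e]
    refine continuousAt_of_dominated (Eventually.of_forall fun s' =>
      (meas_co μ j m s').aestronglyMeasurable) ?_ (bnd_int hμ j (c ^ (-bet μ j) * c⁻¹)) ?_
    · refine hev.mono fun s' hs' => ?_
      refine (ae_restrict_mem measurableSet_Ioi).mono fun t ht => ?_
      exact co_le hμ j m s' c hc t ht fun l hl => hs'.2 l hl t (le_of_lt ht)
    · refine Eventually.of_forall fun t => ?_
      unfold co
      split_ifs with hm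
      · exact continuousAt_const
      · have hz : zz s j m t ≠ 0 := Complex.slitPlane_ne_zero (zz_slit h m hm t)
        exact ((der_GG μ h t).continuousAt.div (der_zz s j m t).continuousAt hz).const_mul _
  unfold dper
  refine tendsto_finsetSum _ fun m _ => ?_
  exact (h1 m).smul continuousAt_const

end P3a

open P3a in
/-- **P3a**: the periods are strictly differentiable. -/
theorem tP3a : S_P3a := by
  intro k μ s hμ hs j
  have h : Cnd s j := fun l hl he => hl (hs.injective he)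
  obtain ⟨c, hc, hev⟩ := low h
  exact hasStrictFDerivAt_of_hasFDerivAt_of_continuousAt
    (hev.mono fun s' hs' => der_per hμ hs'.1) (cont_dper hμ h)

end SEP
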