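import Pool.Agent.Lib.SE.P.Spec

/-!
# PROJECT SE-P: the derivative of the integral over a horizontal line (P3b, helper2)
-/

set_option autoImplicit false

open MeasureTheory Filter Topology SEJ
open scoped ComplexConjugate

noncomputable section

namespace SEP

namespace P3b

variable {k : ℕ}

/-- the derivative of the integrand -/
def Fd (μ : Fin k → ℝ) (b : ℝ) (s : Fin k → ℂ) (a : ℝ) : (Fin k → ℂ) →L[ℂ] ℂ :=
  xi s μ (pt a b) • ∑ m, ((μ m : ℂ) / (pt a b - s m)) •
    (ContinuousLinearMap.proj (R := ℂ) (φ := fun _ => ℂ) m)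

theorem Fd_apply (μ : Fin k → ℝ) (b : ℝ) (s c : Fin k → ℂ) (a : ℝ) :
    Fd μ b s a c = qf μ s c (pt a b) * xi s μ (pt a b) := by
  unfold Fd qf
  rw [_root_.smul_apply, _root_.sum_apply, smul_eq_mul, mul_comm]
  congr 1
  refine Finset.sum_congr rfl fun m _ => ?_
  rw [_root_.smul_apply, ContinuousLinearMap.proj_apply, smul_eq_mul]
  ring

theorem pt_im (a b : ℝ) : (pt a b).im = b := by
  unfold pt
  simp

theorem pt_re (a b : ℝ) : (pt a b).re = a := by
  unfold pt
  simp

theorem slit {a b : ℝ} {z : ℂ} (h : z.im ≠ b) : pt a b - z ∈ Complex.slitPlane := by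
  rw [Complex.mem_slitPlane_iff]
  right
  rw [Complex.sub_im, pt_im]
  exact sub_ne_zero.2 (Ne.symm h)

theorem cont_pt (b : ℝ) : Continuous fun a : ℝ => pt a b := by
  unfold pt
  fun_prop

theorem cont_xi (μ : Fin k → ℝ) {b : ℝ} {s : Fin k → ℂ} (h : ∀ j, (s j).im ≠ b) :
    Continuous fun a : ℝ => xi s μ (pt a b) := by
  unfold xi
  refine continuous_finsetProd _ fun j _ => ?_
  exact Continuous.cpow ((cont_pt b).sub continuous_const) continuous_const fun a => slit (h j)

theorem cont_Fd (μ : Fin k → ℝ) {b : ℝ} {s : Fin k → ℂ} (h : ∀ j, (s j).im ≠ b) :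
    Continuous fun a : ℝ => Fd μ b s a := by
  unfold Fd
  refine (cont_xi μ h).smul (continuous_finsetSum _ fun m _ => ?_)
  have h1 : Continuous fun a : ℝ => (μ m : ℂ) / (pt a b - s m) :=
    continuous_const.div ((cont_pt b).sub continuous_const) fun a =>
      Complex.slitPlane_ne_zero (slit (h m))
  exact h1.smul continuous_const

/-- the derivative of a product -/
theorem prod_fd {ι : Type} [DecidableEq ι] (S : Finset ι) (f : ι → (Fin k → ℂ) → ℂ)
    (L : ι → (Fin k → ℂ) →L[ℂ] ℂ) (x : Fin k → ℂ) (h : ∀ j ∈ S, HasFDerivAt (f j) (f j x • L j) x) :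
    HasFDerivAt (fun y => ∏ j ∈ S, f j y) ((∏ j ∈ S, f j x) • ∑ j ∈ S, L j) x := by
  induction S using Finset.induction_on with
  | empty =>
    simp only [Finset.prod_empty, Finset.sum_empty, smul_zero]
    exact hasFDerivAt_const _ x
  | insert i S hi ih =>
    have h1 := (h i (Finset.mem_insert_self i S)).mul
      (ih fun j hj => h j (Finset.mem_insert_of_mem hj))
    have h2 : (fun y => ∏ j ∈ insert i S, f j y) = fun y => f i y * ∏ j ∈ S, f j y := by
      funext y
      rw [Finset.prod_insert hi]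
    rw [h2, Finset.prod_insert hi, Finset.sum_insert hi]
    refine h1.congr_fderiv ?_
    ext c
    simp only [_root_.add_apply, _root_.smul_apply, smul_eq_mul]
    ring

theorem factor (m : ℝ) {a b : ℝ} {s : Fin k → ℂ} (j : Fin k) (h : (s j).im ≠ b) :
    HasFDerivAt (fun s' : Fin k → ℂ => (pt a b - s' j) ^ (-(m : ℂ)))
      ((pt a b - s j) ^ (-(m : ℂ)) • ((m : ℂ) / (pt a b - s j)) •
        (ContinuousLinearMap.proj (R := ℂ) (φ := fun _ => ℂ) j)) s := by
  have hs : pt a b - s j ∈ Complex.slitPlane := slit h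
  have h0 : pt a b - s j ≠ 0 := Complex.slitPlane_ne_zero hs
  have h1 : HasDerivAt (fun z : ℂ => (pt a b - z) ^ (-(m : ℂ)))
      ((pt a b - s j) ^ (-(m : ℂ)) * ((m : ℂ) / (pt a b - s j))) (s j) := by
    have h2 : HasDerivAt (fun z : ℂ => pt a b - z) (-1) (s j) :=
      (hasDerivAt_id (s j)).const_sub (pt a b)
    refine (h2.cpow_const (c := -(m : ℂ)) hs).congr_deriv ?_
    rw [Complex.cpow_sub _ _ h0, Complex.cpow_one]
    field_simp
  have h3 := h1.comp_hasFDerivAt s
    (ContinuousLinearMap.proj (R := ℂ) (φ := fun _ : Fin k => ℂ) j).hasFDerivAt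
  refine h3.congr_fderiv ?_
  rw [smul_smul]

theorem fd (μ : Fin k → ℝ) {a b : ℝ} {s : Fin k → ℂ} (h : ∀ j, (s j).im ≠ b) :
    HasFDerivAt (fun s' => xi s' μ (pt a b)) (Fd μ b s a) s := by
  unfold xi Fd
  exact prod_fd Finset.univ (fun j s' => (pt a b - s' j) ^ (-(μ j : ℂ)))
    (fun j => ((μ j : ℂ) / (pt a b - s j)) •
      (ContinuousLinearMap.proj (R := ℂ) (φ := fun _ => ℂ) j)) s fun j _ => factor (μ j) j (h j)

/-- lower bound near `s` -/
theorem low {b : ℝ} {s : Fin k → ℂ} (h : ∀ j, (s j).im ≠ b) :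
    ∃ c δ : ℝ, 0 < c ∧ 0 < δ ∧ ∀ s' ∈ Metric.ball s δ, ∀ j, (s' j).im ≠ b ∧
      ∀ a : ℝ, c * (1 + |a|) ≤ ‖pt a b - s' j‖ := by
  -- a common bound for the imaginary parts
  obtain ⟨δ, hδ, hδs⟩ : ∃ δ : ℝ, 0 < δ ∧ ∀ j, 2 * δ ≤ |b - (s j).im| := by
    rcases isEmpty_or_nonempty (Fin k) with he | hne
    · exact ⟨1, one_pos, fun j => (he.false j).elim⟩
    · obtain ⟨j0, -, hj0⟩ := Finset.exists_min_image Finset.univ (fun j => |b - (s j).im|)
        Finset.univ_nonempty
      refine ⟨|b - (s j0).im| / 2, ?_, fun j => ?_⟩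
      · have : 0 < |b - (s j0).im| := abs_pos.2 (sub_ne_zero.2 (h j0).symm)
        linarith
      · have := hj0 j (Finset.mem_univ j)
        linarith
  set M : ℝ := ‖s‖ + δ with hM
  have hM0 : 0 < M := by
    have := norm_nonneg s
    linarith
  set K : ℝ := (1 + M) / δ + 1 with hK
  have hK0 : 0 < K := by positivity
  refine ⟨1 / K, δ, by positivity, hδ, fun s' hs' j => ?_⟩
  have hd : ‖s' j - s j‖ < δ := by
    have h1 : ‖s' - s‖ < δ := by
      rw [← dist_eq_norm]
      exact hs'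
    exact lt_of_le_of_lt (norm_le_pi_norm (s' - s) j) h1
  have him : δ ≤ |b - (s' j).im| := by
    have h1 : |(s' j - s j).im| ≤ ‖s' j - s j‖ := Complex.abs_im_le_norm _
    rw [Complex.sub_im] at h1
    have h2 : |b - (s j).im| ≤ |b - (s' j).im| + |(s' j).im - (s j).im| := by
      have h3 := abs_add_le (b - (s' j).im) ((s' j).im - (s j).im)
      rwa [show b - (s' j).im + ((s' j).im - (s j).im) = b - (s j).im by ring] at h3
    have := hδs j
    linarith
  have hne : (s' j).im ≠ b := by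
    intro h0
    rw [h0, sub_self, abs_zero] at him
    linarith
  refine ⟨hne, fun a => ?_⟩
  set z := pt a b - s' j with hz
  have hz1 : δ ≤ ‖z‖ := by
    have h1 := Complex.abs_im_le_norm z
    rw [hz, Complex.sub_im, pt_im] at h1
    linarith
  have hz2 : |a| - M ≤ ‖z‖ := by
    have h1 := Complex.abs_re_le_norm z
    rw [hz, Complex.sub_re, pt_re] at h1
    have h2 : |(s' j).re| ≤ M := by
      have h3 := Complex.abs_re_le_norm (s' j)
      have h4 : ‖s' j‖ ≤ ‖s j‖ + ‖s' j - s j‖ := by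
        have := norm_add_le (s j) (s' j - s j)
        rwa [add_sub_cancel] at this
      have h5 := norm_le_pi_norm s j
      linarith
    have h6 : |a| ≤ |a - (s' j).re| + |(s' j).re| := by
      have := abs_add_le (a - (s' j).re) (s' j).re
      rwa [sub_add_cancel] at this
    linarith
  have hz3 : 1 + |a| ≤ K * ‖z‖ := by
    have h1 : 1 + M ≤ (1 + M) / δ * ‖z‖ := by
      rw [div_mul_eq_mul_div, le_div_iff₀ hδ]
      exact mul_le_mul_of_nonneg_left hz1 (by linarith)
    rw [hK, add_mul, one_mul]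
    linarith
  rw [one_div, inv_mul_le_iff₀ hK0]
  exact hz3

/-- upper bound for the integrand -/
theorem xi_le {μ : Fin k → ℝ} (hμ : Mu μ) {b c : ℝ} {s : Fin k → ℂ} (hc : 0 < c) {a : ℝ}
    (h : ∀ j, c * (1 + |a|) ≤ ‖pt a b - s j‖) :
    ‖xi s μ (pt a b)‖ ≤ c ^ (-∑ j, μ j) * (1 + ‖a‖) ^ (-∑ j, μ j) := by
  have ha : 0 < 1 + |a| := by positivity
  have hca : 0 < c * (1 + |a|) := by positivity
  rw [Real.norm_eq_abs, ← Real.mul_rpow hc.le ha.le, ← Finset.sum_neg_distrib,
    Real.rpow_sum_of_pos hca]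
  unfold xi
  rw [norm_prod]
  refine Finset.prod_le_prod (fun j _ => norm_nonneg _) fun j _ => ?_
  have h1 : ‖(pt a b - s j) ^ (-(μ j : ℂ))‖ = ‖pt a b - s j‖ ^ (-(μ j)) := by
    rw [← Complex.ofReal_neg, Complex.norm_cpow_real]
  rw [h1]
  exact Real.rpow_le_rpow_of_nonpos hca (h j) (neg_nonpos.2 (hμ.pos j).le)

theorem Fd_le {μ : Fin k → ℝ} (hμ : Mu μ) {b c : ℝ} {s : Fin k → ℂ} (hc : 0 < c) {a : ℝ}
    (h : ∀ j, c * (1 + |a|) ≤ ‖pt a b - s j‖) :
    ‖Fd μ b s a‖ ≤ (k / c) * (c ^ (-∑ j, μ j) * (1 + ‖a‖) ^ (-∑ j, μ j)) := by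
  have ha : 1 ≤ 1 + |a| := by
    have := abs_nonneg a
    linarith
  have h1 : ‖∑ m, ((μ m : ℂ) / (pt a b - s m)) •
      (ContinuousLinearMap.proj (R := ℂ) (φ := fun _ : Fin k => ℂ) m)‖ ≤ k / c := by
    have h2 : ∀ m ∈ (Finset.univ : Finset (Fin k)), ‖((μ m : ℂ) / (pt a b - s m)) •
        (ContinuousLinearMap.proj (R := ℂ) (φ := fun _ : Fin k => ℂ) m)‖ ≤ 1 / c := by
      intro m _
      have h3 : ‖(μ m : ℂ) / (pt a b - s m)‖ ≤ 1 / c := by
        rw [norm_div, Complex.norm_real, Real.norm_eq_abs, abs_of_pos (hμ.pos m)]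
        have h4 : c ≤ ‖pt a b - s m‖ := by
          refine le_trans ?_ (h m)
          nlinarith
        exact div_le_div₀ zero_le_one (hμ.lt m).le hc h4
      have h5 : ‖(ContinuousLinearMap.proj (R := ℂ) (φ := fun _ : Fin k => ℂ) m)‖ ≤ 1 := by
        refine ContinuousLinearMap.opNorm_le_bound _ zero_le_one fun x => ?_
        rw [one_mul]
        exact norm_le_pi_norm x m
      rw [norm_smul]
      calc ‖(μ m : ℂ) / (pt a b - s m)‖ *
            ‖(ContinuousLinearMap.proj (R := ℂ) (φ := fun _ : Fin k => ℂ) m)‖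
          ≤ 1 / c * 1 := mul_le_mul h3 h5 (norm_nonneg _) (by positivity)
        _ = 1 / c := mul_one _
    refine (norm_sum_le_of_le _ h2).trans ?_
    rw [Finset.sum_const, Finset.card_univ, Fintype.card_fin, nsmul_eq_mul]
    exact le_of_eq (by ring)
  unfold Fd
  rw [norm_smul, mul_comm]
  exact mul_le_mul h1 (xi_le hμ hc h) (norm_nonneg _) (by positivity)

end P3b

open P3b in
theorem tP3b : S_P3b := by
  intro k μ s b hμ hs
  obtain ⟨c, δ, hc, hδ, hlow⟩ := low hs
  have hint : Integrable (fun a : ℝ => (1 + ‖a‖) ^ (-∑ j, μ j)) := by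
    refine integrable_one_add_norm ?_
    rw [Module.finrank_self, Nat.cast_one]
    exact hμ.one
  have hball : Metric.ball s δ ∈ 𝓝 s := Metric.ball_mem_nhds s hδ
  have hFint : Integrable (fun a : ℝ => xi s μ (pt a b)) := by
    refine Integrable.mono' (hint.const_mul (c ^ (-∑ j, μ j)))
      (cont_xi μ hs).aestronglyMeasurable (ae_of_all _ fun a => ?_)
    exact xi_le hμ hc fun j => (hlow s (Metric.mem_ball_self hδ) j).2 a
  have hbint : Integrable (fun a : ℝ => (k / c) * (c ^ (-∑ j, μ j) * (1 + ‖a‖) ^ (-∑ j, μ j))) :=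
    (hint.const_mul _).const_mul _
  have hFdint : Integrable (fun a : ℝ => Fd μ b s a) := by
    refine Integrable.mono' hbint (cont_Fd μ hs).aestronglyMeasurable (ae_of_all _ fun a => ?_)
    exact Fd_le hμ hc fun j => (hlow s (Metric.mem_ball_self hδ) j).2 a
  refine ⟨∫ a, Fd μ b s a, ?_, fun d => ?_⟩
  · refine hasFDerivAt_integral_of_dominated_of_fderiv_le (F := fun s' a => xi s' μ (pt a b))
      (F' := fun s' a => Fd μ b s' a) hball ?_ hFint (cont_Fd μ hs).aestronglyMeasurable ?_ hbint ?_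
    · filter_upwards [hball] with s' hs'
      exact (cont_xi μ fun j => (hlow s' hs' j).1).aestronglyMeasurable
    · refine ae_of_all _ fun a s' hs' => ?_
      exact Fd_le hμ hc fun j => (hlow s' hs' j).2 a
    · refine ae_of_all _ fun a s' hs' => ?_
      exact fd μ fun j => (hlow s' hs' j).1
  · rw [ContinuousLinearMap.integral_apply hFdint]
    refine integral_congr_ae (ae_of_all _ fun a => ?_)
    exact Fd_apply μ b s d a

end SEP
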