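import Pool.Agent.Lib.SE.P.Spec
import Pool.Agent.Lib.SE.J.Main

/-! # SE/P, module P3c: the integral over a horizontal line -/

set_option autoImplicit false

open MeasureTheory Filter Topology SEJ
open scoped ComplexConjugate

noncomputable section

namespace SEP

section

variable {k : ℕ} {s : Fin k → ℂ} {μ : Fin k → ℝ}

theorem good_of (h : Mu μ) (hs : StrictMono fun j => (s j).im) : Good s μ 1 where
  im := hs
  pos := h.pos
  lt := h.lt
  deg i hi := by
    have h0 : i = 0 := by
      by_contra h0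
      rw [Polynomial.coeff_one, if_neg h0] at hi
      exact hi rfl
    rw [h0, Nat.cast_zero, zero_add]
    exact h.one

theorem frm_one (s : Fin k → ℂ) (μ : Fin k → ℝ) : frm s μ 1 = xi s μ := by
  funext x
  rw [frm, Polynomial.eval_one, one_mul]

private theorem pt_re (a b : ℝ) : (pt a b).re = a := by simp [pt]

private theorem pt_im (a b : ℝ) : (pt a b).im = b := by simp [pt]

theorem meas_xi (s : Fin k → ℂ) (μ : Fin k → ℝ) : Measurable (xi s μ) := by
  unfold xi
  exact Finset.measurable_fun_prod _ fun j _ => (measurable_id.sub_const _).pow_const _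

theorem meas_line (s : Fin k → ℂ) (μ : Fin k → ℝ) (b : ℝ) :
    Measurable fun a : ℝ => xi s μ (pt a b) := by
  refine (meas_xi s μ).comp ?_
  unfold pt
  exact (Complex.measurable_ofReal).add_const _

/-- the common bound of the lines -/
theorem line_bd (h : Mu μ) (hs : StrictMono fun j => (s j).im) :
    ∃ F : ℝ → ℝ, Integrable F ∧ ∀ a b : ℝ, (∀ j, a ≠ (s j).re) → ‖xi s μ (pt a b)‖ ≤ F a := by
  obtain ⟨C, d, hd, hd1, hC, hb, -⟩ := tC2 s μ 1 (good_of h hs) one_ne_zero
  obtain ⟨F, hF, hFb⟩ := tA2 s μ d hs hd (fun j => (h.pos j).le) h.lt hd1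
  refine ⟨fun a => C * F a, hF.const_mul C, fun a b ha => ?_⟩
  have h1 := hb (pt a b)
  rw [frm_one] at h1
  exact h1.trans (mul_le_mul_of_nonneg_left (hFb a b ha) hC)

theorem ae_re (s : Fin k → ℂ) : ∀ᵐ a : ℝ, ∀ j, a ≠ (s j).re := by
  rw [ae_all_iff]
  intro j
  exact (measure_eq_zero_iff_ae_notMem.mp (measure_singleton (s j).re)).mono
    fun x hx => by simpa using hx

theorem int_line (h : Mu μ) (hs : StrictMono fun j => (s j).im) (b : ℝ) :
    Integrable fun a : ℝ => xi s μ (pt a b) := by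
  obtain ⟨F, hF, hFb⟩ := line_bd h hs
  refine hF.mono' (meas_line s μ b).aestronglyMeasurable ?_
  exact (ae_re s).mono fun a ha => hFb a b ha

theorem xi_cob (h : Mu μ) (hs : StrictMono fun j => (s j).im) :
    Tendsto (xi s μ) (Bornology.cobounded ℂ) (𝓝 0) := by
  have h1 := tC5 tC2 s μ 1 (good_of h hs)
  rwa [frm_one] at h1

private theorem vert (h : Mu μ) (hs : StrictMono fun j => (s j).im) (b₁ b₂ : ℝ) (L : Filter ℝ)
    (hL : Tendsto (fun a : ℝ => |a|) L atTop) :
    Tendsto (fun A : ℝ => ∫ y in b₁..b₂, xi s μ (pt A y)) L (𝓝 0) := by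
  rw [Metric.tendsto_nhds]
  intro ε hε
  obtain ⟨δ, hδ, hδε⟩ : ∃ δ : ℝ, 0 < δ ∧ δ * |b₂ - b₁| < ε := by
    refine ⟨ε / (|b₂ - b₁| + 1), by positivity, ?_⟩
    rw [div_mul_eq_mul_div, div_lt_iff₀ (by positivity)]
    nlinarith [abs_nonneg (b₂ - b₁)]
  have h1 := (xi_cob h hs).eventually (Metric.ball_mem_nhds 0 hδ)
  obtain ⟨R, -, hR⟩ := (Metric.hasBasis_cobounded_compl_closedBall (0 : ℂ)).mem_iff.1 h1
  filter_upwards [hL.eventually (eventually_gt_atTop R)] with A hA
  rw [dist_zero_right]
  refine lt_of_le_of_lt (intervalIntegral.norm_integral_le_of_norm_le_const (C := δ) ?_) hδε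
  intro y _
  have h2 : pt A y ∈ (Metric.closedBall (0 : ℂ) R)ᶜ := by
    rw [Set.mem_compl_iff, Metric.mem_closedBall, dist_zero_right, not_le]
    have h3 := Complex.abs_re_le_norm (pt A y)
    rw [pt_re] at h3
    exact lt_of_lt_of_le hA h3
  have h3 := hR h2
  rw [Set.mem_ofPred_eq, dist_zero_right] at h3
  exact h3.le

/-- no dependence on the height in a strip without branch points -/
theorem lin_strip (h : Mu μ) (hs : StrictMono fun j => (s j).im) (b₁ b₂ : ℝ) (hb : b₁ ≤ b₂)
    (hn : ∀ j, (s j).im ∉ Set.Icc b₁ b₂) : lin μ b₁ s = lin μ b₂ s := by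
  have hrect : ∀ A : ℝ, (∫ a in (-A)..A, xi s μ (pt a b₁)) - (∫ a in (-A)..A, xi s μ (pt a b₂)) +
      Complex.I • (∫ y in b₁..b₂, xi s μ (pt A y)) -
      Complex.I • (∫ y in b₁..b₂, xi s μ (pt (-A) y)) = 0 := by
    intro A
    have h1 := Complex.integral_boundary_rect_eq_zero_of_differentiableOn (xi s μ)
      (pt (-A) b₁) (pt A b₂) (fun x hx => by
        have h2 : x.im ∈ Set.Icc b₁ b₂ := by
          have h3 := hx.2
          rw [pt_im, pt_im, Set.uIcc_of_le hb] at h3
          exact h3
        have h3 := tC1 s μ 1 x fun j => by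
          refine Complex.mem_slitPlane_iff.2 (Or.inr ?_)
          rw [Complex.sub_im, sub_ne_zero]
          intro h4
          rw [h4] at h2
          exact hn j h2
        rw [frm_one] at h3
        exact h3.differentiableAt.differentiableWithinAt)
    rw [pt_re, pt_re, pt_im, pt_im] at h1
    exact h1
  have hlim : ∀ b : ℝ, Tendsto (fun A : ℝ => ∫ a in (-A)..A, xi s μ (pt a b)) atTop
      (𝓝 (lin μ b s)) := fun b =>
    intervalIntegral_tendsto_integral (int_line h hs b) tendsto_neg_atTop_atBot tendsto_id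
  have h1 := (((hlim b₁).sub (hlim b₂)).add ((vert h hs b₁ b₂ atTop tendsto_abs_atTop_atTop).const_smul
    Complex.I)).sub (((vert h hs b₁ b₂ atBot tendsto_abs_atBot_atTop).comp
      tendsto_neg_atTop_atBot).const_smul Complex.I)
  have h2 : Tendsto (fun _ : ℝ => (0 : ℂ)) atTop
      (𝓝 (lin μ b₁ s - lin μ b₂ s + Complex.I • 0 - Complex.I • 0)) := h1.congr hrect
  rw [smul_zero, add_zero, sub_zero] at h2
  exact sub_eq_zero.1 (tendsto_nhds_unique h2 tendsto_const_nhds)

/-- limit from above at the height of `s_j` -/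
theorem lin_above (h : Mu μ) (hs : StrictMono fun j => (s j).im) (j : Fin k) :
    Tendsto (fun b => lin μ b s) (𝓝[>] (s j).im) (𝓝 (lin μ (s j).im s)) := by
  obtain ⟨F, hF, hFb⟩ := line_bd h hs
  unfold lin
  refine tendsto_integral_filter_of_dominated_convergence F ?_ ?_ hF ?_
  · exact Eventually.of_forall fun b => (meas_line s μ b).aestronglyMeasurable
  · exact Eventually.of_forall fun b => (ae_re s).mono fun a ha => hFb a b ha
  · refine (ae_re s).mono fun a ha => ?_
    have h1 := tC3 s μ 1 (good_of h hs) j a (ha j)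
    rw [frm_one] at h1
    exact h1

theorem lin_bot (h : Mu μ) (hs : StrictMono fun j => (s j).im) :
    Tendsto (fun b => lin μ b s) atBot (𝓝 0) := by
  obtain ⟨F, hF, hFb⟩ := line_bd h hs
  have h0 : (0 : ℂ) = ∫ _ : ℝ, (0 : ℂ) := by rw [integral_zero]
  rw [h0]
  unfold lin
  refine tendsto_integral_filter_of_dominated_convergence F ?_ ?_ hF ?_
  · exact Eventually.of_forall fun b => (meas_line s μ b).aestronglyMeasurable
  · exact Eventually.of_forall fun b => (ae_re s).mono fun a ha => hFb a b ha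
  · refine Eventually.of_forall fun a => (xi_cob h hs).comp ?_
    rw [← tendsto_norm_atTop_iff_cobounded]
    refine tendsto_atTop_mono (fun b => ?_) tendsto_abs_atBot_atTop
    have h1 := Complex.abs_im_le_norm (pt a b)
    rwa [pt_im] at h1

/-- the line integral at the height of `s_j` -/
theorem lin_at (h : Mu μ) (hs : StrictMono fun j => (s j).im) (j : Fin k) :
    lin μ (s j).im s = ∑ l ∈ Finset.Ioi j, (lam μ l - 1) * per μ s l := by
  have h1 := xE2 s μ 1 (good_of h hs) j
  rw [frm_one] at h1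
  have h2 : Tp s (xi s μ) j - Pp s (xi s μ) j = lin μ (s j).im s := by
    unfold Tp Pp lin
    rw [sub_neg_eq_add]
    have h5 := integral_add_compl (μ := volume) (f := fun a : ℝ => xi s μ (pt a (s j).im))
      (s := Set.Iic (s j).re) measurableSet_Iic (int_line h hs _)
    rw [Set.compl_Iic] at h5
    exact h5
  rw [← h2, h1]
  have h3 : ∑ l ∈ Finset.Ioi j, (lam μ l - 1) * per μ s l =
      - ∑ l ∈ Finset.Ioi j, (1 - lam μ l) * Tp s (xi s μ) l := by
    rw [← Finset.sum_neg_distrib]
    refine Finset.sum_congr rfl fun l _ => ?_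
    unfold per
    ring
  rw [h3]
  ring

end

theorem tP3c : S_P3c := by
  intro k μ s b h hs hb
  by_cases hex : ∃ j, (s j).im < b
  · -- the largest such index
    obtain ⟨j, hj, hmax⟩ : ∃ j, (s j).im < b ∧ ∀ l, j < l → ¬ (s l).im < b := by
      obtain ⟨j, hj, hj'⟩ := (Finset.univ.filter fun j => (s j).im < b).exists_max_image id
        (by
          obtain ⟨j, hj⟩ := hex
          exact ⟨j, Finset.mem_filter.2 ⟨Finset.mem_univ _, hj⟩⟩)
      refine ⟨j, (Finset.mem_filter.1 hj).2, fun l hl hl' => ?_⟩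
      exact absurd (hj' l (Finset.mem_filter.2 ⟨Finset.mem_univ _, hl'⟩)) (not_le.2 hl)
    have h1 : lin μ b s = lin μ (s j).im s := by
      have h2 : ∀ᶠ b' in 𝓝[>] (s j).im, lin μ b' s = lin μ b s := by
        filter_upwards [Ioc_mem_nhdsGT hj] with b' hb'
        refine lin_strip h hs b' b hb'.2 fun l hl => ?_
        rcases lt_trichotomy j l with h3 | h3 | h3
        · exact hmax l h3 (lt_of_le_of_ne hl.2 (hb l))
        · subst h3
          exact absurd hl.1 (not_le.2 hb'.1)
        · exact absurd (lt_of_lt_of_le hb'.1 hl.1) (not_lt.2 (hs h3).le)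
      have h3 : Tendsto (fun _ : ℝ => lin μ b s) (𝓝[>] (s j).im) (𝓝 (lin μ (s j).im s)) :=
        (lin_above h hs j).congr' h2
      exact tendsto_nhds_unique tendsto_const_nhds h3
    rw [h1, lin_at h hs j, ← Finset.sum_filter]
    congr 1
    ext l
    rw [Finset.mem_Ioi, Finset.mem_filter]
    constructor
    · intro hl
      exact ⟨Finset.mem_univ _, lt_of_le_of_ne (not_lt.1 (hmax l hl)) (Ne.symm (hb l))⟩
    · rintro ⟨-, hl⟩
      by_contra hl'
      exact absurd (hs.monotone (not_lt.1 hl')) (not_le.2 (hj.trans hl))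
  · have hall : ∀ j, b < (s j).im := fun j =>
      lt_of_le_of_ne (not_lt.1 fun hh => hex ⟨j, hh⟩) (Ne.symm (hb j))
    have h1 : lin μ b s = 0 := by
      have h2 : ∀ᶠ b' in atBot, lin μ b' s = lin μ b s := by
        filter_upwards [Iic_mem_atBot b] with b' hb'
        exact lin_strip h hs b' b hb' fun l hl => absurd hl.2 (not_le.2 (hall l))
      have h3 : Tendsto (fun _ : ℝ => lin μ b s) atBot (𝓝 0) := (lin_bot h hs).congr' h2
      exact tendsto_nhds_unique tendsto_const_nhds h3
    rw [h1, Finset.sum_congr rfl fun l _ => if_pos (hall l)]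
    have h2 := xE1 s μ 1 (good_of h hs)
    rw [frm_one] at h2
    have h3 : ∑ l, (lam μ l - 1) * per μ s l = - ∑ l, (1 - lam μ l) * Tp s (xi s μ) l := by
      rw [← Finset.sum_neg_distrib]
      refine Finset.sum_congr rfl fun l _ => ?_
      unfold per
      ring
    rw [h3, h2, neg_zero]

end SEP
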