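import Pool.Agent.Lib.SE.P.Spec

/-!
# PROJECT SE-P, module P3d: zero line integrals
-/

set_option autoImplicit false

open MeasureTheory Filter Topology SEJ

noncomputable section

namespace SEP

namespace P3d

variable {k : ℕ}

theorem ev_mono (s : Fin k → ℂ) (hs : StrictMono fun j => (s j).im) :
    ∀ᶠ s' : Fin k → ℂ in 𝓝 s, StrictMono fun j => (s' j).im := by
  have h1 : ∀ i j : Fin k, i < j → ∀ᶠ s' : Fin k → ℂ in 𝓝 s, (s' i).im < (s' j).im := by
    intro i j hij
    have c1 : Continuous fun s' : Fin k → ℂ => (s' i).im :=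
      Complex.continuous_im.comp (continuous_apply i)
    have c2 : Continuous fun s' : Fin k → ℂ => (s' j).im :=
      Complex.continuous_im.comp (continuous_apply j)
    exact (isOpen_lt c1 c2).mem_nhds (hs hij)
  have h2 : ∀ᶠ s' : Fin k → ℂ in 𝓝 s, ∀ i j : Fin k, i < j → (s' i).im < (s' j).im := by
    rw [Filter.eventually_all]
    intro i
    rw [Filter.eventually_all]
    intro j
    by_cases hij : i < j
    · exact (h1 i j hij).mono fun _ h _ => h
    · exact Filter.Eventually.of_forall fun _ h => absurd h hij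
  exact h2.mono fun _ h i j hij => h i j hij

theorem ev_side (s : Fin k → ℂ) (b : ℝ) (hb : ∀ j, (s j).im ≠ b) :
    ∀ᶠ s' : Fin k → ℂ in 𝓝 s, ∀ j, (s' j).im ≠ b ∧ (b < (s' j).im ↔ b < (s j).im) := by
  rw [Filter.eventually_all]
  intro j
  have c1 : Continuous fun s' : Fin k → ℂ => (s' j).im :=
    Complex.continuous_im.comp (continuous_apply j)
  rcases lt_or_gt_of_ne (hb j) with h | h
  · have h1 : ∀ᶠ s' : Fin k → ℂ in 𝓝 s, (s' j).im < b := (isOpen_lt c1 continuous_const).mem_nhds h
    exact h1.mono fun s' h' => ⟨h'.ne, iff_of_false (not_lt.2 h'.le) (not_lt.2 h.le)⟩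
  · have h1 : ∀ᶠ s' : Fin k → ℂ in 𝓝 s, b < (s' j).im := (isOpen_lt continuous_const c1).mem_nhds h
    exact h1.mono fun s' h' => ⟨h'.ne', iff_of_true h' h⟩

end P3d

open P3d in
/-- P3d: zero line integrals. -/
theorem tP3d : S_P3d := by
  intro hA hB hC k μ s c hμ hs hd b hb
  obtain ⟨D, hD1, hD2⟩ := hB μ s b hμ hb
  rw [← hD2 c]
  have h1 : HasFDerivAt (fun s' : Fin k → ℂ =>
      ∑ l, if b < (s l).im then (lam μ l - 1) * per μ s' l else 0)
      (∑ l, if b < (s l).im then (lam μ l - 1) • dper μ s l else 0) s := by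
    refine HasFDerivAt.fun_sum fun l _ => ?_
    by_cases h : b < (s l).im
    · simp only [h, if_true]
      exact (hA μ s hμ hs l).hasFDerivAt.const_mul _
    · simp only [h, if_false]
      exact hasFDerivAt_const _ _
  have h2 : (lin μ b) =ᶠ[𝓝 s] (fun s' : Fin k → ℂ =>
      ∑ l, if b < (s l).im then (lam μ l - 1) * per μ s' l else 0) := by
    filter_upwards [ev_mono s hs, ev_side s b hb] with s' h3 h4
    rw [hC μ s' b hμ h3 fun j => (h4 j).1]
    refine Finset.sum_congr rfl fun l _ => ?_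
    by_cases h : b < (s l).im
    · rw [if_pos h, if_pos ((h4 l).2.2 h)]
    · rw [if_neg h, if_neg fun h' => h ((h4 l).2.1 h')]
  have h3 := hD1.unique (h1.congr_of_eventuallyEq h2)
  rw [h3, sum_apply]
  refine Finset.sum_eq_zero fun l _ => ?_
  by_cases h : b < (s l).im
  · rw [if_pos h, smul_apply, hd l, smul_zero]
  · rw [if_neg h, zero_apply]

end SEP
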