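import Pool.Agent.Lib.SE.P.Spec

/-!
# PROJECT SE-P: the differential equation of `R` (P3e)
-/

set_option autoImplicit false

open MeasureTheory Filter Topology SEJ
open scoped ComplexConjugate

noncomputable section

namespace SEP

namespace P3e

variable {k : ℕ}

/-- `∏_j (1 + τ / (x - s_j))^(-μ_j)` -/
def PP (μ : Fin k → ℝ) (s : Fin k → ℂ) (x τ : ℂ) : ℂ :=
  ∏ j, (1 + τ / (x - s j)) ^ (-(μ j : ℂ))

/-- `p` -/
def pf (μ : Fin k → ℝ) (s : Fin k → ℂ) (x : ℂ) : ℂ := ∑ m, μ m / (x - s m)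

/-- the derivative of `q` -/
def qd (μ : Fin k → ℝ) (s c : Fin k → ℂ) (x : ℂ) : ℂ := ∑ m, -(c m * μ m / (x - s m) ^ 2)

/-- the integrand -/
def FF (μ : Fin k → ℝ) (s c : Fin k → ℂ) (x τ : ℂ) : ℂ := qf μ s c (x + τ) * PP μ s x τ

/-- the derivative of the integrand -/
def DD (μ : Fin k → ℝ) (s c : Fin k → ℂ) (x τ : ℂ) : ℂ :=
  qd μ s c (x + τ) * PP μ s x τ +
    qf μ s c (x + τ) * (PP μ s x τ * (pf μ s x - pf μ s (x + τ)))

/-! ### The slit plane -/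

theorem slit_add {z : ℂ} (hz : z ∈ Complex.slitPlane) {t : ℝ} (ht : 0 ≤ t) :
    z + t ∈ Complex.slitPlane := by
  rw [Complex.mem_slitPlane_iff] at hz ⊢
  rcases hz with h | h
  · left
    rw [Complex.add_re, Complex.ofReal_re]
    linarith
  · right
    rw [Complex.add_im, Complex.ofReal_im, add_zero]
    exact h

theorem slit_one {z : ℂ} (hz : z ∈ Complex.slitPlane) {t : ℝ} (ht : 0 ≤ t) :
    1 + (t : ℂ) / z ∈ Complex.slitPlane := by
  have hz0 : z ≠ 0 := Complex.slitPlane_ne_zero hz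
  have hn : 0 < Complex.normSq z := Complex.normSq_pos.2 hz0
  rw [Complex.mem_slitPlane_iff] at hz ⊢
  rcases ht.eq_or_lt with h0 | h0
  · left
    rw [← h0]
    simp
  · rcases hz with h | h
    · left
      rw [Complex.add_re, Complex.one_re, Complex.div_re, Complex.ofReal_re, Complex.ofReal_im,
        zero_mul, zero_div, add_zero]
      have : 0 < t * z.re / Complex.normSq z := by positivity
      linarith
    · right
      rw [Complex.add_im, Complex.one_im, Complex.div_im, Complex.ofReal_re, Complex.ofReal_im,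
        zero_mul, zero_div, zero_sub, zero_add]
      refine neg_ne_zero.2 (div_ne_zero (mul_ne_zero h0.ne' h) hn.ne')

/-! ### Derivatives -/

theorem prod_logderiv {ι : Type} [DecidableEq ι] (S : Finset ι) (f : ι → ℂ → ℂ) (L : ι → ℂ)
    (x : ℂ) (h : ∀ j ∈ S, HasDerivAt (f j) (f j x * L j) x) :
    HasDerivAt (fun y => ∏ j ∈ S, f j y) ((∏ j ∈ S, f j x) * ∑ j ∈ S, L j) x := by
  induction S using Finset.induction_on with
  | empty =>
    simp only [Finset.prod_empty, Finset.sum_empty, mul_zero]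
    exact hasDerivAt_const x 1
  | insert i S hi ih =>
    have h1 := (h i (Finset.mem_insert_self i S)).mul
      (ih fun j hj => h j (Finset.mem_insert_of_mem hj))
    have h2 : (fun y => ∏ j ∈ insert i S, f j y) = fun y => f i y * ∏ j ∈ S, f j y := by
      funext y
      rw [Finset.prod_insert hi]
    rw [h2, Finset.prod_insert hi, Finset.sum_insert hi]
    refine h1.congr_deriv ?_
    ring

theorem factor_x {z₀ x : ℂ} (m : ℝ) (hz : x - z₀ ∈ Complex.slitPlane) {t : ℝ} (ht : 0 ≤ t) :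
    HasDerivAt (fun y : ℂ => (1 + (t : ℂ) / (y - z₀)) ^ (-(m : ℂ)))
      ((1 + (t : ℂ) / (x - z₀)) ^ (-(m : ℂ)) * (m / (x - z₀) - m / (x + t - z₀))) x := by
  have hz0 : x - z₀ ≠ 0 := Complex.slitPlane_ne_zero hz
  have hg : 1 + (t : ℂ) / (x - z₀) ∈ Complex.slitPlane := slit_one hz ht
  have hg0 : 1 + (t : ℂ) / (x - z₀) ≠ 0 := Complex.slitPlane_ne_zero hg
  have ha : x - z₀ + t ≠ 0 := Complex.slitPlane_ne_zero (slit_add hz ht)
  have hgeq : 1 + (t : ℂ) / (x - z₀) = (x - z₀ + t) / (x - z₀) := by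
    field_simp
  have h1 : HasDerivAt (fun y : ℂ => 1 + (t : ℂ) / (y - z₀)) (-(t : ℂ) / (x - z₀) ^ 2) x := by
    have h2 := ((hasDerivAt_const x (t : ℂ)).div ((hasDerivAt_id x).sub_const z₀) hz0).const_add 1
    refine h2.congr_deriv ?_
    simp
  refine (h1.cpow_const (c := -(m : ℂ)) hg).congr_deriv ?_
  rw [Complex.cpow_sub _ _ hg0, Complex.cpow_one, show x + t - z₀ = x - z₀ + t by ring]
  generalize (1 + (t : ℂ) / (x - z₀)) ^ (-(m : ℂ)) = w
  rw [hgeq]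
  field_simp
  ring

theorem factor_t {z₀ x : ℂ} (m : ℝ) (hz : x - z₀ ∈ Complex.slitPlane) {t : ℝ} (ht : 0 ≤ t) :
    HasDerivAt (fun τ : ℂ => (1 + τ / (x - z₀)) ^ (-(m : ℂ)))
      ((1 + (t : ℂ) / (x - z₀)) ^ (-(m : ℂ)) * (-(m / (x + t - z₀)))) t := by
  have hz0 : x - z₀ ≠ 0 := Complex.slitPlane_ne_zero hz
  have hg : 1 + (t : ℂ) / (x - z₀) ∈ Complex.slitPlane := slit_one hz ht
  have hg0 : 1 + (t : ℂ) / (x - z₀) ≠ 0 := Complex.slitPlane_ne_zero hg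
  have ha : x - z₀ + t ≠ 0 := Complex.slitPlane_ne_zero (slit_add hz ht)
  have hgeq : 1 + (t : ℂ) / (x - z₀) = (x - z₀ + t) / (x - z₀) := by
    field_simp
  have h1 : HasDerivAt (fun τ : ℂ => 1 + τ / (x - z₀)) (1 / (x - z₀)) (t : ℂ) :=
    ((hasDerivAt_id (t : ℂ)).div_const (x - z₀)).const_add 1
  refine (h1.cpow_const (c := -(m : ℂ)) hg).congr_deriv ?_
  rw [Complex.cpow_sub _ _ hg0, Complex.cpow_one, show x + t - z₀ = x - z₀ + t by ring]
  generalize (1 + (t : ℂ) / (x - z₀)) ^ (-(m : ℂ)) = w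
  rw [hgeq]
  field_simp

theorem PP_x (μ : Fin k → ℝ) (s : Fin k → ℂ) {x : ℂ} (hx : ∀ j, x - s j ∈ Complex.slitPlane)
    {t : ℝ} (ht : 0 ≤ t) : HasDerivAt (fun y => PP μ s y t)
      (PP μ s x t * (pf μ s x - pf μ s (x + t))) x := by
  have h := prod_logderiv Finset.univ (fun j y => (1 + (t : ℂ) / (y - s j)) ^ (-(μ j : ℂ)))
    (fun j => μ j / (x - s j) - μ j / (x + t - s j)) x fun j _ => factor_x (μ j) (hx j) ht
  rw [Finset.sum_sub_distrib] at h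
  exact h

theorem PP_t (μ : Fin k → ℝ) (s : Fin k → ℂ) {x : ℂ} (hx : ∀ j, x - s j ∈ Complex.slitPlane)
    {t : ℝ} (ht : 0 ≤ t) : HasDerivAt (fun τ => PP μ s x τ)
      (PP μ s x t * (-pf μ s (x + t))) (t : ℂ) := by
  have h := prod_logderiv Finset.univ (fun j τ => (1 + τ / (x - s j)) ^ (-(μ j : ℂ)))
    (fun j => -(μ j / (x + t - s j))) (t : ℂ) fun j _ => factor_t (μ j) (hx j) ht
  rw [Finset.sum_neg_distrib] at h
  exact h

theorem qf_deriv (μ : Fin k → ℝ) (s c : Fin k → ℂ) {y : ℂ} (hy : ∀ j, y - s j ≠ 0) :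
    HasDerivAt (qf μ s c) (qd μ s c y) y := by
  unfold qf qd
  refine HasDerivAt.fun_sum fun m _ => ?_
  have h2 := (hasDerivAt_const y (c m * μ m)).div ((hasDerivAt_id y).sub_const (s m)) (hy m)
  refine h2.congr_deriv ?_
  simp [neg_div]

theorem ne_add {s : Fin k → ℂ} {x : ℂ} (hx : ∀ j, x - s j ∈ Complex.slitPlane) {t : ℝ}
    (ht : 0 ≤ t) (j : Fin k) : x + t - s j ≠ 0 := by
  rw [show x + t - s j = x - s j + t by ring]
  exact Complex.slitPlane_ne_zero (slit_add (hx j) ht)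

theorem FF_x (μ : Fin k → ℝ) (s c : Fin k → ℂ) {x : ℂ} (hx : ∀ j, x - s j ∈ Complex.slitPlane)
    {t : ℝ} (ht : 0 ≤ t) : HasDerivAt (fun y => FF μ s c y t) (DD μ s c x t) x := by
  have h1 : HasDerivAt (fun y => qf μ s c (y + t)) (qd μ s c (x + t)) x :=
    (qf_deriv μ s c (ne_add hx ht)).comp_add_const x (t : ℂ)
  exact h1.mul (PP_x μ s hx ht)

theorem FF_t (μ : Fin k → ℝ) (s c : Fin k → ℂ) {x : ℂ} (hx : ∀ j, x - s j ∈ Complex.slitPlane)
    {t : ℝ} (ht : 0 ≤ t) : HasDerivAt (fun t : ℝ => FF μ s c x t)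
      (DD μ s c x t - pf μ s x * FF μ s c x t) t := by
  have h1 : HasDerivAt (fun τ : ℂ => qf μ s c (x + τ)) (qd μ s c (x + t)) (t : ℂ) :=
    (qf_deriv μ s c (ne_add hx ht)).comp_const_add x (t : ℂ)
  have h2 := (h1.mul (PP_t μ s hx ht)).comp_ofReal
  refine h2.congr_deriv ?_
  unfold DD FF
  ring

/-! ### Bounds -/

theorem lower_one {z : ℂ} (hz : z ∈ Complex.slitPlane) : ∃ a > 0, ∃ M > 0,
    ∀ᶠ z' in 𝓝 z, z' ∈ Complex.slitPlane ∧ ‖z'‖ ≤ M ∧ ∀ t : ℝ, 0 ≤ t → a * (1 + t) ≤ ‖z' + t‖ := by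
  obtain ⟨ε, hε, hb⟩ := Metric.isOpen_iff.1 Complex.isOpen_slitPlane z hz
  have hM : 0 < ‖z‖ + ε := by positivity
  refine ⟨min (1 / 2) ((ε / 2) / (2 * (‖z‖ + ε) + 2)), by positivity, ‖z‖ + ε, hM, ?_⟩
  filter_upwards [Metric.ball_mem_nhds z (half_pos hε)] with z' hz'
  have h1 : ‖z' - z‖ < ε / 2 := by rwa [Metric.mem_ball, dist_eq_norm] at hz'
  have h2 : ‖z'‖ ≤ ‖z‖ + ε := by
    have h3 : ‖z'‖ ≤ ‖z‖ + ‖z' - z‖ := by
      have := norm_add_le z (z' - z)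
      rwa [add_sub_cancel] at this
    linarith
  refine ⟨hb ?_, h2, fun t ht => ?_⟩
  · rw [Metric.mem_ball, dist_eq_norm]
    linarith
  · rcases le_total (2 * (‖z‖ + ε) + 1) t with h4 | h4
    · have h5 : t ≤ ‖z' + t‖ + ‖z'‖ := by
        have h6 := norm_sub_le (z' + t) z'
        rw [add_sub_cancel_left, Complex.norm_real, Real.norm_of_nonneg ht] at h6
        exact h6
      calc min (1 / 2) ((ε / 2) / (2 * (‖z‖ + ε) + 2)) * (1 + t) ≤ 1 / 2 * (1 + t) :=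
            mul_le_mul_of_nonneg_right (min_le_left _ _) (by linarith)
        _ ≤ ‖z' + t‖ := by linarith
    · have h5 : ε / 2 ≤ ‖z' + t‖ := by
        by_contra hc
        push Not at hc
        have h6 : (-(t : ℂ)) ∈ Metric.ball z ε := by
          rw [Metric.mem_ball, dist_eq_norm]
          have h7 : (-(t : ℂ)) - z = (z' - z) - (z' + t) := by ring
          rw [h7]
          have h8 := norm_sub_le (z' - z) (z' + t)
          linarith
        have h7 := hb h6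
        rw [Complex.mem_slitPlane_iff, Complex.neg_re, Complex.neg_im, Complex.ofReal_re,
          Complex.ofReal_im] at h7
        rcases h7 with h7 | h7
        · linarith
        · exact h7 neg_zero
      have h6 : 0 < 2 * (‖z‖ + ε) + 2 := by linarith
      calc min (1 / 2) ((ε / 2) / (2 * (‖z‖ + ε) + 2)) * (1 + t)
          ≤ (ε / 2) / (2 * (‖z‖ + ε) + 2) * (2 * (‖z‖ + ε) + 2) :=
            mul_le_mul (min_le_right _ _) (by linarith) (by linarith) (by positivity)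
        _ = ε / 2 := div_mul_cancel₀ _ h6.ne'
        _ ≤ ‖z' + t‖ := h5

theorem lower_all {s : Fin k → ℂ} {x : ℂ} (hx : ∀ j, x - s j ∈ Complex.slitPlane) :
    ∃ a > 0, ∃ M > 0, ∀ᶠ y in 𝓝 x, ∀ j, y - s j ∈ Complex.slitPlane ∧ ‖y - s j‖ ≤ M ∧
      ∀ t : ℝ, 0 ≤ t → a * (1 + t) ≤ ‖y - s j + t‖ := by
  choose a ha M hM h using fun j => lower_one (hx j)
  have hA : 0 < ∑ j, 1 / a j + 1 := by
    have : 0 ≤ ∑ j, 1 / a j := Finset.sum_nonneg fun j _ => (one_div_pos.2 (ha j)).le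
    linarith
  have hMM : 0 < ∑ j, M j + 1 := by
    have : 0 ≤ ∑ j, M j := Finset.sum_nonneg fun j _ => (hM j).le
    linarith
  refine ⟨1 / (∑ j, 1 / a j + 1), one_div_pos.2 hA, ∑ j, M j + 1, hMM, ?_⟩
  have h1 : ∀ᶠ y in 𝓝 x, ∀ j, (y - s j) ∈ Complex.slitPlane ∧ ‖y - s j‖ ≤ M j ∧
      ∀ t : ℝ, 0 ≤ t → a j * (1 + t) ≤ ‖y - s j + t‖ := by
    rw [eventually_all]
    intro j
    have h2 : Tendsto (fun y : ℂ => y - s j) (𝓝 x) (𝓝 (x - s j)) :=
      (continuous_id.sub continuous_const).tendsto x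
    exact h2.eventually (h j)
  filter_upwards [h1] with y hy j
  obtain ⟨h3, h4, h5⟩ := hy j
  refine ⟨h3, ?_, fun t ht => ?_⟩
  · have h6 : M j ≤ ∑ j, M j := Finset.single_le_sum (f := M) (fun i _ => (hM i).le)
      (Finset.mem_univ j)
    linarith
  · have h6 : 1 / a j ≤ ∑ j, 1 / a j := Finset.single_le_sum (f := fun j => 1 / a j)
      (fun i _ => (one_div_pos.2 (ha i)).le) (Finset.mem_univ j)
    have h7 : 1 / (∑ j, 1 / a j + 1) ≤ a j := by
      rw [div_le_iff₀ hA]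
      have h8 := mul_le_mul_of_nonneg_left h6 (ha j).le
      rw [mul_one_div_cancel (ha j).ne'] at h8
      have h9 := ha j
      nlinarith
    exact (mul_le_mul_of_nonneg_right h7 (by linarith)).trans (h5 t ht)

/-- The bounds at one point. -/
structure Bd (s : Fin k → ℂ) (a M : ℝ) (y : ℂ) : Prop where
  sl : ∀ j, y - s j ∈ Complex.slitPlane
  up : ∀ j, ‖y - s j‖ ≤ M
  lo : ∀ j, ∀ t : ℝ, 0 ≤ t → a * (1 + t) ≤ ‖y - s j + t‖

theorem PP_bd {μ : Fin k → ℝ} {s : Fin k → ℂ} {a M : ℝ} {y : ℂ} (hμ : Mu μ) (ha : 0 < a)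
    (hM : 0 < M) (h : Bd s a M y) {t : ℝ} (ht : 0 ≤ t) :
    ‖PP μ s y t‖ ≤ (a / M) ^ (-∑ j, μ j) * (t + 1) ^ (-∑ j, μ j) := by
  have h0 : 0 < a / M * (t + 1) := by positivity
  have h1 : ∀ j, ‖(1 + (t : ℂ) / (y - s j)) ^ (-(μ j : ℂ))‖ ≤ (a / M * (t + 1)) ^ (-μ j) := by
    intro j
    have hz := Complex.slitPlane_ne_zero (h.sl j)
    have hzn : 0 < ‖y - s j‖ := norm_pos_iff.2 hz
    have e1 : (-(μ j : ℂ)) = ((-μ j : ℝ) : ℂ) := by push_cast; rfl
    rw [e1, Complex.norm_cpow_real]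
    refine Real.rpow_le_rpow_of_nonpos h0 ?_ (neg_nonpos.2 (hμ.pos j).le)
    have e2 : 1 + (t : ℂ) / (y - s j) = (y - s j + t) / (y - s j) := by field_simp
    rw [e2, norm_div, le_div_iff₀ hzn]
    calc a / M * (t + 1) * ‖y - s j‖ ≤ a / M * (t + 1) * M :=
          mul_le_mul_of_nonneg_left (h.up j) h0.le
      _ = a * (1 + t) := by field_simp; ring
      _ ≤ ‖y - s j + t‖ := h.lo j t ht
  unfold PP
  rw [norm_prod]
  calc ∏ j, ‖(1 + (t : ℂ) / (y - s j)) ^ (-(μ j : ℂ))‖ ≤ ∏ j, (a / M * (t + 1)) ^ (-μ j) :=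
        Finset.prod_le_prod (fun j _ => norm_nonneg _) fun j _ => h1 j
    _ = (a / M * (t + 1)) ^ (-∑ j, μ j) := by
        rw [← Finset.sum_neg_distrib, Real.rpow_sum_of_pos h0]
    _ = (a / M) ^ (-∑ j, μ j) * (t + 1) ^ (-∑ j, μ j) :=
        Real.mul_rpow (by positivity) (by positivity)

theorem lo' {s : Fin k → ℂ} {a M : ℝ} {y : ℂ} (ha : 0 < a) (h : Bd s a M y) {t : ℝ}
    (ht : 0 ≤ t) (j : Fin k) : a ≤ ‖y + t - s j‖ := by
  have h1 := h.lo j t ht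
  rw [show y + t - s j = y - s j + t by ring]
  nlinarith

theorem qf_bd {μ : Fin k → ℝ} {s c : Fin k → ℂ} {a M : ℝ} {y : ℂ} (ha : 0 < a)
    (h : Bd s a M y) {t : ℝ} (ht : 0 ≤ t) :
    ‖qf μ s c (y + t)‖ ≤ ∑ m, ‖c m * μ m‖ / a := by
  unfold qf
  refine (norm_sum_le _ _).trans (Finset.sum_le_sum fun m _ => ?_)
  rw [norm_div]
  exact div_le_div_of_nonneg_left (norm_nonneg _) ha (lo' ha h ht m)

theorem pf_bd {μ : Fin k → ℝ} {s : Fin k → ℂ} {a M : ℝ} {y : ℂ} (ha : 0 < a)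
    (h : Bd s a M y) {t : ℝ} (ht : 0 ≤ t) :
    ‖pf μ s (y + t)‖ ≤ ∑ m, ‖(μ m : ℂ)‖ / a := by
  unfold pf
  refine (norm_sum_le _ _).trans (Finset.sum_le_sum fun m _ => ?_)
  rw [norm_div]
  exact div_le_div_of_nonneg_left (norm_nonneg _) ha (lo' ha h ht m)

theorem qd_bd {μ : Fin k → ℝ} {s c : Fin k → ℂ} {a M : ℝ} {y : ℂ} (ha : 0 < a)
    (h : Bd s a M y) {t : ℝ} (ht : 0 ≤ t) :
    ‖qd μ s c (y + t)‖ ≤ ∑ m, ‖c m * μ m‖ / a ^ 2 := by
  unfold qd
  refine (norm_sum_le _ _).trans (Finset.sum_le_sum fun m _ => ?_)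
  rw [norm_neg, norm_div, norm_pow]
  exact div_le_div_of_nonneg_left (norm_nonneg _) (pow_pos ha 2)
    (pow_le_pow_left₀ ha.le (lo' ha h ht m) 2)

/-- Domination of the integrand and of its derivative. -/
theorem dom {μ : Fin k → ℝ} (s c : Fin k → ℂ) {x : ℂ} (hμ : Mu μ)
    (hx : ∀ j, x - s j ∈ Complex.slitPlane) :
    ∃ B : ℝ, ∀ᶠ y in 𝓝 x, (∀ j, y - s j ∈ Complex.slitPlane) ∧ ∀ t : ℝ, 0 ≤ t →
      ‖FF μ s c y t‖ ≤ B * (t + 1) ^ (-∑ j, μ j) ∧ ‖DD μ s c y t‖ ≤ B * (t + 1) ^ (-∑ j, μ j) := by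
  obtain ⟨a, ha, M, hM, h⟩ := lower_all hx
  obtain ⟨K, hK⟩ : ∃ K, K = (a / M) ^ (-∑ j, μ j) := ⟨_, rfl⟩
  obtain ⟨Q, hQ⟩ : ∃ Q, Q = ∑ m, ‖c m * μ m‖ / a := ⟨_, rfl⟩
  obtain ⟨Q2, hQ2⟩ : ∃ Q2, Q2 = ∑ m, ‖c m * μ m‖ / a ^ 2 := ⟨_, rfl⟩
  obtain ⟨S, hS⟩ : ∃ S, S = ∑ m, ‖(μ m : ℂ)‖ / a := ⟨_, rfl⟩
  have hK0 : 0 ≤ K := by rw [hK]; positivity
  have hQ0 : 0 ≤ Q := by rw [hQ]; exact Finset.sum_nonneg fun m _ => by positivity
  have hQ20 : 0 ≤ Q2 := by rw [hQ2]; exact Finset.sum_nonneg fun m _ => by positivity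
  have hS0 : 0 ≤ S := by rw [hS]; exact Finset.sum_nonneg fun m _ => by positivity
  refine ⟨Q * K + Q2 * K + Q * (K * (S + S)), ?_⟩
  filter_upwards [h] with y hy
  have hb : Bd s a M y := ⟨fun j => (hy j).1, fun j => (hy j).2.1, fun j => (hy j).2.2⟩
  refine ⟨hb.sl, fun t ht => ?_⟩
  have hw : 0 ≤ (t + 1) ^ (-∑ j, μ j) := Real.rpow_nonneg (by linarith) _
  have b1 : ‖PP μ s y t‖ ≤ K * (t + 1) ^ (-∑ j, μ j) := by
    rw [hK]
    exact PP_bd hμ ha hM hb ht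
  have b2 : ‖qf μ s c (y + t)‖ ≤ Q := by rw [hQ]; exact qf_bd ha hb ht
  have b3 : ‖qd μ s c (y + t)‖ ≤ Q2 := by rw [hQ2]; exact qd_bd ha hb ht
  have b4 : ‖pf μ s (y + t)‖ ≤ S := by rw [hS]; exact pf_bd ha hb ht
  have b5 : ‖pf μ s y‖ ≤ S := by
    have := pf_bd (μ := μ) ha hb le_rfl
    rwa [Complex.ofReal_zero, add_zero, ← hS] at this
  have c1 : ‖FF μ s c y t‖ ≤ Q * (K * (t + 1) ^ (-∑ j, μ j)) := by
    unfold FF
    rw [norm_mul]
    exact mul_le_mul b2 b1 (norm_nonneg _) hQ0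
  have c2 : ‖DD μ s c y t‖ ≤ Q2 * (K * (t + 1) ^ (-∑ j, μ j)) +
      Q * (K * (t + 1) ^ (-∑ j, μ j) * (S + S)) := by
    unfold DD
    refine (norm_add_le _ _).trans (add_le_add ?_ ?_)
    · rw [norm_mul]
      exact mul_le_mul b3 b1 (norm_nonneg _) hQ20
    · rw [norm_mul, norm_mul]
      refine mul_le_mul b2 (mul_le_mul b1 ((norm_sub_le _ _).trans (add_le_add b5 b4))
        (norm_nonneg _) (mul_nonneg hK0 hw)) (by positivity) hQ0
  constructor
  · refine c1.trans ?_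
    have : 0 ≤ (Q2 * K + Q * (K * (S + S))) * (t + 1) ^ (-∑ j, μ j) := by positivity
    nlinarith
  · refine c2.trans ?_
    have : 0 ≤ Q * K * (t + 1) ^ (-∑ j, μ j) := by positivity
    nlinarith

theorem int_bound {σ : ℝ} (hσ : 1 < σ) (B : ℝ) :
    Integrable (fun t : ℝ => B * (t + 1) ^ (-σ)) (volume.restrict (Set.Ioi 0)) :=
  (integrableOn_add_rpow_Ioi_of_lt (by linarith) (by norm_num)).const_mul B

theorem meas_FF (μ : Fin k → ℝ) (s c : Fin k → ℂ) (y : ℂ) :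
    Measurable fun t : ℝ => FF μ s c y t := by
  unfold FF PP qf
  fun_prop

theorem meas_DD (μ : Fin k → ℝ) (s c : Fin k → ℂ) (y : ℂ) :
    Measurable fun t : ℝ => DD μ s c y t := by
  unfold DD PP qf qd pf
  fun_prop

end P3e

open P3e in
theorem tP3e : S_P3e := by
  intro k μ s c x hμ hx
  obtain ⟨B, hB⟩ := dom s c hμ hx
  have hBx := hB.self_of_nhds
  have hσ := hμ.one
  have hFint : Integrable (fun t : ℝ => FF μ s c x t) (volume.restrict (Set.Ioi 0)) := by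
    refine (int_bound hσ B).mono' (meas_FF μ s c x).aestronglyMeasurable ?_
    filter_upwards [ae_restrict_mem measurableSet_Ioi] with t ht
    exact (hBx.2 t (le_of_lt ht)).1
  obtain ⟨hDint, hder⟩ := hasDerivAt_integral_of_dominated_loc_of_deriv_le
    (μ := volume.restrict (Set.Ioi (0 : ℝ))) (F := fun y (t : ℝ) => FF μ s c y t)
    (F' := fun y (t : ℝ) => DD μ s c y t) (x₀ := x)
    (bound := fun t : ℝ => B * (t + 1) ^ (-∑ j, μ j)) hB
    (Eventually.of_forall fun y => (meas_FF μ s c y).aestronglyMeasurable) hFint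
    (meas_DD μ s c x).aestronglyMeasurable
    (by
      filter_upwards [ae_restrict_mem measurableSet_Ioi] with t ht y hy
      exact (hy.2 t (le_of_lt ht)).2)
    (int_bound hσ B)
    (by
      filter_upwards [ae_restrict_mem measurableSet_Ioi] with t ht y hy
      exact FF_x μ s c hy.1 (le_of_lt ht))
  -- the total derivative in `t`
  have hlim : Tendsto (fun t : ℝ => FF μ s c x t) atTop (𝓝 0) := by
    rw [tendsto_zero_iff_norm_tendsto_zero]
    have h1 : Tendsto (fun t : ℝ => B * (t + 1) ^ (-∑ j, μ j)) atTop (𝓝 0) := by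
      have h2 := ((tendsto_rpow_neg_atTop (show (0 : ℝ) < ∑ j, μ j by linarith)).comp
        (tendsto_atTop_add_const_right atTop (1 : ℝ) tendsto_id)).const_mul B
      rw [mul_zero] at h2
      exact h2
    refine squeeze_zero' (Eventually.of_forall fun t => norm_nonneg _) ?_ h1
    filter_upwards [eventually_ge_atTop (0 : ℝ)] with t ht
    exact (hBx.2 t ht).1
  have hH := integral_Ioi_of_hasDerivAt_of_tendsto' (a := (0 : ℝ))
    (f := fun t : ℝ => FF μ s c x t) (f' := fun t : ℝ => DD μ s c x t - pf μ s x * FF μ s c x t)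
    (fun t ht => FF_t μ s c hx ht) (hDint.sub (hFint.const_mul _)) hlim
  have h0 : FF μ s c x ((0 : ℝ) : ℂ) = qf μ s c x := by
    unfold FF PP
    simp
  rw [h0, integral_sub hDint (hFint.const_mul _), integral_const_mul, zero_sub] at hH
  have hR : Rf μ s c = fun y => -∫ t in Set.Ioi (0 : ℝ), FF μ s c y t := rfl
  have hval : qf μ s c x + (∑ m, μ m / (x - s m)) * Rf μ s c x =
      -∫ t in Set.Ioi (0 : ℝ), DD μ s c x t := by
    have h3 : Rf μ s c x = -∫ t in Set.Ioi (0 : ℝ), FF μ s c x t := rfl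
    have h4 : (∑ m, μ m / (x - s m) : ℂ) = pf μ s x := rfl
    rw [h3, h4]
    linear_combination hH
  rw [hval, hR]
  exact hder.neg

end SEP
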