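import Pool.Agent.Lib.SE.P.Spec

/-!
# PROJECT SE-P, module P3f: the two formulas for `R` agree
-/

set_option autoImplicit false

open MeasureTheory Filter Topology SEJ

noncomputable section

namespace SEP

namespace P3f

theorem log_ratio (z : ℂ) (t : ℝ) (hz : z.im ≠ 0) :
    Complex.log (1 + (t : ℂ) / z) = Complex.log (z + t) - Complex.log z := by
  have hz0 : z ≠ 0 := fun h => hz (by rw [h]; simp)
  have him : (z + (t : ℂ)).im = z.im := by simp
  have hzt0 : z + (t : ℂ) ≠ 0 := fun h => hz (by rw [← him, h]; simp)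
  have h1 : 1 + (t : ℂ) / z = Complex.exp (Complex.log (z + t) - Complex.log z) := by
    rw [Complex.exp_sub, Complex.exp_log hzt0, Complex.exp_log hz0, add_div, div_self hz0]
  rw [h1, Complex.log_exp]
  all_goals rw [Complex.sub_im, Complex.log_im, Complex.log_im]
  all_goals
    have hp1 : Complex.arg z < Real.pi := Complex.arg_lt_pi_iff.2 (Or.inr hz)
    have hp2 : Complex.arg (z + t) < Real.pi := Complex.arg_lt_pi_iff.2 (Or.inr (by rw [him]; exact hz))
    have hn1 := Complex.neg_pi_lt_arg z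
    have hn2 := Complex.neg_pi_lt_arg (z + t)
    rcases lt_or_gt_of_ne hz with h | h
    · have h2 : Complex.arg z < 0 := Complex.arg_neg_iff.2 h
      have h3 : Complex.arg (z + t) < 0 := Complex.arg_neg_iff.2 (by rw [him]; exact h)
      linarith
    · have h2 : 0 ≤ Complex.arg z := Complex.arg_nonneg_iff.2 h.le
      have h3 : 0 ≤ Complex.arg (z + t) := Complex.arg_nonneg_iff.2 (by rw [him]; exact h.le)
      linarith

theorem pow_ratio (z : ℂ) (t m : ℝ) (hz : z.im ≠ 0) :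
    (1 + (t : ℂ) / z) ^ (-(m : ℂ)) * z ^ (-(m : ℂ)) = (z + t) ^ (-(m : ℂ)) := by
  have hz0 : z ≠ 0 := fun h => hz (by rw [h]; simp)
  have him : (z + (t : ℂ)).im = z.im := by simp
  have hzt0 : z + (t : ℂ) ≠ 0 := fun h => hz (by rw [← him, h]; simp)
  have h1 : 1 + (t : ℂ) / z ≠ 0 := by
    have h2 : 1 + (t : ℂ) / z = (z + t) / z := by rw [add_div, div_self hz0]
    rw [h2]
    exact div_ne_zero hzt0 hz0
  rw [Complex.cpow_def_of_ne_zero h1, Complex.cpow_def_of_ne_zero hz0,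
    Complex.cpow_def_of_ne_zero hzt0, ← Complex.exp_add, log_ratio z t hz]
  ring_nf

theorem low (z : ℂ) (hz : z.im ≠ 0) : ∃ c : ℝ, 0 < c ∧ ∀ t : ℝ, c * (1 + ‖t‖) ≤ ‖z + (t : ℂ)‖ := by
  have h0 : 0 < |z.im| := abs_pos.2 hz
  have hK : 0 < 1 + (‖z‖ + 1) / |z.im| := by positivity
  refine ⟨1 / (1 + (‖z‖ + 1) / |z.im|), by positivity, fun t => ?_⟩
  have h1 : |z.im| ≤ ‖z + (t : ℂ)‖ := by
    have h2 := Complex.abs_im_le_norm (z + (t : ℂ))
    simpa using h2
  have h3 : ‖t‖ ≤ ‖z + (t : ℂ)‖ + ‖z‖ := by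
    have h4 : ((t : ℝ) : ℂ) = (z + (t : ℂ)) - z := by ring
    have h5 : ‖((t : ℝ) : ℂ)‖ ≤ ‖z + (t : ℂ)‖ + ‖z‖ := by
      calc ‖((t : ℝ) : ℂ)‖ = ‖(z + (t : ℂ)) - z‖ := by rw [← h4]
        _ ≤ _ := norm_sub_le _ _
    rwa [Complex.norm_real] at h5
  have h6 : (‖z‖ + 1) / |z.im| * |z.im| ≤ (‖z‖ + 1) / |z.im| * ‖z + (t : ℂ)‖ :=
    mul_le_mul_of_nonneg_left h1 (by positivity)
  rw [div_mul_cancel₀ _ h0.ne'] at h6
  rw [div_mul_eq_mul_div, one_mul, div_le_iff₀ hK]
  nlinarith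

/-- the integrand on the line -/
def Fn {k : ℕ} (μ : Fin k → ℝ) (s c : Fin k → ℂ) (x : ℂ) (t : ℝ) : ℂ :=
  qf μ s c (x + t) * xi s μ (x + t)

variable {k : ℕ} (μ : Fin k → ℝ) (s c : Fin k → ℂ) (x : ℂ)

theorem Fn_cont (hx : ∀ j, x.im ≠ (s j).im) : Continuous (Fn μ s c x) := by
  have h1 : ∀ j, ∀ t : ℝ, x + (t : ℂ) - s j ∈ Complex.slitPlane := fun j t => by
    rw [Complex.mem_slitPlane_iff]
    right
    have h2 := hx j
    simp only [Complex.sub_im, Complex.add_im, Complex.ofReal_im, add_zero]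
    exact sub_ne_zero.2 h2
  unfold Fn qf xi
  refine Continuous.mul ?_ ?_
  · refine continuous_finsetSum _ fun m _ => ?_
    refine Continuous.div continuous_const (by fun_prop) fun t => ?_
    exact Complex.slitPlane_ne_zero (h1 m t)
  · refine continuous_finsetProd _ fun j _ => ?_
    refine Continuous.cpow (by fun_prop) continuous_const fun t => h1 j t

theorem Fn_int (hμ : Mu μ) (hx : ∀ j, x.im ≠ (s j).im) : Integrable (Fn μ s c x) := by
  have hz : ∀ j, (x - s j).im ≠ 0 := fun j => by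
    rw [Complex.sub_im]
    exact sub_ne_zero.2 (hx j)
  choose cc hc0 hc using fun j => low (x - s j) (hz j)
  set C1 : ℝ := ∑ m, ‖c m‖ * μ m / cc m with hC1
  set C2 : ℝ := ∏ j, cc j ^ (-(μ j)) with hC2
  have hmaj : Integrable (fun t : ℝ => C1 * C2 * (1 + ‖t‖) ^ (-(∑ j, μ j))) := by
    refine Integrable.const_mul ?_ _
    refine integrable_one_add_norm ?_
    simpa using hμ.one
  refine Integrable.mono' hmaj (Fn_cont μ s c x hx).aestronglyMeasurable
    (Filter.Eventually.of_forall fun t => ?_)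
  have e1 : ∀ j, x + (t : ℂ) - s j = (x - s j) + t := fun j => by ring
  have hpos : ∀ j, 0 < ‖(x - s j) + (t : ℂ)‖ := fun j =>
    lt_of_lt_of_le (mul_pos (hc0 j) (by positivity)) (hc j t)
  have hq : ‖qf μ s c (x + t)‖ ≤ C1 := by
    unfold qf
    refine (norm_sum_le _ _).trans (Finset.sum_le_sum fun m _ => ?_)
    rw [norm_div, norm_mul, Complex.norm_real, Real.norm_of_nonneg (hμ.pos m).le, e1]
    refine div_le_div_of_nonneg_left (mul_nonneg (norm_nonneg _) (hμ.pos m).le) (hc0 m) ?_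
    refine le_trans ?_ (hc m t)
    have : 0 ≤ ‖t‖ := norm_nonneg _
    nlinarith [hc0 m]
  have hx2 : ‖xi s μ (x + t)‖ ≤ C2 * (1 + ‖t‖) ^ (-(∑ j, μ j)) := by
    unfold xi
    rw [norm_prod]
    have h1 : C2 * (1 + ‖t‖) ^ (-(∑ j, μ j)) = ∏ j, (cc j * (1 + ‖t‖)) ^ (-(μ j)) := by
      rw [hC2, ← Finset.sum_neg_distrib, Real.rpow_sum_of_pos (by positivity), ← Finset.prod_mul_distrib]
      refine Finset.prod_congr rfl fun j _ => ?_
      rw [Real.mul_rpow (hc0 j).le (by positivity)]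
    rw [h1]
    refine Finset.prod_le_prod (fun j _ => norm_nonneg _) fun j _ => ?_
    have h2 : ‖(x + (t : ℂ) - s j) ^ (-(μ j : ℂ))‖ = ‖(x - s j) + (t : ℂ)‖ ^ (-(μ j)) := by
      rw [e1, ← Complex.ofReal_neg]
      exact Complex.norm_cpow_real _ _
    rw [h2]
    exact Real.rpow_le_rpow_of_nonpos (mul_pos (hc0 j) (by positivity)) (hc j t)
      (by have := hμ.pos j; linarith)
  have hC1' : 0 ≤ C1 := (norm_nonneg _).trans hq
  calc ‖Fn μ s c x t‖ = ‖qf μ s c (x + t)‖ * ‖xi s μ (x + t)‖ := by rw [Fn, norm_mul]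
    _ ≤ C1 * (C2 * (1 + ‖t‖) ^ (-(∑ j, μ j))) := mul_le_mul hq hx2 (norm_nonneg _) hC1'
    _ = _ := by ring

theorem R_one (hx : ∀ j, x.im ≠ (s j).im) :
    Rf μ s c x * xi s μ x = - ∫ t in Set.Ioi (0 : ℝ), Fn μ s c x t := by
  have hz : ∀ j, (x - s j).im ≠ 0 := fun j => by
    rw [Complex.sub_im]
    exact sub_ne_zero.2 (hx j)
  rw [Rf, neg_mul, ← integral_mul_const]
  refine congrArg Neg.neg (integral_congr_ae (Filter.Eventually.of_forall fun t => ?_))
  show qf μ s c (x + t) * (∏ j, (1 + (t : ℂ) / (x - s j)) ^ (-(μ j : ℂ))) * xi s μ x = Fn μ s c x t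
  rw [Fn, mul_assoc, xi, xi, ← Finset.prod_mul_distrib]
  refine congrArg (qf μ s c (x + t) * ·) (Finset.prod_congr rfl fun j _ => ?_)
  rw [pow_ratio _ _ _ (hz j)]
  refine congrArg (· ^ (-(μ j : ℂ))) ?_
  ring

theorem R_two (hx : ∀ j, x.im ≠ (s j).im) :
    Rf μ (fun j => - s j) c (-x) * xi s μ x = ∫ t in Set.Ioi (0 : ℝ), Fn μ s c x (-t) := by
  have hz : ∀ j, (x - s j).im ≠ 0 := fun j => by
    rw [Complex.sub_im]
    exact sub_ne_zero.2 (hx j)
  rw [Rf, neg_mul, ← integral_mul_const, ← integral_neg]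
  refine integral_congr_ae (Filter.Eventually.of_forall fun t => ?_)
  show -(qf μ (fun j => - s j) c (-x + t) *
    (∏ j, (1 + (t : ℂ) / (-x - -s j)) ^ (-(μ j : ℂ))) * xi s μ x) = Fn μ s c x (-t)
  have h1 : qf μ (fun j => - s j) c (-x + t) = - qf μ s c (x + ((-t : ℝ) : ℂ)) := by
    unfold qf
    rw [← Finset.sum_neg_distrib]
    refine Finset.sum_congr rfl fun m _ => ?_
    have h2 : -x + (t : ℂ) - -s m = -(x + ((-t : ℝ) : ℂ) - s m) := by
      push_cast
      ring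
    rw [h2, div_neg]
  have h3 : (∏ j, (1 + (t : ℂ) / (-x - -s j)) ^ (-(μ j : ℂ))) * xi s μ x =
      xi s μ (x + ((-t : ℝ) : ℂ)) := by
    rw [xi, xi, ← Finset.prod_mul_distrib]
    refine Finset.prod_congr rfl fun j _ => ?_
    have h4 : (t : ℂ) / (-x - -s j) = ((-t : ℝ) : ℂ) / (x - s j) := by
      have h5 : -x - -s j = -(x - s j) := by ring
      rw [h5, div_neg, Complex.ofReal_neg, neg_div]
    rw [h4, pow_ratio _ _ _ (hz j)]
    refine congrArg (· ^ (-(μ j : ℂ))) ?_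
    ring
  rw [mul_assoc, h3, h1, Fn]
  ring

end P3f

open P3f in
/-- P3f: the two formulas for `R` agree off the horizontal lines. -/
theorem tP3f : S_P3f := by
  intro k μ s c x hμ hx h0
  have hz : ∀ j, (x - s j).im ≠ 0 := fun j => by
    rw [Complex.sub_im]
    exact sub_ne_zero.2 (hx j)
  have hi := Fn_int μ s c x hμ hx
  have hW : xi s μ x ≠ 0 := by
    unfold xi
    refine Finset.prod_ne_zero_iff.2 fun j _ => ?_
    have hzj : x - s j ≠ 0 := fun h => hz j (by rw [h]; simp)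
    rw [Complex.cpow_def_of_ne_zero hzj]
    exact Complex.exp_ne_zero _
  have h1 : ∫ t : ℝ, Fn μ s c x t = 0 := by
    rw [← h0, ← integral_sub_right_eq_self (Fn μ s c x) x.re]
    refine integral_congr_ae (Filter.Eventually.of_forall fun a => ?_)
    show Fn μ s c x (a - x.re) = qf μ s c (pt a x.im) * xi s μ (pt a x.im)
    have h2 : x + ((a - x.re : ℝ) : ℂ) = pt a x.im := by
      unfold pt
      apply Complex.ext <;> simp
    rw [Fn, h2]
  have h3 : (∫ t in Set.Iic (0 : ℝ), Fn μ s c x t) + ∫ t in Set.Ioi (0 : ℝ), Fn μ s c x t = 0 := by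
    rw [intervalIntegral.integral_Iic_add_Ioi hi.integrableOn hi.integrableOn, h1]
  have h4 : ∫ t in Set.Ioi (0 : ℝ), Fn μ s c x (-t) = ∫ t in Set.Iic (0 : ℝ), Fn μ s c x t := by
    have h5 := integral_comp_neg_Ioi (0 : ℝ) (Fn μ s c x)
    rwa [neg_zero] at h5
  refine mul_right_cancel₀ hW ?_
  rw [R_one μ s c x hx, R_two μ s c x hx, h4]
  exact (eq_neg_of_add_eq_zero_left h3).symm

end SEP
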