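import Pool.Agent.Lib.SE.P.Spec

/-!
# PROJECT SE-P, module P3g: `R` is bounded to the right of the branch points
-/

set_option autoImplicit false

open MeasureTheory Filter Topology SEJ

noncomputable section

namespace SEP

namespace P3g

theorem int_rpow (m r : ℝ) (hm : 0 < m) (hr : 0 < r) :
    IntegrableOn (fun t : ℝ => (t + r) ^ (-1 - m)) (Set.Ioi 0) ∧
      ∫ t in Set.Ioi (0 : ℝ), (t + r) ^ (-1 - m) = r ^ (-m) / m := by
  have h0 : IntegrableOn (fun t : ℝ => (t + r) ^ (-1 - m)) (Set.Ioi 0) :=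
    integrableOn_add_rpow_Ioi_of_lt (by linarith) (by linarith)
  refine ⟨h0, ?_⟩
  have hd : ∀ x ∈ Set.Ici (0 : ℝ),
      HasDerivAt (fun t : ℝ => (t + r) ^ (-m) / (-m)) ((x + r) ^ (-1 - m)) x := by
    intro x hx
    have hx0 : 0 < x + r := by
      have : 0 ≤ x := hx
      linarith
    have h1 : HasDerivAt (fun t : ℝ => (t + r) ^ (-m)) (1 * (-m) * (x + r) ^ (-m - 1)) x :=
      ((hasDerivAt_id x).add_const r).rpow_const (Or.inl hx0.ne')
    have h2 := h1.div_const (-m)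
    have h3 : 1 * (-m) * (x + r) ^ (-m - 1) / (-m) = (x + r) ^ (-1 - m) := by
      have h4 : -m - 1 = -1 - m := by ring
      rw [h4]
      field_simp
    rwa [h3] at h2
  have ht : Tendsto (fun t : ℝ => (t + r) ^ (-m) / (-m)) atTop (𝓝 0) := by
    have h1 : Tendsto (fun t : ℝ => (t + r) ^ (-m)) atTop (𝓝 0) :=
      (tendsto_rpow_neg_atTop hm).comp (tendsto_atTop_add_const_right _ r tendsto_id)
    simpa using h1.div_const (-m)
  rw [integral_Ioi_of_hasDerivAt_of_tendsto' hd h0 ht]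
  have hm' : m ≠ 0 := hm.ne'
  rw [zero_add, div_neg, sub_neg_eq_add, zero_add]

theorem norm_add (z : ℂ) (t : ℝ) (hz : 0 ≤ z.re) (ht : 0 ≤ t) :
    (‖z‖ + t) / 2 ≤ ‖z + (t : ℂ)‖ ∧ ‖z‖ ≤ ‖z + (t : ℂ)‖ := by
  have h1 : ‖z + (t : ℂ)‖ ^ 2 = ‖z‖ ^ 2 + 2 * t * z.re + t ^ 2 := by
    rw [← Complex.normSq_eq_norm_sq, ← Complex.normSq_eq_norm_sq, Complex.normSq_apply,
      Complex.normSq_apply]
    simp only [Complex.add_re, Complex.ofReal_re, Complex.add_im, Complex.ofReal_im, add_zero]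
    ring
  have h2 : 0 ≤ t * z.re := mul_nonneg ht hz
  have h3 : 0 ≤ ‖z‖ := norm_nonneg _
  constructor
  · refine le_of_sq_le_sq ?_ (norm_nonneg _)
    rw [h1]
    nlinarith [sq_nonneg (‖z‖ - t)]
  · refine le_of_sq_le_sq ?_ (norm_nonneg _)
    rw [h1]
    nlinarith [sq_nonneg t]

variable {k : ℕ}

theorem term (μ : Fin k → ℝ) (s c : Fin k → ℂ) (x : ℂ) (hμ : Mu μ)
    (hx : ∀ j, 0 ≤ (x - s j).re ∧ x ≠ s j) (t : ℝ) (ht : 0 < t) :
    ‖qf μ s c (x + t) * ∏ j, (1 + (t : ℂ) / (x - s j)) ^ (-(μ j : ℂ))‖ ≤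
      ∑ m, 4 * ‖c m‖ * μ m * ‖x - s m‖ ^ (μ m) * (t + ‖x - s m‖) ^ (-1 - μ m) := by
  have hz0 : ∀ j, x - s j ≠ 0 := fun j => sub_ne_zero.2 (hx j).2
  have hr : ∀ j, 0 < ‖x - s j‖ := fun j => norm_pos_iff.2 (hz0 j)
  have hq : ∀ j, 1 + (t : ℂ) / (x - s j) = (x - s j + t) / (x - s j) := fun j => by
    rw [add_div, div_self (hz0 j)]
  have hn : ∀ j, 1 ≤ ‖1 + (t : ℂ) / (x - s j)‖ := fun j => by
    rw [hq j, norm_div, one_le_div (hr j)]
    exact (norm_add _ t (hx j).1 ht.le).2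
  have hpw : ∀ j, ‖(1 + (t : ℂ) / (x - s j)) ^ (-(μ j : ℂ))‖ = ‖1 + (t : ℂ) / (x - s j)‖ ^ (-(μ j)) :=
    fun j => by
      rw [← Complex.ofReal_neg]
      exact Complex.norm_cpow_real _ _
  rw [norm_mul, norm_prod]
  unfold qf
  refine (mul_le_mul_of_nonneg_right (norm_sum_le _ _)
    (Finset.prod_nonneg fun _ _ => norm_nonneg _)).trans ?_
  rw [Finset.sum_mul]
  refine Finset.sum_le_sum fun m _ => ?_
  have hp : ∏ j, ‖(1 + (t : ℂ) / (x - s j)) ^ (-(μ j : ℂ))‖ ≤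
      ‖1 + (t : ℂ) / (x - s m)‖ ^ (-(μ m)) := by
    rw [← Finset.mul_prod_erase Finset.univ _ (Finset.mem_univ m), hpw m]
    refine mul_le_of_le_one_right (Real.rpow_nonneg (norm_nonneg _) _) ?_
    refine Finset.prod_le_one (fun _ _ => norm_nonneg _) fun j _ => ?_
    rw [hpw j]
    exact Real.rpow_le_one_of_one_le_of_nonpos (hn j) (by have := hμ.pos j; linarith)
  have hy := (norm_add (x - s m) t (hx m).1 ht.le).1
  have hyp : 0 < (‖x - s m‖ + t) / 2 := by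
    have := hr m
    positivity
  have hY : 0 < ‖x - s m + (t : ℂ)‖ := lt_of_lt_of_le hyp hy
  have hμm := hμ.pos m
  have hμl := hμ.lt m
  have hsub : x + (t : ℂ) - s m = x - s m + t := by ring
  have e1 : ‖c m * (μ m : ℂ) / (x + (t : ℂ) - s m)‖ = ‖c m‖ * μ m * ‖x - s m + (t : ℂ)‖⁻¹ := by
    rw [norm_div, norm_mul, Complex.norm_real, Real.norm_of_nonneg hμm.le, hsub, div_eq_mul_inv]
  have e2 : ‖x - s m + (t : ℂ)‖⁻¹ * ‖1 + (t : ℂ) / (x - s m)‖ ^ (-(μ m)) =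
      ‖x - s m‖ ^ (μ m) * ‖x - s m + (t : ℂ)‖ ^ (-1 - μ m) := by
    rw [hq m, norm_div, Real.div_rpow (norm_nonneg _) (norm_nonneg _), Real.rpow_neg (hr m).le,
      div_inv_eq_mul, ← Real.rpow_neg_one ‖x - s m + (t : ℂ)‖, ← mul_assoc, ← Real.rpow_add hY]
    have e3 : -1 + -μ m = -1 - μ m := by ring
    rw [e3, mul_comm]
  have e4 : ‖x - s m + (t : ℂ)‖ ^ (-1 - μ m) ≤ 4 * (t + ‖x - s m‖) ^ (-1 - μ m) := by
    have f1 : ‖x - s m + (t : ℂ)‖ ^ (-1 - μ m) ≤ ((‖x - s m‖ + t) / 2) ^ (-1 - μ m) :=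
      Real.rpow_le_rpow_of_nonpos hyp hy (by linarith)
    have f2 : ((‖x - s m‖ + t) / 2) ^ (-1 - μ m) =
        (2 : ℝ) ^ (1 + μ m) * (t + ‖x - s m‖) ^ (-1 - μ m) := by
      rw [Real.div_rpow (by have := hr m; positivity) (by norm_num), add_comm t,
        div_eq_inv_mul, ← Real.rpow_neg (by norm_num : (0 : ℝ) ≤ 2)]
      have f3 : -(-1 - μ m) = 1 + μ m := by ring
      rw [f3]
    have f4 : (2 : ℝ) ^ (1 + μ m) ≤ 4 := by
      calc (2 : ℝ) ^ (1 + μ m) ≤ (2 : ℝ) ^ (2 : ℝ) :=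
            Real.rpow_le_rpow_of_exponent_le (by norm_num) (by linarith)
        _ = 4 := by norm_num
    have f5 : 0 ≤ (t + ‖x - s m‖) ^ (-1 - μ m) :=
      Real.rpow_nonneg (by have := hr m; positivity) _
    rw [f2] at f1
    exact f1.trans (mul_le_mul_of_nonneg_right f4 f5)
  calc ‖c m * (μ m : ℂ) / (x + (t : ℂ) - s m)‖ * ∏ j, ‖(1 + (t : ℂ) / (x - s j)) ^ (-(μ j : ℂ))‖
      ≤ ‖c m * (μ m : ℂ) / (x + (t : ℂ) - s m)‖ * ‖1 + (t : ℂ) / (x - s m)‖ ^ (-(μ m)) :=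
        mul_le_mul_of_nonneg_left hp (norm_nonneg _)
    _ = ‖c m‖ * μ m * (‖x - s m‖ ^ (μ m) * ‖x - s m + (t : ℂ)‖ ^ (-1 - μ m)) := by
        rw [e1, mul_assoc, e2]
    _ ≤ ‖c m‖ * μ m * (‖x - s m‖ ^ (μ m) * (4 * (t + ‖x - s m‖) ^ (-1 - μ m))) := by
        refine mul_le_mul_of_nonneg_left ?_ (mul_nonneg (norm_nonneg _) hμm.le)
        exact mul_le_mul_of_nonneg_left e4 (Real.rpow_nonneg (norm_nonneg _) _)
    _ = _ := by ring

end P3g

open P3g in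
/-- P3g: `R` is bounded to the right of the branch points. -/
theorem tP3g : S_P3g := by
  intro k μ s c hμ
  refine ⟨∑ m, 4 * ‖c m‖, fun x hx => ?_⟩
  have hr : ∀ j, 0 < ‖x - s j‖ := fun j => norm_pos_iff.2 (sub_ne_zero.2 (hx j).2)
  have hi : ∀ m, IntegrableOn (fun t : ℝ =>
      4 * ‖c m‖ * μ m * ‖x - s m‖ ^ (μ m) * (t + ‖x - s m‖) ^ (-1 - μ m)) (Set.Ioi 0) := fun m =>
    (int_rpow (μ m) ‖x - s m‖ (hμ.pos m) (hr m)).1.const_mul _
  rw [Rf, norm_neg]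
  have h1 := norm_integral_le_of_norm_le (μ := volume.restrict (Set.Ioi (0 : ℝ)))
    (integrable_finsetSum Finset.univ fun m _ => hi m)
    ((ae_restrict_mem measurableSet_Ioi).mono fun t ht => term μ s c x hμ hx t ht)
  refine h1.trans (le_of_eq ?_)
  rw [integral_finsetSum _ fun m _ => hi m]
  refine Finset.sum_congr rfl fun m _ => ?_
  rw [integral_const_mul, (int_rpow (μ m) ‖x - s m‖ (hμ.pos m) (hr m)).2, Real.rpow_neg (hr m).le]
  have h2 : 0 < ‖x - s m‖ ^ (μ m) := Real.rpow_pos_of_pos (hr m) _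
  have h3 := hμ.pos m
  field_simp

end SEP
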