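import Pool.Agent.Lib.SE.P.Spec

/-!
# PROJECT SE-P, module P3h: Liouville with removable singularities
-/

set_option autoImplicit false

open Filter Topology

noncomputable section

namespace SEP

/-- P3h: a bounded holomorphic function off a finite set is constant. -/
theorem tP3h : S_P3h := by
  intro f S C hS
  induction S, hS using Set.Finite.induction_on generalizing f C with
  | empty =>
    intro hd hb
    have hd' : Differentiable ℂ f := fun x => hd x (Set.notMem_empty x)
    have hb' : Bornology.IsBounded (Set.range f) := by
      rw [isBounded_iff_forall_norm_le]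
      refine ⟨C, ?_⟩
      rintro _ ⟨x, rfl⟩
      exact hb x (Set.notMem_empty x)
    exact ⟨f 0, fun x _ => hd'.apply_eq_apply_of_bounded hb' x 0⟩
  | @insert a S haS hS ih =>
    intro hd hb
    have hn : Sᶜ ∈ 𝓝 a := hS.isClosed.isOpen_compl.mem_nhds haS
    have h1 : DifferentiableOn ℂ f (Sᶜ \ {a}) := fun x hx =>
      (hd x (by
        rw [Set.mem_insert_iff, not_or]
        exact ⟨hx.2, hx.1⟩)).differentiableWithinAt
    have h2 : BddAbove (norm ∘ f '' (Sᶜ \ {a})) := by
      refine ⟨C, ?_⟩
      rintro _ ⟨x, hx, rfl⟩
      exact hb x (by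
        rw [Set.mem_insert_iff, not_or]
        exact ⟨hx.2, hx.1⟩)
    have h3 := Complex.differentiableOn_update_limUnder_of_bddAbove hn h1 h2
    set g := Function.update f a (limUnder (𝓝[≠] a) f) with hg
    have hfg : ∀ x, x ≠ a → g x = f x := fun x hx => Function.update_of_ne hx _ _
    obtain ⟨b, hb2⟩ := ih g (max C ‖g a‖)
      (fun x hx => (h3 x hx).differentiableAt (hS.isClosed.isOpen_compl.mem_nhds hx))
      (fun x hx => by
        rcases eq_or_ne x a with h | h
        · rw [h]
          exact le_max_right _ _
        · rw [hfg x h]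
          exact le_max_of_le_left (hb x (by
            rw [Set.mem_insert_iff, not_or]
            exact ⟨h, hx⟩)))
    refine ⟨b, fun x hx => ?_⟩
    rw [Set.mem_insert_iff, not_or] at hx
    rw [← hfg x hx.1]
    exact hb2 x hx.2

end SEP
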