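import Pool.Agent.Lib.SE.P.Spec

/-!
# PROJECT SE-P, module P3i: the kernel of the derivative of the periods
-/

set_option autoImplicit false

open MeasureTheory Filter Topology SEJ

noncomputable section

namespace SEP

namespace P3i

variable {k : ℕ}

theorem coef (s d : Fin k → ℂ) (hs : Function.Injective s)
    (h : ∀ x : ℂ, (∀ j, 0 < (x - s j).re) → ∑ m, d m / (x - s m) = 0)
    (hre : ∀ j, (s j).re = 0) (m : Fin k) : d m = 0 := by
  set F : ℝ → ℂ := fun e => d m + ∑ l ∈ Finset.univ.erase m, d l * ((e : ℂ) / (s m + e - s l)) with hF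
  have hne : ∀ l ∈ Finset.univ.erase m, s m + ((0 : ℝ) : ℂ) - s l ≠ 0 := fun l hl => by
    rw [Complex.ofReal_zero, add_zero]
    exact sub_ne_zero.2 fun hh => (Finset.ne_of_mem_erase hl) (hs hh).symm
  have hc : ContinuousAt F 0 := by
    refine ContinuousAt.add continuousAt_const ?_
    refine tendsto_finsetSum _ fun l hl => ?_
    refine ContinuousAt.mul continuousAt_const ?_
    refine ContinuousAt.div Complex.continuous_ofReal.continuousAt ?_ (hne l hl)
    fun_prop
  have h0 : F 0 = d m := by
    simp only [hF, Complex.ofReal_zero, zero_div, mul_zero, Finset.sum_const_zero, add_zero]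
  have hz : ∀ e : ℝ, 0 < e → F e = 0 := by
    intro e he
    have hec : (e : ℂ) ≠ 0 := Complex.ofReal_ne_zero.2 he.ne'
    have h1 := h (s m + e) fun j => by
      simp only [Complex.sub_re, Complex.add_re, Complex.ofReal_re, hre, zero_add, sub_zero]
      exact he
    rw [← Finset.add_sum_erase Finset.univ _ (Finset.mem_univ m)] at h1
    have h2 : s m + (e : ℂ) - s m = e := by ring
    rw [h2] at h1
    have h3 : F e = (e : ℂ) * (d m / e + ∑ l ∈ Finset.univ.erase m, d l / (s m + e - s l)) := by
      rw [mul_add, mul_div_cancel₀ _ hec, Finset.mul_sum]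
      refine congrArg (d m + ·) (Finset.sum_congr rfl fun l _ => ?_)
      ring
    rw [h3, h1, mul_zero]
  have ht : Tendsto F (𝓝[>] (0 : ℝ)) (𝓝 (F 0)) := hc.mono_left nhdsWithin_le_nhds
  have ht2 : Tendsto F (𝓝[>] (0 : ℝ)) (𝓝 0) :=
    tendsto_const_nhds.congr' (by
      filter_upwards [self_mem_nhdsWithin] with e he
      exact (hz e he).symm)
  rw [← h0]
  exact tendsto_nhds_unique ht ht2

end P3i

open P3i in
/-- P3i: the kernel of the derivative of the periods. -/
theorem tP3i : S_P3i := by
  intro hA hB hC hD hE hF hG hH k μ β c hμ hβ hdp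
  set s : Fin k → ℂ := fun j => Complex.I * (β j : ℂ) with hsdef
  have hsim : ∀ j, (s j).im = β j := fun j => by simp [hsdef]
  have hsre : ∀ j, (s j).re = 0 := fun j => by simp [hsdef]
  have hsm : StrictMono fun j => (s j).im := by
    intro i j hij
    show (s i).im < (s j).im
    rw [hsim, hsim]
    exact hβ hij
  have hinj : Function.Injective s := fun i j hij => hβ.injective (by rw [← hsim, ← hsim, hij])
  have hagree : ∀ x : ℂ, (∀ j, x.im ≠ β j) → Rf μ s c x = Rf μ (fun j => - s j) c (-x) := by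
    intro x hx
    refine hF μ s c x hμ (fun j => by rw [hsim]; exact hx j) ?_
    exact hD hA hB hC μ s c hμ hsm hdp x.im fun j => by
      rw [hsim]
      exact (hx j).symm
  have hxs : ∀ (x : ℂ) (j : Fin k), x.re = 0 → x.im = β j → x = s j := fun x j h1 h2 => by
    apply Complex.ext
    · rw [h1, hsre]
    · rw [h2, hsim]
  -- derivatives
  have hE1 : ∀ x : ℂ, (∀ j, x - s j ∈ Complex.slitPlane) → DifferentiableAt ℂ (Rf μ s c) x :=
    fun x hx => (hE μ s c x hμ hx).differentiableAt
  have hE2 : ∀ x : ℂ, x.re < 0 → DifferentiableAt ℂ (fun y => Rf μ (fun j => - s j) c (-y)) x := by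
    intro x hx
    have h1 : DifferentiableAt ℂ (Rf μ (fun j => - s j) c) (-x) :=
      (hE μ (fun j => - s j) c (-x) hμ fun j => by
        rw [Complex.mem_slitPlane_iff]
        left
        simp only [Complex.sub_re, Complex.neg_re, hsre, neg_zero, sub_zero]
        linarith).differentiableAt
    exact h1.comp x differentiableAt_id.fun_neg
  set f : ℂ → ℂ := fun x => if 0 ≤ x.re then Rf μ s c x else Rf μ (fun j => - s j) c (-x) with hf
  have hre1 : ∀ x : ℂ, 0 < x.re → f =ᶠ[𝓝 x] Rf μ s c := by
    intro x hx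
    have : ∀ᶠ y : ℂ in 𝓝 x, 0 < y.re := (isOpen_lt continuous_const Complex.continuous_re).mem_nhds hx
    filter_upwards [this] with y hy
    rw [hf]
    exact if_pos hy.le
  have hre2 : ∀ x : ℂ, x.re < 0 → f =ᶠ[𝓝 x] fun y => Rf μ (fun j => - s j) c (-y) := by
    intro x hx
    have : ∀ᶠ y : ℂ in 𝓝 x, y.re < 0 := (isOpen_lt Complex.continuous_re continuous_const).mem_nhds hx
    filter_upwards [this] with y hy
    rw [hf]
    exact if_neg (not_le.2 hy)
  have hre3 : ∀ x : ℂ, (∀ j, x.im ≠ β j) → f =ᶠ[𝓝 x] Rf μ s c := by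
    intro x hx
    have : ∀ᶠ y : ℂ in 𝓝 x, ∀ j, y.im ≠ β j := by
      rw [Filter.eventually_all]
      exact fun j => (isOpen_ne_fun Complex.continuous_im continuous_const).mem_nhds (hx j)
    filter_upwards [this] with y hy
    rw [hf]
    show (if 0 ≤ y.re then Rf μ s c y else Rf μ (fun j => - s j) c (-y)) = Rf μ s c y
    split_ifs
    · rfl
    · exact (hagree y hy).symm
  have hdiff : ∀ x ∉ Set.range s, DifferentiableAt ℂ f x := by
    intro x hx
    rcases lt_trichotomy x.re 0 with h | h | h
    · exact (hE2 x h).congr_of_eventuallyEq (hre2 x h)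
    · have hi : ∀ j, x.im ≠ β j := fun j hj => hx ⟨j, (hxs x j h hj).symm⟩
      refine (hE1 x fun j => ?_).congr_of_eventuallyEq (hre3 x hi)
      rw [Complex.mem_slitPlane_iff]
      right
      rw [Complex.sub_im, hsim]
      exact sub_ne_zero.2 (hi j)
    · refine (hE1 x fun j => ?_).congr_of_eventuallyEq (hre1 x h)
      rw [Complex.mem_slitPlane_iff]
      left
      rw [Complex.sub_re, hsre, sub_zero]
      exact h
  obtain ⟨C1, hC1⟩ := hG μ s c hμ
  obtain ⟨C2, hC2⟩ := hG μ (fun j => - s j) c hμ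
  have hbd : ∀ x ∉ Set.range s, ‖f x‖ ≤ max C1 C2 := by
    intro x hx
    have hne : ∀ j, x ≠ s j := fun j hj => hx ⟨j, hj.symm⟩
    rw [hf]
    show ‖if 0 ≤ x.re then Rf μ s c x else Rf μ (fun j => - s j) c (-x)‖ ≤ max C1 C2
    split_ifs with h
    · refine (hC1 x fun j => ⟨?_, hne j⟩).trans (le_max_left _ _)
      rw [Complex.sub_re, hsre, sub_zero]
      exact h
    · refine (hC2 (-x) fun j => ⟨?_, fun hh => hne j (neg_injective hh)⟩).trans (le_max_right _ _)
      simp only [Complex.sub_re, Complex.neg_re, hsre, neg_zero, sub_zero]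
      linarith
  obtain ⟨a, ha⟩ := hH f (Set.range s) (max C1 C2) (Set.finite_range s) hdiff hbd
  -- the equation
  have heq : ∀ x : ℂ, (∀ j, 0 < (x - s j).re) → ∑ m, ((c m + a) * μ m) / (x - s m) = 0 := by
    intro x hx
    rcases isEmpty_or_nonempty (Fin k) with hk | ⟨⟨j0⟩⟩
    · simp
    have hx0 : 0 < x.re := by
      have := hx j0
      rwa [Complex.sub_re, hsre, sub_zero] at this
    have h1 : HasDerivAt (Rf μ s c) (qf μ s c x + (∑ m, μ m / (x - s m)) * Rf μ s c x) x :=
      hE μ s c x hμ fun j => by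
        rw [Complex.mem_slitPlane_iff]
        left
        exact hx j
    have hval : ∀ y : ℂ, 0 < y.re → Rf μ s c y = a := by
      intro y hy
      have h2 := ha y (by
        rintro ⟨j, hj⟩
        rw [← hj, hsre] at hy
        exact lt_irrefl _ hy)
      rw [hf] at h2
      rw [← h2]
      exact (if_pos hy.le).symm
    have h2 : HasDerivAt (Rf μ s c) 0 x := by
      have h3 : Rf μ s c =ᶠ[𝓝 x] fun _ => a := by
        have : ∀ᶠ y : ℂ in 𝓝 x, 0 < y.re :=
          (isOpen_lt continuous_const Complex.continuous_re).mem_nhds hx0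
        filter_upwards [this] with y hy
        exact hval y hy
      exact (hasDerivAt_const x a).congr_of_eventuallyEq h3
    have h3 := h1.unique h2
    rw [hval x hx0] at h3
    rw [← h3, qf, Finset.sum_mul, ← Finset.sum_add_distrib]
    refine Finset.sum_congr rfl fun m _ => ?_
    ring
  have hcm : ∀ m, c m = -a := by
    intro m
    have h1 := coef s (fun m => (c m + a) * μ m) hinj heq hsre m
    have h2 : (μ m : ℂ) ≠ 0 := Complex.ofReal_ne_zero.2 (hμ.pos m).ne'
    have h3 : c m + a = 0 := (mul_eq_zero.1 h1).resolve_right h2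
    exact eq_neg_of_add_eq_zero_left h3
  intro i j
  rw [hcm i, hcm j]

end SEP
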