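import Pool.Agent.Lib.SE.P.P3a
import Pool.Agent.Lib.SE.P.P3b
import Pool.Agent.Lib.SE.P.P3c
import Pool.Agent.Lib.SE.P.P3d
import Pool.Agent.Lib.SE.P.P3e
import Pool.Agent.Lib.SE.P.P3f
import Pool.Agent.Lib.SE.P.P3g
import Pool.Agent.Lib.SE.P.P3h
import Pool.Agent.Lib.SE.P.P3i

/-!
# PROJECT SE-P, module P3j: the periods fill an open set
-/

set_option autoImplicit false

open MeasureTheory Filter Topology SEJ

noncomputable section

namespace SEP

namespace P3j

variable {k : ℕ}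

theorem lam_ne_one (μ : Fin k → ℝ) (hμ : Mu μ) (j : Fin k) : (1 : ℂ) - lam μ j ≠ 0 := by
  intro h
  have h1 : lam μ j = 1 := (sub_eq_zero.1 h).symm
  rw [lam, Complex.exp_eq_one_iff] at h1
  obtain ⟨n, hn⟩ := h1
  have h2 : (2 * Real.pi * Complex.I : ℂ) ≠ 0 := Complex.two_pi_I_ne_zero
  have h3 : (μ j : ℂ) = (n : ℂ) := by
    have h4 : (2 * Real.pi * Complex.I : ℂ) * (μ j : ℂ) = (2 * Real.pi * Complex.I : ℂ) * (n : ℂ) := by
      rw [hn]
      ring
    exact mul_left_cancel₀ h2 h4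
  have h5 : μ j = (n : ℝ) := by exact_mod_cast h3
  have h6 := hμ.pos j
  have h7 := hμ.lt j
  rw [h5] at h6 h7
  have h8 : (0 : ℤ) < n := by exact_mod_cast h6
  have h9 : n < (1 : ℤ) := by exact_mod_cast h7
  omega

theorem ev_mono (s : Fin k → ℂ) (hs : StrictMono fun j => (s j).im) :
    ∀ᶠ s' : Fin k → ℂ in 𝓝 s, StrictMono fun j => (s' j).im := by
  have h1 : ∀ i j : Fin k, i < j → ∀ᶠ s' : Fin k → ℂ in 𝓝 s, (s' i).im < (s' j).im := by
    intro i j hij
    have c1 : Continuous fun s' : Fin k → ℂ => (s' i).im :=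
      Complex.continuous_im.comp (continuous_apply i)
    have c2 : Continuous fun s' : Fin k → ℂ => (s' j).im :=
      Complex.continuous_im.comp (continuous_apply j)
    exact (isOpen_lt c1 c2).mem_nhds (hs hij)
  have h2 : ∀ᶠ s' : Fin k → ℂ in 𝓝 s, ∀ i j : Fin k, i < j → (s' i).im < (s' j).im := by
    rw [Filter.eventually_all]
    intro i
    rw [Filter.eventually_all]
    intro j
    by_cases hij : i < j
    · exact (h1 i j hij).mono fun _ h _ => h
    · exact Filter.Eventually.of_forall fun _ h => absurd h hij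
  exact h2.mono fun _ h i j hij => h i j hij

/-- the linear form `t ↦ ∑ a_j t_j` -/
def ell (a : Fin k → ℂ) : (Fin k → ℂ) →L[ℂ] ℂ :=
  ∑ j, a j • ContinuousLinearMap.proj (R := ℂ) (φ := fun _ => ℂ) j

theorem ell_apply (a t : Fin k → ℂ) : ell a t = ∑ j, a j * t j := by
  unfold ell
  rw [sum_apply]
  refine Finset.sum_congr rfl fun j _ => ?_
  rw [smul_apply, smul_eq_mul, ContinuousLinearMap.proj_apply]

theorem main (hA : S_P3a) (μ β : Fin k → ℝ) (hμ : Mu μ) (hβ : StrictMono β)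
    (hker : ∀ c : Fin k → ℂ, (∀ j, dper μ (fun j => Complex.I * β j) j c = 0) → ∀ i j, c i = c j)
    (hsum : ∀ s : Fin k → ℂ, (StrictMono fun j => (s j).im) → ∑ j, (1 - lam μ j) * per μ s j = 0)
    (A : Set (Fin k → ℂ)) (hAn : A ∈ 𝓝 (fun j => Complex.I * (β j : ℂ))) :
    (fun s j => per μ s j) '' A ∈ 𝓝[{t : Fin k → ℂ | ∑ j, (1 - lam μ j) * t j = 0}]
      (fun j => per μ (fun j => Complex.I * (β j : ℂ)) j) := by
  set s : Fin k → ℂ := fun j => Complex.I * (β j : ℂ) with hsdef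
  have hsm : StrictMono fun j => (s j).im := by
    intro i j hij
    show (s i).im < (s j).im
    simpa [hsdef] using hβ hij
  set G : (Fin k → ℂ) → (Fin k → ℂ) := fun s j => per μ s j with hG
  set D : (Fin k → ℂ) →L[ℂ] (Fin k → ℂ) := ContinuousLinearMap.pi fun j => dper μ s j with hD
  have hGD : HasStrictFDerivAt G D s := hasStrictFDerivAt_pi.2 fun j => hA μ s hμ hsm j
  set L : (Fin k → ℂ) →L[ℂ] ℂ := ell (fun j => 1 - lam μ j) with hL
  have hLa : ∀ t : Fin k → ℂ, L t = ∑ j, (1 - lam μ j) * t j := fun t => ell_apply _ t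
  have hev : ∀ᶠ s' in 𝓝 s, L (G s') = 0 := (ev_mono s hsm).mono fun s' h => by
    rw [hLa]
    exact hsum s' h
  -- the image of D
  have hLD : ∀ c, L (D c) = 0 := by
    have h1 : HasFDerivAt (fun s' => L (G s')) (L.comp D) s :=
      L.hasFDerivAt.comp s hGD.hasFDerivAt
    have h2 : HasFDerivAt (fun s' => L (G s')) (0 : (Fin k → ℂ) →L[ℂ] ℂ) s :=
      (hasFDerivAt_const (0 : ℂ) s).congr_of_eventuallyEq hev
    have h3 := h1.unique h2
    intro c
    have h4 := congrArg (fun T : (Fin k → ℂ) →L[ℂ] ℂ => T c) h3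
    exact h4
  -- k is positive
  have hk : Nonempty (Fin k) := by
    by_contra h
    rw [not_nonempty_iff] at h
    have h1 := hμ.one
    rw [Finset.univ_eq_empty, Finset.sum_empty] at h1
    linarith
  obtain ⟨j0⟩ := hk
  set e : Fin k → ℂ := Pi.single j0 (1 - lam μ j0)⁻¹ with he
  have hLe : L e = 1 := by
    rw [hLa, Finset.sum_eq_single j0]
    · rw [he, Pi.single_eq_same, mul_inv_cancel₀ (lam_ne_one μ hμ j0)]
    · intro j _ hj
      rw [he, Pi.single_eq_of_ne hj, mul_zero]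
    · intro h
      exact absurd (Finset.mem_univ j0) h
  set W : Submodule ℂ (Fin k → ℂ) := LinearMap.ker (L : (Fin k → ℂ) →ₗ[ℂ] ℂ) with hW
  have hWm : ∀ t, t ∈ W ↔ L t = 0 := fun t => LinearMap.mem_ker
  have hrange : LinearMap.range (D : (Fin k → ℂ) →ₗ[ℂ] (Fin k → ℂ)) = W := by
    have hle : LinearMap.range (D : (Fin k → ℂ) →ₗ[ℂ] (Fin k → ℂ)) ≤ W := by
      rintro _ ⟨c, rfl⟩
      exact (hWm _).2 (hLD c)
    refine Submodule.eq_of_le_of_finrank_le hle ?_
    have h1 := LinearMap.finrank_range_add_finrank_ker (D : (Fin k → ℂ) →ₗ[ℂ] (Fin k → ℂ))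
    have h2 := LinearMap.finrank_range_add_finrank_ker (L : (Fin k → ℂ) →ₗ[ℂ] ℂ)
    have h3 : Module.finrank ℂ (LinearMap.range (L : (Fin k → ℂ) →ₗ[ℂ] ℂ)) = 1 := by
      have h4 : LinearMap.range (L : (Fin k → ℂ) →ₗ[ℂ] ℂ) = ⊤ := by
        rw [LinearMap.range_eq_top]
        intro z
        refine ⟨z • e, ?_⟩
        show L (z • e) = z
        rw [map_smul, hLe, smul_eq_mul, mul_one]
      rw [h4, finrank_top]
      exact Module.finrank_self ℂ
    have h5 : Module.finrank ℂ (LinearMap.ker (D : (Fin k → ℂ) →ₗ[ℂ] (Fin k → ℂ))) ≤ 1 := by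
      have h6 : LinearMap.ker (D : (Fin k → ℂ) →ₗ[ℂ] (Fin k → ℂ)) ≤
          Submodule.span ℂ {(fun _ => 1 : Fin k → ℂ)} := by
        intro c hc
        rw [LinearMap.mem_ker] at hc
        have h7 : ∀ i j, c i = c j := hker c fun j => congrFun hc j
        rw [Submodule.mem_span_singleton]
        refine ⟨c j0, ?_⟩
        funext j
        rw [Pi.smul_apply, smul_eq_mul, mul_one]
        exact h7 j0 j
      refine (Submodule.finrank_mono h6).trans ?_
      have h8 := finrank_span_le_card (R := ℂ) ({(fun _ => 1 : Fin k → ℂ)} : Set (Fin k → ℂ))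
      simpa using h8
    rw [← hW] at h2
    omega
  -- the projection
  set π0 : (Fin k → ℂ) →L[ℂ] (Fin k → ℂ) := ContinuousLinearMap.id ℂ _ - L.smulRight e with hπ0
  have hπa : ∀ t, π0 t = t - L t • e := fun t => rfl
  have hπW : ∀ t, π0 t ∈ W := fun t => by
    rw [hWm, hπa, map_sub, map_smul, hLe, smul_eq_mul, mul_one, sub_self]
  set p : (Fin k → ℂ) →L[ℂ] W := π0.codRestrict W hπW with hp
  have hpW : ∀ t (ht : t ∈ W), p t = ⟨t, ht⟩ := fun t ht => by
    apply Subtype.ext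
    show π0 t = t
    rw [hπa, (hWm t).1 ht, zero_smul, sub_zero]
  have hF : HasStrictFDerivAt (fun s' => p (G s')) (p.comp D) s :=
    p.hasStrictFDerivAt.comp s hGD
  have hsurj : LinearMap.range ((p.comp D : (Fin k → ℂ) →L[ℂ] W) : (Fin k → ℂ) →ₗ[ℂ] W) = ⊤ := by
    rw [LinearMap.range_eq_top]
    rintro ⟨w, hw⟩
    have h1 : w ∈ LinearMap.range (D : (Fin k → ℂ) →ₗ[ℂ] (Fin k → ℂ)) := by
      rw [hrange]
      exact hw
    obtain ⟨c, hc⟩ := h1
    refine ⟨c, ?_⟩
    show p (D c) = ⟨w, hw⟩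
    have h2 : D c = w := hc
    rw [h2]
    exact hpW w hw
  have : CompleteSpace W := FiniteDimensional.complete ℂ W
  have hmap := hF.map_nhds_eq_of_surj hsurj
  have hGs : G s ∈ W := (hWm _).2 hev.self_of_nhds
  have hset : {t : Fin k → ℂ | ∑ j, (1 - lam μ j) * t j = 0} = (W : Set (Fin k → ℂ)) := by
    ext t
    rw [Set.mem_ofPred_eq, SetLike.mem_coe, hWm, hLa]
  rw [hset]
  have hA2 : A ∩ {s' | L (G s') = 0} ∈ 𝓝 s := Filter.inter_mem hAn hev
  have h3 : (fun s' => p (G s')) '' (A ∩ {s' | L (G s') = 0}) ∈ 𝓝 (p (G s)) := by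
    rw [← hmap]
    exact Filter.image_mem_map hA2
  rw [hpW (G s) hGs] at h3
  rw [nhdsWithin_eq_map_subtype_coe (s := (W : Set (Fin k → ℂ))) (a := G s) hGs, Filter.mem_map]
  refine Filter.mem_of_superset h3 ?_
  rintro _ ⟨s', ⟨hs1, hs2⟩, rfl⟩
  have h4 : G s' ∈ W := (hWm _).2 hs2
  show ((p (G s') : W) : Fin k → ℂ) ∈ G '' A
  rw [hpW (G s') h4]
  exact ⟨s', hs1, rfl⟩

/-- the line integral below all branch points -/
theorem lin_zero (μ : Fin k → ℝ) (s : Fin k → ℂ) (b : ℝ) (hμ : Mu μ)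
    (hs : StrictMono fun j => (s j).im) (hb : ∀ j, b < (s j).im) : lin μ b s = 0 := by
  set ν : Fin k → ℝ := fun j => μ (Fin.rev j) with hν
  set r : Fin k → ℂ := fun j => (starRingEnd ℂ) (s (Fin.rev j)) with hr
  have hMu : Mu ν := by
    refine ⟨fun j => hμ.pos _, fun j => hμ.lt _, ?_⟩
    have h1 : ∑ j, ν j = ∑ j, μ j := Equiv.sum_comp Fin.revPerm μ
    rw [h1]
    exact hμ.one
  have hrim : ∀ j, (r j).im = -(s (Fin.rev j)).im := fun j => by
    rw [hr]
    exact Complex.conj_im _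
  have hmono : StrictMono fun j => (r j).im := by
    intro i j hij
    show (r i).im < (r j).im
    rw [hrim, hrim]
    have h1 : (s (Fin.rev j)).im < (s (Fin.rev i)).im := hs (Fin.rev_lt_rev.2 hij)
    linarith
  have hne : ∀ j, (r j).im ≠ -b := fun j => by
    rw [hrim]
    have := hb (Fin.rev j)
    intro h
    linarith
  have h1 := tP3c ν r (-b) hMu hmono hne
  have h2 : (∑ l, if -b < (r l).im then (lam ν l - 1) * per ν r l else 0) = 0 := by
    refine Finset.sum_eq_zero fun l _ => ?_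
    rw [if_neg]
    rw [hrim]
    have := hb (Fin.rev l)
    intro h
    linarith
  rw [h2] at h1
  have h3 : lin μ b s = (starRingEnd ℂ) (lin ν (-b) r) := by
    unfold lin
    rw [← integral_conj]
    refine integral_congr_ae (Filter.Eventually.of_forall fun a => ?_)
    show xi s μ (pt a b) = (starRingEnd ℂ) (xi r ν (pt a (-b)))
    unfold xi
    have h4 : ∏ j, (pt a (-b) - r j) ^ (-(ν j : ℂ)) =
        ∏ j, (pt a (-b) - (starRingEnd ℂ) (s j)) ^ (-(μ j : ℂ)) :=
      Equiv.prod_comp Fin.revPerm fun j => (pt a (-b) - (starRingEnd ℂ) (s j)) ^ (-(μ j : ℂ))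
    rw [h4, map_prod]
    refine Finset.prod_congr rfl fun j _ => ?_
    have h5 : pt a (-b) - (starRingEnd ℂ) (s j) = (starRingEnd ℂ) (pt a b - s j) := by
      rw [map_sub]
      refine congrArg (· - (starRingEnd ℂ) (s j)) ?_
      unfold pt
      apply Complex.ext <;> simp
    have h6 : (pt a b - s j).im ≠ 0 := by
      have h7 : (pt a b - s j).im = b - (s j).im := by
        unfold pt
        simp
      rw [h7]
      have := hb j
      intro h
      linarith
    have h8 : (pt a b - s j).arg ≠ Real.pi := fun h => h6 (Complex.arg_eq_pi_iff.1 h).2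
    rw [h5, Complex.conj_cpow _ _ h8, Complex.conj_conj, map_neg, Complex.conj_ofReal]
  rw [h3, h1, map_zero]

/-- the linear relation between the periods -/
theorem sum_rel (μ : Fin k → ℝ) (s : Fin k → ℂ) (hμ : Mu μ) (hs : StrictMono fun j => (s j).im) :
    ∑ j, (1 - lam μ j) * per μ s j = 0 := by
  obtain ⟨m, hm⟩ := (Set.finite_range fun j => (s j).im).bddBelow
  have hb : ∀ j, m - 1 < (s j).im := fun j => by
    have h1 : m ≤ (s j).im := hm ⟨j, rfl⟩
    linarith
  have h1 := tP3c μ s (m - 1) hμ hs fun j => (hb j).ne'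
  rw [lin_zero μ s (m - 1) hμ hs hb] at h1
  have h2 : ∑ j, (1 - lam μ j) * per μ s j =
      -∑ l, if m - 1 < (s l).im then (lam μ l - 1) * per μ s l else 0 := by
    rw [← Finset.sum_neg_distrib]
    refine Finset.sum_congr rfl fun l _ => ?_
    rw [if_pos (hb l)]
    ring
  rw [h2, ← h1, neg_zero]

end P3j

/-- the periods fill an open set of the hyperplane -/
def S_P3J : Prop := ∀ {k : ℕ} (μ β : Fin k → ℝ), Mu μ → StrictMono β →
  ∀ A ∈ 𝓝 (fun j => Complex.I * (β j : ℂ)),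
    (fun s j => per μ s j) '' A ∈ 𝓝[{t : Fin k → ℂ | ∑ j, (1 - lam μ j) * t j = 0}]
      (fun j => per μ (fun j => Complex.I * (β j : ℂ)) j)

/-- the periods fill an open set of the hyperplane -/
theorem tP3J : S_P3J := fun {_} μ β hμ hβ A hA =>
  P3j.main tP3a μ β hμ hβ
    (fun c hc => tP3i tP3a tP3b tP3c tP3d tP3e tP3f tP3g tP3h μ β c hμ hβ hc)
    (fun s hs => P3j.sum_rel μ s hμ hs) A hA

/-- P3j: open image. -/
theorem tP3j : S_P3j := fun _ _ _ => tP3J

end SEP
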