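import Pool.Agent.Lib.SE.P.Spec

/-!
# PROJECT SE-P, module P4: density by reflections (helper37)
-/

set_option autoImplicit false

open Matrix Topology
open scoped ComplexConjugate

noncomputable section

namespace SEP
namespace P4_aux

variable {N : ℕ}

/-- The hermitian form. -/
def hf (H : Matrix (Fin N) (Fin N) ℂ) (x y : Fin N → ℂ) : ℂ := star x ⬝ᵥ H.mulVec y

theorem hf_sub_right (H : Matrix (Fin N) (Fin N) ℂ) (x y z : Fin N → ℂ) :
    hf H x (y - z) = hf H x y - hf H x z := by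
  simp [hf, Matrix.mulVec_sub]

theorem hf_sub_left (H : Matrix (Fin N) (Fin N) ℂ) (x y z : Fin N → ℂ) :
    hf H (x - y) z = hf H x z - hf H y z := by
  simp [hf]

theorem hf_smul_right (H : Matrix (Fin N) (Fin N) ℂ) (c : ℂ) (x y : Fin N → ℂ) :
    hf H x (c • y) = c * hf H x y := by
  simp [hf, Matrix.mulVec_smul]

theorem hf_smul_left (H : Matrix (Fin N) (Fin N) ℂ) (c : ℂ) (x y : Fin N → ℂ) :
    hf H (c • x) y = conj c * hf H x y := by
  simp [hf]

theorem hf_conj {H : Matrix (Fin N) (Fin N) ℂ} (hH : H.IsHermitian) (x y : Fin N → ℂ) :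
    conj (hf H x y) = hf H y x := by
  show star (star x ⬝ᵥ H.mulVec y) = star y ⬝ᵥ H.mulVec x
  rw [← Matrix.star_dotProduct_star, star_star, Matrix.star_mulVec, hH.eq]
  exact (Matrix.dotProduct_mulVec _ _ _).symm

theorem hf_self {H : Matrix (Fin N) (Fin N) ℂ} (hH : H.IsHermitian) (x : Fin N → ℂ) :
    ((hf H x x).re : ℂ) = hf H x x :=
  Complex.conj_eq_iff_re.1 (hf_conj hH x x)

/-- The reflection. -/
def rf (H : Matrix (Fin N) (Fin N) ℂ) (u : Fin N → ℂ) : Matrix (Fin N) (Fin N) ℂ :=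
  1 - (2 / hf H u u) • vecMulVec u (star u ᵥ* H)

theorem vm (H : Matrix (Fin N) (Fin N) ℂ) (u v : Fin N → ℂ) :
    (vecMulVec u (star u ᵥ* H)).mulVec v = hf H u v • u := by
  funext i
  have h2 : hf H u v = (star u ᵥ* H) ⬝ᵥ v := Matrix.dotProduct_mulVec _ _ _
  rw [h2, Pi.smul_apply, smul_eq_mul]
  simp only [Matrix.mulVec, dotProduct, Matrix.vecMulVec_apply, Finset.sum_mul]
  exact Finset.sum_congr rfl fun j _ => by ring

theorem rf_mulVec (H : Matrix (Fin N) (Fin N) ℂ) (u v : Fin N → ℂ) :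
    (rf H u).mulVec v = v - (2 / hf H u u * hf H u v) • u := by
  rw [rf, Matrix.sub_mulVec, Matrix.one_mulVec, Matrix.smul_mulVec, vm, smul_smul]

theorem eq_of_hf {A B : Matrix (Fin N) (Fin N) ℂ}
    (h : ∀ x y, star x ⬝ᵥ A.mulVec y = star x ⬝ᵥ B.mulVec y) : A = B := by
  ext i j
  have h1 := h (Pi.single i 1) (Pi.single j 1)
  simpa using h1

theorem rf_isom {H : Matrix (Fin N) (Fin N) ℂ} (hH : H.IsHermitian) {u : Fin N → ℂ}
    (hu : hf H u u ≠ 0) : (rf H u).conjTranspose * H * rf H u = H := by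
  apply eq_of_hf
  intro x y
  have h1 : star x ⬝ᵥ ((rf H u).conjTranspose * H * rf H u).mulVec y =
      hf H ((rf H u).mulVec x) ((rf H u).mulVec y) := by
    rw [hf, Matrix.star_mulVec, ← Matrix.dotProduct_mulVec, Matrix.mulVec_mulVec,
      Matrix.mulVec_mulVec, Matrix.mul_assoc]
  rw [h1, rf_mulVec, rf_mulVec, hf_sub_left, hf_sub_right, hf_sub_right, hf_smul_left,
    hf_smul_right, hf_smul_right, hf_smul_left]
  have h2 : conj (2 / hf H u u * hf H u x) = 2 / hf H u u * hf H x u := by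
    rw [map_mul, map_div₀, hf_conj hH, hf_conj hH, map_ofNat]
  rw [h2]
  show _ = hf H x y
  field_simp
  ring

theorem rf_mem {F : Subfield ℂ} (hF : ∀ x ∈ F, conj x ∈ F) {H : Matrix (Fin N) (Fin N) ℂ}
    (hHF : ∀ i j, H i j ∈ F) {u : Fin N → ℂ} (hu : ∀ i, u i ∈ F) (i j : Fin N) :
    rf H u i j ∈ F := by
  have h1 : ∀ j, (star u ᵥ* H) j ∈ F := by
    intro j
    simp only [Matrix.vecMul, dotProduct]
    exact F.sum_mem fun i _ => F.mul_mem (hF _ (hu i)) (hHF i j)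
  have h2 : hf H u u ∈ F := by
    have h3 : hf H u u = (star u ᵥ* H) ⬝ᵥ u := Matrix.dotProduct_mulVec _ _ _
    rw [h3]
    simp only [dotProduct]
    exact F.sum_mem fun i _ => F.mul_mem (h1 i) (hu i)
  have h4 : (2 : ℂ) ∈ F := by
    have := natCast_mem F 2
    push_cast at this
    exact this
  rw [rf, Matrix.sub_apply, Matrix.smul_apply, Matrix.vecMulVec_apply, smul_eq_mul]
  refine F.sub_mem ?_ (F.mul_mem (F.div_mem h4 h2) (F.mul_mem (hu i) (h1 j)))
  rw [Matrix.one_apply]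
  split_ifs
  · exact F.one_mem
  · exact F.zero_mem

theorem hf_cont (H : Matrix (Fin N) (Fin N) ℂ) {f g : (Fin N → ℂ) → (Fin N → ℂ)}
    (hf' : Continuous f) (hg : Continuous g) : Continuous fun u => hf H (f u) (g u) := by
  simp only [hf, dotProduct, Matrix.mulVec, Pi.star_apply]
  fun_prop

/-- The complex reflection. -/
theorem exists_u {H : Matrix (Fin N) (Fin N) ℂ} (hH : H.IsHermitian) (v w : Fin N → ℂ)
    (hv : (hf H v v).re < 0) (hw : (hf H w w).re < 0) : ∃ (c : ℂ) (u : Fin N → ℂ), c ≠ 0 ∧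
      hf H u u ≠ 0 ∧ (rf H u).mulVec v = c • w := by
  obtain ⟨A, hA⟩ : ∃ A : ℝ, hf H v v = A := ⟨_, (hf_self hH v).symm⟩
  obtain ⟨B, hB⟩ : ∃ B : ℝ, hf H w w = B := ⟨_, (hf_self hH w).symm⟩
  rw [hA, Complex.ofReal_re] at hv
  rw [hB, Complex.ofReal_re] at hw
  -- the phase
  obtain ⟨θ, hθ1, hθ2⟩ : ∃ θ : ℂ, ‖θ‖ = 1 ∧ ∃ t : ℝ, 0 ≤ t ∧ θ * hf H v w = t := by
    by_cases h0 : hf H v w = 0
    · exact ⟨1, by simp, 0, le_rfl, by simp [h0]⟩
    · refine ⟨conj (hf H v w) / ‖hf H v w‖, ?_, ‖hf H v w‖, norm_nonneg _, ?_⟩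
      · rw [norm_div, Complex.norm_conj, Complex.norm_real, norm_norm, div_self]
        exact norm_ne_zero_iff.2 h0
      · have h1 : ((‖hf H v w‖ : ℝ) : ℂ) ≠ 0 := by
          exact_mod_cast norm_ne_zero_iff.2 h0
        rw [div_mul_eq_mul_div, mul_comm (conj _), Complex.mul_conj, Complex.normSq_eq_norm_sq]
        field_simp
        push_cast
        ring
  obtain ⟨t, ht0, ht⟩ := hθ2
  set ρ : ℝ := Real.sqrt (A / B) with hρ
  have hpos : 0 < A / B := div_pos_of_neg_of_neg hv hw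
  have hρ0 : 0 < ρ := Real.sqrt_pos.2 hpos
  have hρ2 : ρ ^ 2 * B = A := by
    rw [hρ, Real.sq_sqrt hpos.le, div_mul_cancel₀ _ hw.ne]
  have hθ0 : θ ≠ 0 := by
    intro h
    rw [h] at hθ1
    simp at hθ1
  set c : ℂ := ρ * θ with hc
  have hc0 : c ≠ 0 := mul_ne_zero (by exact_mod_cast hρ0.ne') hθ0
  have hcc : c * conj c = (ρ : ℂ) ^ 2 := by
    rw [Complex.mul_conj, Complex.normSq_eq_norm_sq, hc, norm_mul, hθ1, mul_one, Complex.norm_real,
      Real.norm_eq_abs, sq_abs]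
    push_cast
    rfl
  have e1 : hf H (c • w) (c • w) = hf H v v := by
    rw [hf_smul_left, hf_smul_right, ← mul_assoc, mul_comm (conj c), hcc, hB, hA, ← hρ2]
    push_cast
    ring
  have e2 : hf H v (c • w) = ((ρ * t : ℝ) : ℂ) := by
    rw [hf_smul_right, hc, mul_assoc, ht]
    push_cast
    ring
  have e3 : hf H (c • w) v = ((ρ * t : ℝ) : ℂ) := by
    rw [← hf_conj hH, e2, Complex.conj_ofReal]
  have e4 : hf H (v - c • w) (v - c • w) = 2 * ((A - ρ * t : ℝ) : ℂ) := by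
    rw [hf_sub_left, hf_sub_right, hf_sub_right, e1, e2, e3, hA]
    push_cast
    ring
  have e5 : hf H (v - c • w) v = ((A - ρ * t : ℝ) : ℂ) := by
    rw [hf_sub_left, e3, hA]
    push_cast
    ring
  have e6 : ((A - ρ * t : ℝ) : ℂ) ≠ 0 := by
    have : A - ρ * t < 0 := by nlinarith [mul_nonneg hρ0.le ht0]
    exact_mod_cast this.ne
  refine ⟨c, v - c • w, hc0, ?_, ?_⟩
  · rw [e4]
    exact mul_ne_zero two_ne_zero e6
  · rw [rf_mulVec, e4, e5]
    have h7 : 2 / (2 * ((A - ρ * t : ℝ) : ℂ)) * ((A - ρ * t : ℝ) : ℂ) = 1 := by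
      field_simp
    rw [h7, one_smul]
    abel

end P4_aux

open P4_aux in
/-- **P4**. -/
theorem tP4 : S_P4 := by
  intro F hd hF N H hH hHF _ v w hv hw U hU
  obtain ⟨c, u, hc, hu, huv⟩ := exists_u hH v w hv hw
  have hcont : ContinuousAt (fun x : Fin N → ℂ => c⁻¹ • (v - (2 / hf H x x * hf H x v) • x)) u := by
    have h1 : Continuous fun x : Fin N → ℂ => hf H x x := hf_cont H continuous_id continuous_id
    have h2 : Continuous fun x : Fin N → ℂ => hf H x v := hf_cont H continuous_id continuous_const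
    have h3 : ContinuousAt (fun x : Fin N → ℂ => 2 / hf H x x * hf H x v) u :=
      (continuousAt_const.div h1.continuousAt hu).mul h2.continuousAt
    have h4 : ContinuousAt (fun x : Fin N → ℂ => v - (2 / hf H x x * hf H x v) • x) u :=
      continuousAt_const.sub (h3.smul continuousAt_id)
    exact (continuousAt_const (y := c⁻¹)).smul h4
  have hval : c⁻¹ • (v - (2 / hf H u u * hf H u v) • u) = w := by
    rw [← rf_mulVec, huv, smul_smul, inv_mul_cancel₀ hc, one_smul]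
  have h1 : ∀ᶠ x in 𝓝 u, c⁻¹ • (v - (2 / hf H x x * hf H x v) • x) ∈ U := by
    refine hcont ?_
    show U ∈ 𝓝 (c⁻¹ • (v - (2 / hf H u u * hf H u v) • u))
    rw [hval]
    exact hU
  have h2 : ∀ᶠ x in 𝓝 u, hf H x x ≠ 0 :=
    (hf_cont H continuous_id continuous_id).continuousAt.eventually_ne hu
  have hdense : Dense (Set.pi Set.univ fun _ : Fin N => (F : Set ℂ)) :=
    dense_pi _ fun _ _ => hd
  obtain ⟨x, hxF, hx⟩ := hdense.inter_nhds_nonempty (h1.and h2)
  rw [Set.mem_pi] at hxF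
  refine ⟨rf H x, rf_mem hF hHF fun i => hxF i (Set.mem_univ i), rf_isom hH hx.2, c⁻¹,
    inv_ne_zero hc, ?_⟩
  rw [rf_mulVec]
  exact hx.1

end SEP
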