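import Pool.Agent.Lib.SE.P.HAll
import Pool.Agent.Lib.SE.P.P3a
import Pool.Agent.Lib.SE.P.P3b
import Pool.Agent.Lib.SE.P.P3c
import Pool.Agent.Lib.SE.P.P3d
import Pool.Agent.Lib.SE.P.P3e
import Pool.Agent.Lib.SE.P.P3f
import Pool.Agent.Lib.SE.P.P3g
import Pool.Agent.Lib.SE.P.P3h
import Pool.Agent.Lib.SE.P.P3i
import Pool.Agent.Lib.SE.P.P3j
import Pool.Agent.Lib.SE.P.P4
import Pool.Agent.Lib.SE.P.G

/-!
# PROJECT SE-P: `S_G` without hypotheses (helper85)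
-/

set_option autoImplicit false

open MeasureTheory Filter Topology SEJ HC HC.SE SE
open scoped ComplexConjugate Matrix

noncomputable section

namespace SEP

/-- the periods fill an open set of the hyperplane -/
theorem s_P3 {k : ℕ} (μ β : Fin k → ℝ) (hμ : Mu μ) (hβ : StrictMono β)
    (A : Set (Fin k → ℂ)) (hA : A ∈ 𝓝 (fun j => Complex.I * (β j : ℂ))) :
    (fun s j => per μ s j) '' A ∈ 𝓝[{t : Fin k → ℂ | ∑ j, (1 - lam μ j) * t j = 0}]
      (fun j => per μ (fun j => Complex.I * (β j : ℂ)) j) :=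
  P3j.main tP3a μ β hμ hβ
    (fun c hc => tP3i tP3a tP3b tP3c tP3d tP3e tP3f tP3g tP3h μ β c hμ hβ hc)
    (fun s hs => G_rel μ s hμ hs) A hA

/-- **G** -/
theorem s_G : S_G := tG s_P2 tH8 tH9 tH10 tH11 s_P3 tP4

end SEP
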