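import Pool.Agent.Lib.SE.J.Def

/-!
# PROJECT SE-P (note 4600 on MP_640417_ag): abelian varieties of Picard type -- statements P1, P3, P4

* P1: hermitian forms over `ℚ(√-3)` (`e = 1`) and `ℚ(i)` (`e = 0`), Legendre's descent.
* P3: the periods `per μ s j` of the form `∏ (x - s_j)^(-μ_j) dx` fill an open set.
* P4: rational points of the unitary group, density.
-/

set_option autoImplicit false

open MeasureTheory Filter Topology SEJ
open scoped ComplexConjugate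

noncomputable section

namespace SEP

/-! ## P1. Arithmetic -/

/-- the norm form of `ℤ[i]` (`e = 0`) and of `ℤ[(1 + √-3) / 2]` (`e = 1`) -/
def nz (e x y : ℤ) : ℤ := x ^ 2 + e * x * y + y ^ 2

/-- the norm form over `ℚ` -/
def nq (e : ℤ) (x y : ℚ) : ℚ := x ^ 2 + e * x * y + y ^ 2

/-- P1a. PROOF: for a prime `p ∣ b` (so `p ≠ 2 + e`) every residue mod `p` is a value of the norm form
(`FiniteField.exists_root_sum_quadratic`, `ZMod.sq_add_sq`, `p = 2`, `e = 1`: `nz 1 1 0 = 1`);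
induction over the coprime factors of the squarefree `b`, Chinese remainder theorem
(`Int.emod_emod_of_dvd`, `Int.isCoprime_iff_gcd_eq_one`, Bezout). -/
def S_P1a : Prop := ∀ e b : ℤ, (e = 0 ∨ e = 1) → Squarefree b → ¬ (2 + e) ∣ b → ∀ a : ℤ,
  ∃ u v : ℤ, b ∣ nz e u v - a

/-- P1b. The same with small `u`, `v`. PROOF: first reduce `v` to `|v| <= |b| / 2`, then `u` to
`|u + e v / 2| <= |b| / 2` (`Int.emod`, `Int.bmod`); `nz = (u + e v / 2)^2 + (1 - e / 4) v^2`. -/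
def S_P1b : Prop := S_P1a → ∀ e b : ℤ, (e = 0 ∨ e = 1) → Squarefree b → ¬ (2 + e) ∣ b → ∀ a : ℤ,
  ∃ u v : ℤ, b ∣ nz e u v - a ∧ 16 * nz e u v ≤ (8 - e) * b ^ 2

/-- `N(z) = a N(x) + b N(y)` has a nontrivial solution -/
def Slv (e : ℤ) (a b : ℚ) : Prop := ∃ x y z : ℚ × ℚ, (x, y, z) ≠ 0 ∧
  nq e z.1 z.2 = a * nq e x.1 x.2 + b * nq e y.1 y.2

/-- P1c. The composition: `bb' = N(t) - a`. PROOF: `N(z) - a N(x)` is the norm of a quaternion algebra:
with complex numbers in coordinates `(z₁,x₁)(z₂,x₂) = (z₁z₂ + a x₁ conj x₂, z₁ x₂ + x₁ conj z₂)`; take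
`(z₁,x₁) = (t,1)`. From a solution `(x',y',z')` for `(a,b')`: if `y' = 0` it is one for `(a,b)`, else
`y = b' y'` and `b N(b' y') = (N(t) - a) (N(z') - a N(x'))`. -/
def S_P1c : Prop := ∀ (e : ℤ) (a b b' : ℚ) (t : ℚ × ℚ), (e = 0 ∨ e = 1) → b' ≠ 0 →
  b * b' = nq e t.1 t.2 - a → Slv e a b' → Slv e a b

/-- P1d. LEGENDRE'S DESCENT. PROOF: strong induction on `|a| + |b|`; symmetric in `a`, `b`, so
`|a| <= |b|`. If `b = d² b₁` with `|d| > 1` or `b = (2 + e) b₁` (`2 = N(1 + i)`, `3 = N(1 + (1+√-3)/2)`) replace `b` by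
`b₁` (multiply `y` by the element of norm `d²`, `2 + e`). If `|b| = 1` then `|a| = 1`: `a = 1`: `(1, 0, 1)`,
`b = 1`: `(0, 1, 1)`. Otherwise take `t = (u, v)` from P1b: `N(t) - a = b b'`. If `b' = 0`: `(1, 0, t)`.
Else `|b'| <= (8 - e) |b| / 16 + 1 < |b|` (for `e = 0` `b` is odd, so `|b| >= 3`), and `0 < a ∨ 0 < b'` (if
`a < 0` then `b > 0` and `b b' = N(t) - a > 0`). Then P1c. -/
def S_P1d : Prop := S_P1b → S_P1c → ∀ e a b : ℤ, (e = 0 ∨ e = 1) → a ≠ 0 → b ≠ 0 →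
  (0 < a ∨ 0 < b) → Slv e a b

/-- P1e. Binary hermitian forms. PROOF: clear denominators (`a d²`) to integers; P1d for
`(a c, b c)` gives `N(z) = a c N(x) + b c N(y)`; if `N(z) ≠ 0` divide: `c = a N(c x / z) + b N(c y / z)`
(`1 / z = conj z / N(z)`); if `z = 0`: `a N(x) + b N(y) = 0` with `x, y ≠ 0`, and
`a N(x (r+1)/2) + b N(y (r-1)/2) = a N(x) r` for rational `r`. -/
def S_P1e : Prop := S_P1d → ∀ (e : ℤ) (a b c : ℚ), (e = 0 ∨ e = 1) → a ≠ 0 → b ≠ 0 → c ≠ 0 →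
  (0 < c → 0 < a ∨ 0 < b) → (c < 0 → a < 0 ∨ b < 0) →
  ∃ x y : ℚ × ℚ, a * nq e x.1 x.2 + b * nq e y.1 y.2 = c

/-! ## P3. The periods fill an open set -/

variable {k : ℕ}

/-- the exponents -/
structure Mu (μ : Fin k → ℝ) : Prop where
  pos : ∀ j, 0 < μ j
  lt : ∀ j, μ j < 1
  one : 1 < ∑ j, μ j

/-- the periods `∫_(-∞)^(Re s_j) ∏_l (x - s_l)^(-μ_l) dx`, `Im x = Im s_j` -/
def per (μ : Fin k → ℝ) (s : Fin k → ℂ) (j : Fin k) : ℂ := Tp s (xi s μ) j

/-- the coefficients of the derivative -/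
def tau (μ : Fin k → ℝ) (s : Fin k → ℂ) (j m : Fin k) : ℂ :=
  if m = j then 0 else μ m * ∫ a in Set.Iic (s j).re, xi s μ (pt a (s j).im) / (pt a (s j).im - s m)

/-- the derivative of `per μ · j` at `s` in the direction `c` -/
def dper (μ : Fin k → ℝ) (s : Fin k → ℂ) (j : Fin k) : (Fin k → ℂ) →L[ℂ] ℂ :=
  ∑ m, tau μ s j m • (ContinuousLinearMap.proj (R := ℂ) (φ := fun _ => ℂ) m -
    ContinuousLinearMap.proj (R := ℂ) (φ := fun _ => ℂ) j)

/-- P3a. PROOF: for `s'` near `s` (all `Im s'_j` different, `|s'_m - s'_j - ...|` bounded below)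
`per μ s' j = ∫_(t > 0) (-t)^(-μ_j) ∏_(l ≠ j) (s'_j - s'_l - t)^(-μ_l) dt` (substitution
`a = Re s'_j - t`); the integrand is differentiable in `s'`, `|s'_j - s'_l - t| >= c (1 + t)`, so the
derivative is dominated by `C t^(-μ_j) (1 + t)^(-(∑_(l ≠ j) μ_l) - 1)`:
`hasFDerivAt_integral_of_dominated_of_fderiv_le`; the derivative is continuous in `s'` by
`continuousAt_of_dominated`; `hasStrictFDerivAt_of_hasFDerivAt_of_continuousAt`. -/
def S_P3a : Prop := ∀ {k : ℕ} (μ : Fin k → ℝ) (s : Fin k → ℂ), Mu μ →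
  (StrictMono fun j => (s j).im) → ∀ j, HasStrictFDerivAt (fun s' => per μ s' j) (dper μ s j) s

/-- the integral over the line `Im x = b` -/
def lin (μ : Fin k → ℝ) (b : ℝ) (s : Fin k → ℂ) : ℂ := ∫ a : ℝ, xi s μ (pt a b)

/-- `q = ∑_m c_m μ_m / (x - s_m)` -/
def qf (μ : Fin k → ℝ) (s c : Fin k → ℂ) (x : ℂ) : ℂ := ∑ m, c m * μ m / (x - s m)

/-- P3b. PROOF: as P3a (easier: no singularity); the integrand decays as `(1 + |a|)^(-∑ μ)`, its
derivative as `(1 + |a|)^(-∑ μ - 1)`; `∂/∂s_m (x - s_m)^(-μ_m) = μ_m (x - s_m)^(-μ_m - 1)`. -/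
def S_P3b : Prop := ∀ {k : ℕ} (μ : Fin k → ℝ) (s : Fin k → ℂ) (b : ℝ), Mu μ →
  (∀ j, (s j).im ≠ b) → ∃ D : (Fin k → ℂ) →L[ℂ] ℂ, HasFDerivAt (lin μ b) D s ∧
    ∀ c, D c = ∫ a : ℝ, qf μ s c (pt a b) * xi s μ (pt a b)

/-- P3c. PROOF: Stokes with jumps as in SE/J (E1, E2: `S_B2` with `H = xi` above the line `Im = b` and `0`
below it); or: for `b > Im s_j` for all `j` the integral is `0` (shift `b → ∞`), it does not depend on `b`
between the `Im s_j`, and crossing `Im s_j` downwards it changes by `(λ_j - 1) per_j` (C3, C4). -/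
def S_P3c : Prop := ∀ {k : ℕ} (μ : Fin k → ℝ) (s : Fin k → ℂ) (b : ℝ), Mu μ →
  (StrictMono fun j => (s j).im) → (∀ j, (s j).im ≠ b) →
  lin μ b s = ∑ l, if b < (s l).im then (lam μ l - 1) * per μ s l else 0

/-- P3d. PROOF: the formula P3c holds in a neighbourhood of `s` (the conditions are open), so the
derivatives P3b and P3a of both sides agree (`HasFDerivAt.unique`). -/
def S_P3d : Prop := S_P3a → S_P3b → S_P3c → ∀ {k : ℕ} (μ : Fin k → ℝ) (s c : Fin k → ℂ), Mu μ →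
  (StrictMono fun j => (s j).im) → (∀ j, dper μ s j c = 0) → ∀ b : ℝ, (∀ j, (s j).im ≠ b) →
  ∫ a : ℝ, qf μ s c (pt a b) * xi s μ (pt a b) = 0

/-- `R(x) = - ∫_(t > 0) q(x + t) ∏_j (1 + t / (x - s_j))^(-μ_j) dt` -/
def Rf (μ : Fin k → ℝ) (s c : Fin k → ℂ) (x : ℂ) : ℂ :=
  - ∫ t in Set.Ioi (0 : ℝ), qf μ s c (x + t) * ∏ j, (1 + (t : ℂ) / (x - s j)) ^ (-(μ j : ℂ))

/-- P3e. `R' = q + p R` off the left rays, `p = ∑ μ_m / (x - s_m)` (any `s`). PROOF: for `x'` near `x`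
differentiate under the integral sign; the integrand is `f(x', t)` with
`∂_x f = d/dt (q(x+t) ∏ (1 + t/(x-s_j))^(-μ_j)) + p(x) q(x+t) ∏ …` (because with
`W(x) = ∏ (x - s_j)^(-μ_j)` the integrand is `(q W)(x+t) / W(x)` and `W'/W = - p`); the integral of the
first term is `- q(x)` (`integral_Ioi_of_hasDerivAt_of_tendsto`). Domination: `|1 + t/(x' - s_j)| >= c`
and `>= c (1 + t)`, `|q(x' + t)| <= C / (1 + t)`. -/
def S_P3e : Prop := ∀ {k : ℕ} (μ : Fin k → ℝ) (s c : Fin k → ℂ) (x : ℂ), Mu μ →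
  (∀ j, x - s j ∈ Complex.slitPlane) →
  HasDerivAt (Rf μ s c) (qf μ s c x + (∑ m, μ m / (x - s m)) * Rf μ s c x) x

/-- P3f. The two formulas for `R` agree off the horizontal lines. PROOF: for `Im x ≠ Im s_j` and real
`t`: `(1 + t / (x - s_j))^(-μ_j) = (x + t - s_j)^(-μ_j) / (x - s_j)^(-μ_j)` (both numbers in the same half
plane), so `Rf μ s c x * xi s μ x = - ∫_(t > 0) (q xi)(x + t) dt`, and
`Rf μ (-s) c (-x) * xi s μ x = ∫_(t > 0) (q xi)(x - t) dt` (`(1 - t/(x - s_j))^(-μ_j)`, same remark); the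
difference is the integral over the line. -/
def S_P3f : Prop := ∀ {k : ℕ} (μ : Fin k → ℝ) (s c : Fin k → ℂ) (x : ℂ), Mu μ →
  (∀ j, x.im ≠ (s j).im) → ∫ a : ℝ, qf μ s c (pt a x.im) * xi s μ (pt a x.im) = 0 →
  Rf μ s c x = Rf μ (fun j => - s j) c (-x)

/-- P3g. `R` is bounded on the right of all `s_j`. PROOF: `|z + t| >= (|z| + t) / 2` for `Re z >= 0`,
`t >= 0`, `|1 + t/z| >= 1`: with `z_j = x - s_j` the term `m` of the integrand is
`<= C |z_m + t|^(-1) |1 + t / z_m|^(-μ_m) <= C |z_m|^(μ_m) (|z_m| + t)^(-1-μ_m)`, whose integral is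
`C / μ_m`. -/
def S_P3g : Prop := ∀ {k : ℕ} (μ : Fin k → ℝ) (s c : Fin k → ℂ), Mu μ →
  ∃ C : ℝ, ∀ x : ℂ, (∀ j, 0 ≤ (x - s j).re ∧ x ≠ s j) → ‖Rf μ s c x‖ ≤ C

/-- P3h. Liouville with removable singularities (`Complex.differentiableOn_update_limUnder_of_bddAbove`
or `Complex.analyticAt_of_differentiable_on_punctured_nhds_of_continuousAt`, induction on the finite
set, `Differentiable.apply_eq_apply_of_bounded`). -/
def S_P3h : Prop := ∀ (f : ℂ → ℂ) (S : Set ℂ) (C : ℝ), S.Finite →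
  (∀ x ∉ S, DifferentiableAt ℂ f x) → (∀ x ∉ S, ‖f x‖ ≤ C) → ∃ a, ∀ x ∉ S, f x = a

/-- P3i. The kernel. PROOF: `s_j = i β_j`. Let `f x = Rf μ s c x` if `x` is on none of the left rays
`s_j - [0,∞)`, `f x = Rf μ (-s) c (-x)` otherwise. Off the horizontal lines both formulas agree (P3d,
P3f), so `f = Rf μ s c` near every point off the left rays and `f = Rf μ (-s) c (- ·)` near every
point off the right rays (both open sets; they cover `ℂ` minus the `s_j`): for a point off the left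
rays `f = Rf μ s c` in a neighbourhood by definition; for a point of a left ray, not an `s_j`, the
neighbourhood minus the ray is where both agree. Differentiable by P3e (for `-s`, `-x` too), bounded by
P3g (`Re x >= 0` resp. `<= 0`), so constant `= a` (P3h); P3e at `x` with `Re x > 0`:
`∑ (c_m + a) μ_m / (x - s_m) = 0`; multiply by `x - s_m` and let `x → s_m` from the right: `c_m = -a`. -/
def S_P3i : Prop := S_P3a → S_P3b → S_P3c → S_P3d → S_P3e → S_P3f → S_P3g → S_P3h →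
  ∀ {k : ℕ} (μ β : Fin k → ℝ) (c : Fin k → ℂ), Mu μ → StrictMono β →
  (∀ j, dper μ (fun j => Complex.I * β j) j c = 0) → ∀ i j, c i = c j

/-- P3j. OPEN IMAGE. PROOF: the linear map `D = (dper μ s j)_j : ℂ^k → ℂ^k` has kernel
`ℂ (1, …, 1)` (P3i and the form of `dper`) and its image lies in the hyperplane `W : ∑ (1 - λ_j) t_j = 0`
(differentiate P3c for `b < Im s_j` for all `j`, where the line integral is also `0`, or SE/J E1), so it is
`W` by dimensions (`λ_j ≠ 1`). Compose with a linear projection `π : ℂ^k → W` and use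
`HasStrictFDerivAt.map_nhds_eq_of_surj`; near `s₀` the periods lie in `W`. -/
def S_P3j : Prop := S_P3a → S_P3i → (∀ {k : ℕ} (μ : Fin k → ℝ) (s : Fin k → ℂ), Mu μ →
    (StrictMono fun j => (s j).im) → ∑ j, (1 - lam μ j) * per μ s j = 0) →
  ∀ {k : ℕ} (μ β : Fin k → ℝ), Mu μ → StrictMono β → ∀ A ∈ 𝓝 (fun j => Complex.I * (β j : ℂ)),
    (fun s j => per μ s j) '' A ∈ 𝓝[{t : Fin k → ℂ | ∑ j, (1 - lam μ j) * t j = 0}]
      (fun j => per μ (fun j => Complex.I * (β j : ℂ)) j)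

/-! ## P4. Density -/

/-- P4. Let `F ⊆ ℂ` be a dense subfield closed under conjugation, `H` a nondegenerate hermitian
matrix over `F`. A negative vector `v` can be moved into any neighbourhood of a negative vector `w` by
an isometry over `F`, up to a scalar. PROOF: multiply `v` by a scalar so that
`H(v,v) = H(w,w) < 0`, `H(v,w)` real; after a small change of `w` (and again of the scalar) also
`H(v - w, v - w) ≠ 0`. The reflection `r(x) = x - 2 H(x, v-w) / H(v-w,v-w) (v-w)` maps `v` to `w`;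
`g₀ = i r` has no eigenvalue `-1`; `X₀ = (g₀ - 1)(g₀ + 1)⁻¹` satisfies `X₀ᴴ H + H X₀ = 0`. The matrices
`X = H⁻¹ S`, `S` skew hermitian over `F`, are dense in these, and `g = (1 + X)(1 - X)⁻¹` is near `g₀`,
`g v` near `i w`. -/
def S_P4 : Prop := ∀ (F : Subfield ℂ), Dense (F : Set ℂ) → (∀ x ∈ F, conj x ∈ F) →
  ∀ (N : ℕ) (H : Matrix (Fin N) (Fin N) ℂ), H.IsHermitian → (∀ i j, H i j ∈ F) → H.det ≠ 0 →
  ∀ v w : Fin N → ℂ, (star v ⬝ᵥ H.mulVec v).re < 0 → (star w ⬝ᵥ H.mulVec w).re < 0 →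
  ∀ U ∈ 𝓝 w, ∃ g : Matrix (Fin N) (Fin N) ℂ, (∀ i j, g i j ∈ F) ∧
    g.conjTranspose * H * g = H ∧ ∃ z : ℂ, z ≠ 0 ∧ z • g.mulVec v ∈ U

end SEP
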