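import Pool.Agent.Lib.SE.P.SpecQ
import Pool.Agent.Lib.SE.S5.Cm1
import Pool.Agent.Lib.SE.S5.CmC
import Pool.Agent.Lib.SE.W.Pex

/-!
# PROJECT SE-P, module Cmx: abelian varieties of CM type with given signs (helper17)
-/

set_option autoImplicit false

open MeasureTheory Filter Topology SEJ HC HC.SE SE
open scoped ComplexConjugate Matrix

noncomputable section

namespace SEP
namespace Cmx

open NumberField

variable {e : ℤ} {E : Type} [Field E] {ζ : E}

/-- the quadratic equation -/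
theorem eqn (h : IQ e E ζ) (χ : E →+* ℂ) : χ ζ ^ 2 = (e : ℂ) * χ ζ - 1 := by
  have h1 := congrArg χ h.sq
  rwa [map_pow, map_sub, map_mul, map_intCast, map_one] at h1

/-- two embeddings -/
theorem root (h : IQ e E ζ) (χ χ' : E →+* ℂ) : χ' ζ = χ ζ ∨ χ' ζ = (e : ℂ) - χ ζ := by
  have h1 := eqn h χ
  have h2 := eqn h χ'
  have h3 : (χ' ζ - χ ζ) * (χ' ζ - ((e : ℂ) - χ ζ)) = 0 := by linear_combination h2 - h1
  rcases mul_eq_zero.1 h3 with h4 | h4
  · exact Or.inl (sub_eq_zero.1 h4)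
  · exact Or.inr (sub_eq_zero.1 h4)

theorem conj_apply (χ : E →+* ℂ) (x : E) :
    ComplexEmbedding.conjugate χ x = (starRingEnd ℂ) (χ x) := rfl

theorem conj_root (h : IQ e E ζ) (χ : E →+* ℂ) (hχ : (χ ζ).im ≠ 0) :
    (starRingEnd ℂ) (χ ζ) = (e : ℂ) - χ ζ := by
  rcases root h χ (ComplexEmbedding.conjugate χ) with h1 | h1
  · exact absurd (Complex.conj_eq_iff_im.1 h1) hχ
  · exact h1

theorem ext (h : IQ e E ζ) {χ χ' : E →+* ℂ} (hχ : χ ζ = χ' ζ) : χ = χ' := by
  refine RingHom.ext fun x => ?_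
  obtain ⟨p, q, hx⟩ := h.gen x
  rw [hx, map_add, map_mul, map_ratCast, map_ratCast, map_add, map_mul, map_ratCast, map_ratCast,
    hχ]

/-- there are only two embeddings -/
theorem two (h : IQ e E ζ) (χ : E →+* ℂ) (hχ : (χ ζ).im ≠ 0) (χ' : E →+* ℂ) :
    χ' = χ ∨ χ' = ComplexEmbedding.conjugate χ := by
  rcases root h χ χ' with h1 | h1
  · exact Or.inl (ext h h1)
  · refine Or.inr (ext h ?_)
    rw [conj_apply, conj_root h χ hχ, h1]

theorem ne_conj (χ : E →+* ℂ) (hχ : (χ ζ).im ≠ 0) : ComplexEmbedding.conjugate χ ≠ χ := by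
  intro h0
  have h1 : (starRingEnd ℂ) (χ ζ) = χ ζ := DFunLike.congr_fun h0 ζ
  exact hχ (Complex.conj_eq_iff_im.1 h1)

theorem conj_conj (χ : E →+* ℂ) :
    ComplexEmbedding.conjugate (ComplexEmbedding.conjugate χ) = χ :=
  RingHom.ext fun x => by rw [conj_apply, conj_apply, Complex.conj_conj]

/-- one embedding is a CM type -/
theorem isType (h : IQ e E ζ) (χ : E →+* ℂ) (hχ : (χ ζ).im ≠ 0) :
    IsType ({χ} : Set (E →+* ℂ)) := by
  intro χ'
  rw [Set.mem_singleton_iff, Set.mem_singleton_iff]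
  constructor
  · rintro rfl
    exact ne_conj χ' hχ
  · intro h1
    rcases two h χ hχ χ' with h2 | h2
    · exact h2
    · exact absurd (by rw [h2, conj_conj]) h1

theorem im_ne (h : IQ e E ζ) (χ : E →+* ℂ) (hχ : (χ ζ).im ≠ 0) (χ' : E →+* ℂ) :
    (χ' ζ).im ≠ 0 := by
  rcases two h χ hχ χ' with h2 | h2
  · rw [h2]
    exact hχ
  · rw [h2, conj_apply, Complex.conj_im]
    exact neg_ne_zero.2 hχ

/-- `E` is a CM field -/
theorem cmField [NumberField E] (h : IQ e E ζ) (χ : E →+* ℂ) (hχ : (χ ζ).im ≠ 0) :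
    IsCMField E := by
  have htc : IsTotallyComplex E := by
    refine ⟨fun w => ?_⟩
    rw [InfinitePlace.isComplex_iff]
    exact ne_conj w.embedding (im_ne h χ hχ w.embedding)
  have hli : LinearIndependent ℚ ![(1 : E), ζ] := by
    rw [LinearIndependent.pair_iff]
    intro s t hst
    have h1 : (s : E) + (t : E) * ζ = 0 := by
      rw [← hst, Rat.smul_def, Rat.smul_def, mul_one]
    have h2 := congrArg χ h1
    rw [map_add, map_mul, map_ratCast, map_ratCast, map_zero] at h2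
    have h3 := congrArg Complex.im h2
    rw [Complex.add_im, Complex.ratCast_im, Complex.mul_im, Complex.ratCast_im, zero_mul,
      add_zero, zero_add, Complex.ratCast_re, Complex.zero_im] at h3
    have ht : t = 0 := by
      rcases mul_eq_zero.1 h3 with h4 | h4
      · exact_mod_cast h4
      · exact absurd h4 hχ
    refine ⟨?_, ht⟩
    rw [ht, Rat.cast_zero, zero_mul, add_zero] at h1
    exact_mod_cast h1
  have hsp : ⊤ ≤ Submodule.span ℚ (Set.range ![(1 : E), ζ]) := by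
    rintro x -
    obtain ⟨p, q, hx⟩ := h.gen x
    have h1 : (1 : E) ∈ Submodule.span ℚ (Set.range ![(1 : E), ζ]) :=
      Submodule.subset_span ⟨0, rfl⟩
    have h2 : ζ ∈ Submodule.span ℚ (Set.range ![(1 : E), ζ]) := Submodule.subset_span ⟨1, rfl⟩
    have h3 : x = p • (1 : E) + q • ζ := by
      rw [Rat.smul_def, Rat.smul_def, mul_one, hx]
    rw [h3]
    exact Submodule.add_mem _ (Submodule.smul_mem _ _ h1) (Submodule.smul_mem _ _ h2)
  have hrk : Module.finrank ℚ E = 2 := by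
    rw [Module.finrank_eq_card_basis (Module.Basis.mk hli hsp), Fintype.card_fin]
  have hqe : Algebra.IsQuadraticExtension ℚ E := ⟨hrk⟩
  exact IsCMField.ofCMExtension ℚ E

end Cmx

open Cmx in
/-- **Cmx** -/
theorem tCmx : S_Cmx := by
  classical
  intro X E _ _ e ζ φ hIQ him r ε
  have hχ : ((X.τ.comp φ) ζ).im ≠ 0 := him.ne'
  have hcm : NumberField.IsCMField E := cmField hIQ (X.τ.comp φ) hχ
  let Φ : Fin r → Set (E →+* ℂ) := fun i =>
    if ε i then {X.τ.comp φ} else {NumberField.ComplexEmbedding.conjugate (X.τ.comp φ)}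
  have hΦ : ∀ i, IsType (Φ i) := by
    intro i
    change IsType (if ε i then {X.τ.comp φ} else
      {NumberField.ComplexEmbedding.conjugate (X.τ.comp φ)} : Set (E →+* ℂ))
    split_ifs
    · exact isType hIQ _ hχ
    · exact isType hIQ _ (im_ne hIQ _ hχ _)
  let T : ∀ i, Cm1 E (Φ i) := fun i => Classical.choice (S5.cm1 E (Φ i) (hΦ i))
  obtain ⟨P⟩ := tPex.1 (Fin r) fun i => (T i).T
  obtain ⟨B, hB, -, hpure, -⟩ := S5.blkC T P X ⟨φ⟩ hΦ
  refine ⟨P.Y, B, S5.isCMC T P hΦ, hpure, ?_⟩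
  intro i v
  rw [hB, S5.wC_apply, S5.wC_apply, map_smul, Pi.smul_apply, S5.w_I (T i) (hΦ i)]
  have hmem : (X.τ.comp φ ∈ Φ i) ↔ ε i = true := by
    change (X.τ.comp φ ∈ (if ε i then {X.τ.comp φ} else
      {NumberField.ComplexEmbedding.conjugate (X.τ.comp φ)} : Set (E →+* ℂ))) ↔ _
    split_ifs with h1
    · exact ⟨fun _ => h1, fun _ => rfl⟩
    · refine ⟨fun h2 => absurd (Set.mem_singleton_iff.1 h2).symm (ne_conj _ hχ), fun h2 =>
        absurd h2 h1⟩
  by_cases h1 : ε i = true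
  · rw [if_pos (hmem.2 h1), if_pos h1]
  · rw [if_neg fun h2 => h1 (hmem.1 h2), if_neg h1]

end SEP
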