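import Pool.Agent.Lib.SE.P.SpecF
import Pool.Agent.Lib.SE.S5.New

/-!
# PROJECT SE-P, module Cyb: multiplication by the cyclotomic field (helper94)
-/

set_option autoImplicit false

open Module HC HC.SE SE
open scoped ComplexConjugate

noncomputable section

namespace SEP

namespace Cyb

open Polynomial SE.S5

section

variable {m : ℕ} {E : Type} [Field E] [NumberField E] [IsCyclotomicExtension {m} ℚ E] {ζ : E}

/-- Multiplication by the cyclotomic field. -/
theorem blk (X : GF) {r : ℕ} (hm : 3 ≤ m) (hX : ∃ z : X.K, IsPrimitiveRoot z m)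
    (hζ : IsPrimitiveRoot ζ m) {J : AV} (Z : Module.End ℂ J.V) (hlat : ∀ v ∈ J.L, Z v ∈ J.L)
    (hcyc : aeval Z (cyclotomic m ℤ) = 0) (hd : 2 * finrank ℂ J.V = r * m.totient)
    (R : J.V →ₗ[ℝ] J.V →ₗ[ℝ] ℝ) (hR : HC.SE.IsPol J Z R) :
    ∃ (B : Blk X J E r) (inv : E ≃+* E), (∀ v, B.ρ ζ v = Z v) ∧
      (∀ (φ : E →+* X.K) (x : E), φ (inv x) = X.c (φ x)) ∧ (∃ x, inv x ≠ x) ∧
      ∀ x u v, R (B.ρ x u) v = R u (B.ρ (inv x) v) := by
  have : NeZero m := ⟨by omega⟩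
  obtain ⟨z, hz⟩ := hX
  have hirr : Irreducible (cyclotomic m ℚ) := cyclotomic.irreducible_rat (by omega)
  obtain ⟨φ₀⟩ : Nonempty (E →+* X.K) := by
    have h1 : aeval z (minpoly ℚ (hζ.powerBasis ℚ).gen) = 0 := by
      rw [hζ.powerBasis_gen ℚ, ← cyclotomic_eq_minpoly_rat hζ (NeZero.pos m),
        cyclotomic_eq_minpoly_rat hz (NeZero.pos m)]
      exact minpoly.aeval ℚ z
    exact ⟨((hζ.powerBasis ℚ).lift z h1).toRingHom⟩
  obtain ⟨ρ, hρ⟩ := exists_rho hζ Z hcyc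
  have hdim : (hζ.powerBasis ℚ).dim = m.totient := by
    rw [← (hζ.powerBasis ℚ).finrank, IsCyclotomicExtension.finrank E hirr]
  obtain ⟨B, hB⟩ := exists_blk (hζ.powerBasis ℚ) (r := r) ρ
    (fun v hv => by
      rw [hζ.powerBasis_gen ℚ, hρ]
      exact hlat v hv) (by rw [hdim, hd]) φ₀
  obtain ⟨inv, h1, h2, h3⟩ := exists_inv (E := E) (m := m) (by omega) X
  refine ⟨B, inv, fun v => by rw [hB, hρ], h1, h2, fun x u v => ?_⟩
  refine adj_of (ζ := ζ) (hζ.powerBasis ℚ) (hζ.powerBasis_gen ℚ) B.ρ inv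
    (inv_zeta (by omega) hζ inv h3) R (fun u v => ?_) x u v
  rw [hB, hρ]
  exact hR.2.2.2.2 u v

end

end Cyb

theorem tCyb : S_Cyb := by
  intro X m r J Z R hm hX hlat hcyc hd hR
  have : NeZero m := ⟨by omega⟩
  have hm0 : NeZero ((m : ℕ) : ℚ) := ⟨Nat.cast_ne_zero.2 (by omega)⟩
  let E := CyclotomicField m ℚ
  have hEc : IsCyclotomicExtension {m} ℚ E := CyclotomicField.isCyclotomicExtension m ℚ
  let ζ : E := IsCyclotomicExtension.zeta m ℚ E
  have hζ : IsPrimitiveRoot ζ m := IsCyclotomicExtension.zeta_spec m ℚ E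
  obtain ⟨B, inv, hB, hinv, htc, hadj⟩ := Cyb.blk X hm hX hζ Z hlat hcyc hd R hR
  let t : Tp X :=
    { T := J
      E := E
      r := r
      B := B
      inv := inv
      hinv := hinv
      tc := htc
      R := R
      rat := hR.1
      alt := hR.2.1
      herm := hR.2.2.1
      pos := hR.2.2.2.1
      adj := hadj }
  exact ⟨t, rfl, ζ, rfl, hζ, inferInstance, hB, fun u v => rfl⟩

end SEP
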