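import Pool.Agent.Lib.SE.P.SpecF

/-!
# PROJECT SE-P: generators of the fields `ℚ(√-3)`, `ℚ(i)` (Gn)
-/

set_option autoImplicit false

open Module HC HC.SE SE
open scoped ComplexConjugate

noncomputable section

namespace SEP

namespace Gn

/-- A field generated by a root of a quadratic polynomial. -/
theorem gen {E : Type} [Field E] [NumberField E] {ζ : E} {a : ℤ} (h : ζ ^ 2 = (a : E) * ζ - 1)
    (hadj : Algebra.adjoin ℚ {ζ} = ⊤) (x : E) : ∃ p q : ℚ, x = (p : E) + (q : E) * ζ := by
  have hx : x ∈ Algebra.adjoin ℚ {ζ} := by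
    rw [hadj]
    exact Algebra.mem_top
  induction hx using Algebra.adjoin_induction with
  | mem y hy =>
    rw [Set.mem_singleton_iff] at hy
    exact ⟨0, 1, by rw [hy]; simp⟩
  | algebraMap r => exact ⟨r, 0, by simp⟩
  | add y z _ _ hy hz =>
    obtain ⟨p, q, rfl⟩ := hy
    obtain ⟨p', q', rfl⟩ := hz
    exact ⟨p + p', q + q', by push_cast; ring⟩
  | mul y z _ _ hy hz =>
    obtain ⟨p, q, rfl⟩ := hy
    obtain ⟨p', q', rfl⟩ := hz
    refine ⟨p * p' - q * q', p * q' + q * p' + q * q' * a, ?_⟩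
    push_cast
    linear_combination (q : E) * (q' : E) * h

end Gn

theorem tGn : S_Gn := by
  intro X m E _ _ _ ζ φ hζ hm
  have hm0 : NeZero m := ⟨by rcases hm with h | h <;> omega⟩
  have hadj : Algebra.adjoin ℚ {ζ} = ⊤ := IsCyclotomicExtension.adjoin_primitive_root_eq_top hζ
  rcases hm with rfl | rfl
  · have h3 : ζ ^ 3 = 1 := hζ.pow_eq_one
    have h1 : ζ - 1 ≠ 0 := sub_ne_zero.2 (hζ.ne_one (by norm_num))
    have h2 : ζ ^ 2 + ζ + 1 = 0 := by
      have : (ζ - 1) * (ζ ^ 2 + ζ + 1) = 0 := by linear_combination h3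
      exact (mul_eq_zero.1 this).resolve_left h1
    have hg := Gn.gen (a := -1) (by push_cast; linear_combination h2) hadj
    have hw : X.τ (φ ζ) ^ 2 + X.τ (φ ζ) + 1 = 0 := by
      have := congrArg (fun y => X.τ (φ y)) h2
      simpa using this
    have him : (X.τ (φ ζ)).im ≠ 0 := by
      intro h0
      have hr := congrArg Complex.re hw
      simp only [pow_two, Complex.add_re, Complex.mul_re, h0, mul_zero, sub_zero, Complex.one_re,
        Complex.zero_re] at hr
      nlinarith [sq_nonneg ((X.τ (φ ζ)).re + 1 / 2)]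
    rw [if_pos rfl]
    rcases lt_or_gt_of_ne him with h | h
    · refine ⟨-ζ, ⟨Or.inr rfl, by push_cast; linear_combination h2, fun x => ?_⟩, ?_⟩
      · obtain ⟨p, q, rfl⟩ := hg x
        exact ⟨p, -q, by push_cast; ring⟩
      · rw [map_neg, map_neg, Complex.neg_im]
        linarith
    · refine ⟨1 + ζ, ⟨Or.inr rfl, by push_cast; linear_combination h2, fun x => ?_⟩, ?_⟩
      · obtain ⟨p, q, rfl⟩ := hg x
        exact ⟨p - q, q, by push_cast; ring⟩
      · rw [map_add, map_add, map_one, map_one, Complex.add_im, Complex.one_im, zero_add]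
        exact h
  · have h4 : ζ ^ 4 = 1 := hζ.pow_eq_one
    have h1 : ζ ^ 2 - 1 ≠ 0 :=
      sub_ne_zero.2 (hζ.pow_ne_one_of_pos_of_lt (by norm_num) (by norm_num))
    have h2 : ζ ^ 2 + 1 = 0 := by
      have : (ζ ^ 2 - 1) * (ζ ^ 2 + 1) = 0 := by linear_combination h4
      exact (mul_eq_zero.1 this).resolve_left h1
    have hg := Gn.gen (a := 0) (by push_cast; linear_combination h2) hadj
    have hw : X.τ (φ ζ) ^ 2 + 1 = 0 := by
      have := congrArg (fun y => X.τ (φ y)) h2
      simpa using this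
    have him : (X.τ (φ ζ)).im ≠ 0 := by
      intro h0
      have hr := congrArg Complex.re hw
      simp only [pow_two, Complex.add_re, Complex.mul_re, h0, mul_zero, sub_zero, Complex.one_re,
        Complex.zero_re] at hr
      nlinarith [sq_nonneg ((X.τ (φ ζ)).re)]
    rw [if_neg (by norm_num)]
    rcases lt_or_gt_of_ne him with h | h
    · refine ⟨-ζ, ⟨Or.inl rfl, by push_cast; linear_combination h2, fun x => ?_⟩, ?_⟩
      · obtain ⟨p, q, rfl⟩ := hg x
        exact ⟨p, -q, by push_cast; ring⟩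
      · rw [map_neg, map_neg, Complex.neg_im]
        linarith
    · refine ⟨ζ, ⟨Or.inl rfl, by push_cast; linear_combination h2, hg⟩, h⟩

end SEP
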