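import Pool.Agent.Lib.SE.P.SpecQ

/-!
# PROJECT SE-P, module Iso (helper59): isometric data give isomorphic complex structures

`Ψ` is real linear, `D v = Ψ (i v) - i Ψ v`. `D = 0` on `F = 0`; `F (D v) = 0`; `D v` is orthogonal to
the image of `F = 0` for the form of `U` (both forms are invariant under `i`), so `D v = 0` by
positivity.
-/

set_option autoImplicit false

open MeasureTheory Filter Topology SEJ HC HC.SE SE
open scoped ComplexConjugate Matrix

noncomputable section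

namespace SEP

namespace Iso

theorem hv_mul {r : ℕ} {ι : Type} [Fintype ι] (H : Matrix (Fin r) (Fin r) ℂ)
    (M : Matrix (Fin r) ι ℂ) (w w' : ι → ℂ) :
    hv H (M.mulVec w) (M.mulVec w') = w ⬝ᵥ (Mᵀ * H * M.map star).mulVec (star w') := by
  unfold hv
  have h1 : star (M.mulVec w') = (M.map star).mulVec (star w') := by
    funext i
    show conj (∑ j, M i j * w' j) = ∑ j, conj (M i j) * conj (w' j)
    rw [map_sum]
    exact Finset.sum_congr rfl fun j _ => map_mul _ _ _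
  rw [h1, ← Matrix.mulVec_mulVec, ← Matrix.mulVec_mulVec, Matrix.dotProduct_mulVec w,
    Matrix.vecMul_transpose]

/-- The abstract argument. -/
theorem key {V W : Type} [AddCommGroup V] [Module ℂ V] [AddCommGroup W] [Module ℂ W]
    (Ψ : V ≃ₗ[ℝ] W) (F : V →ₗ[ℝ] ℂ) (G : W →ₗ[ℝ] ℂ) (z : ℂ) (hz : z ≠ 0)
    (hFG : ∀ v, G (Ψ v) = z * F v) (hF : ∀ v, F (Complex.I • v) = Complex.I * F v)
    (hG : ∀ w, G (Complex.I • w) = Complex.I * G w)
    (hD : ∀ v, F v = 0 → Ψ (Complex.I • v) = Complex.I • Ψ v)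
    (R : V → V → ℝ) (RW : W →ₗ[ℝ] W →ₗ[ℝ] ℝ) (c : ℝ)
    (hR : ∀ v v', RW (Ψ v) (Ψ v') = c * R v v')
    (hRI : ∀ v v', R (Complex.I • v) (Complex.I • v') = R v v')
    (hWI : ∀ w w', RW (Complex.I • w) (Complex.I • w') = RW w w')
    (hpos : ∀ w, w ≠ 0 → 0 < RW (Complex.I • w) w) (v : V) :
    Ψ (Complex.I • v) = Complex.I • Ψ v := by
  have hI : ∀ {S : Type} [AddCommGroup S] [Module ℂ S] (s : S),
      Complex.I • Complex.I • s = -s := fun s => by
    rw [smul_smul, Complex.I_mul_I, neg_one_smul]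
  have h1 : ∀ k, F k = 0 → RW (Ψ (Complex.I • v) - Complex.I • Ψ v) (Ψ k) = 0 := by
    intro k hk
    have e1 : RW (Ψ (Complex.I • v)) (Ψ k) = RW (-Ψ v) (Ψ (Complex.I • k)) := by
      rw [hR, ← hRI, hI, ← hR, map_neg]
    have e2 : RW (Complex.I • Ψ v) (Ψ k) = RW (-Ψ v) (Ψ (Complex.I • k)) := by
      rw [← hWI, hI, hD k hk]
    rw [map_sub, LinearMap.sub_apply, e1, e2, sub_self]
  by_contra hne
  obtain ⟨d, hd⟩ : ∃ d, d = Ψ (Complex.I • v) - Complex.I • Ψ v := ⟨_, rfl⟩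
  have hd0 : d ≠ 0 := by
    rw [hd]
    exact sub_ne_zero.2 hne
  have hGd : G d = 0 := by
    rw [hd, map_sub, hFG, hF, hG, hFG]
    ring
  have hFk : F (Ψ.symm d) = 0 := by
    have h2 := hFG (Ψ.symm d)
    rw [LinearEquiv.apply_symm_apply, hGd] at h2
    exact (mul_eq_zero.1 h2.symm).resolve_left hz
  have h2 := h1 (Complex.I • Ψ.symm d) (by rw [hF, hFk, mul_zero])
  rw [hD _ hFk, LinearEquiv.apply_symm_apply, ← hd, ← hWI, hI, map_neg, neg_eq_zero] at h2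
  exact (hpos d hd0).ne' h2

end Iso

open Iso in
theorem tIso : S_Iso := by
  intro hZi _ X T T' U E _ _ n l r B B' BU e ζ φ hE hφ inv hinv R RU _ hherm hpos hUherm S SU hS
    hSU _ _ f fU hf hfU hT' P P' a c₀ z h1 h2 _ hz _ hP hPf hP0
  obtain ⟨⟨ZT, hZT⟩, -, -⟩ := hZi X T E n B e ζ φ hE hφ
  obtain ⟨⟨ZT', hZT'⟩, -, -⟩ := hZi X T' E l B' e ζ φ hE hφ
  obtain ⟨⟨ZU, hZU⟩, -, -⟩ := hZi X U E r BU e ζ φ hE hφ
  obtain ⟨σ, hσ⟩ : ∃ σ : E →+* ℂ, σ = X.τ.comp φ := ⟨_, rfl⟩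
  have hσa : ∀ x, X.τ (φ x) = σ x := fun x => by
    rw [hσ]
    rfl
  have hM1 : P.map σ * P'.map σ = 1 := by
    rw [← Matrix.map_mul, h1, Matrix.map_one σ (map_zero σ) (map_one σ)]
  have hM2 : P'.map σ * P.map σ = 1 := by
    rw [← Matrix.map_mul, h2, Matrix.map_one σ (map_zero σ) (map_one σ)]
  let eM : (Fin n ⊕ Fin l → ℂ) ≃ₗ[ℂ] (Fin r → ℂ) :=
    LinearEquiv.ofLinearMap (P.map σ).mulVecLin (P'.map σ).mulVecLin
      (by rw [← Matrix.mulVecLin_mul, hM1, Matrix.mulVecLin_one])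
      (by rw [← Matrix.mulVecLin_mul, hM2, Matrix.mulVecLin_one])
  let zz : (T.V × T'.V) ≃ₗ[ℝ] (Fin n ⊕ Fin l → ℂ) :=
    (ZT.prodCongr ZT') ≪≫ₗ (LinearEquiv.sumArrowLequivProdArrow (Fin n) (Fin l) ℝ ℂ).symm
  let Ψ : (T.V × T'.V) ≃ₗ[ℝ] U.V := zz ≪≫ₗ (eM.restrictScalars ℝ) ≪≫ₗ ZU.symm
  have hzz : ∀ v, zz v = Sum.elim (zc B φ v.1) (zc B' φ v.2) := by
    intro v
    rw [← hZT, ← hZT']
    funext i
    rcases i with i | i <;> rfl
  have hΨ : ∀ v, zc BU φ (Ψ v) = (P.map σ).mulVec (Sum.elim (zc B φ v.1) (zc B' φ v.2)) := by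
    intro v
    rw [← hZU]
    show ZU (ZU.symm ((P.map σ).mulVecLin (zz v))) = _
    rw [ZU.apply_symm_apply, hzz]
    rfl
  -- the functionals
  have hzlin : ∀ {S : AV} {k : ℕ} (D : Blk X S E k) (g : Fin k → ℂ), ∃ F : S.V →ₗ[ℝ] ℂ,
      ∀ v, F v = g ⬝ᵥ zc D φ v := by
    intro S k D g
    refine ⟨∑ i, g i • D.b (φ, i), fun v => ?_⟩
    rw [LinearMap.sum_apply]
    rfl
  obtain ⟨F, hF⟩ := hzlin B f
  obtain ⟨G, hG⟩ := hzlin BU fU
  have hFG : ∀ v : T.V × T'.V, G (Ψ v) = z * (F ∘ₗ LinearMap.fst ℝ T.V T'.V) v := by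
    intro v
    show G (Ψ v) = z * F v.1
    rw [hG, hΨ, hF, Matrix.dotProduct_mulVec]
    have h3 : fU ᵥ* P.map σ = Sum.elim (z • f) 0 := by
      funext i
      rcases i with i | i
      · show ∑ k, fU k * σ (P k (Sum.inl i)) = z * f i
        rw [← hPf]
        exact Finset.sum_congr rfl fun k _ => by rw [hσa]
      · show ∑ k, fU k * σ (P k (Sum.inr i)) = 0
        rw [← hP0 i]
        exact Finset.sum_congr rfl fun k _ => by rw [hσa]
    rw [h3, sumElim_dotProduct_sumElim, zero_dotProduct, add_zero, smul_dotProduct, smul_eq_mul]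
  have hker : ∀ v : T.V × T'.V, (F ∘ₗ LinearMap.fst ℝ T.V T'.V) v = 0 →
      Ψ (Complex.I • v) = Complex.I • Ψ v := by
    intro v hv
    have h3 : f ⬝ᵥ zc B φ v.1 = 0 := by
      rw [← hF]
      exact hv
    have h4 : fU ⬝ᵥ zc BU φ (Ψ v) = 0 := by
      rw [← hG, hFG, hv, mul_zero]
    apply ZU.injective
    rw [hZU, hZU, hfU.ahol _ h4, hΨ, hΨ]
    have h5 : Sum.elim (zc B φ (Complex.I • v).1) (zc B' φ (Complex.I • v).2) =
        (-Complex.I) • Sum.elim (zc B φ v.1) (zc B' φ v.2) := by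
      rw [Prod.smul_fst, Prod.smul_snd, hf.ahol _ h3, hT']
      funext i
      rcases i with i | i <;> rfl
    rw [h5, Matrix.mulVec_smul]
  -- the forms
  obtain ⟨Dg, hDg⟩ : ∃ Dg : Matrix (Fin l) (Fin l) ℂ,
    Dg = (Matrix.diagonal fun i => th e ζ * ((a i : ℚ) : E)).map σ := ⟨_, rfl⟩
  have hform : ∀ v v' : T.V × T'.V, RU (Ψ v) (Ψ v') =
      (c₀ : ℝ) * (R v.1 v'.1 + 2 * (hv Dg (zc B' φ v.2) (zc B' φ v'.2)).re) := by
    intro v v'
    rw [hSU, hS, ← hσ, hΨ, hΨ, hv_mul]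
    have h3 : (P.map σ).map star = (P.map inv).map σ := by
      ext i j
      show conj (σ (P i j)) = σ (inv (P i j))
      rw [← hσa, ← hσa, hinv]
    have h4 : (P.map σ)ᵀ * SU.map σ * (P.map σ).map star =
        (c₀ : ℂ) • Matrix.fromBlocks (S.map σ) 0 0 Dg := by
      rw [h3, ← Matrix.transpose_map, ← Matrix.map_mul, ← Matrix.map_mul, hP, hDg]
      ext i j
      rw [Matrix.map_apply, Matrix.smul_apply, Matrix.smul_apply, smul_eq_mul, smul_eq_mul,
        map_mul, map_ratCast]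
      congr 1
      rcases i with i | i <;> rcases j with j | j
      · rfl
      · exact map_zero σ
      · exact map_zero σ
      · rfl
    rw [h4, Matrix.smul_mulVec, dotProduct_smul, Matrix.fromBlocks_mulVec, Matrix.zero_mulVec,
      Matrix.zero_mulVec, add_zero, zero_add, sumElim_dotProduct_sumElim, smul_eq_mul]
    have h5 : ∀ x : ℂ, ((c₀ : ℂ) * x).re = (c₀ : ℝ) * x.re := by
      intro x
      rw [← Complex.ofReal_ratCast, Complex.re_ofReal_mul]
    rw [h5, Complex.add_re]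
    have h6 : (star (Sum.elim (zc B φ v'.1) (zc B' φ v'.2)) ∘ Sum.inl) = star (zc B φ v'.1) := rfl
    have h7 : (star (Sum.elim (zc B φ v'.1) (zc B' φ v'.2)) ∘ Sum.inr) = star (zc B' φ v'.2) := rfl
    rw [h6, h7]
    unfold hv
    ring
  have hinvf : ∀ v v' : T.V × T'.V, (fun v v' : T.V × T'.V =>
      R v.1 v'.1 + 2 * (hv Dg (zc B' φ v.2) (zc B' φ v'.2)).re) (Complex.I • v)
        (Complex.I • v') = R v.1 v'.1 + 2 * (hv Dg (zc B' φ v.2) (zc B' φ v'.2)).re := by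
    intro v v'
    show R (Complex.I • v.1) (Complex.I • v'.1) +
      2 * (hv Dg (zc B' φ (Complex.I • v.2)) (zc B' φ (Complex.I • v'.2))).re = _
    rw [hherm, hT', hT']
    have h3 : hv Dg ((-Complex.I) • zc B' φ v.2) ((-Complex.I) • zc B' φ v'.2) =
        hv Dg (zc B' φ v.2) (zc B' φ v'.2) := by
      unfold hv
      have h4 : star ((-Complex.I) • zc B' φ v'.2) = Complex.I • star (zc B' φ v'.2) := by
        funext i
        show conj (-Complex.I * zc B' φ v'.2 i) = Complex.I * conj (zc B' φ v'.2 i)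
        rw [map_mul, map_neg, Complex.conj_I, neg_neg]
      rw [h4, Matrix.mulVec_smul, smul_dotProduct, dotProduct_smul, smul_smul, neg_mul,
        Complex.I_mul_I, neg_neg, one_smul]
    rw [h3]
  have hI := key Ψ (F ∘ₗ LinearMap.fst ℝ T.V T'.V) G z hz hFG (fun v => by
      show F (Complex.I • v.1) = Complex.I * F v.1
      rw [hF, hF]
      exact hf.hol _) (fun w => by
      rw [hG, hG]
      exact hfU.hol _) hker
    (fun v v' => R v.1 v'.1 + 2 * (hv Dg (zc B' φ v.2) (zc B' φ v'.2)).re) RU c₀ hform hinvf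
    hUherm hpos
  have hlin : ∀ (c : ℂ) (v : T.V × T'.V), Ψ (c • v) = c • Ψ v := by
    intro c v
    have h3 : ∀ {S : Type} [AddCommGroup S] [Module ℂ S] (s : S),
        c • s = c.re • s + c.im • (Complex.I • s) := fun s => by
      conv_lhs => rw [← Complex.re_add_im c]
      rw [add_smul, mul_smul, Complex.coe_smul, Complex.coe_smul]
    rw [h3 v, h3 (Ψ v), map_add, map_smul, map_smul, hI]
  refine ⟨{ Ψ with map_smul' := hlin }, fun v k => ?_⟩
  have h3 := congrFun (hΨ v) k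
  show zc BU φ (Ψ v) k = _
  rw [h3, Matrix.mulVec, dotProduct, Fintype.sum_sum_type]
  simp only [Matrix.map_apply, Sum.elim_inl, Sum.elim_inr, hσa]
  rfl

end SEP
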