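import Pool.Agent.Lib.SE.P.SpecQ
import Pool.Agent.Lib.SE.J.Exp

/-! # SE/P, module Jt: the new Jacobian of `y ^ m = ∏ (x - s_j)`, `m = 6, 4`, with its coordinates -/

set_option autoImplicit false

open MeasureTheory Filter Topology SEJ HC HC.SE SE
open scoped ComplexConjugate Matrix

noncomputable section

namespace SEP

private theorem cases_e {e : ℤ} (he : e = 0 ∨ e = 1) :
    (e = 0 ∧ me e = 4 ∧ re e = 6) ∨ (e = 1 ∧ me e = 6 ∧ re e = 10) := by
  rcases he with rfl | rfl
  · left
    refine ⟨rfl, ?_, ?_⟩ <;> simp [me, re]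
  · right
    refine ⟨rfl, ?_, ?_⟩ <;> simp [me, re]

private theorem me_pos {e : ℤ} (he : e = 0 ∨ e = 1) : 3 ≤ me e := by
  rcases cases_e he with h | h <;> omega

/-- `exp (2 π i / m)` -/
private theorem w_val {e : ℤ} (he : e = 0 ∨ e = 1) :
    Complex.exp (2 * Real.pi * Complex.I / (me e : ℕ)) ^ 2 =
      (e : ℂ) * Complex.exp (2 * Real.pi * Complex.I / (me e : ℕ)) - 1 ∧
    0 < (Complex.exp (2 * Real.pi * Complex.I / (me e : ℕ))).im := by
  rcases cases_e he with ⟨h0, h1, -⟩ | ⟨h0, h1, -⟩
  · rw [h1, h0]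
    have h2 : Complex.exp (2 * Real.pi * Complex.I / ((4 : ℕ) : ℂ)) = Complex.I := by
      have h3 : (2 * Real.pi * Complex.I / ((4 : ℕ) : ℂ)) = Real.pi / 2 * Complex.I := by
        push_cast
        ring
      rw [h3, Complex.exp_pi_div_two_mul_I]
    rw [h2]
    constructor
    · rw [Complex.I_sq]
      push_cast
      ring
    · simp
  · rw [h1, h0]
    have h2 : Complex.exp (2 * Real.pi * Complex.I / ((6 : ℕ) : ℂ)) =
        (1 / 2 : ℝ) + (√3 / 2 : ℝ) * Complex.I := by
      have h3 : (2 * Real.pi * Complex.I / ((6 : ℕ) : ℂ)) = ((Real.pi / 3 : ℝ) : ℂ) * Complex.I := by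
        push_cast
        ring
      rw [h3, Complex.exp_mul_I, ← Complex.ofReal_cos, ← Complex.ofReal_sin,
        Real.cos_pi_div_three, Real.sin_pi_div_three]
    rw [h2]
    constructor
    · have h4 : ((√3 : ℝ) : ℂ) ^ 2 = 3 := by
        rw [← Complex.ofReal_pow, Real.sq_sqrt (by norm_num)]
        norm_num
      push_cast
      linear_combination (1 / 4 : ℂ) * Complex.I ^ 2 * h4 + (3 / 4 : ℂ) * Complex.I_sq
    · simp

section

variable {X : GF} {E : Type} [Field E] [NumberField E] {e : ℤ} {ζ : E} {φ : E →+* X.K}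

theorem val_zeta (h : IQ e E ζ) (hφ : 0 < (X.τ (φ ζ)).im) :
    X.τ (φ ζ) = Complex.exp (2 * Real.pi * Complex.I / (me e : ℕ)) := by
  obtain ⟨hw, hw'⟩ := w_val h.he
  set w := Complex.exp (2 * Real.pi * Complex.I / (me e : ℕ)) with hwd
  have h1 : X.τ (φ ζ) ^ 2 = (e : ℂ) * X.τ (φ ζ) - 1 := by
    have h2 := congrArg (fun x => X.τ (φ x)) h.sq
    simp only [map_pow, map_sub, map_mul, map_intCast, map_one] at h2
    exact h2
  have h2 : (X.τ (φ ζ) - w) * (X.τ (φ ζ) + w - e) = 0 := by
    linear_combination h1 - hw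
  rcases mul_eq_zero.1 h2 with h3 | h3
  · exact sub_eq_zero.1 h3
  · exfalso
    have h4 := congrArg Complex.im h3
    rw [Complex.sub_im, Complex.add_im, Complex.intCast_im, Complex.zero_im] at h4
    linarith

theorem prim_zeta (h : IQ e E ζ) (hφ : 0 < (X.τ (φ ζ)).im) : IsPrimitiveRoot ζ (me e) := by
  have hm := me_pos h.he
  have h1 : IsPrimitiveRoot ((X.τ.comp φ) ζ) (me e) := by
    show IsPrimitiveRoot (X.τ (φ ζ)) (me e)
    rw [val_zeta h hφ]
    exact Complex.isPrimitiveRoot_exp _ (by omega)
  exact h1.of_map_of_injective (RingHom.injective _)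

theorem cyc_of (h : IQ e E ζ) (hφ : 0 < (X.τ (φ ζ)).im) :
    IsCyclotomicExtension {me e} ℚ E := by
  have hm := me_pos h.he
  have hp := prim_zeta h hφ
  refine ⟨fun {n} hn _ => ?_, fun x => ?_⟩
  · rw [Set.mem_singleton_iff] at hn
    rw [hn]
    exact ⟨ζ, hp⟩
  · obtain ⟨p, q, hx⟩ := h.gen x
    rw [hx]
    have hz : ζ ∈ Algebra.adjoin ℚ {b : E | ∃ n ∈ ({me e} : Set ℕ), n ≠ 0 ∧ b ^ n = 1} :=
      Algebra.subset_adjoin ⟨me e, Set.mem_singleton _, by omega, hp.pow_eq_one⟩
    refine Subalgebra.add_mem _ ?_ (Subalgebra.mul_mem _ ?_ hz)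
    · have h2 := Subalgebra.algebraMap_mem (Algebra.adjoin ℚ
        {b : E | ∃ n ∈ ({me e} : Set ℕ), n ≠ 0 ∧ b ^ n = 1}) p
      rwa [eq_ratCast] at h2
    · have h2 := Subalgebra.algebraMap_mem (Algebra.adjoin ℚ
        {b : E | ∃ n ∈ ({me e} : Set ℕ), n ≠ 0 ∧ b ^ n = 1}) q
      rwa [eq_ratCast] at h2

theorem inv_zeta_eq (h : IQ e E ζ) (hφ : 0 < (X.τ (φ ζ)).im) {inv : E ≃+* E}
    (hinv : ∀ x, X.τ (φ (inv x)) = conj (X.τ (φ x))) : inv ζ = ζ⁻¹ := by
  have hm := me_pos h.he
  apply φ.injective
  apply X.τ.injective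
  rw [hinv, map_inv₀, map_inv₀]
  have h1 : ‖X.τ (φ ζ)‖ = 1 := by
    refine Complex.norm_eq_one_of_pow_eq_one (n := me e) ?_ (by omega)
    rw [← map_pow, ← map_pow, (prim_zeta h hφ).pow_eq_one, map_one, map_one]
  exact (Complex.inv_eq_conj h1).symm

end

private theorem cov_of {e : ℤ} (he : e = 0 ∨ e = 1) (s : Fin (re e + 1) → ℂ)
    (hs : StrictMono fun j => (s j).im) : IsCov (me e) s fun _ => 1 := by
  refine ⟨me_pos he, fun i j hij => hs.injective (by simp only [hij]), fun j hj => ?_, fun hj => ?_,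
    fun d _ hd => Nat.dvd_one.1 (hd 0)⟩
  · have h1 := Nat.dvd_one.1 hj
    have h2 := me_pos he
    omega
  · rw [Finset.sum_const, Finset.card_univ, Fintype.card_fin, smul_eq_mul, mul_one] at hj
    rcases cases_e he with ⟨-, h1, h2⟩ | ⟨-, h1, h2⟩
    · rw [h1, h2] at hj
      omega
    · rw [h1, h2] at hj
      omega

/-- the index of the unique form of its character -/
private theorem idx {e : ℤ} (he : e = 0 ∨ e = 1) :
    ∃ p : Ix (me e) (fun _ : Fin (re e + 1) => 1), ch p + 1 = me e ∧
      ∀ q : Ix (me e) (fun _ : Fin (re e + 1) => 1), ch q = ch p → q = p := by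
  have hm := me_pos he
  have hsum : ∀ u : ℕ, u < me e → ∑ _j : Fin (re e + 1), (u * 1) % me e = (re e + 1) * u := by
    intro u hu
    rw [Finset.sum_const, Finset.card_univ, Fintype.card_fin, smul_eq_mul, mul_one,
      Nat.mod_eq_of_lt hu]
  have hr : 0 < re e := by
    rcases cases_e he with h | h <;> omega
  have hcop : (me e - 1).Coprime (me e) := by
    rcases cases_e he with ⟨-, h1, -⟩ | ⟨-, h1, -⟩ <;> rw [h1] <;> decide
  have hin : me e * 0 + ∑ _j : Fin (re e + 1), ((me e - 1) * 1) % me e < me e * re e := by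
    rw [hsum _ (by omega)]
    rcases cases_e he with ⟨-, h1, h2⟩ | ⟨-, h1, h2⟩ <;> rw [h1, h2] <;> norm_num
  refine ⟨⟨(⟨me e - 1, by omega⟩, ⟨0, hr⟩), hcop, hin⟩, ?_, ?_⟩
  · show me e - 1 + 1 = me e
    omega
  · intro q hq
    have h1 : (q.1.1 : ℕ) = me e - 1 := hq
    have h2 := q.2.2
    rw [hsum _ q.1.1.2, h1] at h2
    have h3 : (q.1.2 : ℕ) = 0 := by
      obtain ⟨K, hK⟩ : ∃ K : ℕ, (q.1.2 : ℕ) = K := ⟨_, rfl⟩
      rw [hK] at h2 ⊢
      by_contra h3
      have h4 : me e * 1 ≤ me e * K := Nat.mul_le_mul_left _ (by omega)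
      rcases cases_e he with ⟨-, h5, h6⟩ | ⟨-, h5, h6⟩
      · rw [h5, h6] at h2
        rw [h5] at h4
        omega
      · rw [h5, h6] at h2
        rw [h5] at h4
        omega
    refine Subtype.ext (Prod.ext (Fin.ext h1) (Fin.ext h3))

theorem tJt : S_Jt := by
  intro X E _ _ e ζ φ hQ hφ inv hinv s hs
  have hm := me_pos hQ.he
  have hprim := prim_zeta hQ hφ
  have hcyc : IsCyclotomicExtension {me e} ℚ E := cyc_of hQ hφ
  have hcov := cov_of hQ.he s hs
  have hinvz := inv_zeta_eq hQ hφ hinv
  obtain ⟨o⟩ := onb_ex s (fun _ => 1) hcov hs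
  obtain ⟨J⟩ := onb_jac s (fun _ => 1) hcov hs o
  have hprim' : IsPrimitiveRoot (inv ζ) (me e) := by
    rw [hinvz]
    exact hprim.inv
  obtain ⟨P⟩ := jblk hcov hs J X hprim' φ
  obtain ⟨p, hp, hp'⟩ := idx hQ.he
  obtain ⟨c, hc, hA⟩ := one_form o p hp'
  have hchp : ch p < me e := p.1.1.2
  -- the exponents
  have hmu : mu (me e) (fun _ : Fin (re e + 1) => 1) (ch p) = muP e := by
    funext j
    unfold mu muP
    have h1 : (ch p * 1) % me e = me e - 1 := by
      rw [mul_one, Nat.mod_eq_of_lt hchp]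
      omega
    rw [h1, Nat.cast_sub (by omega)]
    have h2 : ((me e : ℕ) : ℝ) ≠ 0 := by
      have : me e ≠ 0 := by omega
      exact_mod_cast this
    field_simp
    push_cast
    ring
  have hAp : ∀ j : Fin (re e), o.A j.castSucc p = c * per (muP e) s j.castSucc := by
    intro j
    rw [hA, hmu]
    rfl
  -- the characters
  have hze1 : X.τ (φ ζ) = ze (me e) 1 := by
    rw [val_zeta hQ hφ, ← N14_ze_pow, pow_one]
  have hval : X.τ (φ (inv ζ)) = ze (me e) (ch p) := by
    have h1 := (tN0 s (fun _ => 1) hcov 1 (by omega) (Nat.coprime_one_left _)).2.2.2.2.2.2.1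
    have h2 : ch p = me e - 1 := by omega
    rw [hinv, hze1, h2, h1]
  have hval' : X.τ (gl X.c φ (inv ζ)) = ze (me e) 1 := by
    show X.τ (X.c (φ (inv ζ))) = _
    rw [X.hc, hinv, Complex.conj_conj, hze1]
  have hper : ∀ v, J.e v p = c * ∑ j : Fin (re e), per (muP e) s j.castSucc * P.B.b (φ, j) v := by
    intro v
    rw [P.per φ p hval, Finset.mul_sum]
    refine Finset.sum_congr rfl fun j _ => ?_
    rw [hAp]
    ring
  have hper' : ∀ (q : Ix (me e) (fun _ : Fin (re e + 1) => 1)), ch q = 1 → ∀ v,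
      conj (J.e v q) = ∑ j : Fin (re e), conj (o.A j.castSucc q) * P.B.b (φ, j) v := by
    intro q hq v
    rw [P.per (gl X.c φ) q (by rw [hq]; exact hval'), map_sum]
    refine Finset.sum_congr rfl fun j _ => ?_
    rw [map_mul, P.cnj, Complex.conj_conj]
  have hd : (0 : ℚ) < J.d := by exact_mod_cast Nat.pos_of_ne_zero J.d0
  refine ⟨J.T, J.D, P.B, J.R, J.d, J.pol, P.rho, hd, ?_, ?_⟩
  · -- the form
    have hth : th e ζ ≠ 0 := by
      intro h0
      have h1 : th e ζ ^ 2 = ((e : E)) ^ 2 - 4 := by
        unfold th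
        linear_combination 4 * hQ.sq
      rw [h0] at h1
      rcases hQ.he with h2 | h2
      · rw [h2] at h1
        norm_num at h1
      · rw [h2] at h1
        norm_num at h1
    have hS : ((J.d : ℚ) : E) • th e ζ • HJ e ζ =
        ((J.d : ℕ) : E) • ((Nm (fun _ : Fin (re e + 1) => ζ))⁻¹)ᵀ := by
      unfold HJ
      rw [smul_smul (th e ζ), mul_inv_cancel₀ hth, one_smul, Rat.cast_natCast]
    have hla : laE (inv ζ) (fun _ : Fin (re e + 1) => 1) = fun _ => ζ := by
      funext j
      unfold laE
      rw [pow_one, hinvz, inv_inv]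
    intro u v
    have h1 := P.frmR u v
    rw [hla] at h1
    set G : Matrix (Fin (re e)) (Fin (re e)) E := (Nm (fun _ : Fin (re e + 1) => ζ))⁻¹ with hG
    -- the two labels
    have hlab : ∀ φ' : E →+* X.K, φ' = φ ∨ φ' = gl X.c φ := by
      intro φ'
      have h2 : (φ' ζ - φ ζ) * (φ' ζ + φ ζ - (e : X.K)) = 0 := by
        have h3 : ∀ ψ : E →+* X.K, ψ ζ ^ 2 = (e : X.K) * ψ ζ - 1 := by
          intro ψ
          have h4 := congrArg ψ hQ.sq
          simp only [map_pow, map_sub, map_mul, map_intCast, map_one] at h4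
          exact h4
        linear_combination h3 φ' - h3 φ
      have h5 : gl X.c φ ζ = (e : X.K) - φ ζ := by
        have h6 : φ (inv ζ) = X.c (φ ζ) := by
          apply X.τ.injective
          rw [hinv, X.hc]
        have h7 : ζ ≠ 0 := hprim.ne_zero (by omega)
        have h8 : inv ζ = (e : E) - ζ := by
          rw [hinvz]
          field_simp
          linear_combination hQ.sq
        show X.c (φ ζ) = _
        rw [← h6, h8, map_sub, map_intCast]
      rcases mul_eq_zero.1 h2 with h3 | h3
      · exact Or.inl (lab_zeta' (m := me e) (by omega) hprim φ' φ (sub_eq_zero.1 h3))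
      · refine Or.inr (lab_zeta' (m := me e) (by omega) hprim φ' _ ?_)
        rw [h5]
        linear_combination h3
    have hne : φ ≠ gl X.c φ := by
      intro h2
      have h3 : X.τ (φ ζ) = conj (X.τ (φ ζ)) := by
        conv_lhs => rw [h2]
        exact X.hc _
      have h4 := Complex.conj_eq_iff_im.1 h3.symm
      linarith
    classical
    have huniv : (Finset.univ : Finset (E →+* X.K)) = {φ, gl X.c φ} := by
      ext φ'
      simp only [Finset.mem_univ, Finset.mem_insert, Finset.mem_singleton, true_iff]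
      exact hlab φ'
    set F : (E →+* X.K) → ℂ := fun φ' => ∑ i, ∑ j,
      P.B.b (φ', i) u * X.τ (φ' (G j i)) * P.B.b (gl X.c φ', j) v with hF
    have h2 : F (gl X.c φ) = conj (F φ) := by
      rw [hF]
      simp only [map_sum, map_mul, P.cnj, Complex.conj_conj]
      refine Finset.sum_congr rfl fun i _ => Finset.sum_congr rfl fun j _ => ?_
      congr 2
      exact X.hc _
    have h3 : ((J.R u v : ℝ) : ℂ) = (J.d : ℂ) * (F φ + conj (F φ)) := by
      rw [h1, huniv, Finset.sum_pair hne, ← h2]
    have h4 : J.R u v = 2 * ((J.d : ℂ) * F φ).re := by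
      have h5 := congrArg Complex.re h3
      rw [Complex.ofReal_re, Complex.add_conj] at h5
      rw [h5]
      simp
      ring
    rw [h4]
    congr 2
    rw [hS]
    unfold hv
    simp only [dotProduct, Matrix.mulVec, Finset.mul_sum, hF, P.cnj]
    refine Finset.sum_congr rfl fun i _ => Finset.sum_congr rfl fun j _ => ?_
    rw [Matrix.map_apply, Matrix.smul_apply, Matrix.transpose_apply, smul_eq_mul, map_mul,
      map_natCast, Pi.star_apply]
    show _ = zc P.B φ u i * ((J.d : ℂ) * X.τ (φ (G j i)) * conj (zc P.B φ v j))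
    unfold zc
    ring
  · -- Picard type
    refine ⟨?_, ?_, ?_⟩
    · intro h0
      have h1 : ∀ v, J.e v p = 0 := by
        intro v
        rw [hper]
        have h2 : ∀ j : Fin (re e), per (muP e) s j.castSucc = 0 := fun j => congrFun h0 j
        rw [Finset.sum_eq_zero fun j _ => by rw [h2, zero_mul], mul_zero]
      have h2 := h1 (J.e.symm fun _ => 1)
      rw [LinearEquiv.apply_symm_apply] at h2
      exact one_ne_zero h2
    · intro v
      have h1 := hper (Complex.I • v)
      rw [map_smul, Pi.smul_apply, hper, smul_eq_mul] at h1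
      have h2 : c * (∑ j : Fin (re e), per (muP e) s j.castSucc * P.B.b (φ, j) (Complex.I • v)) =
          c * (Complex.I * ∑ j : Fin (re e), per (muP e) s j.castSucc * P.B.b (φ, j) v) := by
        rw [← h1]
        ring
      exact mul_left_cancel₀ hc h2
    · intro v hv0
      have hv1 : J.e v p = 0 := by
        rw [hper]
        have h2 : ∑ j : Fin (re e), per (muP e) s j.castSucc * P.B.b (φ, j) v = 0 := hv0
        rw [h2, mul_zero]
      obtain ⟨w, hw⟩ : ∃ w : Fin (re e) → ℂ, w = fun j =>
        P.B.b (φ, j) (Complex.I • v) + Complex.I * P.B.b (φ, j) v := ⟨_, rfl⟩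
      have hu : ch p < me e := hchp
      have hcop : (ch p).Coprime (me e) := p.2.1
      have hinvM := onb_inv s (fun _ => 1) hcov hs o (ch p) hu hcop
      have hMw : (o.Mm (ch p)).mulVec w = 0 := by
        funext j
        rw [Pi.zero_apply]
        show ∑ l, o.Mm (ch p) j l * w l = 0
        have e1 : ∑ l : Fin (re e), o.A l.castSucc p * w l = 0 := by
          have h1 : ∑ l : Fin (re e), o.A l.castSucc p * w l =
              J.e (Complex.I • v) p + Complex.I * J.e v p := by
            rw [P.per φ p hval, P.per φ p hval, Finset.mul_sum, ← Finset.sum_add_distrib, hw]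
            refine Finset.sum_congr rfl fun l _ => ?_
            ring
          rw [h1, map_smul, Pi.smul_apply, hv1, smul_zero, mul_zero, add_zero]
        have e2 : ∀ q : Ix (me e) (fun _ : Fin (re e + 1) => 1), ch q = 1 →
            ∑ l : Fin (re e), conj (o.A l.castSucc q) * w l = 0 := by
          intro q hq
          have h1 : ∑ l : Fin (re e), conj (o.A l.castSucc q) * w l =
              conj (J.e (Complex.I • v) q) + Complex.I * conj (J.e v q) := by
            rw [hper' q hq, hper' q hq, Finset.mul_sum, ← Finset.sum_add_distrib, hw]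
            refine Finset.sum_congr rfl fun l _ => ?_
            ring
          rw [h1, map_smul, Pi.smul_apply, smul_eq_mul, map_mul, Complex.conj_I]
          ring
        have e3 : ∑ l, o.Mm (ch p) j l * w l = (2 * Complex.I)⁻¹ *
            ((∑ q : Ix (me e) (fun _ : Fin (re e + 1) => 1), if ch q = ch p then
              conj (o.A j.castSucc q) * ∑ l : Fin (re e), o.A l.castSucc q * w l else 0) -
            ∑ q : Ix (me e) (fun _ : Fin (re e + 1) => 1), if ch q + ch p = me e then
              o.A j.castSucc q * ∑ l : Fin (re e), conj (o.A l.castSucc q) * w l else 0) := by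
          have f1 : ∀ (C : Ix (me e) (fun _ : Fin (re e + 1) => 1) → Prop) [DecidablePred C]
              (g : Ix (me e) (fun _ : Fin (re e + 1) => 1) → Fin (re e) → ℂ),
              (∑ q, if C q then ∑ l, g q l else 0) = ∑ l, ∑ q, if C q then g q l else 0 := by
            intro C _ g
            rw [Finset.sum_comm]
            refine Finset.sum_congr rfl fun q _ => ?_
            split_ifs
            · rfl
            · rw [Finset.sum_const_zero]
          simp only [Finset.mul_sum (s := (Finset.univ : Finset (Fin (re e))))]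
          rw [f1, f1, ← Finset.sum_sub_distrib, Finset.mul_sum]
          refine Finset.sum_congr rfl fun l _ => ?_
          unfold ONB.Mm
          rw [mul_assoc, sub_mul, Finset.sum_mul, Finset.sum_mul]
          congr 2
          · refine Finset.sum_congr rfl fun q _ => ?_
            split_ifs
            · ring
            · rw [zero_mul]
          · refine Finset.sum_congr rfl fun q _ => ?_
            split_ifs
            · ring
            · rw [zero_mul]
        rw [e3, Finset.sum_eq_zero, Finset.sum_eq_zero, sub_zero, mul_zero]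
        · intro q _
          split_ifs with hq
          · rw [e2 q (by omega), mul_zero]
          · rfl
        · intro q _
          split_ifs with hq
          · rw [hp' q hq, e1, mul_zero]
          · rfl
      have hw0 : w = 0 := by
        have h1 := congrArg (Nm (lam (mu (me e) (fun _ : Fin (re e + 1) => 1) (ch p)))).mulVec hMw
        rw [Matrix.mulVec_mulVec, hinvM, Matrix.one_mulVec, Matrix.mulVec_zero] at h1
        exact h1
      funext j
      have h1 := congrFun hw0 j
      rw [hw, Pi.zero_apply] at h1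
      show P.B.b (φ, j) (Complex.I • v) = -Complex.I * P.B.b (φ, j) v
      linear_combination h1

end SEP
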