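import Pool.Agent.Lib.SE.P.SpecQ

/-!
# PROJECT SE-P, module Mat: the matrix of a compatible form
-/

set_option autoImplicit false

open MeasureTheory Filter Topology SEJ HC HC.SE SE
open scoped ComplexConjugate Matrix

noncomputable section

namespace SEP

namespace Mat

/-- the real part of the root -/
lemma two_re {e : ℤ} {ω : ℂ} (h : ω ^ 2 = (e : ℂ) * ω - 1) (him : 0 < ω.im) :
    2 * ω.re = (e : ℝ) := by
  have h1 := congrArg Complex.im h
  rw [pow_two] at h1
  simp only [Complex.mul_im, Complex.sub_im, Complex.intCast_re, Complex.intCast_im,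
    Complex.one_im] at h1
  have h2 : ω.im * (2 * ω.re - (e : ℝ)) = 0 := by linarith
  rcases mul_eq_zero.1 h2 with h3 | h3
  · exact absurd h3 him.ne'
  · linarith

/-- decomposition of a complex number -/
lemma decomp {ω : ℂ} (him : 0 < ω.im) (c : ℂ) : ∃ a b : ℝ, c = (a : ℂ) + (b : ℂ) * ω := by
  refine ⟨c.re - c.im / ω.im * ω.re, c.im / ω.im, ?_⟩
  have h0 : ω.im ≠ 0 := him.ne'
  apply Complex.ext
  · simp
  · simp
    field_simp

/-- a complex number is determined by two traces -/
lemma eq_of_re {ω : ℂ} (him : 0 < ω.im) {s t : ℂ} (h1 : s.re = t.re)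
    (h2 : (s * ω).re = (t * ω).re) : s = t := by
  apply Complex.ext h1
  rw [Complex.mul_re, Complex.mul_re, h1] at h2
  have h3 : ω.im * (s.im - t.im) = 0 := by linarith
  rcases mul_eq_zero.1 h3 with h4 | h4
  · exact absurd h4 him.ne'
  · linarith

end Mat

open Mat in
theorem tMat : S_Zi → S_Mat := by
  intro hZi X T E _ _ r B e ζ φ hIQ him inv hinv R hR halt hadj
  obtain ⟨⟨Z, hZ⟩, -, -⟩ := hZi X T E r B e ζ φ hIQ him
  set σ : E →+* ℂ := X.τ.comp φ with hσdef
  have hσ : ∀ x, σ x = X.τ (φ x) := fun x => rfl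
  have hinj : Function.Injective σ := σ.injective
  set ω : ℂ := σ ζ with hω
  have him' : 0 < ω.im := him
  have hsq : ω ^ 2 = (e : ℂ) * ω - 1 := by
    rw [hω, ← map_pow, hIQ.sq, map_sub, map_mul, map_intCast, map_one]
  have hre := two_re hsq him'
  -- the form on the coordinates
  let Q : (Fin r → ℂ) →ₗ[ℝ] (Fin r → ℂ) →ₗ[ℝ] ℝ :=
    R.compl₁₂ (Z.symm : (Fin r → ℂ) →ₗ[ℝ] T.V) (Z.symm : (Fin r → ℂ) →ₗ[ℝ] T.V)
  have hQ : ∀ w w', Q w w' = R (Z.symm w) (Z.symm w') := fun w w' => rfl
  have hadd2 : ∀ a b w, Q (a + b) w = Q a w + Q b w := fun a b w => by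
    rw [map_add Q, LinearMap.add_apply]
  have hsm2 : ∀ (c : ℝ) (a w : Fin r → ℂ), Q (c • a) w = c * Q a w := fun c a w => by
    rw [map_smul Q, LinearMap.smul_apply, smul_eq_mul]
  have hadd1 : ∀ a b w, Q w (a + b) = Q w a + Q w b := fun a b w => map_add (Q w) a b
  have hsm1 : ∀ (c : ℝ) (a w : Fin r → ℂ), Q w (c • a) = c * Q w a := fun c a w => by
    rw [map_smul (Q w), smul_eq_mul]
  have hρ : ∀ x w, Z.symm (σ x • w) = B.ρ x (Z.symm w) := by
    intro x w
    rw [LinearEquiv.symm_apply_eq, hZ]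
    funext i
    change σ x * w i = B.b (φ, i) (B.ρ x (Z.symm w))
    rw [B.act]
    have h1 : zc B φ (Z.symm w) i = w i := by rw [← hZ, LinearEquiv.apply_symm_apply]
    rw [← h1]
    rfl
  have hadjE : ∀ x w w', Q (σ x • w) w' = Q w (conj (σ x) • w') := by
    intro x w w'
    have h2 : conj (σ x) = σ (inv x) := (hinv x).symm
    rw [hQ, hQ, h2, hρ, hρ, hadj]
  have hadjC : ∀ (c : ℂ) w w', Q (c • w) w' = Q w (conj c • w') := by
    intro c w w'
    obtain ⟨a, b, rfl⟩ := decomp him' c
    have h1 : ((a : ℂ) + (b : ℂ) * ω) • w = a • w + b • (ω • w) := by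
      rw [add_smul, mul_smul, Complex.coe_smul, Complex.coe_smul]
    have h2 : conj ((a : ℂ) + (b : ℂ) * ω) • w' = a • w' + b • (conj ω • w') := by
      rw [map_add, map_mul, Complex.conj_ofReal, Complex.conj_ofReal, add_smul, mul_smul,
        Complex.coe_smul, Complex.coe_smul]
    rw [h1, h2, hadd2, hsm2, hsm2, hω, hadjE, hadd1, hsm1, hsm1]
  have hadjC' : ∀ (c : ℂ) w w', Q w (c • w') = Q (conj c • w) w' := by
    intro c w w'
    rw [hadjC, Complex.conj_conj]
  have hQalt : ∀ w w', Q w w' = -Q w' w := fun w w' => halt _ _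
  -- rationality
  have hrat : ∀ y y' : Fin r → E, ∃ q : ℚ, Q (fun k => σ (y k)) (fun k => σ (y' k)) = q := by
    intro y y'
    obtain ⟨N, hN, v, hv, hb⟩ := B.mem y
    obtain ⟨N', hN', v', hv', hb'⟩ := B.mem y'
    obtain ⟨n, hn⟩ := hR v hv v' hv'
    have h1 : (fun k => σ (y k)) = ((N : ℝ)⁻¹) • Z v := by
      funext k
      rw [hZ]
      change σ (y k) = ((N : ℝ)⁻¹) • B.b (φ, k) v
      rw [hb, Complex.real_smul, hσ]
      have : (N : ℂ) ≠ 0 := by exact_mod_cast hN
      push_cast
      field_simp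
    have h1' : (fun k => σ (y' k)) = ((N' : ℝ)⁻¹) • Z v' := by
      funext k
      rw [hZ]
      change σ (y' k) = ((N' : ℝ)⁻¹) • B.b (φ, k) v'
      rw [hb', Complex.real_smul, hσ]
      have : (N' : ℂ) ≠ 0 := by exact_mod_cast hN'
      push_cast
      field_simp
    refine ⟨(N : ℚ)⁻¹ * ((N' : ℚ)⁻¹ * n), ?_⟩
    rw [h1, h1', hsm2, hsm1, hQ, LinearEquiv.symm_apply_apply,
      LinearEquiv.symm_apply_apply, hn]
    push_cast
    ring
  -- the unit vectors
  let ev : Fin r → (Fin r → ℂ) := fun i => Pi.single i 1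
  have hq1 : ∀ i j, ∃ q : ℚ, Q (ev i) (ev j) = q := by
    intro i j
    obtain ⟨q, hq⟩ := hrat (Pi.single i 1) (Pi.single j 1)
    refine ⟨q, ?_⟩
    rw [← hq]
    have h1 : ∀ i, (fun k => σ ((Pi.single i 1 : Fin r → E) k)) = ev i := by
      intro i
      funext k
      by_cases h : k = i
      · subst h
        simp [ev]
      · simp [ev, h]
    rw [h1, h1]
  have hq2 : ∀ i j, ∃ q : ℚ, Q (ω • ev i) (ev j) = q := by
    intro i j
    obtain ⟨q, hq⟩ := hrat (Pi.single i ζ) (Pi.single j 1)
    refine ⟨q, ?_⟩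
    rw [← hq]
    have h1 : (fun k => σ ((Pi.single j 1 : Fin r → E) k)) = ev j := by
      funext k
      by_cases h : k = j
      · subst h
        simp [ev]
      · simp [ev, h]
    have h2 : (fun k => σ ((Pi.single i ζ : Fin r → E) k)) = ω • ev i := by
      funext k
      by_cases h : k = i
      · subst h
        simp [ev, hω]
      · simp [ev, h]
    rw [h1, h2]
  choose q1 hq1 using hq1
  choose q2 hq2 using hq2
  -- solve the two linear equations
  have hdet : ((e : ℚ) ^ 2 - 4) ≠ 0 := by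
    rcases hIQ.he with h | h
    · subst h
      norm_num
    · subst h
      norm_num
  let pp : Fin r → Fin r → ℚ := fun i j => (((e : ℚ) ^ 2 - 2) * q1 i j - e * q2 i j) / ((e : ℚ) ^ 2 - 4)
  let qq : Fin r → Fin r → ℚ := fun i j => (2 * q2 i j - e * q1 i j) / ((e : ℚ) ^ 2 - 4)
  have hs1 : ∀ i j, 2 * pp i j + e * qq i j = q1 i j := by
    intro i j
    simp only [pp, qq]
    field_simp
    ring
  have hs2 : ∀ i j, e * pp i j + ((e : ℚ) ^ 2 - 2) * qq i j = q2 i j := by
    intro i j
    simp only [pp, qq]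
    field_simp
    ring
  let S : Matrix (Fin r) (Fin r) E := Matrix.of fun i j => (pp i j : E) + (qq i j : E) * ζ
  have hS : ∀ i j, σ (S i j) = (pp i j : ℂ) + (qq i j : ℂ) * ω := by
    intro i j
    change σ ((pp i j : E) + (qq i j : E) * ζ) = _
    rw [map_add, map_mul, map_ratCast, map_ratCast]
  have hre2 : (ω ^ 2).re = ((e : ℝ) ^ 2 - 2) / 2 := by
    rw [hsq, Complex.sub_re, Complex.mul_re, Complex.intCast_re, Complex.intCast_im, Complex.one_re]
    have : ω.re = (e : ℝ) / 2 := by linarith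
    rw [this]
    ring
  have hval1 : ∀ i j, 2 * (σ (S i j)).re = Q (ev i) (ev j) := by
    intro i j
    rw [hS, hq1, ← hs1]
    have h1 : ((pp i j : ℂ) + (qq i j : ℂ) * ω).re = (pp i j : ℝ) + (qq i j : ℝ) * ω.re := by
      rw [Complex.add_re, Complex.mul_re, Complex.ratCast_re, Complex.ratCast_re,
        Complex.ratCast_im]
      ring
    rw [h1]
    push_cast
    have : ω.re = (e : ℝ) / 2 := by linarith
    rw [this]
    ring
  have hval2 : ∀ i j, 2 * (σ (S i j) * ω).re = Q (ω • ev i) (ev j) := by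
    intro i j
    rw [hS, hq2, ← hs2]
    have h1 : (((pp i j : ℂ) + (qq i j : ℂ) * ω) * ω).re =
        (pp i j : ℝ) * ω.re + (qq i j : ℝ) * (ω ^ 2).re := by
      have h2 : ((pp i j : ℂ) + (qq i j : ℂ) * ω) * ω =
          (pp i j : ℂ) * ω + (qq i j : ℂ) * ω ^ 2 := by ring
      rw [h2, Complex.add_re, Complex.mul_re, Complex.mul_re, Complex.ratCast_re,
        Complex.ratCast_re, Complex.ratCast_im, Complex.ratCast_im]
      ring
    rw [h1, hre2]
    push_cast
    have : ω.re = (e : ℝ) / 2 := by linarith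
    rw [this]
    ring
  have hval : ∀ i j (c : ℂ), Q (c • ev i) (ev j) = 2 * (σ (S i j) * c).re := by
    intro i j c
    obtain ⟨a, b, rfl⟩ := decomp him' c
    have h1 : ((a : ℂ) + (b : ℂ) * ω) • ev i = a • ev i + b • (ω • ev i) := by
      rw [add_smul, mul_smul, Complex.coe_smul, Complex.coe_smul]
    rw [h1, hadd2, hsm2, hsm2, ← hval1, ← hval2]
    have h2 : σ (S i j) * ((a : ℂ) + (b : ℂ) * ω) =
        (a : ℂ) * σ (S i j) + (b : ℂ) * (σ (S i j) * ω) := by ring
    rw [h2, Complex.add_re, Complex.re_ofReal_mul, Complex.re_ofReal_mul]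
    ring
  refine ⟨S, ?_, ?_⟩
  · intro i j
    apply hinj
    have h2 : σ (inv (S i j)) = conj (σ (S i j)) := hinv _
    rw [h2, map_neg]
    -- compare the traces
    have key : ∀ c : ℂ, (σ (S j i) * c).re = -(conj (σ (S i j)) * c).re := by
      intro c
      have h3 := hval j i c
      have h4 : Q (c • ev j) (ev i) = -Q (conj c • ev i) (ev j) := by
        rw [hQalt, hadjC']
      rw [h4, hval] at h3
      have h5 : (σ (S i j) * conj c).re = (conj (σ (S i j)) * c).re := by
        rw [Complex.mul_re, Complex.mul_re, Complex.conj_re, Complex.conj_im, Complex.conj_re,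
          Complex.conj_im]
        ring
      linarith
    have h6 : conj (σ (S i j)) = -σ (S j i) := by
      apply eq_of_re him'
      · have := key 1
        rw [mul_one, mul_one] at this
        rw [Complex.neg_re]
        linarith
      · have := key ω
        rw [neg_mul, Complex.neg_re]
        linarith
    exact h6
  · intro u v
    have hu : R u v = Q (Z u) (Z v) := by
      rw [hQ, LinearEquiv.symm_apply_apply, LinearEquiv.symm_apply_apply]
    rw [hu]
    have hsum : ∀ w : Fin r → ℂ, w = ∑ i, w i • ev i := by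
      intro w
      conv_lhs => rw [← Finset.univ_sum_single w]
      refine Finset.sum_congr rfl fun i _ => ?_
      funext k
      by_cases h : k = i
      · subst h
        simp [ev]
      · simp [ev, h]
    rw [hZ, hZ]
    set w := zc B φ u
    set w' := zc B φ v
    have h1 : Q w w' = ∑ i, ∑ j, 2 * (w i * (σ (S i j) * conj (w' j))).re := by
      conv_lhs => rw [hsum w, hsum w']
      rw [map_sum Q, LinearMap.sum_apply]
      refine Finset.sum_congr rfl fun i _ => ?_
      rw [map_sum (Q (w i • ev i))]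
      refine Finset.sum_congr rfl fun j _ => ?_
      rw [hadjC', smul_smul, hval]
      congr 2
      ring
    rw [h1]
    have h2 : hv (S.map (X.τ.comp φ)) w w' = ∑ i, ∑ j, w i * (σ (S i j) * conj (w' j)) := by
      simp only [hv, dotProduct, Matrix.mulVec, Matrix.map_apply, Pi.star_apply, Finset.mul_sum]
      rfl
    rw [h2, Complex.re_sum, Finset.mul_sum]
    refine Finset.sum_congr rfl fun i _ => ?_
    rw [Complex.re_sum, Finset.mul_sum]

end SEP
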