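import Pool.Agent.Lib.SE.P.PDA2
import Pool.Agent.Lib.SE.W.Fin

/-!
# PROJECT SE-P (helper96): `S_PDA`, determinant classes for types of Picard type
-/

set_option autoImplicit false

open HC HC.SE SE
open scoped ComplexConjugate Matrix

noncomputable section

namespace SEP
namespace PDA

variable {X : GF}

/-- the value of a hermitian matrix, semilinearity -/
theorem hv_smul {r : ℕ} (H : Matrix (Fin r) (Fin r) ℂ) (a b : ℂ) (w w' : Fin r → ℂ) :
    hv H (a • w) (b • w') = a * conj b * hv H w w' := by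
  unfold hv
  rw [star_smul, Matrix.mulVec_smul, smul_dotProduct, dotProduct_smul, smul_eq_mul, smul_eq_mul]
  rw [mul_assoc]
  rfl

/-- Compatibility of the form with the multiplication. -/
theorem adj_of (t : Tp X) (φ : t.E →+* X.K) {U : AV} {r : ℕ} (B : Blk X U t.E r)
    (R : U.V →ₗ[ℝ] U.V →ₗ[ℝ] ℝ) (S : Matrix (Fin r) (Fin r) t.E) (hR : IsFm B φ R S)
    (x : t.E) (u v : U.V) : R (B.ρ x u) v = R u (B.ρ (t.inv x) v) := by
  have hz : ∀ x v, zc B φ (B.ρ x v) = X.τ (φ x) • zc B φ v := by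
    intro x v
    funext i
    exact B.act φ i x v
  rw [hR, hR, hz, hz]
  have h1 : hv (S.map (X.τ.comp φ)) (X.τ (φ x) • zc B φ u) (zc B φ v) =
      X.τ (φ x) * hv (S.map (X.τ.comp φ)) (zc B φ u) (zc B φ v) := by
    have h2 := hv_smul (S.map (X.τ.comp φ)) (X.τ (φ x)) 1 (zc B φ u) (zc B φ v)
    rw [one_smul, map_one, mul_one] at h2
    exact h2
  have h2 : hv (S.map (X.τ.comp φ)) (zc B φ u) (X.τ (φ (t.inv x)) • zc B φ v) =
      X.τ (φ x) * hv (S.map (X.τ.comp φ)) (zc B φ u) (zc B φ v) := by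
    have h3 := hv_smul (S.map (X.τ.comp φ)) 1 (X.τ (φ (t.inv x))) (zc B φ u) (zc B φ v)
    rw [one_smul, one_mul, t.hinv, X.hc, Complex.conj_conj] at h3
    rw [t.hinv, X.hc]
    exact h3
  rw [h1, h2]

/-- The conditions on the curve. -/
theorem cov (e : ℤ) (he : e = 0 ∨ e = 1) (s : Fin (re e + 1) → ℂ)
    (hs : StrictMono fun j => (s j).im) : IsCov (me e) s fun _ => 1 := by
  have hinj : Function.Injective s := fun i j h => hs.injective (congrArg Complex.im h)
  have h1 : ∑ _j : Fin (re e + 1), 1 = re e + 1 := by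
    rw [Finset.sum_const, Finset.card_univ, Fintype.card_fin, smul_eq_mul, mul_one]
  rcases he with rfl | rfl
  · have h2 : ¬ me 0 ∣ 1 := by decide
    refine ⟨by decide, hinj, fun _ => h2, ?_, fun d _ hd => Nat.dvd_one.1 (hd 0)⟩
    rw [h1]
    decide
  · have h2 : ¬ me 1 ∣ 1 := by decide
    refine ⟨by decide, hinj, fun _ => h2, ?_, fun d _ hd => Nat.dvd_one.1 (hd 0)⟩
    rw [h1]
    decide

end PDA

open PDA

/-- **THE TARGET of P5.** -/
theorem tPDA (hZi : S_Zi) (hMat : S_Mat) (hSig : S_Sig) (hG : S_G) (hIso : S_Iso) (hCmx : S_Cmx)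
    (hDel : S_Del) (hJt : S_Jt) (hDA : HC.SE.S_DA) (hHC : HodgeCM) : S_PDA := by
  classical
  intro X t e ζ φ f hI him hr hre hf
  have hinv : ∀ x, X.τ (φ (t.inv x)) = conj (X.τ (φ x)) := fun x => by rw [t.hinv, X.hc]
  have hii : ∀ x, t.inv (t.inv x) = x := by
    intro x
    apply φ.injective
    apply X.τ.injective
    rw [hinv, hinv, Complex.conj_conj]
  have hiz : t.inv ζ = (e : t.E) - ζ := inv_zeta hI t.inv (X.τ.comp φ) hinv him
  have hθ : t.inv (th e ζ) = -th e ζ := by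
    unfold th
    rw [map_sub, map_mul, map_ofNat, map_intCast, hiz]
    ring
  have hθ0 : th e ζ ≠ 0 := by
    intro h0
    have h1 : X.τ (φ (th e ζ)) = 0 := by rw [h0, map_zero, map_zero]
    unfold th at h1
    rw [map_sub, map_mul, map_ofNat, map_intCast, map_sub, map_mul, map_ofNat, map_intCast] at h1
    have h2 := congrArg Complex.im h1
    simp only [Complex.sub_im, Complex.mul_im, Complex.intCast_im, Complex.zero_im] at h2
    have h3 : ((2 : ℂ)).re = 2 := rfl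
    have h4 : ((2 : ℂ)).im = 0 := rfl
    rw [h3, h4] at h2
    linarith
  obtain ⟨S, hS, hRS⟩ := hMat X t.T t.E t.r t.B e ζ φ hI him t.inv hinv t.R t.rat t.alt t.adj
  obtain ⟨hpos, hneg⟩ := hSig X t.T t.E t.r t.B e ζ φ hI him t.R t.pos S hRS f hf
  obtain ⟨l, hl⟩ : ∃ l, t.r + l = re e := ⟨re e - t.r, by omega⟩
  have hH : ∀ i j, t.inv (((th e ζ)⁻¹ • S) i j) = ((th e ζ)⁻¹ • S) j i := by
    intro i j
    rw [Matrix.smul_apply, Matrix.smul_apply, smul_eq_mul, smul_eq_mul, map_mul, map_inv₀, hθ, hS,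
      inv_neg, neg_mul_neg]
  obtain ⟨a, s, P, P', c₀, z, ha, hs, hPP, hPP', hc₀, hz, hM, hf1, hf2⟩ :=
    hG e t.E ζ hI t.inv (X.τ.comp φ) hinv him t.r l hr (by omega) hl ((th e ζ)⁻¹ • S) hH f hf.ne
      hpos hneg
  obtain ⟨U, D, BU, RU, c₁, hpol, hρ, hc₁, hform, hpic⟩ :=
    hJt X t.E e ζ φ hI him t.inv hinv s hs
  obtain ⟨t', hT, ζ', hζ', hcyc, hρ', -, hDt⟩ := hDA X (me e) (re e) s (fun _ => 1)
    (cov e hI.he s hs) ⟨φ ζ, (prim hI).map_of_injective φ.injective⟩ U D RU hpol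
  obtain ⟨D₁⟩ := hDt
  subst hT
  -- the hermitian matrix of the curve
  have hMh : ∀ i j, t.inv (((c₀ : t.E) • Matrix.fromBlocks ((th e ζ)⁻¹ • S) 0 0
      (Matrix.diagonal fun i => ((a i : ℚ) : t.E))) i j) =
      ((c₀ : t.E) • Matrix.fromBlocks ((th e ζ)⁻¹ • S) 0 0
      (Matrix.diagonal fun i => ((a i : ℚ) : t.E))) j i := by
    intro i j
    rw [Matrix.smul_apply, Matrix.smul_apply, smul_eq_mul, smul_eq_mul, map_mul, map_ratCast]
    congr 1
    rcases i with i | i <;> rcases j with j | j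
    · exact hH i j
    · exact map_zero t.inv
    · exact map_zero t.inv
    · show t.inv (Matrix.diagonal (fun i => ((a i : ℚ) : t.E)) i j) =
        Matrix.diagonal (fun i => ((a i : ℚ) : t.E)) j i
      by_cases h : i = j
      · subst h
        rw [Matrix.diagonal_apply_eq, map_ratCast]
      · rw [Matrix.diagonal_apply_ne _ h, Matrix.diagonal_apply_ne _ (Ne.symm h), map_zero]
  have hHJ : ∀ i j, t.inv (HJ e ζ i j) = HJ e ζ j i :=
    herm_of t.inv hii (HJ e ζ) _ P P' hPP hM hMh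
  have hSU : ∀ i j, t.inv (((c₁ : t.E) • th e ζ • HJ e ζ) i j) =
      -((c₁ : t.E) • th e ζ • HJ e ζ) j i := by
    intro i j
    simp only [Matrix.smul_apply, smul_eq_mul]
    rw [map_mul, map_mul, map_ratCast, hθ, hHJ]
    ring
  have hM' : Pᵀ * ((c₁ : t.E) • th e ζ • HJ e ζ) * P.map t.inv =
      ((c₀ * c₁ : ℚ) : t.E) • Matrix.fromBlocks S 0 0
        (Matrix.diagonal fun i => th e ζ * ((a i : ℚ) : t.E)) := by
    rw [Matrix.mul_smul, Matrix.mul_smul, Matrix.smul_mul, Matrix.smul_mul, hM, smul_smul,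
      smul_smul]
    have h1 : Matrix.fromBlocks S 0 0 (Matrix.diagonal fun i => th e ζ * ((a i : ℚ) : t.E)) =
        th e ζ • Matrix.fromBlocks ((th e ζ)⁻¹ • S) 0 0
          (Matrix.diagonal fun i => ((a i : ℚ) : t.E)) := by
      rw [Matrix.fromBlocks_smul, smul_smul, mul_inv_cancel₀ hθ0, one_smul, smul_zero, smul_zero]
      congr 1
      ext i j
      by_cases h : i = j
      · subst h
        rw [Matrix.diagonal_apply_eq, Matrix.smul_apply, Matrix.diagonal_apply_eq, smul_eq_mul]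
      · rw [Matrix.diagonal_apply_ne _ h, Matrix.smul_apply, Matrix.diagonal_apply_ne _ h,
          smul_zero]
    rw [h1, smul_smul]
    congr 1
    push_cast
    ring
  -- the CM factor
  obtain ⟨T', B', hT', hB', hB'I⟩ := hCmx X t.E e ζ φ hI him l fun _ => false
  have hB'n : ∀ v, zc B' φ (Complex.I • v) = (-Complex.I) • zc B' φ v := by
    intro v
    funext i
    exact hB'I i v
  obtain ⟨ψ, hψ⟩ := hIso hZi hSig X t.T T' t'.T t.E t.r l (re e) t.B B' BU e ζ φ hI him t.inv hinv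
    t.R RU t.pos t.herm hpol.2.2.2.1 hpol.2.2.1 S ((c₁ : t.E) • th e ζ • HJ e ζ) hRS hform hS hSU
    f _ hf hpic hB'n P P' a (c₀ * c₁) z hPP hPP' (mul_pos hc₀ hc₁) hz ha hM' hf1 hf2
  -- the type of the curve over `t.E`
  have hadj := adj_of t φ BU RU _ hform
  let u : Tp X :=
    { T := t'.T, E := t.E, r := re e, B := BU, inv := t.inv, hinv := t.hinv, tc := t.tc, R := RU,
      rat := hpol.1, alt := hpol.2.1, herm := hpol.2.2.1, pos := hpol.2.2.2.1, adj := hadj }
  have hI' : IQ e t.E (t.inv ζ) := IQ_inv hI hiz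
  obtain ⟨ε, hε⟩ := field_iso hI' t'.E hcyc ζ' hζ'
  have hact : t'.B.ρ.comp (ε : t.E →+* t'.E) = BU.ρ := by
    refine act_eq hI' _ _ ?_
    show t'.B.ρ (ε (t.inv ζ)) = BU.ρ (t.inv ζ)
    rw [hε, hρ]
    exact LinearMap.ext fun v => hρ' v
  obtain ⟨T₀, B₀₀, hT₀, hB₀₀, -⟩ := hCmx X t.E e ζ φ hI him 0 fun _ => false
  have hsub : ∀ w w' : T₀.V, w = w' := fun w w' => S5.blk_inj B₀₀ fun _ i => i.elim0
  obtain ⟨Cu, BCu, hCu, hBCu, hδu⟩ := exC hCmx hZi hDel BU e ζ φ hI him (by omega) _ hpic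
  have hDu : Nonempty (DA @Alg2 u) := by
    refine S6.da_isd hHC cl_alg2 u t' D₁ T₀ hT₀ B₀₀ hB₀₀
      ⟨ε, LinearMap.id, 0, ?_, ?_, ?_, ?_⟩ 1 one_ne_zero ?_ ?_ Cu hCu BCu hBCu hδu
    · intro w w'
      exact ⟨w, rfl, hsub _ _⟩
    · intro v hv _
      exact hv
    · intro x v
      exact LinearMap.congr_fun (RingHom.congr_fun hact x) v
    · intro x v
      exact hsub _ _
    · intro v hv
      rw [one_smul]
      exact hv
    · intro v hv
      rw [one_smul]
      exact T₀.L.zero_mem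
  -- the factor
  obtain ⟨C₀, B₀, hC₀, hB₀, hδ⟩ := exC hCmx hZi hDel t.B e ζ φ hI him hr f hf
  refine tFac hHC @Alg2 cl_alg2 X t u (RingEquiv.refl t.E) T' l B' C₀ B₀ hT' hB' hC₀ hB₀ hδ P P'
    ψ hPP hPP' (fun φ' v k => ?_) hDu
  have hcomp : φ'.comp ((RingEquiv.refl t.E).symm : t.E →+* t.E) = φ' := RingHom.ext fun x => rfl
  rw [hcomp]
  have z1 := hZi X t.T t.E t.r t.B e ζ φ hI him
  have z2 := hZi X T' t.E l B' e ζ φ hI him
  have z3 := hZi X t'.T t.E (re e) BU e ζ φ hI him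
  rcases z1.2.1 φ' with rfl | rfl
  · exact hψ v k
  · show BU.b (gl X.c φ, k) (ψ v) = _
    rw [z3.2.2, hψ, map_add, map_sum, map_sum]
    congr 1
    · refine Finset.sum_congr rfl fun i _ => ?_
      rw [map_mul, z1.2.2]
      congr 1
      exact (X.hc _).symm
    · refine Finset.sum_congr rfl fun i _ => ?_
      rw [map_mul, z2.2.2]
      congr 1
      exact (X.hc _).symm

end SEP
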