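import Pool.Agent.Lib.SE.P.SpecF

/-!
# PROJECT SE-P, module Pf (helper69): the form of Picard type
-/

set_option autoImplicit false

open Module HC HC.SE SE
open scoped ComplexConjugate Matrix

noncomputable section

namespace SEP.Pf

theorem ker_dual {V : Type} [AddCommGroup V] [Module ℂ V] [FiniteDimensional ℂ V]
    (f : V →ₗ[ℂ] V) : finrank ℂ (LinearMap.ker f.dualMap) = finrank ℂ (LinearMap.ker f) := by
  have h1 := LinearMap.finrank_range_dualMap_eq_finrank_range f
  have h2 := LinearMap.finrank_range_add_finrank_ker f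
  have h3 := LinearMap.finrank_range_add_finrank_ker f.dualMap
  have h4 : finrank ℂ (Dual ℂ V) = finrank ℂ V := Subspace.dual_finrank_eq
  omega

/-- the linear forms with the eigenvalue `z` are a line -/
theorem gen {V : Type} [AddCommGroup V] [Module ℂ V] [FiniteDimensional ℂ V]
    (Z : Module.End ℂ V) (z : ℂ) (h : finrank ℂ (Module.End.eigenspace Z z) = 1) :
    ∃ a : V →ₗ[ℂ] ℂ, a ≠ 0 ∧ (∀ v, a (Z v) = z * a v) ∧
      ∀ b : V →ₗ[ℂ] ℂ, (∀ v, b (Z v) = z * b v) → ∃ c : ℂ, b = c • a := by
  have h1 : finrank ℂ (LinearMap.ker (Z - z • 1 : Module.End ℂ V).dualMap) = 1 := by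
    rw [ker_dual, ← Module.End.eigenspace_def, h]
  obtain ⟨⟨a, ha⟩, ha0, hg⟩ := finrank_eq_one_iff'.1 h1
  have key : ∀ b : V →ₗ[ℂ] ℂ, b ∈ LinearMap.ker (Z - z • 1 : Module.End ℂ V).dualMap ↔
      ∀ v, b (Z v) = z * b v := by
    intro b
    rw [LinearMap.mem_ker]
    constructor
    · intro hb v
      have h2 := LinearMap.congr_fun hb v
      rw [LinearMap.dualMap_apply] at h2
      simp only [LinearMap.sub_apply, LinearMap.smul_apply, Module.End.one_apply, map_sub, map_smul,
        smul_eq_mul, LinearMap.zero_apply] at h2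
      exact sub_eq_zero.1 h2
    · intro hb
      refine LinearMap.ext fun v => ?_
      rw [LinearMap.dualMap_apply]
      simp only [LinearMap.sub_apply, LinearMap.smul_apply, Module.End.one_apply, map_sub, map_smul,
        smul_eq_mul, LinearMap.zero_apply]
      rw [hb v, sub_self]
  refine ⟨a, fun h0 => ha0 (Subtype.ext h0), (key a).1 ha, fun b hb => ?_⟩
  obtain ⟨c, hc⟩ := hg ⟨b, (key b).2 hb⟩
  exact ⟨c, (congrArg Subtype.val hc).symm⟩

end SEP.Pf

namespace SEP

theorem tPf : S_Pf := by
  intro X T E _ _ r B ζ φ hφ h1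
  obtain ⟨a, ha0, haZ, hag⟩ := Pf.gen (B.ρ ζ) (X.τ (φ ζ)) h1
  set A : T.V →ₗ[ℝ] ℂ := a.restrictScalars ℝ with hA
  have hAv : ∀ v, A v = a v := fun v => rfl
  have hsum : ∑ p, B.b.repr A p • B.b p = A := B.b.sum_repr A
  have hsv : ∀ v, A v = ∑ p, B.b.repr A p * B.b p v := by
    intro v
    conv_lhs => rw [← hsum]
    rw [LinearMap.sum_apply]
    rfl
  -- the coefficients outside `φ` vanish
  have hz : ∀ p : (E →+* X.K) × Fin r, p.1 ≠ φ → B.b.repr A p = 0 := by
    have hrel : ∑ p, (B.b.repr A p * (X.τ (p.1 ζ) - X.τ (φ ζ))) • B.b p = 0 := by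
      refine LinearMap.ext fun v => ?_
      rw [LinearMap.sum_apply]
      have h2 : A (B.ρ ζ v) = X.τ (φ ζ) * A v := haZ v
      rw [hsv, hsv, Finset.mul_sum] at h2
      have h3 := sub_eq_zero.2 h2
      rw [← Finset.sum_sub_distrib] at h3
      rw [LinearMap.zero_apply, ← h3]
      refine Finset.sum_congr rfl fun p _ => ?_
      rw [LinearMap.smul_apply, smul_eq_mul, B.act p.1 p.2 ζ v]
      ring
    intro p hp
    have h4 := Fintype.linearIndependent_iff.1 B.b.linearIndependent _ hrel p
    rcases mul_eq_zero.1 h4 with h5 | h5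
    · exact h5
    · exact absurd (hφ p.1 (X.τ.injective (sub_eq_zero.1 h5))) hp
  have hfv : ∀ v, (fun i => B.b.repr A (φ, i)) ⬝ᵥ zc B φ v = a v := by
    intro v
    rw [← hAv, hsv, Fintype.sum_prod_type, Finset.sum_eq_single φ]
    · rfl
    · intro φ' _ hne
      exact Finset.sum_eq_zero fun i _ => by rw [hz (φ', i) hne, zero_mul]
    · intro h; exact absurd (Finset.mem_univ _) h
  refine ⟨fun i => B.b.repr A (φ, i), ?_, ?_, ?_⟩
  · intro h0
    apply ha0
    refine LinearMap.ext fun v => ?_
    rw [← hfv v, h0, zero_dotProduct, LinearMap.zero_apply]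
  · intro v
    rw [hfv, hfv, map_smul, smul_eq_mul]
  · intro v hv
    rw [hfv] at hv
    funext i
    -- the form `v ↦ b (φ, i) (I v) + I b (φ, i) v` is complex linear
    have hI : ∀ w, B.b (φ, i) (Complex.I • Complex.I • w) = - B.b (φ, i) w := by
      intro w
      rw [smul_smul, Complex.I_mul_I, neg_one_smul, map_neg]
    let g : T.V →ₗ[ℂ] ℂ :=
      { toFun := fun w => B.b (φ, i) (Complex.I • w) + Complex.I * B.b (φ, i) w
        map_add' := fun u w => by
          simp only [smul_add, map_add]; ring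
        map_smul' := fun c w => by
          have hc : ∀ x : T.V, B.b (φ, i) (c • x) =
              (c.re : ℂ) * B.b (φ, i) x + (c.im : ℂ) * B.b (φ, i) (Complex.I • x) := by
            intro x
            have : c • x = (c.re : ℝ) • x + (c.im : ℝ) • (Complex.I • x) := by
              conv_lhs => rw [← Complex.re_add_im c]
              rw [add_smul, mul_smul]
              rfl
            rw [this, map_add, map_smul, map_smul]
            simp [Complex.real_smul]
          simp only [RingHom.id_apply, smul_eq_mul]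
          have h7 : Complex.I • c • w = c • Complex.I • w := smul_comm _ _ _
          rw [h7, hc, hc, hI]
          conv_rhs => rw [← Complex.re_add_im c]
          linear_combination (- (c.im : ℂ) * B.b (φ, i) w) * Complex.I_mul_I }
    have hgv : ∀ w, g w = B.b (φ, i) (Complex.I • w) + Complex.I * B.b (φ, i) w := fun w => rfl
    have hgZ : ∀ w, g (B.ρ ζ w) = X.τ (φ ζ) * g w := by
      intro w
      rw [hgv, hgv, ← map_smul, B.act, B.act]
      ring
    obtain ⟨c, hc⟩ := hag g hgZ
    have h8 : g v = 0 := by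
      rw [hc, LinearMap.smul_apply, hv, smul_zero]
    rw [hgv] at h8
    show B.b (φ, i) (Complex.I • v) = (-Complex.I) • B.b (φ, i) v
    rw [smul_eq_mul]
    linear_combination h8

end SEP
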