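import Pool.Agent.Lib.SE.P.SpecQ

set_option autoImplicit false

open MeasureTheory Filter Topology SEJ HC HC.SE SE
open scoped ComplexConjugate Matrix

noncomputable section

namespace SEP

namespace Sig

theorem hv_smul {r : ℕ} (H : Matrix (Fin r) (Fin r) ℂ) (c : ℂ) (w w' : Fin r → ℂ) :
    hv H (c • w) w' = c * hv H w w' := by
  unfold hv
  rw [smul_dotProduct, smul_eq_mul]

theorem hv_map {E : Type} [Field E] {r : ℕ} (σ : E →+* ℂ) (t : E) (ht : t ≠ 0)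
    (S : Matrix (Fin r) (Fin r) E) (w w' : Fin r → ℂ) :
    hv (S.map σ) w w' = σ t * hv ((t⁻¹ • S).map σ) w w' := by
  have h : S.map σ = σ t • (t⁻¹ • S).map σ := by
    ext i j
    simp only [Matrix.smul_apply, Matrix.map_apply, smul_eq_mul]
    rw [← map_mul, ← mul_assoc, mul_inv_cancel₀ ht, one_mul]
  rw [h]
  unfold hv
  rw [Matrix.smul_mulVec, dotProduct_smul, smul_eq_mul]

theorem theta {e : ℤ} {E : Type} [Field E] {ζ : E} (hE : IQ e E ζ) (σ : E →+* ℂ)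
    (h : 0 < (σ ζ).im) : σ (th e ζ) = Complex.I * ((2 * (σ ζ).im : ℝ) : ℂ) := by
  have h1 : σ ζ ^ 2 = (e : ℂ) * σ ζ - 1 := by
    have h2 := congrArg σ hE.sq
    simpa using h2
  have h3 := congrArg Complex.im h1
  have h4 : (σ ζ).re = (e : ℝ) / 2 := by
    have h5 : (σ ζ ^ 2).im = 2 * (σ ζ).re * (σ ζ).im := by
      rw [pow_two, Complex.mul_im]
      ring
    have h6 : ((e : ℂ) * σ ζ - 1).im = (e : ℝ) * (σ ζ).im := by
      simp
    rw [h5, h6] at h3
    have h7 := mul_right_cancel₀ h.ne' h3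
    linarith
  have h8 : σ (th e ζ) = 2 * σ ζ - (e : ℂ) := by
    unfold th
    rw [map_sub, map_mul, map_ofNat, map_intCast]
  rw [h8]
  apply Complex.ext
  · simp [h4]
    ring
  · simp

variable {X : GF} {T : AV} {E : Type} [Field E] [NumberField E] {r : ℕ}

theorem zc_smul (B : Blk X T E r) (φ : E →+* X.K) (x : E) (v : T.V) :
    zc B φ (B.ρ x v) = X.τ (φ x) • zc B φ v := by
  funext i
  exact B.act φ i x v

theorem cx (σ : ℂ) (hσ : 0 < σ.im) (c : ℂ) : ∃ a b : ℝ, c = a + b * σ := by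
  refine ⟨c.re - c.im / σ.im * σ.re, c.im / σ.im, ?_⟩
  apply Complex.ext
  · simp
  · simp [hσ.ne']

theorem Jlin (B : Blk X T E r) (φ : E →+* X.K) (ζ : E) (h : 0 < (X.τ (φ ζ)).im)
    (Z : T.V ≃ₗ[ℝ] (Fin r → ℂ)) (hZ : ∀ v, Z v = zc B φ v) (c : ℂ) (w : Fin r → ℂ) :
    Z (Complex.I • Z.symm (c • w)) = c • Z (Complex.I • Z.symm w) := by
  have h1 : ∀ u : Fin r → ℂ, Z (Complex.I • Z.symm (X.τ (φ ζ) • u)) =
      X.τ (φ ζ) • Z (Complex.I • Z.symm u) := by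
    intro u
    have h2 : Z.symm (X.τ (φ ζ) • u) = B.ρ ζ (Z.symm u) := by
      apply Z.injective
      rw [Z.apply_symm_apply, hZ, zc_smul, ← hZ, Z.apply_symm_apply]
    rw [h2, ← map_smul (B.ρ ζ), hZ, zc_smul, hZ]
  have h3 : ∀ (a : ℝ) (u : Fin r → ℂ), Z (Complex.I • Z.symm ((a : ℂ) • u)) =
      (a : ℂ) • Z (Complex.I • Z.symm u) := by
    intro a u
    have h4 : ((a : ℂ) • u) = a • u := by
      funext i
      simp
    rw [h4, LinearEquiv.map_smul Z.symm a u, smul_comm Complex.I a, LinearEquiv.map_smul Z a]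
    funext i
    simp
  obtain ⟨a, b, hab⟩ := cx _ h c
  have h5 : c • w = (a : ℂ) • w + (b : ℂ) • (X.τ (φ ζ) • w) := by
    rw [hab, add_smul, mul_smul]
  rw [h5, map_add, smul_add, map_add, h3, h3, h1]
  conv_rhs => rw [hab, add_smul, mul_smul]

end Sig

theorem tSig : S_Zi → S_Sig := by
  intro hZi X T E _ _ r B e ζ φ hE him R hR S hS f hf
  obtain ⟨⟨Z, hZ⟩, -, -⟩ := hZi X T E r B e ζ φ hE him
  have hθ : (X.τ.comp φ) (th e ζ) = Complex.I * ((2 * (X.τ (φ ζ)).im : ℝ) : ℂ) :=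
    Sig.theta hE (X.τ.comp φ) him
  have hy : (0 : ℝ) < 2 * (X.τ (φ ζ)).im := by linarith
  have ht : th e ζ ≠ 0 := by
    intro h0
    rw [h0, map_zero] at hθ
    have h1 := mul_eq_zero.1 hθ.symm
    rcases h1 with h1 | h1
    · exact Complex.I_ne_zero h1
    · exact hy.ne' (Complex.ofReal_eq_zero.1 h1)
  generalize hyy : 2 * (X.τ (φ ζ)).im = y at hθ hy
  have key : ∀ v : T.V, R (Complex.I • v) v =
      2 * (Complex.I * (y : ℂ) * hv (((th e ζ)⁻¹ • S).map (X.τ.comp φ))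
        (zc B φ (Complex.I • v)) (zc B φ v)).re := by
    intro v
    rw [hS, Sig.hv_map (X.τ.comp φ) (th e ζ) ht, hθ]
  refine ⟨fun w hw hw0 => ?_, ?_⟩
  · have h1 : zc B φ (Z.symm w) = w := by rw [← hZ, Z.apply_symm_apply]
    have hv0 : Z.symm w ≠ 0 := fun h => hw0 (by rw [← h1, h, ← hZ, map_zero])
    have h2 := hR _ hv0
    rw [key, hf.ahol _ (by rw [h1]; exact hw), h1, Sig.hv_smul] at h2
    have h3 : Complex.I * (y : ℂ) * (-Complex.I *
        hv (((th e ζ)⁻¹ • S).map (X.τ.comp φ)) w w) =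
        (y : ℂ) * hv (((th e ζ)⁻¹ • S).map (X.τ.comp φ)) w w := by
      have h4 := Complex.I_mul_I
      linear_combination (-(y : ℂ) * hv (((th e ζ)⁻¹ • S).map (X.τ.comp φ)) w w) * h4
    rw [h3, Complex.re_ofReal_mul] at h2
    have h5 : 0 < y * (hv (((th e ζ)⁻¹ • S).map (X.τ.comp φ)) w w).re := by linarith
    exact (mul_pos_iff_of_pos_left hy).1 h5
  · obtain ⟨i, hi⟩ := Function.ne_iff.1 hf.ne
    obtain ⟨w0, hw0⟩ : ∃ w0 : Fin r → ℂ, w0 = Pi.single i 1 := ⟨_, rfl⟩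
    have hfw : f ⬝ᵥ w0 ≠ 0 := by
      rw [hw0, dotProduct_single, mul_one]
      exact hi
    obtain ⟨v0, hv0⟩ : ∃ v0 : T.V, v0 = Z.symm w0 := ⟨_, rfl⟩
    have hv0' : zc B φ v0 = w0 := by rw [← hZ, hv0, Z.apply_symm_apply]
    obtain ⟨wp, hwp⟩ : ∃ wp : Fin r → ℂ, wp = Z (Complex.I • Z.symm w0) + Complex.I • w0 := ⟨_, rfl⟩
    have h1 : f ⬝ᵥ wp = 2 * (Complex.I * f ⬝ᵥ w0) := by
      rw [hwp, dotProduct_add, dotProduct_smul, smul_eq_mul, hZ, ← hv0, hf.hol, hv0']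
      ring
    have hwp0 : wp ≠ 0 := by
      intro h0
      rw [h0, dotProduct_zero] at h1
      have h2 : (2 : ℂ) * (Complex.I * f ⬝ᵥ w0) ≠ 0 :=
        mul_ne_zero two_ne_zero (mul_ne_zero Complex.I_ne_zero hfw)
      exact h2 h1.symm
    have hJ : Z (Complex.I • Z.symm wp) = Complex.I • wp := by
      have h2 : Complex.I • Complex.I • Z.symm w0 = -Z.symm w0 := by
        rw [smul_smul, Complex.I_mul_I, neg_one_smul]
      rw [hwp, map_add, smul_add, map_add, Z.symm_apply_apply, h2, map_neg, Z.apply_symm_apply,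
        Sig.Jlin B φ ζ him Z hZ, smul_add, smul_smul, Complex.I_mul_I, neg_one_smul, add_comm]
    have h2 : zc B φ (Z.symm wp) = wp := by rw [← hZ, Z.apply_symm_apply]
    have h3 : Z.symm wp ≠ 0 := fun h => hwp0 (by rw [← h2, h, ← hZ, map_zero])
    have h4 := hR _ h3
    rw [key, ← hZ (Complex.I • Z.symm wp), hJ, h2, Sig.hv_smul] at h4
    refine ⟨wp, ?_⟩
    have h5 : Complex.I * (y : ℂ) * (Complex.I *
        hv (((th e ζ)⁻¹ • S).map (X.τ.comp φ)) wp wp) =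
        ((-y : ℝ) : ℂ) * hv (((th e ζ)⁻¹ • S).map (X.τ.comp φ)) wp wp := by
      have h6 := Complex.I_mul_I
      push_cast
      linear_combination ((y : ℂ) * hv (((th e ζ)⁻¹ • S).map (X.τ.comp φ)) wp wp) * h6
    rw [h5, Complex.re_ofReal_mul] at h4
    nlinarith

end SEP
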