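import Pool.Agent.Lib.SE.P.SpecQ

/-!
# PROJECT SE-P, module Zi: the coordinates at one label (helper94)
-/

set_option autoImplicit false

open MeasureTheory Filter Topology SEJ HC HC.SE SE
open scoped ComplexConjugate Matrix

noncomputable section

namespace SEP

namespace Zi

variable {X : GF} {T : AV} {E : Type} [Field E] [NumberField E] {r : ℕ}

/-- Two real linear functions which agree on the lattice. -/
private theorem lat_ext {T : AV} {a b : T.V →ₗ[ℝ] ℂ} (h : ∀ v ∈ T.L, a v = b v) : a = b := by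
  refine LinearMap.ext_on (s := (T.L : Set T.V)) ?_ fun v hv => h v hv
  exact T.latt.span_top

/-- The coordinate with the conjugate label is the conjugate coordinate. -/
theorem cj (B : Blk X T E r) (φ : E →+* X.K) (i : Fin r) (v : T.V) :
    B.b (gl X.c φ, i) v = conj (B.b (φ, i) v) := by
  have h : B.b (gl X.c φ, i) = cjl (B.b (φ, i)) := by
    refine lat_ext fun v hv => ?_
    obtain ⟨y, hy⟩ := B.lat v hv
    rw [hy, cjl_apply, hy]
    exact X.hc _
  rw [h, cjl_apply]

/-- The labels are `φ` and its conjugate. -/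
theorem labels {e : ℤ} {ζ : E} (hE : IQ e E ζ) (φ : E →+* X.K) (h : 0 < (X.τ (φ ζ)).im)
    (φ' : E →+* X.K) : φ' = φ ∨ φ' = gl X.c φ := by
  have hw : X.τ (φ ζ) ^ 2 = (e : ℂ) * X.τ (φ ζ) - 1 := by
    have h1 := congrArg (fun x => X.τ (φ x)) hE.sq
    simpa using h1
  have hw' : X.τ (φ' ζ) ^ 2 = (e : ℂ) * X.τ (φ' ζ) - 1 := by
    have h1 := congrArg (fun x => X.τ (φ' x)) hE.sq
    simpa using h1
  have hc : conj (X.τ (φ ζ)) = (e : ℂ) - X.τ (φ ζ) := by
    have h1 : conj (X.τ (φ ζ)) ^ 2 = (e : ℂ) * conj (X.τ (φ ζ)) - 1 := by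
      have h2 := congrArg conj hw
      simpa using h2
    have h2 : (conj (X.τ (φ ζ)) - X.τ (φ ζ)) * (conj (X.τ (φ ζ)) - ((e : ℂ) - X.τ (φ ζ))) = 0 := by
      linear_combination h1 - hw
    rcases mul_eq_zero.1 h2 with h3 | h3
    · exfalso
      have h4 := Complex.conj_eq_iff_im.1 (sub_eq_zero.1 h3)
      rw [h4] at h
      exact lt_irrefl _ h
    · exact sub_eq_zero.1 h3
  have hext : ∀ ψ ψ' : E →+* X.K, ψ ζ = ψ' ζ → ψ = ψ' := by
    intro ψ ψ' hζ
    refine RingHom.ext fun x => ?_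
    obtain ⟨p, q, rfl⟩ := hE.gen x
    rw [map_add, map_add, map_mul, map_mul, map_ratCast, map_ratCast, map_ratCast, map_ratCast, hζ]
  have h2 : (X.τ (φ' ζ) - X.τ (φ ζ)) * (X.τ (φ' ζ) - ((e : ℂ) - X.τ (φ ζ))) = 0 := by
    linear_combination hw' - hw
  rcases mul_eq_zero.1 h2 with h3 | h3
  · exact Or.inl (hext _ _ (X.τ.injective (sub_eq_zero.1 h3)))
  · refine Or.inr (hext _ _ (X.τ.injective ?_))
    rw [sub_eq_zero.1 h3, ← hc]
    exact (X.hc _).symm

/-- The conjugate label is different. -/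
theorem ne_conj {ζ : E} (φ : E →+* X.K) (h : 0 < (X.τ (φ ζ)).im) : φ ≠ gl X.c φ := by
  intro h1
  have h2 : X.τ (φ ζ) = conj (X.τ (φ ζ)) := by
    conv_lhs => rw [h1]
    exact X.hc _
  have h3 := Complex.conj_eq_iff_im.1 h2.symm
  rw [h3] at h
  exact lt_irrefl _ h

/-- The coordinates as a real linear map. -/
private def zl (B : Blk X T E r) (φ : E →+* X.K) : T.V →ₗ[ℝ] (Fin r → ℂ) :=
  LinearMap.pi fun i => B.b (φ, i)

private theorem zl_apply (B : Blk X T E r) (φ : E →+* X.K) (v : T.V) : zl B φ v = zc B φ v := rfl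

/-- A vector is zero if all real linear functions vanish on it. -/
private theorem eq_zero {v : T.V} (h : ∀ a : T.V →ₗ[ℝ] ℂ, a v = 0) : v = 0 := by
  refine (Module.forall_dual_apply_eq_zero_iff ℝ v).1 fun f => ?_
  have h1 := h (Complex.ofRealCLM.toLinearMap ∘ₗ f)
  exact Complex.ofReal_eq_zero.1 h1

/-- Evaluation at a vector. -/
private def evl (v : T.V) : (T.V →ₗ[ℝ] ℂ) →ₗ[ℂ] ℂ where
  toFun a := a v
  map_add' _ _ := rfl
  map_smul' _ _ := rfl

private theorem zl_inj (B : Blk X T E r) (φ : E →+* X.K)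
    (hl : ∀ φ' : E →+* X.K, φ' = φ ∨ φ' = gl X.c φ) : Function.Injective (zl B φ) := by
  refine (injective_iff_map_eq_zero _).2 fun v hv => ?_
  have h1 : ∀ i, B.b (φ, i) v = 0 := fun i => congrFun hv i
  have h2 : ∀ s, B.b s v = 0 := by
    rintro ⟨φ', i⟩
    rcases hl φ' with h | h
    · rw [h]
      exact h1 i
    · rw [h, cj, h1 i, map_zero]
  have h3 : evl v = 0 := B.b.ext fun s => h2 s
  exact eq_zero fun a => LinearMap.congr_fun h3 a

private theorem dim_eq (B : Blk X T E r) {ζ : E} (φ : E →+* X.K) (h : 0 < (X.τ (φ ζ)).im)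
    (hl : ∀ φ' : E →+* X.K, φ' = φ ∨ φ' = gl X.c φ) :
    Module.finrank ℝ T.V = Module.finrank ℝ (Fin r → ℂ) := by
  classical
  have h1 : Fintype.card (E →+* X.K) = 2 := by
    have h2 : (Finset.univ : Finset (E →+* X.K)) = {φ, gl X.c φ} := by
      ext φ'
      simp only [Finset.mem_univ, Finset.mem_insert, Finset.mem_singleton, true_iff]
      exact hl φ'
    rw [← Finset.card_univ, h2, Finset.card_pair (ne_conj φ h)]
  have h2 := Module.finrank_eq_card_basis B.b
  rw [Fintype.card_prod, h1, Fintype.card_fin, Module.finrank_linearMap_self] at h2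
  rw [h2, Module.finrank_pi_fintype]
  simp only [Complex.finrank_real_complex, Finset.sum_const, Finset.card_univ, Fintype.card_fin,
    smul_eq_mul]
  ring

end Zi

/-- **Zi**: the coordinates at one label. -/
theorem tZi : S_Zi := by
  intro X T E _ _ r B e ζ φ hE h
  have hl := Zi.labels hE φ h
  refine ⟨?_, hl, fun i v => Zi.cj B φ i v⟩
  have hinj := Zi.zl_inj B φ hl
  exact ⟨LinearEquiv.ofBijective (Zi.zl B φ) ⟨hinj,
    (LinearMap.injective_iff_surjective_of_finrank_eq_finrank (Zi.dim_eq B φ h hl)).1 hinj⟩,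
    fun v => rfl⟩

end SEP
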