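import Pool.Agent.Lib.SE.P.Asm
import Pool.Agent.Lib.SE.P.PDA
import Pool.Agent.Lib.SE.P.GAll
import Pool.Agent.Lib.SE.P.Iso
import Pool.Agent.Lib.SE.P.Jt
import Pool.Agent.Lib.SE.P.Cyb
import Pool.Agent.Lib.SE.P.Pf
import Pool.Agent.Lib.SE.P.Gn
import Pool.Agent.Lib.SE.P.Pp
import Pool.Agent.Lib.SE.P.Ltz
import Pool.Agent.Lib.SE.P.N1
import Pool.Agent.Lib.SE.P.Mat
import Pool.Agent.Lib.SE.P.Sig
import Pool.Agent.Lib.SE.P.Cmx
import Pool.Agent.Lib.SE.P.Del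
import Pool.Agent.Lib.SE.P.Zi
import Pool.Agent.Lib.SE.All
import Pool.Agent.Lib.SE.Big.L1
import Pool.Agent.Lib.SE.Big.Perf
import Pool.Agent.Lib.SE.Big.Gou
import Pool.Agent.Lib.SE.Big.Pj
import Pool.Agent.Lib.SE.Big.Bas
import Pool.Agent.Lib.SE.Big.LI
import Pool.Agent.Lib.SE.Big.Tw
import Pool.Agent.Lib.SE.Big.Hm
import Pool.Agent.Lib.SE.Big.Dim
import Pool.Agent.Lib.SE.Big.J0
import Pool.Agent.Lib.SE.Big.AdJ
import Pool.Agent.Lib.SE.Big.Red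
import Pool.Agent.Lib.SE.Big.RatSp
import Pool.Agent.Lib.SE.Big.Irr
import Pool.Agent.Lib.SE.Big.R2i
import Pool.Agent.Lib.SE.Big.Cl
import Pool.Agent.Lib.SE.Big.At0
import Pool.Agent.Lib.SE.Big.All
import Pool.Agent.Lib.SE.Big.Two
import Pool.Agent.Lib.SE.Big.Rib
import Pool.Agent.Lib.SE.Big.Tr
import Pool.Agent.Lib.SE.Big.Real
import Pool.Agent.Lib.SE.Big.Fin
import Pool.Agent.Lib.SE.Big.IrrZ
import Pool.Agent.Lib.SE.Big.Hl
import Pool.Agent.Lib.SE.Big.ToBig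
import Pool.Agent.Lib.SE.Big.Avg

/-!
# PROJECT SE-P: THEOREMS K, B (new Jacobians and Picard type) and THEOREM P, unconditional
-/

set_option autoImplicit false

open Module HC HC.SE SE

noncomputable section

namespace SEP

theorem s_PDA : S_PDA :=
  tPDA tZi (tMat tZi) (tSig tZi) s_G (tIso) tCmx (tDel) tJt s_da hodgeCM

theorem s_DAB : S_DAB := tDAB tCyb tPf tGn s_PDA

/-- **THEOREM K.** -/
theorem thm_K2 : ThmK2 := thmK2 s_da s_DAB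

/-- **THEOREM B.** -/
theorem thm_B2 : ThmB2 := thmB2 s_da s_DAB

theorem mods : SEB.Mods := by
  have hBas : SEB.S_Bas := SEB.tBas SEB.tPj
  have hLI : SEB.S_LI := SEB.tLI SEB.tPj SEB.tTw
  have hDim : SEB.S_Dim := SEB.tDim SEB.tPj SEB.tTw hBas
  exact ⟨SEB.tL1, SEB.tPerf, SEB.tGou, SEB.tPj, hBas, hLI, hDim, SEB.tJ0, SEB.tAdJ hBas,
    SEB.tRed SEB.tHm, SEB.tRatSp, SEB.tIrr, SEB.tR2i, SEB.tCl, SEB.tAt0, SEB.tAll, SEB.tTwo,
    SEB.tRib, SEB.tTr, SEB.tReal, SEB.tFin SEB.tPj⟩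

/-- The Hodge conjecture for `A × T ^ N`, `T` of Picard type, the commutant of `Z` is `ℚ(Z)`. -/
theorem thm_Pic (T : AV) (m : ℕ) (Z : Module.End ℂ T.V) (hZ : IsPic T m Z)
    (hE : SEB.EndQ T Z) : SEB.HCall T :=
  pic_all thm_B2 mods SEB.tIrrZ SEB.tHl SEB.tToBig SEB.tAvg tPp tApm tN1 hZ hE

/-- **THEOREM P.** -/
theorem thm_P : ThmP := thmP_of tLtz thm_Pic

end SEP
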