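import Pool.Agent.Lib.SE.Defs

/-!
# PROJECT SE-P: abelian varieties of Picard type; the class of the factors; the targets

* `IsPic T m Z`: `Z` is an automorphism of `T` of order `m = 3` (`dim T ≤ 9`) or `m = 4`
  (`dim T ≤ 5`), `Φ_m(Z) = 0`, with signature `(n - 1, 1)`.
* `Fct J m Z`: `J` is a new Jacobian or of Picard type.
* `ThmK2`, `ThmB2`: theorems K and B for these factors. `ThmP`: the Hodge conjecture for `A × T ^ N`.
-/

set_option autoImplicit false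

noncomputable section

namespace HC.SE

/-- `T` is an abelian variety of dimension `n ≤ 9` with an automorphism `Z` with `Z² + Z + 1 = 0`, or
of dimension `n ≤ 5` with an automorphism `Z` with `Z² + 1 = 0`, and one of the two eigenspaces of `Z`
has dimension one: `T` has multiplication by `ℚ(√-3)` or by `ℚ(i)`, of signature `(n - 1, 1)`. -/
structure IsPic (T : AV) (m : ℕ) (Z : Module.End ℂ T.V) : Prop where
  dim : m = 3 ∧ Module.finrank ℂ T.V ≤ 9 ∨ m = 4 ∧ Module.finrank ℂ T.V ≤ 5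
  lat : ∀ v ∈ T.L, Z v ∈ T.L
  cyc : Polynomial.aeval Z (Polynomial.cyclotomic m ℤ) = 0
  one : ∃ z : ℂ, Module.finrank ℂ (Module.End.eigenspace Z z) = 1

/-- `J`, with the automorphism `Z`, is a new Jacobian or of Picard type. -/
def Fct (J : AV) (m : ℕ) (Z : Module.End ℂ J.V) : Prop :=
  (∃ (r : ℕ) (s : Fin (r + 1) → ℂ) (b : Fin (r + 1) → ℕ) (D : New J m s b), IsCov m s b ∧
    D.Z = Z) ∨ IsPic J m Z

/-- THEOREM K for these factors. -/
def ThmK2 : Prop :=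
  ∀ (A T : AV) (q N : ℕ) (J : Fin q → AV) (j : Fin N → Fin q) (m : Fin q → ℕ)
    (Z : ∀ i, Module.End ℂ (J i).V) (E : ∀ i, (J i).V →ₗ[ℝ] (J i).V →ₗ[ℝ] ℝ)
    (ψ : T.V ≃ₗ[ℂ] A.V × (∀ n, (J (j n)).V)),
    IsCM A → (∀ i, Fct (J i) (m i) (Z i)) → (∀ i, IsPol (J i) (Z i) (E i)) →
    (∀ v ∈ T.L, ∃ k : ℕ, k ≠ 0 ∧ k • (ψ v).1 ∈ A.L ∧ ∀ n, k • (ψ v).2 n ∈ (J (j n)).L) →
    ∀ (d : ℕ) (c : Hlg T d), IsHodge T d c → SUK Z E ψ c → Alg2 T d c

/-- THEOREM B for these factors. -/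
def ThmB2 : Prop :=
  ∀ (A T : AV) (q N : ℕ) (J : Fin q → AV) (j : Fin N → Fin q) (m : Fin q → ℕ)
    (Z : ∀ i, Module.End ℂ (J i).V) (E : ∀ i, (J i).V →ₗ[ℝ] (J i).V →ₗ[ℝ] ℝ),
    IsCM A → (∀ i, Fct (J i) (m i) (Z i)) → (∀ i, IsPol (J i) (Z i) (E i)) → Big J Z E →
    IsProdE T A (fun n => J (j n)) → ∀ (d : ℕ) (c : Hlg T d), IsHodge T d c → Alg2 T d c

/-- THEOREM P. `T` is an abelian variety of dimension `n ≤ 9` with multiplication by `ℚ(√-3)`
(`e = 1`), or of dimension `n ≤ 5` with multiplication by `ℚ(i)` (`e = 0`), of signature `(n - 1, 1)`,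
which commutes with nothing else; `A` is of CM type. The Hodge conjecture holds for every
abelian variety isogenous to `A × T ^ N`. -/
def ThmP : Prop :=
  ∀ (A T Y : AV) (e : ℤ) (N : ℕ) (Z : Module.End ℂ T.V), IsCM A →
    (e = 1 ∧ Module.finrank ℂ T.V ≤ 9 ∨ e = 0 ∧ Module.finrank ℂ T.V ≤ 5) →
    RatEnd T (Z.restrictScalars ℝ) → Z * Z = (e : ℂ) • Z - 1 →
    (∃ z : ℂ, Module.finrank ℂ (Module.End.eigenspace Z z) = 1) →
    (∀ X : Module.End ℂ T.V, RatEnd T (X.restrictScalars ℝ) → X * Z = Z * X →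
      ∃ p q : ℚ, X = (p : ℂ) • (1 : Module.End ℂ T.V) + (q : ℂ) • Z) →
    IsProdE Y A (fun _ : Fin N => T) → ∀ (d : ℕ) (c : Hlg Y d), IsHodge Y d c → Alg2 Y d c

end HC.SE
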