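import Pool.Agent.Lib.SE.P.SpecQ
import Pool.Agent.Lib.SE.P.Cls
import Pool.Agent.Lib.SE.Iface
import Pool.Agent.Lib.SE.Big.Asm2

/-!
# PROJECT SE-P, last part: from `S_PDA` to THEOREM K, B (new Jacobians and Picard type) and THEOREM P

Every module: file `SE/P/Xyz.lean`, `theorem tXyz : S_Xyz`.
-/

set_option autoImplicit false

open Module HC HC.SE SE
open scoped ComplexConjugate

noncomputable section

namespace SEP

/-- **Cyb**: multiplication by the cyclotomic field (as SE/S5/New.lean). -/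
def S_Cyb : Prop := ∀ (X : GF) (m r : ℕ) (J : AV) (Z : Module.End ℂ J.V)
  (R : J.V →ₗ[ℝ] J.V →ₗ[ℝ] ℝ), 3 ≤ m → (∃ z : X.K, IsPrimitiveRoot z m) →
  (∀ v ∈ J.L, Z v ∈ J.L) → Polynomial.aeval Z (Polynomial.cyclotomic m ℤ) = 0 →
  2 * finrank ℂ J.V = r * m.totient → IsPol J Z R →
  ∃ (t : Tp X) (hT : t.T = J) (ζ : t.E), t.r = r ∧ IsPrimitiveRoot ζ m ∧
    IsCyclotomicExtension {m} ℚ t.E ∧ (∀ v, t.B.ρ ζ v = hT ▸ Z (hT ▸ v)) ∧
    ∀ u v, t.R u v = R (hT ▸ u) (hT ▸ v)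

/-- **Pf**: the form of Picard type. PROOF. The `ℂ`-linear forms `a` with `a ∘ Z = z a` are a line
(`LinearMap.ker_dualMap_eq_dualAnnihilator_range`, dimension of the kernel of the dual map); `a₀` a
generator; as an element of `H^1(T, ℂ)` it is `∑ c (φ', i) b (φ', i)` (`B.b.sum_repr`), `a₀ ∘ Z = z a₀` gives
`c (φ', i) (τ φ' ζ - z) = 0`: `f_i = c (φ, i)`, `f · zc = a₀`. For every `i` the form
`v ↦ b (φ, i) (i v) + i b (φ, i) v` is `ℂ`-linear and has the eigenvalue `z`: it is `c_i a₀`. -/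
def S_Pf : Prop := ∀ (X : GF) (T : AV) (E : Type) [Field E] [NumberField E] (r : ℕ)
  (B : Blk X T E r) (ζ : E) (φ : E →+* X.K), (∀ φ' : E →+* X.K, φ' ζ = φ ζ → φ' = φ) →
  finrank ℂ (Module.End.eigenspace (B.ρ ζ) (X.τ (φ ζ))) = 1 → ∃ f : Fin r → ℂ, PicU B φ f

/-- **Gn**: generators. PROOF. `E` is the cyclotomic field, `m = 3`: `ζ' = - ζ` or `- ζ²` (`e = 1`), `m = 4`:
`ζ' = ζ` or `- ζ` (`e = 0`), such that `Im τ φ ζ' > 0`. -/
def S_Gn : Prop := ∀ (X : GF) (m : ℕ) (E : Type) [Field E] [NumberField E]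
  [IsCyclotomicExtension {m} ℚ E] (ζ : E) (φ : E →+* X.K), IsPrimitiveRoot ζ m →
  (m = 3 ∨ m = 4) → ∃ ζ' : E, IQ (if m = 3 then 1 else 0) E ζ' ∧ 0 < (X.τ (φ ζ')).im

/-- **DAB** (the output of G4 for Picard type). PROOF. S_Cyb with `r = dim J` (`φ(3) = φ(4) = 2`);
`z` the eigenvalue of `IsPic.one`, a primitive `m`-th root of unity (`cyc`), so `z = τ (φ ζ)` for a label
`φ` (`IsPrimitiveRoot` in `X.K`); S_Pf, S_Gn, S_PDA. -/
def S_DAB : Prop := ∀ (X : GF) (m : ℕ) (J : AV) (Z : Module.End ℂ J.V)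
  (R : J.V →ₗ[ℝ] J.V →ₗ[ℝ] ℝ), IsPic J m Z → IsPol J Z R → (∃ z : X.K, IsPrimitiveRoot z m) →
  ∃ (t : Tp X) (hT : t.T = J) (ζ : t.E), IsPrimitiveRoot ζ m ∧
    IsCyclotomicExtension {m} ℚ t.E ∧ (∀ v, t.B.ρ ζ v = hT ▸ Z (hT ▸ v)) ∧
    (∀ u v, t.R u v = R (hT ▸ u) (hT ▸ v)) ∧ Nonempty (DA @Alg2 t)

/-! ## THEOREM P -/

/-- **Ltz**: a lattice stable under `Z`. PROOF. `L' = {v ∈ L | Z v ∈ L}` (`Z (Z v) = e Z v - v`); some `k`
with `k Z v ∈ L` for all `v ∈ L` (`L` is finitely generated), so `k L ⊆ L'`; the same Riemann form. -/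
def S_Ltz : Prop := ∀ (T : AV) (e : ℤ) (Z : Module.End ℂ T.V),
  RatEnd T (Z.restrictScalars ℝ) → Z * Z = (e : ℂ) • Z - 1 →
  ∃ (T' : AV) (ψ : T'.V ≃ₗ[ℂ] T.V), (∀ v ∈ T'.L, ψ v ∈ T.L) ∧
    (∃ k : ℕ, k ≠ 0 ∧ ∀ v ∈ T.L, k • ψ.symm v ∈ T'.L) ∧ ∀ v ∈ T'.L, ψ.symm (Z (ψ v)) ∈ T'.L

/-- **Pp**: the signature in the sense of SE/Big. PROOF. `z` is a primitive `m`-th root of unity
(`D.cyc`), so `z = zet m s`; `Ws10 D s` is the space of the `ℂ`-linear forms with `a ∘ Z = z a`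
(kernel of the dual map of `Z - z`). -/
def S_Pp : Prop := ∀ (T : AV) (m : ℕ) (D : SEB.Cyc T m), 3 ≤ m → ∀ z : ℂ,
  finrank ℂ (Module.End.eigenspace (D.Z : Module.End ℂ T.V) z) = 1 → ∃ s, D.p s = 1

/-- **Apm**: PROOF. The units of `ZMod 3`, `ZMod 4` are `1`, `-1` (`decide`). -/
def S_Apm : Prop := ∀ (T : AV) (m : ℕ) (D : SEB.Cyc T m), (m = 3 ∨ m = 4) → SEB.Aper D

/-- **N1**: dimension one. PROOF. `Z` is a scalar `z`, not real (`cyc`, `3 ≤ m`), so the elements of `Lef`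
commute with `i`, they are scalars, their commutators are `0`. -/
def S_N1 : Prop := ∀ (T : AV) (m : ℕ) (D : SEB.Cyc T m), 3 ≤ m → finrank ℂ T.V = 1 →
  HC.SE.Big (fun _ : Fin 1 => T) (fun _ => D.Z) (fun _ => D.ψ)

end SEP
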