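import Pool.Agent.Lib.SE.P.DAB
import Pool.Agent.Lib.SE.W.All
import Pool.Agent.Lib.SE.Big.Cor2

/-!
# PROJECT SE-P: assembly of theorems K and B for all factors, and of THEOREM P
-/

set_option autoImplicit false

open Module HC HC.SE SE
open scoped ComplexConjugate

noncomputable section

namespace SEP

/-- Determinant classes for all factors. -/
theorem hasDA (hDA : S_DA) (hDAB : S_DAB) {J : AV} {m : ℕ} {Z : Module.End ℂ J.V}
    {R : J.V →ₗ[ℝ] J.V →ₗ[ℝ] ℝ} (h : Fct J m Z) (hR : IsPol J Z R) :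
    HasDA (fun T m c => Alg2 T m c) m J Z R := by
  rcases h with ⟨r, s, b, D, hcov, rfl⟩ | h
  · exact HasDA_new hDA hcov D hR
  · intro X hX
    obtain ⟨t, hT, ζ, -, -, h1, h2, h3⟩ := hDAB X m J Z R h hR hX
    exact ⟨t, hT, ζ, h1, h2, h3⟩

theorem fct_ne {J : AV} {m : ℕ} {Z : Module.End ℂ J.V} (h : Fct J m Z) : m ≠ 0 := by
  rcases h with ⟨r, s, b, D, hcov, rfl⟩ | h
  · have := hcov.1
    omega
  · rcases h.dim with h | h <;> omega

/-- **THEOREM K.** -/
theorem thmK2 (hDA : S_DA) (hDAB : S_DAB) : ThmK2 := by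
  intro A T q N J j m Z E ψ hA hF hP hψ d c hc hS
  exact thmKg _ cl_alg2 A T q N J j m (fun i => fct_ne (hF i)) Z E
    (fun i => hasDA hDA hDAB (hF i) (hP i)) ψ hA hψ d c hc hS

/-- **THEOREM B.** -/
theorem thmB2 (hDA : S_DA) (hDAB : S_DAB) : ThmB2 := by
  intro A T q N J j m Z E hA hF hP hB hT d c hc
  exact thmBg _ cl_alg2 A T q N J j m (fun i => fct_ne (hF i)) Z E
    (fun i => hasDA hDA hDAB (hF i) (hP i)) hA hB hT d c hc

/-! ## THEOREM P -/

/-- **THEOREM P** for one automorphism. -/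
theorem pic_all (hB : ThmB2) (M : SEB.Mods) (hIrr : SEB.S_IrrZ) (hHl : SEB.S_Hl)
    (hTo : SEB.S_ToBig) (hAvg : SEB.S_Avg) (hPp : S_Pp) (hAp : S_Apm) (hN : S_N1)
    {T : AV} {m : ℕ} {Z : Module.End ℂ T.V} (hZ : IsPic T m Z) (hE : SEB.EndQ T Z) :
    SEB.HCall T := by
  have hm : m = 3 ∨ m = 4 := by
    rcases hZ.dim with h | h
    · exact Or.inl h.1
    · exact Or.inr h.1
  have hm3 : 3 ≤ m := by omega
  obtain ⟨D, hD⟩ := hAvg T m (by omega) Z hZ.lat hZ.cyc
  obtain ⟨z, hz⟩ := hZ.one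
  have hpol : IsPol T Z D.ψ := ⟨D.int, D.alt, D.cpx, D.pos, fun u v => by rw [← hD]; exact D.inv u v⟩
  have hbig : HC.SE.Big (fun _ : Fin 1 => T) (fun _ => Z) (fun _ => D.ψ) := by
    have h1 : 0 < finrank ℂ T.V := by
      have h6 := Submodule.finrank_le (Module.End.eigenspace Z z)
      omega
    rcases Nat.lt_or_ge (finrank ℂ T.V) 2 with h2 | h2
    · have h3 := hN T m D hm3 (by omega)
      rw [hD] at h3
      exact h3
    · obtain ⟨s, hs⟩ := hPp T m D hm3 z (by rw [hD]; exact hz)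
      have h3 : SEB.EndZ D := SEB.endZ_of_endQ D (by rw [hD]; exact hE)
      have h4 := hTo hHl T m D (SEB.rrz M hIrr hm3 h2
        (by rw [DAB_aux.toto hm]; ring) ⟨s, hs⟩ h3 (hAp T m D hm))
      rw [hD] at h4
      exact h4
  intro A Y N hA hY d c hc
  exact hB A Y 1 N (fun _ => T) (fun _ => 0) (fun _ => m) (fun _ => Z) (fun _ => D.ψ) hA
    (fun _ => Or.inr hZ) (fun _ => hpol) hbig hY d c hc

theorem cyc4 : Polynomial.cyclotomic 4 ℤ = Polynomial.X ^ 2 + 1 := by
  have h := Polynomial.cyclotomic_prime_pow_eq_geom_sum (R := ℤ) (n := 1) Nat.prime_two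
  have h2 : (2 : ℕ) ^ (1 + 1) = 4 := rfl
  rw [h2] at h
  rw [h, Finset.sum_range_succ, Finset.sum_range_one]
  ring

/-- Transport along an isogeny of lattices in the same space. -/
theorem thmP_of (hLtz : S_Ltz) (hH : ∀ (T : AV) (m : ℕ) (Z : Module.End ℂ T.V), IsPic T m Z →
    SEB.EndQ T Z → SEB.HCall T) : ThmP := by
  intro A T Y e N Z hA hdim hrat hsq hone hcom hY d c hc
  obtain ⟨T', ψ, h1, ⟨k, hk, h2⟩, h3⟩ := hLtz T e Z hrat hsq
  obtain ⟨g, hg, hg2⟩ : ∃ g : ℤ, (g = if e = 1 then -1 else 1) ∧ g * g = 1 :=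
    ⟨_, rfl, by split_ifs <;> norm_num⟩
  have hgc : (g : ℂ) * (g : ℂ) = 1 := by exact_mod_cast hg2
  have hg0 : (g : ℂ) ≠ 0 := by
    intro h
    rw [h, zero_mul] at hgc
    exact zero_ne_one hgc
  let Z' : Module.End ℂ T'.V := (g : ℂ) • (ψ.symm.toLinearMap ∘ₗ Z ∘ₗ ψ.toLinearMap)
  have hZ' : ∀ v, Z' v = (g : ℂ) • ψ.symm (Z (ψ v)) := fun v => rfl
  have hsqv : ∀ v, Z (Z v) = (e : ℂ) • Z v - v := fun v => LinearMap.congr_fun hsq v
  have hZZ : ∀ v, Z' (Z' v) = (e * g : ℂ) • Z' v - v := by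
    intro v
    rw [hZ' (Z' v), hZ' v, map_smul, map_smul, LinearEquiv.apply_symm_apply, hsqv, map_smul,
      map_sub, map_smul, LinearEquiv.symm_apply_apply, smul_smul, hgc, one_smul, smul_smul]
    rw [mul_assoc, hgc, mul_one]
  obtain ⟨m, hm⟩ : ∃ m : ℕ, m = if e = 1 then 3 else 4 := ⟨_, rfl⟩
  have hpic : IsPic T' m Z' := by
    refine ⟨?_, fun v hv => ?_, ?_, ?_⟩
    · rcases hdim with ⟨he, h⟩ | ⟨he, h⟩
      · left
        rw [if_pos he] at hm
        exact ⟨hm, by rw [ψ.finrank_eq]; exact h⟩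
      · right
        rw [if_neg (by rw [he]; norm_num)] at hm
        exact ⟨hm, by rw [ψ.finrank_eq]; exact h⟩
    · rw [hZ']
      have h4 := T'.L.smul_mem g (h3 v hv)
      have h5 : (g : ℂ) • ψ.symm (Z (ψ v)) = g • ψ.symm (Z (ψ v)) := by
        rw [Int.cast_smul_eq_zsmul]
      rw [h5]
      exact h4
    · rcases hdim with ⟨he, h⟩ | ⟨he, h⟩
      · rw [if_pos he] at hm hg
        rw [hm, Polynomial.cyclotomic_three]
        refine LinearMap.ext fun v => ?_
        rw [pow_two]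
        simp only [map_add, map_mul, Polynomial.aeval_X, map_one, LinearMap.add_apply,
          Module.End.one_apply, LinearMap.zero_apply, Module.End.mul_apply]
        rw [hZZ, he, hg]
        push_cast
        rw [one_mul, neg_smul, one_smul]
        abel
      · rw [if_neg (by rw [he]; norm_num)] at hm hg
        rw [hm, cyc4]
        refine LinearMap.ext fun v => ?_
        rw [pow_two]
        simp only [map_add, map_mul, Polynomial.aeval_X, map_one, LinearMap.add_apply,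
          Module.End.one_apply, LinearMap.zero_apply, Module.End.mul_apply]
        rw [hZZ, he]
        push_cast
        rw [zero_mul, zero_smul]
        abel
    · obtain ⟨z, hz⟩ := hone
      refine ⟨(g : ℂ) * z, ?_⟩
      rw [← hz]
      refine LinearEquiv.finrank_eq (ψ.ofSubmodules _ _ ?_)
      ext v
      constructor
      · rintro ⟨w, hw, rfl⟩
        have h4 := Module.End.mem_eigenspace_iff.1 hw
        rw [hZ', mul_smul] at h4
        have h5 := smul_right_injective _ hg0 h4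
        rw [Module.End.mem_eigenspace_iff]
        show Z (ψ w) = z • ψ w
        rw [← map_smul, ← h5, LinearEquiv.apply_symm_apply]
      · intro hv
        have h4 := Module.End.mem_eigenspace_iff.1 hv
        refine ⟨ψ.symm v, ?_, ψ.apply_symm_apply v⟩
        show ψ.symm v ∈ Module.End.eigenspace Z' ((g : ℂ) * z)
        rw [Module.End.mem_eigenspace_iff, hZ', LinearEquiv.apply_symm_apply, h4, map_smul, mul_smul]
  have hE : SEB.EndQ T' Z' := by
    intro X hX hXZ
    let X₁ : Module.End ℂ T.V := ψ.toLinearMap ∘ₗ X ∘ₗ ψ.symm.toLinearMap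
    have hX1 : ∀ v, X₁ v = ψ (X (ψ.symm v)) := fun v => rfl
    obtain ⟨p, q, hpq⟩ := hcom X₁ (fun v hv => by
      obtain ⟨n, hn, h4⟩ := hX _ (h2 v hv)
      refine ⟨n * k, mul_ne_zero hn hk, ?_⟩
      have h5 := h1 _ h4
      show (n * k) • ψ (X (ψ.symm v)) ∈ T.L
      have h6 : (X.restrictScalars ℝ) (k • ψ.symm v) = k • X (ψ.symm v) := map_nsmul X k _
      rw [h6, map_nsmul, map_nsmul, smul_smul] at h5
      exact h5) (by
      refine LinearMap.ext fun v => ?_
      have h4 := LinearMap.congr_fun hXZ (ψ.symm v)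
      rw [Module.End.mul_apply, Module.End.mul_apply, hZ', hZ', LinearEquiv.apply_symm_apply,
        map_smul] at h4
      have h5 := smul_right_injective _ hg0 h4
      rw [Module.End.mul_apply, Module.End.mul_apply, hX1, hX1, h5, LinearEquiv.apply_symm_apply])
    refine ⟨Polynomial.C p + Polynomial.C (q * g) * Polynomial.X, LinearMap.ext fun v => ?_⟩
    have h4 := LinearMap.congr_fun hpq (ψ v)
    rw [hX1, LinearEquiv.symm_apply_apply] at h4
    have h5 : X v = ψ.symm ((p : ℂ) • ψ v + (q : ℂ) • Z (ψ v)) := by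
      rw [← LinearEquiv.symm_apply_apply ψ (X v), h4]
      rfl
    rw [h5, map_add, map_smul, map_smul, LinearEquiv.symm_apply_apply]
    simp only [Polynomial.map_add, Polynomial.map_mul, Polynomial.map_C, Polynomial.map_X,
      map_add, map_mul, Polynomial.aeval_C, Polynomial.aeval_X, LinearMap.add_apply,
      Module.End.mul_apply, Module.algebraMap_end_apply]
    rw [hZ', smul_smul, smul_smul]
    have h6 : (algebraMap ℚ ℂ) q * (algebraMap ℚ ℂ) (g : ℚ) * (g : ℂ) = (q : ℂ) := by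
      have h7 : (algebraMap ℚ ℂ) (g : ℚ) = (g : ℂ) := by simp
      rw [h7, mul_assoc, hgc, mul_one]
      rfl
    have h8 : (algebraMap ℚ ℂ) p = (p : ℂ) := rfl
    rw [h6, h8]
  refine hH T' m Z' hpic hE A Y N hA ?_ d c hc
  obtain ⟨θ, hθ⟩ := hY
  refine ⟨θ ≪≫ₗ LinearEquiv.prodCongr (LinearEquiv.refl ℂ A.V)
    (LinearEquiv.piCongrRight fun _ => ψ.symm), fun v hv => ?_⟩
  obtain ⟨n, hn, h4, h5⟩ := hθ v hv
  refine ⟨k * n, mul_ne_zero hk hn, ?_, fun i => ?_⟩
  · show (k * n) • (θ v).1 ∈ A.L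
    rw [mul_smul]
    exact A.L.smul_of_tower_mem k h4
  · show (k * n) • ψ.symm ((θ v).2 i) ∈ T'.L
    rw [mul_smul, ← map_nsmul ψ.symm n]
    exact h2 _ (h5 i)

end SEP
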