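import Pool.Agent.Lib.SE.P.SpecH
import Pool.Agent.Lib.SE.P.SpecQ

/-!
# PROJECT SE-P: P2 for the hermitian matrix `HJ` of the curves, in the form of step (1) of `S_G`
-/

set_option autoImplicit false

open Filter Topology SEJ HC HC.SE SE
open scoped ComplexConjugate Matrix

noncomputable section

namespace SEP

/-- The bridge: step (1) of `S_G`. -/
def S_BrH : Prop := ∀ (e : ℤ) (E : Type) [Field E] (ζ : E), IQ e E ζ → ∀ (inv : E ≃+* E)
  (σ : E →+* ℂ), (∀ x, σ (inv x) = conj (σ x)) → 0 < (σ ζ).im → ∀ (n l : ℕ), 0 < l →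
  n + l = re e → ∀ (H : Matrix (Fin n) (Fin n) E), (∀ i j, inv (H i j) = H j i) → ∀ f : Fin n → ℂ,
  f ≠ 0 → (∀ w : Fin n → ℂ, f ⬝ᵥ w = 0 → w ≠ 0 → 0 < (hv (H.map σ) w w).re) →
  (∃ w : Fin n → ℂ, (hv (H.map σ) w w).re < 0) →
  ∃ (a : Fin l → ℚ) (P : Matrix (Fin (re e)) (Fin n ⊕ Fin l) E)
    (P' : Matrix (Fin n ⊕ Fin l) (Fin (re e)) E) (c₀ : ℚ), (∀ i, 0 < a i) ∧ P * P' = 1 ∧
    P' * P = 1 ∧ 0 < c₀ ∧ Pᵀ * HJ e ζ * P.map inv =
      (c₀ : E) • Matrix.fromBlocks H 0 0 (Matrix.diagonal fun i => ((a i : ℚ) : E))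

namespace BrH_aux

variable {e : ℤ} {E : Type} [Field E] {ζ : E}

theorem inv_zeta (h : IQ e E ζ) (inv : E ≃+* E) (σ : E →+* ℂ)
    (hσ : ∀ x, σ (inv x) = conj (σ x)) (him : 0 < (σ ζ).im) : inv ζ = (e : E) - ζ := by
  have h1 : (inv ζ) ^ 2 = (e : E) * inv ζ - 1 := by
    have := congrArg inv h.sq
    simpa using this
  have h2 : (inv ζ - ζ) * (inv ζ - ((e : E) - ζ)) = 0 := by
    have := h.sq
    linear_combination h1 - this
  rcases mul_eq_zero.mp h2 with h3 | h3
  · exfalso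
    have h4 : inv ζ = ζ := sub_eq_zero.mp h3
    have h5 := hσ ζ
    rw [h4] at h5
    have h6 := congrArg Complex.im h5
    rw [Complex.conj_im] at h6
    linarith
  · exact sub_eq_zero.mp h3

theorem inv_inv' (inv : E ≃+* E) (σ : E →+* ℂ) (hσ : ∀ x, σ (inv x) = conj (σ x)) (x : E) :
    inv (inv x) = x := by
  apply σ.injective
  rw [hσ, hσ, Complex.conj_conj]

/-- the structure with `z = inv ζ = ζ⁻¹` -/
def qf' (h : IQ e E ζ) (inv : E ≃+* E) (σ : E →+* ℂ)
    (hσ : ∀ x, σ (inv x) = conj (σ x)) (him : 0 < (σ ζ).im) : QF e E where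
  he := h.he
  z := (e : E) - ζ
  inv := inv
  σ := σ
  hz := by
    have := h.sq
    linear_combination this
  gen := by
    intro x
    have : CharZero E := σ.charZero
    obtain ⟨p, q, hx⟩ := h.gen x
    refine ⟨p + q * e, -q, ?_⟩
    rw [hx]
    push_cast
    ring
  hinv := by
    rw [map_sub, map_intCast, inv_zeta h inv σ hσ him]
  hσ := hσ

theorem zeta_inv (h : IQ e E ζ) : ((e : E) - ζ)⁻¹ = ζ := by
  have h1 : ((e : E) - ζ) * ζ = 1 := by
    have := h.sq
    linear_combination -this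
  exact inv_eq_of_mul_eq_one_right h1

/-- the matrix of the curves is a positive multiple of a matrix equivalent to `⟨1^N, -1⟩` -/
theorem HJ_iso (h8 : S_H8) (h9 : S_H9) (h10 : S_H10) (h11 : S_H11) (h : IQ e E ζ)
    (inv : E ≃+* E) (σ : E →+* ℂ) (hσ : ∀ x, σ (inv x) = conj (σ x)) (him : 0 < (σ ζ).im) :
    ∃ N, re e = N + 1 ∧ ∃ (c₁ : ℚ) (M : Matrix (Fin (re e)) (Fin (re e)) E), 0 < c₁ ∧
      HJ e ζ = (c₁ : E) • M ∧ (qf' h inv σ hσ him).Iso (D0 E N) M := by
  have : CharZero E := σ.charZero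
  have key : ∀ (N : ℕ) (q : QF e E) (c : E), c ≠ 0 → re e = N + 1 →
      q.Iso (D0 E N) (q.HN (N + 1)) →
      (∀ l j, q.HN (N + 1) l j = c * Nm (fun _ : Fin (N + 1 + 1) => ζ) l j) →
      q.Iso (D0 E N) (((q.HN (N + 1))ᵀ)⁻¹) ∧
      (((Nm (fun _ : Fin (N + 1 + 1) => ζ))⁻¹)ᵀ) = c • (((q.HN (N + 1))ᵀ)⁻¹) := by
    intro N q c hc _ hiso hHN
    obtain ⟨_, _, h3, h4, _⟩ := h11 q N _ hiso
    refine ⟨h3, ?_⟩
    have e1 : Nm (fun _ : Fin (N + 1 + 1) => ζ) = c⁻¹ • q.HN (N + 1) := by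
      ext l j
      rw [Matrix.smul_apply, hHN l j, smul_eq_mul, inv_mul_cancel_left₀ hc]
    have e2 : (Nm (fun _ : Fin (N + 1 + 1) => ζ))⁻¹ = c • (q.HN (N + 1))⁻¹ := by
      apply Matrix.inv_eq_right_inv
      rw [e1, Matrix.smul_mul, Matrix.mul_smul, smul_smul, inv_mul_cancel₀ hc, one_smul,
        Matrix.mul_nonsing_inv _ h4]
    rw [e2, Matrix.transpose_smul, Matrix.transpose_nonsing_inv]
  rcases h.he with rfl | rfl
  · have hz : ζ ≠ 0 := by
      rintro rfl
      have := h.sq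
      norm_num at this
    obtain ⟨k1, k2⟩ := key 5 (qf' h inv σ hσ him) ζ hz rfl (h10 _) (by
      intro l j
      have := h8.2 (qf' h inv σ hσ him) 6 l j
      have hzz : (qf' h inv σ hσ him).z = ((0 : ℤ) : E) - ζ := rfl
      rw [hzz, zeta_inv h] at this
      rw [this]
      push_cast
      ring)
    refine ⟨5, rfl, 1 / 2, _, by norm_num, ?_, k1⟩
    show (th 0 ζ)⁻¹ • ((Nm (fun _ : Fin (5 + 1 + 1) => ζ))⁻¹)ᵀ = _
    rw [k2, smul_smul]
    congr 1
    simp only [th]
    push_cast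
    field_simp
    ring
  · have hth : th 1 ζ ≠ 0 := by
      intro h0
      have h1 := h.sq
      simp only [th] at h0
      push_cast at h0 h1
      have h2 : (2 * ζ - 1) * (2 * ζ - 1) = -3 := by linear_combination 4 * h1
      rw [h0] at h2
      norm_num at h2
    obtain ⟨k1, k2⟩ := key 9 (qf' h inv σ hσ him) (th 1 ζ) hth rfl (h9 _) (by
      intro l j
      have := h8.1 (qf' h inv σ hσ him) 10 l j
      have hzz : (qf' h inv σ hσ him).z = ((1 : ℤ) : E) - ζ := rfl
      rw [hzz, zeta_inv h] at this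
      rw [this]
      simp only [th]
      push_cast
      ring)
    refine ⟨9, rfl, 1, _, by norm_num, ?_, k1⟩
    show (th 1 ζ)⁻¹ • ((Nm (fun _ : Fin (9 + 1 + 1) => ζ))⁻¹)ᵀ = _
    rw [k2, smul_smul, inv_mul_cancel₀ hth]
    push_cast
    rfl

/-! ## The signature -/

theorem herm_dot {n : ℕ} (M : Matrix (Fin n) (Fin n) ℂ) (hM : Mᴴ = M) (v w : Fin n → ℂ) :
    star w ⬝ᵥ M.mulVec v = star (star v ⬝ᵥ M.mulVec w) := by
  rw [Matrix.star_dotProduct, Matrix.star_mulVec, hM, ← Matrix.dotProduct_mulVec]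

theorem sig (q : QF e E) {n : ℕ} (H : Matrix (Fin n) (Fin n) E) (hH : q.cT H = H)
    (f : Fin n → ℂ)
    (hpos : ∀ w : Fin n → ℂ, f ⬝ᵥ w = 0 → w ≠ 0 → 0 < (hv (H.map q.σ) w w).re)
    (hneg : ∃ w : Fin n → ℂ, (hv (H.map q.σ) w w).re < 0) : q.Sig H := by
  set M : Matrix (Fin n) (Fin n) ℂ := H.map q.σ with hMdef
  have hM : Mᴴ = M := by
    ext i j
    rw [Matrix.conjTranspose_apply, hMdef, Matrix.map_apply, Matrix.map_apply]
    have h1 := congrFun (congrFun hH i) j
    have h2 : q.inv (H j i) = H i j := h1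
    rw [← h2, q.hσ]
    rfl
  obtain ⟨w₀, hw₀⟩ := hneg
  refine ⟨star w₀, ?_, ?_⟩
  · rw [star_star]
    exact hw₀
  · intro w hw hvw
    by_contra hcon
    rw [not_lt] at hcon
    set v : Fin n → ℂ := star w₀ with hv0
    have hvv : (star v ⬝ᵥ M.mulVec v).re < 0 := by
      rw [hv0, star_star]
      exact hw₀
    have hwv : star w ⬝ᵥ M.mulVec v = 0 := by
      rw [herm_dot M hM v w, hvw, star_zero]
    set A : ℂ := f ⬝ᵥ star v with hA
    set B : ℂ := f ⬝ᵥ star w with hB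
    by_cases hA0 : A = 0
    · have h1 : f ⬝ᵥ w₀ = 0 := by
        rw [hv0, star_star] at hA
        rw [← hA]
        exact hA0
      have h2 : w₀ ≠ 0 := by
        rintro rfl
        rw [hv, zero_dotProduct] at hw₀
        simp at hw₀
      exact absurd (hpos w₀ h1 h2) (not_lt.mpr hw₀.le)
    · set y : Fin n → ℂ := B • star v - A • star w with hy
      have hfy : f ⬝ᵥ y = 0 := by
        rw [hy, dotProduct_sub, dotProduct_smul, dotProduct_smul, ← hA, ← hB, smul_eq_mul,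
          smul_eq_mul]
        ring
      have hsy : star y = star B • v - star A • w := by
        rw [hy, star_sub, star_smul, star_smul, star_star, star_star]
      have hy0 : y ≠ 0 := by
        intro h0
        have h1 : star B • v - star A • w = 0 := by rw [← hsy, h0, star_zero]
        have h2 : star v ⬝ᵥ M.mulVec (star B • v - star A • w) = 0 := by
          rw [h1, Matrix.mulVec_zero, dotProduct_zero]
        rw [Matrix.mulVec_sub, Matrix.mulVec_smul, Matrix.mulVec_smul, dotProduct_sub,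
          dotProduct_smul, dotProduct_smul, hvw, smul_zero, sub_zero, smul_eq_mul] at h2
        rcases mul_eq_zero.mp h2 with h3 | h3
        · rw [h3, zero_smul, zero_sub, neg_eq_zero, smul_eq_zero] at h1
          rcases h1 with h4 | h4
          · exact hA0 (by simpa using h4)
          · exact hw h4
        · rw [h3] at hvv
          simp at hvv
      have hval : hv M y y = (star B * B) * (star v ⬝ᵥ M.mulVec v) +
          (star A * A) * (star w ⬝ᵥ M.mulVec w) := by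
        rw [hv, hsy, hy, Matrix.mulVec_sub, Matrix.mulVec_smul, Matrix.mulVec_smul, sub_dotProduct,
          smul_dotProduct, smul_dotProduct, dotProduct_sub, dotProduct_sub, dotProduct_smul,
          dotProduct_smul, dotProduct_smul, dotProduct_smul, hvw, hwv]
        simp only [smul_eq_mul]
        ring
      have hp := hpos y hfy hy0
      rw [hval] at hp
      have nB : star B * B = ((Complex.normSq B : ℝ) : ℂ) := Complex.normSq_eq_conj_mul_self.symm
      have nA : star A * A = ((Complex.normSq A : ℝ) : ℂ) := Complex.normSq_eq_conj_mul_self.symm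
      rw [nB, nA, Complex.add_re, Complex.re_ofReal_mul, Complex.re_ofReal_mul] at hp
      have k1 := mul_nonpos_of_nonneg_of_nonpos (Complex.normSq_nonneg B) hvv.le
      have k2 := mul_nonpos_of_nonneg_of_nonpos (Complex.normSq_nonneg A) hcon
      linarith

theorem det_ne (q : QF e E) {n : ℕ} (H : Matrix (Fin n) (Fin n) E) (hs : q.Sig H) :
    H.det ≠ 0 := by
  intro h0
  obtain ⟨v, _, hv2⟩ := hs
  have h1 : (H.map q.σ).det = 0 := by
    have := RingHom.map_det q.σ H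
    rw [h0, map_zero] at this
    exact this.symm
  obtain ⟨u, hu, hu0⟩ := Matrix.exists_mulVec_eq_zero_iff.mpr h1
  have := hv2 u hu (by rw [hu0, dotProduct_zero])
  rw [hu0, dotProduct_zero] at this
  simp at this

end BrH_aux

open BrH_aux

/-- **The bridge.** -/
theorem brH (h1 : S_H1) (h2 : S_P2) (h8 : S_H8) (h9 : S_H9) (h10 : S_H10) (h11 : S_H11) :
    S_BrH := by
  intro e E _ ζ h inv σ hσ him n l hl hnl H hH f _ hpos hneg
  have : CharZero E := σ.charZero
  obtain ⟨N, hN, c₁, M, hc₁, hHJ, hM⟩ := HJ_iso h8 h9 h10 h11 h inv σ hσ him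
  set q := qf' h inv σ hσ him with hq
  have hcT : q.cT H = H := by
    ext i j
    exact hH j i
  have hsig : q.Sig H := sig q H hcT f hpos hneg
  obtain ⟨a, ha, hiso⟩ := h2 q N n l (by omega) hl H hcT (det_ne q H hsig) hsig
  have t := h1 q
  have hMH : q.Iso M (Matrix.fromBlocks H 0 0 (dg E a)) :=
    t.2.2.1 _ _ _ (t.2.1 _ _ hM) hiso
  obtain ⟨P, Q, hPQ, hQP, hP⟩ := hMH
  have hinv1 : ∀ {ι κ : Type} (A : Matrix ι κ E), (A.map inv).map inv = A := by
    intro ι κ A
    ext i j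
    exact inv_inv' inv σ hσ _
  refine ⟨a, P.map inv, Q.map inv, c₁, ha, ?_, ?_, hc₁, ?_⟩
  · have := congrArg (fun A => A.map inv) hPQ
    simpa [Matrix.map_mul] using this
  · have := congrArg (fun A => A.map inv) hQP
    simpa [Matrix.map_mul] using this
  · rw [hinv1, hHJ, Matrix.mul_smul, Matrix.smul_mul]
    exact congrArg (fun A => (c₁ : E) • A) hP

/-- `HJ` is hermitian and invertible. -/
theorem brH_herm (h8 : S_H8) (h9 : S_H9) (h10 : S_H10) (h11 : S_H11) (e : ℤ) (E : Type) [Field E]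
    (ζ : E) (h : IQ e E ζ) (inv : E ≃+* E) (σ : E →+* ℂ) (hσ : ∀ x, σ (inv x) = conj (σ x))
    (him : 0 < (σ ζ).im) : IsUnit (HJ e ζ).det ∧ ∀ i j, inv (HJ e ζ i j) = HJ e ζ j i := by
  have : CharZero E := σ.charZero
  obtain ⟨N, hN, c₁, M, hc₁, hHJ, hM⟩ := HJ_iso h8 h9 h10 h11 h inv σ hσ him
  have hcE : (c₁ : E) ≠ 0 := by exact_mod_cast hc₁.ne'
  rw [hHJ]
  have key : ∀ (r : ℕ) (M : Matrix (Fin r) (Fin r) E), r = N + 1 →
      (qf' h inv σ hσ him).Iso (D0 E N) M → IsUnit M.det ∧ (qf' h inv σ hσ him).cT M = M := by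
    rintro r M rfl hM
    exact (h11 _ N M hM).2.2.2
  obtain ⟨k1, k2⟩ := key _ M hN hM
  refine ⟨?_, ?_⟩
  · rw [Matrix.det_smul]
    exact (IsUnit.mk0 _ (pow_ne_zero _ hcE)).mul k1
  · intro i j
    have h3 : inv (M i j) = M j i := congrFun (congrFun k2 j) i
    rw [Matrix.smul_apply, Matrix.smul_apply, smul_eq_mul, smul_eq_mul, map_mul, h3,
      map_ratCast]

end SEP
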