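import Pool.Agent.Lib.SE.P.SpecF

/-!
# PROJECT SE-P: `S_DAB` and theorems K and B for new Jacobians and abelian varieties of Picard type
-/

set_option autoImplicit false

open Module HC HC.SE SE
open scoped ComplexConjugate

noncomputable section

namespace SEP

theorem DAB_aux.toto {m : ℕ} (h : m = 3 ∨ m = 4) : m.totient = 2 := by
  rcases h with rfl | rfl <;> decide

/-- a primitive root of unity which is an eigenvalue -/
theorem DAB_aux.prim {T : AV} {m : ℕ} (hm : 0 < m) {Z : Module.End ℂ T.V} {z : ℂ}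
    (hZ : Polynomial.aeval Z (Polynomial.cyclotomic m ℤ) = 0)
    (hz : finrank ℂ (Module.End.eigenspace Z z) = 1) : IsPrimitiveRoot z m := by
  have h1 : Module.End.HasEigenvalue Z z := by
    intro h
    rw [show Module.End.genEigenspace Z z 1 = Module.End.eigenspace Z z from rfl] at h
    rw [h, finrank_bot] at hz
    omega
  obtain ⟨v, hv⟩ := h1.exists_hasEigenvector
  have h2 : Polynomial.aeval Z (Polynomial.cyclotomic m ℂ) = 0 := by
    rw [← Polynomial.map_cyclotomic_int m ℂ]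
    have h3 : (Polynomial.cyclotomic m ℤ).map (Int.castRingHom ℂ) =
      (Polynomial.cyclotomic m ℤ).map (algebraMap ℤ ℂ) := rfl
    rw [h3, Polynomial.aeval_map_algebraMap]
    exact hZ
  have h4 := Module.End.aeval_apply_of_hasEigenvector hv (p := Polynomial.cyclotomic m ℂ)
  rw [h2, LinearMap.zero_apply] at h4
  have h5 : Polynomial.eval z (Polynomial.cyclotomic m ℂ) = 0 := by
    rcases smul_eq_zero.1 h4.symm with h | h
    · exact h
    · exact absurd h hv.2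
  have : NeZero (m : ℂ) := ⟨by exact_mod_cast hm.ne'⟩
  exact Polynomial.isRoot_cyclotomic_iff.1 h5

theorem tDAB : S_Cyb → S_Pf → S_Gn → S_PDA → S_DAB := by
  intro hCyb hPf hGn hPDA X m J Z R hZ hR hX
  have hm : m = 3 ∨ m = 4 := by
    rcases hZ.dim with h | h
    · exact Or.inl h.1
    · exact Or.inr h.1
  have hm3 : 3 ≤ m := by omega
  have hd : 2 * finrank ℂ J.V = finrank ℂ J.V * m.totient := by
    rw [DAB_aux.toto hm]; ring
  obtain ⟨t, hT, ζ, hr, hζ, hE, hρ, hRt⟩ := hCyb X m (finrank ℂ J.V) J Z R hm3 hX hZ.lat hZ.cyc hd hR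
  refine ⟨t, hT, ζ, hζ, hE, hρ, hRt, ?_⟩
  subst hT
  obtain ⟨z, hz⟩ := hZ.one
  have hρ' : t.B.ρ ζ = Z := LinearMap.ext hρ
  have hzp : IsPrimitiveRoot z m := DAB_aux.prim (by omega) hZ.cyc hz
  -- the label
  have : NeZero m := ⟨by omega⟩
  obtain ⟨φ, hφ⟩ : ∃ φ : t.E →+* X.K, X.τ (φ ζ) = z := by
    obtain ⟨z₀, hz₀⟩ := hX
    have h1 : ∃ k < m, (X.τ z₀) ^ k = z :=
      (hz₀.map_of_injective X.τ.injective).eq_pow_of_pow_eq_one hzp.pow_eq_one
    obtain ⟨k, -, hk⟩ := h1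
    have h2 : IsPrimitiveRoot (z₀ ^ k) m := by
      refine IsPrimitiveRoot.of_map_of_injective (f := X.τ) ?_ X.τ.injective
      rw [map_pow, hk]
      exact hzp
    have h3 : Polynomial.aeval (z₀ ^ k) (minpoly ℚ (hζ.powerBasis ℚ).gen) = 0 := by
      rw [hζ.powerBasis_gen ℚ, ← Polynomial.cyclotomic_eq_minpoly_rat hζ (NeZero.pos m),
        Polynomial.cyclotomic_eq_minpoly_rat h2 (NeZero.pos m)]
      exact minpoly.aeval ℚ _
    refine ⟨((hζ.powerBasis ℚ).lift (z₀ ^ k) h3).toRingHom, ?_⟩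
    have h4 := (hζ.powerBasis ℚ).lift_gen (z₀ ^ k) h3
    rw [hζ.powerBasis_gen ℚ] at h4
    show X.τ ((hζ.powerBasis ℚ).lift (z₀ ^ k) h3 ζ) = z
    rw [h4, map_pow, hk]
  have huniq : ∀ φ' : t.E →+* X.K, φ' ζ = φ ζ → φ' = φ := by
    intro φ' h
    have h5 : φ'.toRatAlgHom = φ.toRatAlgHom := by
      refine (hζ.powerBasis ℚ).algHom_ext ?_
      rw [hζ.powerBasis_gen ℚ]
      exact h
    exact RingHom.ext fun x => AlgHom.congr_fun h5 x
  obtain ⟨f, hf⟩ := hPf X t.T t.E t.r t.B ζ φ huniq (by rw [hρ', hφ]; exact hz)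
  obtain ⟨ζ', hIQ, hIm⟩ := hGn X m t.E ζ φ hζ hm
  refine hPDA X t _ ζ' φ f hIQ hIm ?_ ?_ hf
  · rw [hr]
    have h6 := Submodule.finrank_le (Module.End.eigenspace Z z)
    omega
  · rw [hr]
    rcases hZ.dim with ⟨rfl, h⟩ | ⟨rfl, h⟩
    · simp [re]; omega
    · simp [re]; omega

end SEP
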