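import Pool.Agent.Lib.SE.P.SpecQ

/-!
# PROJECT SE-P: module Del, the traces
-/

set_option autoImplicit false

open MeasureTheory Filter Topology SEJ HC HC.SE SE
open scoped ComplexConjugate Matrix

noncomputable section

namespace SEP

namespace Del

variable {X : GF} {T : AV} {E : Type} [Field E] [NumberField E] {r : ℕ} (B : Blk X T E r)

theorem coord_self (k : (E →+* X.K) × Fin r) : B.b.coord k (B.b k) = 1 := by
  rw [Module.Basis.coord_apply, Module.Basis.repr_self, Finsupp.single_eq_same]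

theorem coord_ne {k k' : (E →+* X.K) × Fin r} (h : k' ≠ k) : B.b.coord k (B.b k') = 0 := by
  rw [Module.Basis.coord_apply, Module.Basis.repr_self, Finsupp.single_eq_of_ne (Ne.symm h)]

theorem coord_zero {x : E} {c : ℂ} {a : T.V →ₗ[ℝ] ℂ} (ha : ∀ v, a (B.ρ x v) = c * a v)
    {ψ : E →+* X.K} (hψ : X.τ (ψ x) ≠ c) (i : Fin r) : B.b.coord (ψ, i) a = 0 := by
  classical
  have h1 : a ∘ₗ ((B.ρ x).restrictScalars ℝ) =
      ∑ k : (E →+* X.K) × Fin r, (B.b.coord k a * X.τ (k.1 x)) • B.b k := by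
    ext v
    have h2 := LinearMap.congr_fun (B.b.sum_repr a) (B.ρ x v)
    rw [LinearMap.sum_apply] at h2 ⊢
    show a (B.ρ x v) = _
    rw [← h2]
    refine Finset.sum_congr rfl fun k _ => ?_
    obtain ⟨ψ', i'⟩ := k
    rw [LinearMap.smul_apply, LinearMap.smul_apply, B.act ψ' i' x v, Module.Basis.coord_apply,
      smul_eq_mul, smul_eq_mul, mul_assoc]
  have h3 : a ∘ₗ ((B.ρ x).restrictScalars ℝ) = c • a := by
    ext v
    exact ha v
  have h4 := congrArg (B.b.coord (ψ, i)) (h3.symm.trans h1)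
  rw [map_smul, map_sum] at h4
  rw [Finset.sum_eq_single (ψ, i)] at h4
  · rw [map_smul, coord_self] at h4
    simp only [smul_eq_mul, mul_one] at h4
    have h5 : (c - X.τ (ψ x)) * B.b.coord (ψ, i) a = 0 := by
      rw [sub_mul, h4]
      ring
    rcases mul_eq_zero.1 h5 with h6 | h6
    · exact absurd (sub_eq_zero.1 h6).symm hψ
    · exact h6
  · intro k _ hk
    rw [map_smul, coord_ne B hk, smul_zero]
  · intro h
    exact absurd (Finset.mem_univ _) h

/-- the matrix of the multiplication by `i` at the label `φ` -/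
def MM (φ : E →+* X.K) (i j : Fin r) : ℂ := B.b.coord (φ, j) (B.b (φ, i) ∘ₗ mulI T)

theorem b_mulI {φ φc : E →+* X.K} (hl : ∀ φ' : E →+* X.K, φ' = φ ∨ φ' = φc) {ζ : E}
    (hne : X.τ (φc ζ) ≠ X.τ (φ ζ)) (i : Fin r) (v : T.V) :
    B.b (φ, i) (Complex.I • v) = ∑ j, MM B φ i j * B.b (φ, j) v := by
  classical
  have h0 : φc ≠ φ := fun h => hne (by rw [h])
  have ha : ∀ v, (B.b (φ, i) ∘ₗ mulI T) (B.ρ ζ v) = X.τ (φ ζ) * (B.b (φ, i) ∘ₗ mulI T) v := by
    intro v
    show B.b (φ, i) (Complex.I • B.ρ ζ v) = X.τ (φ ζ) * B.b (φ, i) (Complex.I • v)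
    rw [← map_smul, B.act]
  have h1 := LinearMap.congr_fun (B.b.sum_repr (B.b (φ, i) ∘ₗ mulI T)) v
  rw [LinearMap.sum_apply, Fintype.sum_prod_type] at h1
  have h2 : (Finset.univ : Finset (E →+* X.K)) = {φ, φc} := by
    ext φ'
    simp only [Finset.mem_univ, Finset.mem_insert, Finset.mem_singleton, true_iff]
    exact hl φ'
  rw [h2, Finset.sum_pair h0.symm] at h1
  have h3 : ∑ y, (B.b.repr (B.b (φ, i) ∘ₗ mulI T) (φc, y) • B.b (φc, y)) v = 0 := by
    refine Finset.sum_eq_zero fun y _ => ?_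
    have h4 := coord_zero B ha hne y
    rw [Module.Basis.coord_apply] at h4
    rw [h4, zero_smul, LinearMap.zero_apply]
  rw [h3, add_zero] at h1
  exact h1.symm

theorem delta_eq (φ : E →+* X.K) : B.δ φ = ∑ i, MM B φ i i := rfl

end Del

open Del in
theorem tDel : S_Del := by
  intro hZi X T E _ _ r B e ζ φ hIQ him f hf
  obtain ⟨⟨Z, hZ⟩, hlab, hconj⟩ := hZi X T E r B e ζ φ hIQ him
  have hne : X.τ (gl X.c φ ζ) ≠ X.τ (φ ζ) := by
    intro h
    have h1 : X.τ (gl X.c φ ζ) = conj (X.τ (φ ζ)) := X.hc _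
    rw [h1] at h
    have h2 := congrArg Complex.im h
    rw [Complex.conj_im] at h2
    linarith
  have hb := b_mulI B hlab hne
  -- the matrix
  let M : Matrix (Fin r) (Fin r) ℂ := Matrix.of (MM B φ)
  have hM : ∀ v, zc B φ (Complex.I • v) = M *ᵥ (zc B φ v) := by
    intro v
    funext i
    show B.b (φ, i) (Complex.I • v) = ∑ j, MM B φ i j * B.b (φ, j) v
    exact hb i v
  have hsur : ∀ w : Fin r → ℂ, ∃ v, zc B φ v = w := fun w =>
    ⟨Z.symm w, by rw [← hZ, LinearEquiv.apply_symm_apply]⟩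
  have h1 : ∀ w : Fin r → ℂ, f ⬝ᵥ (M *ᵥ w) = Complex.I * f ⬝ᵥ w := by
    intro w
    obtain ⟨v, rfl⟩ := hsur w
    rw [← hM, hf.hol]
  have h2 : ∀ w : Fin r → ℂ, f ⬝ᵥ w = 0 → M *ᵥ w = (-Complex.I) • w := by
    intro w hw
    obtain ⟨v, rfl⟩ := hsur w
    rw [← hM, hf.ahol v hw]
  -- a vector with `f w₀ = 1`
  obtain ⟨i₀, hi₀⟩ := Function.ne_iff.1 hf.ne
  let w₀ : Fin r → ℂ := Pi.single i₀ (f i₀)⁻¹
  have hw₀ : f ⬝ᵥ w₀ = 1 := by
    show f ⬝ᵥ Pi.single i₀ (f i₀)⁻¹ = 1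
    rw [dotProduct_single]
    exact mul_inv_cancel₀ hi₀
  let u : Fin r → ℂ := M *ᵥ w₀ + Complex.I • w₀
  have hMw : ∀ w : Fin r → ℂ, M *ᵥ w = (-Complex.I) • w + (f ⬝ᵥ w) • u := by
    intro w
    have h3 : f ⬝ᵥ (w - (f ⬝ᵥ w) • w₀) = 0 := by
      rw [dotProduct_sub, dotProduct_smul, hw₀, smul_eq_mul, mul_one, sub_self]
    have h4 := h2 _ h3
    rw [Matrix.mulVec_sub, Matrix.mulVec_smul] at h4
    have h5 : M *ᵥ w = (-Complex.I) • (w - (f ⬝ᵥ w) • w₀) + (f ⬝ᵥ w) • (M *ᵥ w₀) := by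
      rw [← h4]
      abel
    rw [h5]
    show _ = (-Complex.I) • w + (f ⬝ᵥ w) • (M *ᵥ w₀ + Complex.I • w₀)
    rw [smul_sub, smul_add, smul_smul, smul_smul]
    have h6 : (f ⬝ᵥ w * Complex.I) • w₀ = -((-Complex.I * f ⬝ᵥ w) • w₀) := by
      rw [← neg_smul]
      congr 1
      ring
    rw [h6]
    abel
  have hfu : f ⬝ᵥ u = 2 * Complex.I := by
    show f ⬝ᵥ (M *ᵥ w₀ + Complex.I • w₀) = _
    rw [dotProduct_add, h1, dotProduct_smul, hw₀, smul_eq_mul]
    ring
  have htr : ∑ i, MM B φ i i = Complex.I - (r - 1) * Complex.I := by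
    have h3 : ∀ i, MM B φ i i = -Complex.I + f i * u i := by
      intro i
      have h4 := congrFun (hMw (Pi.single i 1)) i
      rw [Matrix.mulVec_single_one, Pi.add_apply, Pi.smul_apply, Pi.smul_apply,
        Pi.single_eq_same, dotProduct_single, smul_eq_mul, smul_eq_mul, mul_one, mul_one] at h4
      exact h4
    rw [Finset.sum_congr rfl fun i _ => h3 i, Finset.sum_add_distrib, Finset.sum_const,
      Finset.card_univ, Fintype.card_fin, nsmul_eq_mul]
    have h5 : ∑ i, f i * u i = 2 * Complex.I := hfu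
    rw [h5]
    ring
  refine ⟨by rw [delta_eq, htr], ?_⟩
  -- the conjugate label
  have hc : ∀ i, MM B (gl X.c φ) i i = conj (MM B φ i i) := by
    intro i
    have h3 : B.b (gl X.c φ, i) ∘ₗ mulI T = ∑ j, conj (MM B φ i j) • B.b (gl X.c φ, j) := by
      ext v
      show B.b (gl X.c φ, i) (Complex.I • v) = _
      rw [hconj, hb, map_sum, LinearMap.sum_apply]
      refine Finset.sum_congr rfl fun j _ => ?_
      rw [map_mul, LinearMap.smul_apply, smul_eq_mul, hconj]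
    show B.b.coord (gl X.c φ, i) (B.b (gl X.c φ, i) ∘ₗ mulI T) = _
    rw [h3, map_sum, Finset.sum_eq_single i]
    · rw [map_smul, coord_self, smul_eq_mul, mul_one]
    · intro j _ hj
      rw [map_smul, coord_ne B (fun h => hj (Prod.mk.inj h).2), smul_zero]
    · intro h
      exact absurd (Finset.mem_univ i) h
  rw [delta_eq, Finset.sum_congr rfl fun i _ => hc i, ← map_sum, htr]
  rw [map_sub, map_mul, map_sub, Complex.conj_I, Complex.conj_natCast, map_one]
  ring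

end SEP
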