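import Pool.Agent.Lib.SE.P.SpecQ
import Pool.Agent.Lib.SE.S6.Isg
import Pool.Agent.Lib.SE.S5.Blk

/-!
# PROJECT SE-P (helper96): `S_Fac`, determinant classes of a factor
-/

set_option autoImplicit false

open HC SE

noncomputable section

namespace SEP

private theorem mem_of {X : GF} {A : AV} {E : Type} [Field E] [NumberField E] {r : ℕ}
    (B : Blk X A E r) (w : A.V) (z : Fin r → E) (h : ∀ φ i, B.b (φ, i) w = X.τ (φ (z i))) :
    ∃ N : ℕ, N ≠ 0 ∧ N • w ∈ A.L := by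
  obtain ⟨N, hN, v, hv, hb⟩ := B.mem z
  refine ⟨N, hN, ?_⟩
  have h1 : N • w = v := by
    refine S5.blk_inj B fun φ i => ?_
    rw [map_nsmul, h, hb, nsmul_eq_mul]
  rw [h1]
  exact hv

/-- **Fac**. -/
theorem tFac : S_Fac := by
  classical
  intro hHC Q hQ X t u ε T' l B' C₀ B₀ hT' hB' hC₀ hB₀ hδ P P' ψ hPP hPP' hψ hDA
  obtain ⟨D⟩ := hDA
  have hlab : ∀ φ' : u.E →+* X.K, ∃ φ : t.E →+* X.K, φ' = φ.comp (ε.symm : u.E →+* t.E) := by
    intro φ'
    refine ⟨φ'.comp (ε : t.E →+* u.E), RingHom.ext fun x => ?_⟩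
    show φ' x = φ' (ε (ε.symm x))
    rw [RingEquiv.apply_symm_apply]
  have hinv : ∀ (φ : t.E →+* X.K) (v : t.T.V × T'.V),
      (∀ i, t.B.b (φ, i) v.1 = ∑ k, X.τ (φ (P' (Sum.inl i) k)) *
        u.B.b (φ.comp (ε.symm : u.E →+* t.E), k) (ψ v)) ∧
      ∀ i, B'.b (φ, i) v.2 = ∑ k, X.τ (φ (P' (Sum.inr i) k)) *
        u.B.b (φ.comp (ε.symm : u.E →+* t.E), k) (ψ v) := by
    intro φ v
    have h1 : ∀ s, ∑ k, X.τ (φ (P' s k)) * u.B.b (φ.comp (ε.symm : u.E →+* t.E), k) (ψ v) =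
        ∑ s', X.τ (φ ((P' * P) s s')) *
          Sum.elim (fun i => t.B.b (φ, i) v.1) (fun i => B'.b (φ, i) v.2) s' := by
      intro s
      have h2 : ∀ k, u.B.b (φ.comp (ε.symm : u.E →+* t.E), k) (ψ v) =
          ∑ s', X.τ (φ (P k s')) *
            Sum.elim (fun i => t.B.b (φ, i) v.1) (fun i => B'.b (φ, i) v.2) s' := by
        intro k
        rw [hψ, Fintype.sum_sum_type]
        rfl
      rw [Finset.sum_congr rfl fun k _ => by rw [h2 k, Finset.mul_sum], Finset.sum_comm]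
      refine Finset.sum_congr rfl fun s' _ => ?_
      rw [Matrix.mul_apply, map_sum, map_sum, Finset.sum_mul]
      refine Finset.sum_congr rfl fun k _ => ?_
      rw [map_mul, map_mul, mul_assoc]
    have h3 : ∀ s, ∑ k, X.τ (φ (P' s k)) * u.B.b (φ.comp (ε.symm : u.E →+* t.E), k) (ψ v) =
        Sum.elim (fun i => t.B.b (φ, i) v.1) (fun i => B'.b (φ, i) v.2) s := by
      intro s
      rw [h1, hPP', Finset.sum_eq_single s]
      · rw [Matrix.one_apply_eq, map_one, map_one, one_mul]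
      · intro s' _ hs
        rw [Matrix.one_apply_ne (Ne.symm hs), map_zero, map_zero, zero_mul]
      · intro h
        exact absurd (Finset.mem_univ s) h
    exact ⟨fun i => (h3 (Sum.inl i)).symm, fun i => (h3 (Sum.inr i)).symm⟩
  refine da_isog hHC hQ t u ε D T' hT' B' hB' ψ.symm (fun v hv => ?_) (fun x v => ?_) C₀ hC₀ B₀
    hB₀ hδ
  · obtain ⟨y, hy⟩ := u.B.lat v hv
    have h1 : ∀ (φ : t.E →+* X.K) (s : Fin t.r ⊕ Fin l), ∑ k, X.τ (φ (P' s k)) *
        u.B.b (φ.comp (ε.symm : u.E →+* t.E), k) v = X.τ (φ (∑ k, P' s k * ε.symm (y k))) := by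
      intro φ s
      rw [map_sum, map_sum]
      refine Finset.sum_congr rfl fun k _ => ?_
      rw [hy, map_mul, map_mul]
      rfl
    obtain ⟨N, hN, h2⟩ := mem_of t.B (ψ.symm v).1 (fun i => ∑ k, P' (Sum.inl i) k * ε.symm (y k))
      (fun φ i => by
        rw [(hinv φ (ψ.symm v)).1 i, LinearEquiv.apply_symm_apply, h1])
    obtain ⟨N', hN', h3⟩ := mem_of B' (ψ.symm v).2 (fun i => ∑ k, P' (Sum.inr i) k * ε.symm (y k))
      (fun φ i => by
        rw [(hinv φ (ψ.symm v)).2 i, LinearEquiv.apply_symm_apply, h1])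
    refine ⟨N * N', mul_ne_zero hN hN', ?_, ?_⟩
    · rw [mul_comm, mul_nsmul']
      exact t.T.L.smul_of_tower_mem N' h2
    · rw [mul_nsmul']
      exact T'.L.smul_of_tower_mem N h3
  · rw [LinearEquiv.symm_apply_eq]
    refine S5.blk_inj u.B fun φ' k => ?_
    obtain ⟨φ, rfl⟩ := hlab φ'
    rw [u.B.act, hψ]
    have h1 := hψ φ (ψ.symm v) k
    rw [LinearEquiv.apply_symm_apply] at h1
    rw [h1]
    have h2 : X.τ ((φ.comp (ε.symm : u.E →+* t.E)) (ε x)) = X.τ (φ x) := by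
      show X.τ (φ (ε.symm (ε x))) = X.τ (φ x)
      rw [RingEquiv.symm_apply_apply]
    rw [h2, mul_add, Finset.mul_sum, Finset.mul_sum]
    congr 1
    · refine Finset.sum_congr rfl fun i _ => ?_
      show _ = _ * t.B.b (φ, i) (t.B.ρ x (ψ.symm v).1)
      rw [t.B.act]
      ring
    · refine Finset.sum_congr rfl fun i _ => ?_
      show _ = _ * B'.b (φ, i) (B'.ρ x (ψ.symm v).2)
      rw [B'.act]
      ring

end SEP
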