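import Pool.Agent.Lib.SE.P.SpecH

/-!
# PROJECT SE-P, module H10 (helper68): `HN 6 = ⟨1^5, -1⟩` for `e = 0`
-/

set_option autoImplicit false

open scoped ComplexConjugate Matrix

noncomputable section

namespace SEP

namespace H10Aux

def A : Matrix (Fin 6) (Fin 6) ℤ :=
  !![1, 1, 1, 1, 1, 1; 0, 1, 0, 0, 0, 0; 0, 0, 1, 0, 0, 0; 0, 0, 0, 0, 1, 1; 0, 0, 0, 0, 0, 1;
    0, 0, 1, 1, 1, 1]

def B : Matrix (Fin 6) (Fin 6) ℤ :=
  !![1, 0, 0, 0, 0, 0; 0, 0, -1, -1, -1, -1; 0, 0, 0, -1, 0, 0; 0, 0, 0, 0, 1, 0; 0, 0, 0, 0, 0, 0;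
    0, 0, 0, 0, 1, 1]

def QA : Matrix (Fin 6) (Fin 6) ℤ :=
  !![1, -1, 0, 1, -1, -2; 0, 2, 0, 1, 1, 0; 0, 0, 1, -1, 1, 1; 0, 0, -1, -1, -1, 1; 0, 0, 0, 1, -1, 0;
    0, 0, 0, 0, 2, 0]

def QB : Matrix (Fin 6) (Fin 6) ℤ :=
  !![-1, 1, 0, 1, 1, 0; 0, 0, 0, -1, 1, 2; 0, 0, -1, -1, -1, 1; 0, 0, 1, 1, -1, -1; 0, 0, 0, -1, 1, 0;
    0, 0, 0, 0, 0, 0]

def Dm : Matrix (Fin 6) (Fin 6) ℤ := fun i j => if i = j then (if i = Fin.last 5 then -1 else 1) else 0

def Re : Matrix (Fin 6) (Fin 6) ℤ := fun l j => if l = j then 2 else 1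

def Im : Matrix (Fin 6) (Fin 6) ℤ := fun l j => if l = j then 0 else if l < j then -1 else 1

def Tw : Matrix (Fin 6) (Fin 6) ℤ := fun l j => if l = j then 2 else 0

theorem re_eq : Aᵀ * Dm * A + Bᵀ * Dm * B = Re := by decide +kernel

theorem im_eq : Aᵀ * Dm * B - Bᵀ * Dm * A = Im := by decide +kernel

theorem qa_eq : A * QA - B * QB = Tw := by decide +kernel

theorem qb_eq : A * QB + B * QA = 0 := by decide +kernel

variable {E : Type} [Field E]

/-- cast of integer matrices -/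
def c (E : Type) [Field E] (M : Matrix (Fin 6) (Fin 6) ℤ) : Matrix (Fin 6) (Fin 6) E := M.map (Int.castRingHom E)

theorem c_mul (M N : Matrix (Fin 6) (Fin 6) ℤ) : c E (M * N) = c E M * c E N := Matrix.map_mul

theorem c_add (M N : Matrix (Fin 6) (Fin 6) ℤ) : c E (M + N) = c E M + c E N := by
  ext i j
  simp [c]

theorem c_sub (M N : Matrix (Fin 6) (Fin 6) ℤ) : c E (M - N) = c E M - c E N := by
  ext i j
  simp [c]

theorem c_D : D0 E 5 = c E Dm := by
  ext i j
  simp only [D0, dg, c, Dm, Matrix.diagonal_apply, Matrix.map_apply]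
  by_cases h : i = j
  · subst h
    simp only [if_true]
    by_cases h2 : i = Fin.last 5
    · rw [if_pos h2, if_pos h2, map_neg, map_one, Rat.cast_neg, Rat.cast_one]
    · rw [if_neg h2, if_neg h2, map_one, Rat.cast_one]
  · rw [if_neg h, if_neg h, map_zero]

theorem cT_eq (q : QF 0 E) : q.cT (c E A + q.z • c E B) = c E Aᵀ - q.z • c E Bᵀ := by
  ext i j
  simp only [QF.cT, Matrix.transpose_apply, Matrix.map_apply, Matrix.add_apply, Matrix.smul_apply,
    Matrix.sub_apply, c, smul_eq_mul, map_add, map_mul, q.hinv, Int.coe_castRingHom, map_intCast]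
  push_cast
  ring

theorem z_sq (q : QF 0 E) : q.z * q.z = -1 := by
  have h := q.hz
  rw [pow_two] at h
  rw [h]
  push_cast
  ring

theorem HN_eq (q : QF 0 E) : c E Re + q.z • c E Im = q.HN 6 := by
  ext l j
  simp only [QF.HN, c, Re, Im, Matrix.add_apply, Matrix.smul_apply, Matrix.map_apply, smul_eq_mul, q.hinv,
    Int.coe_castRingHom]
  by_cases h : l = j
  · simp [h]
  · by_cases h2 : l < j
    · simp only [if_neg h, if_pos h2]
      push_cast
      ring
    · simp only [if_neg h, if_neg h2]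
      push_cast
      ring

end H10Aux

open H10Aux in
theorem tH10 : S_H10 := by
  intro E _ q
  have h2 : (2 : E) ≠ 0 := by
    intro h
    have h3 := congrArg q.σ h
    rw [map_ofNat, map_zero] at h3
    norm_num at h3
  have hz := z_sq q
  have hPQ : (c E A + q.z • c E B) * ((2 : E)⁻¹ • (c E QA + q.z • c E QB)) = 1 := by
    have e1 : (c E A + q.z • c E B) * ((2 : E)⁻¹ • (c E QA + q.z • c E QB)) =
        (2 : E)⁻¹ • (c E (A * QA) + (q.z * q.z) • c E (B * QB) + q.z • (c E (A * QB) + c E (B * QA))) := by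
      simp only [c_mul, Matrix.mul_smul, Matrix.smul_mul, Matrix.mul_add, Matrix.add_mul, smul_add, smul_smul,
        mul_assoc]
      abel
    rw [e1, hz]
    have e2 : c E (A * QA) + (-1 : E) • c E (B * QB) = c E Tw := by
      rw [← qa_eq, c_sub, neg_one_smul]
      abel
    have e3 : c E (A * QB) + c E (B * QA) = 0 := by
      rw [← c_add, qb_eq]
      ext i j
      simp [c]
    rw [e2, e3, smul_zero, add_zero]
    ext i j
    simp only [c, Tw, Matrix.smul_apply, Matrix.map_apply, Matrix.one_apply, smul_eq_mul]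
    by_cases h : i = j
    · simp [h, h2]
    · simp [h]
  refine ⟨c E A + q.z • c E B, (2 : E)⁻¹ • (c E QA + q.z • c E QB), hPQ, mul_eq_one_comm.1 hPQ, ?_⟩
  rw [cT_eq, c_D]
  have e1 : (c E Aᵀ - q.z • c E Bᵀ) * c E Dm * (c E A + q.z • c E B) =
      (c E (Aᵀ * Dm * A) - (q.z * q.z) • c E (Bᵀ * Dm * B)) +
        q.z • (c E (Aᵀ * Dm * B) - c E (Bᵀ * Dm * A)) := by
    simp only [c_mul, Matrix.mul_smul, Matrix.smul_mul, Matrix.mul_add, Matrix.sub_mul,
      smul_sub, smul_smul]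
    abel
  rw [e1, hz, neg_one_smul, sub_neg_eq_add, ← c_add, re_eq, ← c_sub, im_eq, HN_eq]

end SEP
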