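import Pool.Agent.Lib.SE.P.SpecH

/-!
# PROJECT SE-P, module H11 (helper68): transposes and inverses
-/

set_option autoImplicit false

open scoped ComplexConjugate Matrix

noncomputable section

namespace SEP

namespace H11Aux

variable {e : ℤ} {E : Type} [Field E]

theorem inv_inv (q : QF e E) (x : E) : q.inv (q.inv x) = x := by
  obtain ⟨a, b, rfl⟩ := q.gen x
  have h1 : q.inv ((a : E) + b * q.z) = (a : E) + b * (e - q.z) := by
    rw [map_add, map_mul, map_ratCast, map_ratCast, q.hinv]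
  rw [h1, map_add, map_mul, map_ratCast, map_ratCast, map_sub, map_intCast, q.hinv]
  ring

theorem cT_mul (q : QF e E) {ι κ ν : Type} [Fintype κ] (A : Matrix ι κ E) (B : Matrix κ ν E) :
    q.cT (A * B) = q.cT B * q.cT A := by
  ext i j
  simp only [QF.cT, Matrix.transpose_apply, Matrix.map_apply, Matrix.mul_apply, map_sum, map_mul]
  exact Finset.sum_congr rfl fun k _ => mul_comm _ _

theorem cT_cT (q : QF e E) {ι κ : Type} (A : Matrix ι κ E) : q.cT (q.cT A) = A := by
  ext i j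
  simp only [QF.cT, Matrix.transpose_apply, Matrix.map_apply]
  exact inv_inv q _

theorem cT_one (q : QF e E) {ι : Type} [DecidableEq ι] : q.cT (1 : Matrix ι ι E) = 1 := by
  ext i j
  simp only [QF.cT, Matrix.transpose_apply, Matrix.map_apply, Matrix.one_apply]
  by_cases h : i = j
  · simp [h]
  · simp [h, Ne.symm h]

theorem cT_dg (q : QF e E) {ι : Type} [DecidableEq ι] (d : ι → ℚ) : q.cT (dg E d) = dg E d := by
  ext i j
  simp only [QF.cT, dg, Matrix.transpose_apply, Matrix.map_apply, Matrix.diagonal_apply]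
  by_cases h : i = j
  · subst h
    simp only [if_true]
    exact map_ratCast q.inv (d i)
  · simp only [if_neg h, if_neg (Ne.symm h), map_zero]

theorem D0_sq (N : ℕ) : D0 E N * D0 E N = 1 := by
  simp only [D0, dg, Matrix.diagonal_mul_diagonal]
  rw [← Matrix.diagonal_one]
  congr 1
  funext i
  by_cases h : i = Fin.last N
  · simp [h]
  · simp [h]

theorem herm (q : QF e E) (N : ℕ) (H : Matrix (Fin (N + 1)) (Fin (N + 1)) E) (h : q.Iso (D0 E N) H) :
    q.cT H = H := by
  obtain ⟨P, Q, _, _, rfl⟩ := h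
  rw [cT_mul, cT_mul, cT_cT, D0, cT_dg, Matrix.mul_assoc]

theorem unit (q : QF e E) (N : ℕ) (H : Matrix (Fin (N + 1)) (Fin (N + 1)) E) (h : q.Iso (D0 E N) H) :
    IsUnit H.det := by
  obtain ⟨P, Q, h1, h2, rfl⟩ := h
  apply Matrix.isUnit_det_of_right_inverse (B := Q * D0 E N * q.cT Q)
  have e1 : q.cT P * D0 E N * P * (Q * D0 E N * q.cT Q) =
      q.cT P * (D0 E N * (P * Q) * D0 E N) * q.cT Q := by
    simp only [Matrix.mul_assoc]
  rw [e1, h1, Matrix.mul_one, D0_sq, Matrix.mul_one, ← cT_mul, h2, cT_one]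

theorem tr (q : QF e E) (N : ℕ) (H : Matrix (Fin (N + 1)) (Fin (N + 1)) E) (h : q.Iso (D0 E N) H) :
    q.Iso (D0 E N) Hᵀ := by
  have hH := herm q N H h
  obtain ⟨P, Q, h1, h2, h3⟩ := h
  have hmul : ∀ A B : Matrix (Fin (N + 1)) (Fin (N + 1)) E, (A * B).map q.inv = A.map q.inv * B.map q.inv := by
    intro A B
    ext i j
    simp only [Matrix.map_apply, Matrix.mul_apply, map_sum, map_mul]
  have hone : (1 : Matrix (Fin (N + 1)) (Fin (N + 1)) E).map q.inv = 1 := by
    have := cT_one q (ι := Fin (N + 1))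
    rw [QF.cT] at this
    have h5 := congrArg Matrix.transpose this
    rwa [Matrix.transpose_transpose, Matrix.transpose_one] at h5
  refine ⟨P.map q.inv, Q.map q.inv, ?_, ?_, ?_⟩
  · rw [← hmul, h1, hone]
  · rw [← hmul, h2, hone]
  · have e1 : (H.map q.inv) = Hᵀ := by
      have h5 := congrArg Matrix.transpose hH
      rw [QF.cT, Matrix.transpose_transpose] at h5
      exact h5
    rw [← e1, ← h3, hmul, hmul]
    have e2 : (D0 E N).map q.inv = D0 E N := by
      have h5 := congrArg Matrix.transpose (cT_dg q (fun i : Fin (N + 1) => if i = Fin.last N then (-1 : ℚ) else 1))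
      rw [QF.cT, Matrix.transpose_transpose] at h5
      rw [D0, h5, dg, Matrix.diagonal_transpose]
    have e3 : (q.cT P).map q.inv = q.cT (P.map q.inv) := rfl
    rw [e2, e3]

theorem iv (q : QF e E) (N : ℕ) (H : Matrix (Fin (N + 1)) (Fin (N + 1)) E) (h : q.Iso (D0 E N) H) :
    q.Iso (D0 E N) H⁻¹ := by
  have hH := herm q N H h
  have hu := unit q N H h
  obtain ⟨P, Q, h1, h2, h3⟩ := h
  refine ⟨P * H⁻¹, H * Q, ?_, ?_, ?_⟩
  · have e1 : P * H⁻¹ * (H * Q) = P * (H⁻¹ * H) * Q := by simp only [Matrix.mul_assoc]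
    rw [e1, Matrix.nonsing_inv_mul H hu, Matrix.mul_one, h1]
  · have e1 : H * Q * (P * H⁻¹) = H * (Q * P) * H⁻¹ := by simp only [Matrix.mul_assoc]
    rw [e1, h2, Matrix.mul_one, Matrix.mul_nonsing_inv H hu]
  · have e1 : q.cT (P * H⁻¹) * D0 E N * (P * H⁻¹) = q.cT H⁻¹ * (q.cT P * D0 E N * P) * H⁻¹ := by
      rw [cT_mul]
      simp only [Matrix.mul_assoc]
    have e2 : q.cT H⁻¹ * H = 1 := by
      calc q.cT H⁻¹ * H = q.cT H⁻¹ * q.cT H := by rw [hH]
        _ = q.cT (H * H⁻¹) := (cT_mul q _ _).symm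
        _ = 1 := by rw [Matrix.mul_nonsing_inv H hu, cT_one]
    rw [e1, h3, e2, Matrix.one_mul]

end H11Aux

theorem tH11 : S_H11 := by
  intro e E _ q N H h
  exact ⟨H11Aux.tr q N H h, H11Aux.iv q N H h, H11Aux.iv q N _ (H11Aux.tr q N H h), H11Aux.unit q N H h,
    H11Aux.herm q N H h⟩

end SEP
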