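import Pool.Agent.Lib.SE.P.SpecH

/-!
# PROJECT SE-P: H1 (a second version, helper81)
-/

set_option autoImplicit false

open scoped ComplexConjugate Matrix

noncomputable section

namespace SEP

namespace H1b_aux

variable {e : ℤ} {E : Type} [Field E]

theorem cT_mul (q : QF e E) {ι κ ν : Type} [Fintype κ] (P : Matrix ι κ E) (Q : Matrix κ ν E) :
    q.cT (P * Q) = q.cT Q * q.cT P := by
  ext i j
  simp only [QF.cT, Matrix.transpose_apply, Matrix.map_apply, Matrix.mul_apply, map_sum, map_mul]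
  exact Finset.sum_congr rfl fun k _ => mul_comm _ _

theorem cT_one (q : QF e E) {ι : Type} [DecidableEq ι] : q.cT (1 : Matrix ι ι E) = 1 := by
  ext i j
  simp only [QF.cT, Matrix.transpose_apply, Matrix.map_apply, Matrix.one_apply]
  by_cases h : i = j
  · subst h
    simp
  · simp [h, Ne.symm h]

end H1b_aux

open H1b_aux

theorem tH1b : S_H1 := by
  intro e E _ q
  refine ⟨?_, ?_, ?_, ?_, ?_⟩
  · intro ι _ _ H
    exact ⟨1, 1, by simp, by simp, by rw [cT_one]; simp⟩
  · rintro ι κ _ _ _ _ H H' ⟨P, Q, h1, h2, h3⟩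
    refine ⟨Q, P, h2, h1, ?_⟩
    rw [← h3]
    have : q.cT Q * (q.cT P * H * P) * Q = (q.cT Q * q.cT P) * H * (P * Q) := by
      simp only [Matrix.mul_assoc]
    rw [this, ← cT_mul, h1, cT_one]
    simp
  · rintro ι κ ν _ _ _ _ _ _ H H' H'' ⟨P, Q, h1, h2, h3⟩ ⟨P', Q', h4, h5, h6⟩
    refine ⟨P * P', Q' * Q, ?_, ?_, ?_⟩
    · have : P * P' * (Q' * Q) = P * (P' * Q') * Q := by simp only [Matrix.mul_assoc]
      rw [this, h4, Matrix.mul_one, h1]
    · have : Q' * Q * (P * P') = Q' * (Q * P) * P' := by simp only [Matrix.mul_assoc]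
      rw [this, h2, Matrix.mul_one, h5]
    · have : q.cT (P * P') * H * (P * P') = q.cT P' * (q.cT P * H * P) * P' := by
        rw [cT_mul]
        simp only [Matrix.mul_assoc]
      rw [this, h3, h6]
  · intro ι κ _ _ _ _ f H
    refine ⟨(1 : Matrix ι ι E).submatrix id f, (1 : Matrix ι ι E).submatrix f id, ?_, ?_, ?_⟩
    · rw [Matrix.submatrix_mul_equiv]
      simp
    · rw [← Matrix.submatrix_mul _ _ _ id _ Function.bijective_id]
      simp
    · have : q.cT ((1 : Matrix ι ι E).submatrix id f) = (1 : Matrix ι ι E).submatrix f id := by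
        ext i j
        simp only [QF.cT, Matrix.transpose_apply, Matrix.map_apply, Matrix.submatrix_apply,
          Matrix.one_apply, id]
        by_cases h : j = f i
        · simp [h]
        · simp [h, Ne.symm h]
      rw [this]
      ext i j
      simp [Matrix.mul_apply, Matrix.one_apply]
  · rintro ι κ ι' κ' _ _ _ _ _ _ _ _ A A' B B' ⟨P, Q, h1, h2, h3⟩ ⟨P', Q', h4, h5, h6⟩
    refine ⟨Matrix.fromBlocks P 0 0 P', Matrix.fromBlocks Q 0 0 Q', ?_, ?_, ?_⟩
    · rw [Matrix.fromBlocks_multiply]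
      simp [h1, h4]
    · rw [Matrix.fromBlocks_multiply]
      simp [h2, h5]
    · have : q.cT (Matrix.fromBlocks P 0 0 P') = Matrix.fromBlocks (q.cT P) 0 0 (q.cT P') := by
        ext i j
        rcases i with i | i <;> rcases j with j | j <;> simp [QF.cT, Matrix.fromBlocks]
      rw [this, Matrix.fromBlocks_multiply, Matrix.fromBlocks_multiply]
      simp [h3, h6]

end SEP
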