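import Pool.Agent.Lib.SE.P.SpecH

/-! # PROJECT SE-P, P2, module H2: a binary form which represents `c` -/

set_option autoImplicit false

open scoped ComplexConjugate Matrix

noncomputable section

namespace SEP

namespace H2Aux

variable {e : ℤ} {E : Type} [Field E]

lemma inv_inv_q (q : QF e E) (x : E) : q.inv (q.inv x) = x := by
  obtain ⟨a, b, rfl⟩ := q.gen x
  simp only [map_add, map_mul, map_ratCast, q.hinv, map_sub, map_intCast]
  ring

lemma dg_two (a b : ℚ) : dg E ![a, b] = !![(a : E), 0; 0, (b : E)] := by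
  unfold dg
  ext i j
  fin_cases i <;> fin_cases j <;> simp

lemma cT_two (q : QF e E) (x y z w : E) :
    q.cT !![x, y; z, w] = !![q.inv x, q.inv z; q.inv y, q.inv w] := by
  unfold QF.cT
  ext i j
  fin_cases i <;> fin_cases j <;> simp

end H2Aux

open H2Aux in
theorem tH2 : S_H2 := by
  intro e E _ q a b c x y hc h
  have : CharZero E := q.σ.charZero
  have hc' : (c : E) ≠ 0 := by exact_mod_cast hc
  refine ⟨!![x, -(b : E) * q.inv y; y, (a : E) * q.inv x],
    !![(c : E)⁻¹ * ((a : E) * q.inv x), (c : E)⁻¹ * ((b : E) * q.inv y);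
      (c : E)⁻¹ * -y, (c : E)⁻¹ * x], ?_, ?_, ?_⟩
  · rw [Matrix.mul_fin_two, Matrix.one_fin_two]
    have h1 : x * ((c : E)⁻¹ * ((a : E) * q.inv x)) + -(b : E) * q.inv y * ((c : E)⁻¹ * -y) = 1 := by
      have h2 : x * ((c : E)⁻¹ * ((a : E) * q.inv x)) + -(b : E) * q.inv y * ((c : E)⁻¹ * -y) =
          (c : E)⁻¹ * ((a : E) * (q.inv x * x) + b * (q.inv y * y)) := by ring
      rw [h2, h, inv_mul_cancel₀ hc']
    have h3 : x * ((c : E)⁻¹ * ((b : E) * q.inv y)) + -(b : E) * q.inv y * ((c : E)⁻¹ * x) = 0 := by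
      ring
    have h4 : y * ((c : E)⁻¹ * ((a : E) * q.inv x)) + (a : E) * q.inv x * ((c : E)⁻¹ * -y) = 0 := by
      ring
    have h5 : y * ((c : E)⁻¹ * ((b : E) * q.inv y)) + (a : E) * q.inv x * ((c : E)⁻¹ * x) = 1 := by
      have h2 : y * ((c : E)⁻¹ * ((b : E) * q.inv y)) + (a : E) * q.inv x * ((c : E)⁻¹ * x) =
          (c : E)⁻¹ * ((a : E) * (q.inv x * x) + b * (q.inv y * y)) := by ring
      rw [h2, h, inv_mul_cancel₀ hc']
    rw [h1, h3, h4, h5]
  · rw [Matrix.mul_fin_two, Matrix.one_fin_two]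
    have h1 : (c : E)⁻¹ * ((a : E) * q.inv x) * x + (c : E)⁻¹ * ((b : E) * q.inv y) * y = 1 := by
      have h2 : (c : E)⁻¹ * ((a : E) * q.inv x) * x + (c : E)⁻¹ * ((b : E) * q.inv y) * y =
          (c : E)⁻¹ * ((a : E) * (q.inv x * x) + b * (q.inv y * y)) := by ring
      rw [h2, h, inv_mul_cancel₀ hc']
    have h3 : (c : E)⁻¹ * ((a : E) * q.inv x) * (-(b : E) * q.inv y) +
        (c : E)⁻¹ * ((b : E) * q.inv y) * ((a : E) * q.inv x) = 0 := by
      ring
    have h4 : (c : E)⁻¹ * -y * x + (c : E)⁻¹ * x * y = 0 := by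
      ring
    have h5 : (c : E)⁻¹ * -y * (-(b : E) * q.inv y) + (c : E)⁻¹ * x * ((a : E) * q.inv x) = 1 := by
      have h2 : (c : E)⁻¹ * -y * (-(b : E) * q.inv y) + (c : E)⁻¹ * x * ((a : E) * q.inv x) =
          (c : E)⁻¹ * ((a : E) * (q.inv x * x) + b * (q.inv y * y)) := by ring
      rw [h2, h, inv_mul_cancel₀ hc']
    rw [h1, h3, h4, h5]
  · rw [cT_two, dg_two, dg_two, Matrix.mul_fin_two, Matrix.mul_fin_two]
    simp only [map_mul, map_neg, map_ratCast, inv_inv_q, mul_zero, add_zero, zero_add, Rat.cast_mul]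
    have h1 : q.inv x * (a : E) * x + q.inv y * (b : E) * y = c := by
      rw [← h]
      ring
    have h2 : q.inv x * (a : E) * (-(b : E) * q.inv y) + q.inv y * (b : E) * ((a : E) * q.inv x) = 0 := by
      ring
    have h3 : -(b : E) * y * (a : E) * x + (a : E) * x * (b : E) * y = 0 := by
      ring
    have h4 : -(b : E) * y * (a : E) * (-(b : E) * q.inv y) +
        (a : E) * x * (b : E) * ((a : E) * q.inv x) = (a : E) * b * c := by
      rw [← h]
      ring
    rw [h1, h2, h3, h4]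

end SEP
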