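import Pool.Agent.Lib.SE.P.SpecH

/-!
# PROJECT SE-P, H3: representations by binary hermitian forms over `E`
-/

set_option autoImplicit false

noncomputable section

namespace SEP

namespace H3Aux

variable {e : ℤ} {E : Type} [Field E]

theorem norm_eq (q : QF e E) (a b : ℚ) :
    q.inv ((a : E) + b * q.z) * ((a : E) + b * q.z) = ((nq e a b : ℚ) : E) := by
  have : CharZero E := q.σ.charZero
  have h1 : q.inv ((a : E) + b * q.z) = (a : E) + b * (e - q.z) := by
    rw [map_add, map_mul, map_ratCast, map_ratCast, q.hinv]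
  have h2 := q.hz
  rw [h1]
  unfold nq
  push_cast
  linear_combination (-(b : E) ^ 2) * h2

end H3Aux

open H3Aux in
theorem tH3 : S_H3 := by
  intro h e E _ q a b c ha hb hc h1 h2
  have : CharZero E := q.σ.charZero
  obtain ⟨x, y, hxy⟩ := h e a b c q.he ha hb hc h1 h2
  refine ⟨(x.1 : E) + x.2 * q.z, (y.1 : E) + y.2 * q.z, ?_⟩
  rw [norm_eq, norm_eq, ← hxy]
  push_cast
  rfl

end SEP
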