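import Pool.Agent.Lib.SE.P.SpecH

/-!
# PROJECT SE-P: module H4, a move in a diagonal form
-/

set_option autoImplicit false

open scoped ComplexConjugate Matrix

noncomputable section

namespace SEP

namespace H4Aux

variable {ι : Type} [DecidableEq ι]

/-- two indices first -/
def eqv (i j : ι) (h : i ≠ j) : Fin 2 ⊕ {x : ι // x ≠ i ∧ x ≠ j} ≃ ι where
  toFun := Sum.elim ![i, j] Subtype.val
  invFun x := if hi : x = i then Sum.inl 0 else if hj : x = j then Sum.inl 1
    else Sum.inr ⟨x, hi, hj⟩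
  left_inv := by
    rintro (x | x)
    · fin_cases x
      · simp
      · simp [h.symm]
    · simp [x.2.1, x.2.2]
  right_inv := by
    intro x
    by_cases hi : x = i
    · simp [hi]
    · by_cases hj : x = j
      · have h1 : j ≠ i := h.symm
        simp [hj, h1]
      · simp [hi, hj]

theorem dg_sub (E : Type) [Field E] {κ : Type} [DecidableEq κ] (f : κ ≃ ι) (d : ι → ℚ) :
    (dg E d).submatrix f f = dg E (d ∘ f) := by
  unfold dg
  rw [Matrix.submatrix_diagonal_equiv]
  rfl

theorem dg_sum (E : Type) [Field E] {κ : Type} [DecidableEq κ] (a : κ → ℚ) (b : ι → ℚ) :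
    dg E (Sum.elim a b) = Matrix.fromBlocks (dg E a) 0 0 (dg E b) := by
  unfold dg
  rw [Matrix.fromBlocks_diagonal]
  congr 1
  funext x
  rcases x with x | x <;> rfl

theorem comp1 (i j : ι) (h : i ≠ j) (d : ι → ℚ) :
    d ∘ eqv i j h = Sum.elim ![d i, d j] fun x : {x : ι // x ≠ i ∧ x ≠ j} => d x := by
  funext x
  rcases x with x | x
  · fin_cases x <;> rfl
  · rfl

theorem comp2 (i j : ι) (h : i ≠ j) (d : ι → ℚ) (u v : ℚ) :
    (Function.update (Function.update d i u) j v) ∘ eqv i j h =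
      Sum.elim ![u, v] fun x : {x : ι // x ≠ i ∧ x ≠ j} => d x := by
  rw [comp1]
  funext x
  rcases x with x | x
  · fin_cases x
    · simp [h]
    · simp
  · simp [x.2.1, x.2.2]

end H4Aux

open H4Aux in
/-- **(H4)** A move in a diagonal form. -/
theorem tH4 : S_H4 := by
  intro h1 h2 e E _ q h3 ι _ _ d i j c hij hi hj hc hp hn
  obtain ⟨x, y, hxy⟩ := h3 (d i) (d j) c hi hj hc hp hn
  obtain ⟨hrefl, hsymm, htrans, hren, hblk⟩ := h1 q
  have h4 := h2 q (d i) (d j) c x y hc hxy
  set f := eqv i j hij with hf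
  have h5 := hblk (dg E ![d i, d j]) (dg E ![c, d i * d j * c])
    (dg E fun x : {x : ι // x ≠ i ∧ x ≠ j} => d x) (dg E fun x : {x : ι // x ≠ i ∧ x ≠ j} => d x)
    h4 (hrefl _)
  have h6 := hren f (dg E d)
  rw [dg_sub, hf, comp1, dg_sum] at h6
  have h7 := hren f (dg E (Function.update (Function.update d i c) j (d i * d j * c)))
  rw [dg_sub, hf, comp2, dg_sum] at h7
  exact htrans _ _ _ h6 (htrans _ _ _ h5 (hsymm _ _ h7))

end SEP
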