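import Pool.Agent.Lib.SE.P.SpecH

/-!
# PROJECT SE-P: (H5) the embedding of a diagonal form in `⟨1^N, -1⟩` (helper78)
-/

set_option autoImplicit false

noncomputable section

namespace SEP

namespace H5Aux

/-- Renaming the indices of a diagonal matrix. -/
theorem dg_sub (E : Type) [Field E] {ι κ : Type} [DecidableEq ι] [DecidableEq κ] (f : κ ≃ ι)
    (d : ι → ℚ) : (dg E d).submatrix f f = dg E (fun k => d (f k)) := by
  unfold dg
  exact Matrix.submatrix_diagonal_equiv _ f

/-- The moves: with a positive accumulator `p` any values of the right signs can be reached. -/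
theorem moves (h1 : S_H1) {e : ℤ} {E : Type} [Field E] (q : QF e E)
    (h4 : ∀ {ι : Type} [Fintype ι] [DecidableEq ι] (d : ι → ℚ) (i j : ι) (c : ℚ), i ≠ j →
      d i ≠ 0 → d j ≠ 0 → c ≠ 0 → (0 < c → 0 < d i ∨ 0 < d j) → (c < 0 → d i < 0 ∨ d j < 0) →
      q.Iso (dg E d) (dg E (Function.update (Function.update d i c) j (d i * d j * c))))
    {ι : Type} [Fintype ι] [DecidableEq ι] (D t : ι → ℚ) (p : ι) (hp : 0 < D p)
    (S : Finset ι) : p ∉ S → (∀ i ∈ S, 0 < D i * t i) →
    ∃ D' : ι → ℚ, (∀ i ∈ S, D' i = t i) ∧ (∀ i, i ∉ S → i ≠ p → D' i = D i) ∧ 0 < D' p ∧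
      q.Iso (dg E D) (dg E D') := by
  induction S using Finset.induction_on with
  | empty =>
    intro _ _
    exact ⟨D, by simp, fun _ _ _ => rfl, hp, (h1 q).1 _⟩
  | insert i S hi ih =>
    intro hpS hS
    have hpi : p ≠ i := fun h => hpS (by rw [h]; exact Finset.mem_insert_self _ _)
    have hpS' : p ∉ S := fun h => hpS (Finset.mem_insert_of_mem h)
    obtain ⟨D', a1, a2, a3, a4⟩ := ih hpS' fun j hj => hS j (Finset.mem_insert_of_mem hj)
    have hDi : D' i = D i := a2 i hi (Ne.symm hpi)
    have hsg : 0 < D' i * t i := by rw [hDi]; exact hS i (Finset.mem_insert_self _ _)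
    have hne1 : D' i ≠ 0 := fun h => by rw [h, zero_mul] at hsg; exact lt_irrefl _ hsg
    have hne2 : t i ≠ 0 := fun h => by rw [h, mul_zero] at hsg; exact lt_irrefl _ hsg
    refine ⟨Function.update (Function.update D' i (t i)) p (D' i * D' p * t i), ?_, ?_, ?_, ?_⟩
    · intro j hj
      have hjp : j ≠ p := fun h => hpS (by rw [← h]; exact hj)
      rw [Function.update_of_ne hjp]
      rcases Finset.mem_insert.mp hj with rfl | hj'
      · exact Function.update_self _ _ _
      · have hji : j ≠ i := fun h => hi (by rw [← h]; exact hj')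
        rw [Function.update_of_ne hji]
        exact a1 j hj'
    · intro j hj hjp
      have hji : j ≠ i := fun h => hj (by rw [h]; exact Finset.mem_insert_self _ _)
      rw [Function.update_of_ne hjp, Function.update_of_ne hji]
      exact a2 j (fun h => hj (Finset.mem_insert_of_mem h)) hjp
    · rw [Function.update_self]
      have : D' i * D' p * t i = (D' i * t i) * D' p := by ring
      rw [this]
      exact mul_pos hsg a3
    · refine (h1 q).2.2.1 _ _ _ a4 (h4 D' i p (t i) (Ne.symm hpi) hne1 a3.ne' hne2 ?_ ?_)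
      · intro _
        exact Or.inr a3
      · intro h
        exact Or.inl (by
          by_contra h'
          exact absurd hsg (not_lt.mpr (mul_nonpos_of_nonneg_of_nonpos (not_lt.mp h') h.le)))

end H5Aux

open H5Aux in
theorem tH5 : S_H5 := by
  intro h1 h4 e E _ q N n l hnl hl d hd hneg
  obtain ⟨i0, hi0, huniq⟩ := hneg
  have hpos : ∀ i, i ≠ i0 → 0 < d i := fun i hi =>
    lt_of_le_of_ne (not_lt.mp fun h => hi (huniq i h)) (Ne.symm (hd i))
  let f0 : Fin n ⊕ Fin l ≃ Fin (N + 1) := finSumFinEquiv.trans (finCongr hnl)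
  let f : Fin n ⊕ Fin l ≃ Fin (N + 1) := f0.trans (Equiv.swap (f0 (Sum.inl i0)) (Fin.last N))
  have hf : ∀ k, f k = Fin.last N ↔ k = Sum.inl i0 := by
    intro k
    have : f (Sum.inl i0) = Fin.last N := Equiv.swap_apply_left _ _
    rw [← this]
    exact f.injective.eq_iff
  let D : Fin n ⊕ Fin l → ℚ := fun k => if k = Sum.inl i0 then -1 else 1
  let p : Fin n ⊕ Fin l := Sum.inr ⟨0, hl⟩
  have hstart : q.Iso (D0 E N) (dg E D) := by
    have h := (h1 q).2.2.2.1 f (D0 E N)
    have h' : (D0 E N).submatrix f f = dg E D := by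
      unfold D0
      rw [dg_sub]
      congr 1
      funext k
      by_cases hk : k = Sum.inl i0
      · have : f k = Fin.last N := (hf k).mpr hk
        simp only [D, if_pos this, if_pos hk]
      · have : f k ≠ Fin.last N := fun h => hk ((hf k).mp h)
        simp only [D, if_neg this, if_neg hk]
    rw [h'] at h
    exact h
  have hDp : D p = 1 := by
    simp only [D, p]
    rw [if_neg]
    exact fun h => by cases h
  obtain ⟨D', a1, a2, a3, a4⟩ := moves h1 q (fun d i j c => h4 q d i j c) D
    (Sum.elim d fun _ => 1) p (by rw [hDp]; exact one_pos)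
    (Finset.univ.image (Sum.inl : Fin n → Fin n ⊕ Fin l))
    (by
      intro h
      obtain ⟨a, _, ha⟩ := Finset.mem_image.mp h
      exact Sum.inl_ne_inr ha)
    (by
      intro i hi
      obtain ⟨a, _, rfl⟩ := Finset.mem_image.mp hi
      rw [Sum.elim_inl]
      by_cases ha : a = i0
      · subst ha
        have : D (Sum.inl a) = -1 := if_pos rfl
        rw [this]
        linarith
      · have : D (Sum.inl a) = 1 := if_neg fun h => ha (Sum.inl_injective h)
        rw [this, one_mul]
        exact hpos a ha)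
  refine ⟨fun j => D' (Sum.inr j), ?_, ?_⟩
  · intro j
    by_cases hj : (Sum.inr j : Fin n ⊕ Fin l) = p
    · show 0 < D' (Sum.inr j)
      rw [hj]
      exact a3
    · show 0 < D' (Sum.inr j)
      rw [a2 (Sum.inr j) (by
        intro h
        obtain ⟨a, _, ha⟩ := Finset.mem_image.mp h
        cases ha) hj]
      have : D (Sum.inr j) = 1 := if_neg fun h => by cases h
      rw [this]
      exact one_pos
  · have hD' : (Sum.elim d fun j => D' (Sum.inr j)) = D' := by
      funext k
      rcases k with a | b
      · rw [Sum.elim_inl]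
        exact (a1 (Sum.inl a) (Finset.mem_image_of_mem _ (Finset.mem_univ a))).symm
      · rfl
    rw [hD']
    exact (h1 q).2.2.1 _ _ _ hstart a4

end SEP
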