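import Pool.Agent.Lib.SE.P.SpecH

/-!
# SE-P, H6: diagonalisation of a nondegenerate hermitian matrix (helper97)
-/

set_option autoImplicit false

open Matrix

noncomputable section

namespace SEP

namespace H6Aux

variable {e : ℤ} {E : Type} [Field E]

lemma charZero (q : QF e E) : CharZero E := q.σ.charZero

lemma inv_inv (q : QF e E) (x : E) : q.inv (q.inv x) = x := by
  obtain ⟨a, b, rfl⟩ := q.gen x
  simp only [map_add, map_mul, map_ratCast, q.hinv, map_sub, map_intCast]
  ring

lemma two_z_ne (q : QF e E) : 2 * q.z - e ≠ 0 := by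
  have := charZero q
  intro h
  have h2 : (2 * q.z - e) ^ 2 = (e : E) ^ 2 - 4 := by
    have := q.hz
    linear_combination 4 * this
  rw [h] at h2
  rcases q.he with h0 | h1
  · subst h0
    norm_num at h2
  · subst h1
    norm_num at h2

lemma fixed (q : QF e E) (x : E) (hx : q.inv x = x) : ∃ r : ℚ, x = r := by
  obtain ⟨a, b, rfl⟩ := q.gen x
  simp only [map_add, map_mul, map_ratCast, q.hinv] at hx
  have h : (b : E) * (2 * q.z - e) = 0 := by linear_combination -hx
  rcases mul_eq_zero.mp h with h | h
  · exact ⟨a, by rw [h]; ring⟩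
  · exact absurd h (two_z_ne q)

lemma cT_apply (q : QF e E) {ι κ : Type} (P : Matrix ι κ E) (i : κ) (j : ι) :
    q.cT P i j = q.inv (P j i) := rfl

lemma cT_mul (q : QF e E) {ι κ ν : Type} [Fintype κ] (P : Matrix ι κ E) (Q : Matrix κ ν E) :
    q.cT (P * Q) = q.cT Q * q.cT P := by
  ext i j
  simp only [cT_apply, Matrix.mul_apply, map_sum, map_mul]
  exact Finset.sum_congr rfl fun k _ => mul_comm _ _

lemma cT_cT (q : QF e E) {ι κ : Type} (P : Matrix ι κ E) : q.cT (q.cT P) = P := by
  ext i j
  simp only [cT_apply, inv_inv]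

lemma herm_congr (q : QF e E) {ι κ : Type} [Fintype ι] (H : Matrix ι ι E)
    (hH : q.cT H = H) (P : Matrix ι κ E) :
    q.cT (q.cT P * H * P) = q.cT P * H * P := by
  rw [cT_mul, cT_mul, cT_cT, hH, Matrix.mul_assoc]

lemma det_cT (q : QF e E) {ι : Type} [Fintype ι] [DecidableEq ι] (P : Matrix ι ι E) :
    (q.cT P).det = q.inv P.det := by
  unfold QF.cT
  rw [Matrix.det_transpose]
  exact (RingHom.map_det (q.inv : E →+* E) P).symm

/-- hermitian and nondegenerate -/
def Good (q : QF e E) {ι : Type} [Fintype ι] [DecidableEq ι] (H : Matrix ι ι E) : Prop :=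
  q.cT H = H ∧ H.det ≠ 0

lemma good_congr (q : QF e E) {ι : Type} [Fintype ι] [DecidableEq ι] {H P Q : Matrix ι ι E}
    (hH : Good q H) (hPQ : P * Q = 1) : Good q (q.cT P * H * P) := by
  refine ⟨herm_congr q H hH.1 P, ?_⟩
  have hP : P.det ≠ 0 := by
    intro h
    have := congrArg Matrix.det hPQ
    rw [Matrix.det_mul, h, zero_mul, Matrix.det_one] at this
    exact zero_ne_one this
  rw [Matrix.det_mul, Matrix.det_mul, det_cT]
  refine mul_ne_zero (mul_ne_zero ?_ hH.2) hP
  intro h
  exact hP ((map_eq_zero_iff q.inv q.inv.injective).mp h)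

lemma good_sub (q : QF e E) {ι κ : Type} [Fintype ι] [DecidableEq ι] [Fintype κ] [DecidableEq κ]
    {H : Matrix ι ι E} (hH : Good q H) (f : κ ≃ ι) : Good q (H.submatrix f f) := by
  refine ⟨?_, ?_⟩
  · ext i j
    have := congrFun (congrFun hH.1 (f i)) (f j)
    simpa [cT_apply] using this
  · rw [Matrix.det_submatrix_equiv_self]
    exact hH.2

/-- an equivalent good matrix with a nonzero diagonal entry -/
lemma exists_diag (q : QF e E) (h1 : S_H1) {ι : Type} [Fintype ι] [DecidableEq ι] [Nonempty ι]
    (H : Matrix ι ι E) (hH : Good q H) :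
    ∃ H' : Matrix ι ι E, q.Iso H H' ∧ Good q H' ∧ ∃ i, H' i i ≠ 0 := by
  have := charZero q
  by_cases hd : ∃ i, H i i ≠ 0
  · exact ⟨H, (h1 q).1 H, hH, hd⟩
  · push Not at hd
    have hne : ∃ i j, H i j ≠ 0 := by
      by_contra hcon
      push Not at hcon
      apply hH.2
      have : H = 0 := by
        ext i j
        exact hcon i j
      rw [this, Matrix.det_zero]
    obtain ⟨i, j, hij⟩ := hne
    have hne' : j ≠ i := by
      rintro rfl
      exact hij (hd _)
    set t : E := (H i j)⁻¹ with ht
    have hPQ : Matrix.transvection j i t * Matrix.transvection j i (-t) = 1 := by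
      rw [Matrix.transvection_mul_transvection_same _ _ hne', add_neg_cancel,
        Matrix.transvection_zero]
    have hQP : Matrix.transvection j i (-t) * Matrix.transvection j i t = 1 := by
      rw [Matrix.transvection_mul_transvection_same _ _ hne', neg_add_cancel,
        Matrix.transvection_zero]
    refine ⟨q.cT (Matrix.transvection j i t) * H * Matrix.transvection j i t,
      ⟨_, _, hPQ, hQP, rfl⟩, good_congr q hH hPQ, i, ?_⟩
    have hcol : ∀ k, Matrix.transvection j i t k i
        = (if k = i then 1 else 0) + (if k = j then t else 0) := by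
      intro k
      rw [Matrix.transvection, Matrix.add_apply, Matrix.one_apply, Matrix.single_apply]
      by_cases hk : k = j
      · subst hk
        simp
      · have : ¬ (j = k) := fun h => hk h.symm
        simp [hk, this]
    have hji : H j i = q.inv (H i j) := by
      have := congrFun (congrFun hH.1 j) i
      rw [cT_apply] at this
      exact this.symm
    have hval : (q.cT (Matrix.transvection j i t) * H * Matrix.transvection j i t) i i = 2 := by
      rw [Matrix.mul_assoc, Matrix.mul_apply]
      have hterm : ∀ k, (H * Matrix.transvection j i t) k i = H k i + H k j * t := by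
        intro k
        rw [Matrix.mul_apply]
        simp only [hcol, mul_add, Finset.sum_add_distrib, mul_ite, mul_one, mul_zero,
          Finset.sum_ite_eq', Finset.mem_univ, if_true]
      simp only [hterm, cT_apply, hcol, map_add, apply_ite q.inv, map_one, map_zero]
      simp only [add_mul, Finset.sum_add_distrib, ite_mul, one_mul, zero_mul,
          Finset.sum_ite_eq', Finset.mem_univ, if_true]
      rw [hd i, hd j, hji]
      have e1 : H i j * t = 1 := mul_inv_cancel₀ hij
      have e2 : q.inv t * q.inv (H i j) = 1 := by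
        rw [← map_mul, mul_comm, e1, map_one]
      rw [e1]
      linear_combination e2
    rw [hval]
    exact two_ne_zero

/-- the bijection of the indices -/
def fE (n : ℕ) : Unit ⊕ Fin n ≃ Fin (n + 1) where
  toFun := Sum.elim (fun _ => 0) Fin.succ
  invFun := Fin.cases (Sum.inl ()) Sum.inr
  left_inv := by
    rintro (x | x)
    · rfl
    · simp
  right_inv := by
    intro x
    refine Fin.cases ?_ ?_ x
    · rfl
    · intro i
      simp

lemma cT_fromBlocks (q : QF e E) {ι κ : Type} (A : Matrix ι ι E) (B : Matrix ι κ E)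
    (C : Matrix κ ι E) (D : Matrix κ κ E) :
    q.cT (fromBlocks A B C D) = fromBlocks (q.cT A) (q.cT C) (q.cT B) (q.cT D) := by
  ext i j
  rcases i with i | i <;> rcases j with j | j <;> rfl

lemma cT_one (q : QF e E) {ι : Type} [DecidableEq ι] : q.cT (1 : Matrix ι ι E) = 1 := by
  ext i j
  rw [cT_apply, Matrix.one_apply, Matrix.one_apply]
  by_cases h : i = j
  · subst h
    simp
  · have : ¬ (j = i) := fun h' => h h'.symm
    simp [h, this]

lemma cT_zero (q : QF e E) {ι κ : Type} : q.cT (0 : Matrix ι κ E) = 0 := by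
  ext i j
  rw [cT_apply]
  simp

/-- the orthogonal complement of a vector -/
lemma schur (q : QF e E) {κ : Type} [Fintype κ] [DecidableEq κ]
    (M : Matrix (Unit ⊕ κ) (Unit ⊕ κ) E) (hM : Good q M)
    (ha : M (Sum.inl ()) (Sum.inl ()) ≠ 0) :
    ∃ (r : ℚ) (S : Matrix κ κ E), r ≠ 0 ∧ Good q S ∧
      q.Iso M (fromBlocks (dg E (fun _ : Unit => r)) 0 0 S) := by
  have := charZero q
  set a : E := M (Sum.inl ()) (Sum.inl ()) with hadef
  have hinva : q.inv a = a := by
    have := congrFun (congrFun hM.1 (Sum.inl ())) (Sum.inl ())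
    rw [cT_apply] at this
    exact this
  obtain ⟨r, hr⟩ := fixed q a hinva
  set B : Matrix Unit κ E := M.toBlocks₁₂ with hB
  set D : Matrix κ κ E := M.toBlocks₂₂ with hD
  have hMb : M = fromBlocks (a • (1 : Matrix Unit Unit E)) B (q.cT B) D := by
    ext i j
    rcases i with i | i <;> rcases j with j | j
    · simp [hadef]
    · rfl
    · have := congrFun (congrFun hM.1 (Sum.inr i)) (Sum.inl j)
      rw [← this]
      rfl
    · rfl
  set P : Matrix (Unit ⊕ κ) (Unit ⊕ κ) E := fromBlocks 1 (-(a⁻¹ • B)) 0 1 with hP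
  set Q : Matrix (Unit ⊕ κ) (Unit ⊕ κ) E := fromBlocks 1 (a⁻¹ • B) 0 1 with hQ
  have hPQ : P * Q = 1 := by
    rw [hP, hQ, Matrix.fromBlocks_multiply]
    simp [Matrix.fromBlocks_one]
  have hQP : Q * P = 1 := by
    rw [hP, hQ, Matrix.fromBlocks_multiply]
    simp [Matrix.fromBlocks_one]
  have hcB : q.cT (-(a⁻¹ • B)) = -(a⁻¹ • q.cT B) := by
    ext i j
    simp only [cT_apply, Matrix.neg_apply, Matrix.smul_apply, smul_eq_mul, map_neg, map_mul,
      map_inv₀, hinva]
  have hres : q.cT P * M * P = fromBlocks (a • (1 : Matrix Unit Unit E)) 0 0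
      (D - a⁻¹ • (q.cT B * B)) := by
    rw [hP, cT_fromBlocks, cT_one, cT_one, cT_zero, hcB, hMb, Matrix.fromBlocks_multiply,
      Matrix.fromBlocks_multiply]
    congr 1
    · simp
    · simp only [Matrix.one_mul, Matrix.zero_mul, add_zero, Matrix.mul_one]
      rw [Matrix.mul_neg, Matrix.mul_smul, Matrix.smul_mul, Matrix.one_mul, smul_smul,
        inv_mul_cancel₀ ha, one_smul, neg_add_cancel]
    · simp only [Matrix.one_mul, Matrix.mul_zero, add_zero, Matrix.mul_one]
      rw [Matrix.neg_mul, Matrix.mul_smul, Matrix.mul_one, smul_smul,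
        mul_inv_cancel₀ ha, one_smul, neg_add_cancel]
    · simp only [Matrix.one_mul, Matrix.mul_one]
      have h0 : -(a⁻¹ • q.cT B) * a • (1 : Matrix Unit Unit E) + q.cT B = 0 := by
        rw [Matrix.neg_mul, Matrix.mul_smul, Matrix.mul_one, smul_smul,
          mul_inv_cancel₀ ha, one_smul, neg_add_cancel]
      rw [h0, Matrix.zero_mul, zero_add, Matrix.neg_mul, Matrix.smul_mul]
      abel
  have hgood := good_congr q hM hPQ
  rw [hres] at hgood
  have hr0 : r ≠ 0 := by
    rintro rfl
    apply ha
    rw [hr]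
    simp
  refine ⟨r, D - a⁻¹ • (q.cT B * B), hr0, ⟨?_, ?_⟩, ?_⟩
  · have := hgood.1
    rw [cT_fromBlocks] at this
    have h22 := congrArg Matrix.toBlocks₂₂ this
    simpa using h22
  · have := hgood.2
    rw [Matrix.det_fromBlocks_zero₂₁] at this
    exact right_ne_zero_of_mul this
  · refine ⟨P, Q, hPQ, hQP, ?_⟩
    rw [hres]
    congr 1
    ext i j
    rw [dg, hr]
    simp [Matrix.diagonal]

end H6Aux

open H6Aux

theorem tH6 : S_H6 := by
  intro h1 e E _ q n
  induction n with
  | zero =>
    intro H _ _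
    refine ⟨fun _ => 1, fun _ => one_ne_zero, ?_⟩
    have : H = dg E (fun _ : Fin 0 => (1 : ℚ)) := by
      ext i
      exact i.elim0
    rw [← this]
    exact (h1 q).1 H
  | succ n ih =>
    intro H hH hdet
    obtain ⟨refl, symm, trans, reidx, blk⟩ := h1 q
    obtain ⟨H', hiso, hgood, i, hi⟩ := exists_diag q h1 H ⟨hH, hdet⟩
    -- move `i` to `0`, pass to blocks
    set g : Unit ⊕ Fin n ≃ Fin (n + 1) := (fE n).trans (Equiv.swap 0 i) with hg
    have hg0 : g (Sum.inl ()) = i := by
      rw [hg]
      simp [fE]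
    obtain ⟨r, S, hr, hS, hisoS⟩ := schur q (H'.submatrix g g) (good_sub q hgood g) (by
      rw [Matrix.submatrix_apply, hg0]
      exact hi)
    obtain ⟨d, hd, hisod⟩ := ih S hS.1 hS.2
    have h3 := blk _ _ _ _ (refl (dg E (fun _ : Unit => r))) hisod
    have h4 : fromBlocks (dg E (fun _ : Unit => r)) 0 0 (dg E d)
        = dg E (Sum.elim (fun _ : Unit => r) d) := by
      unfold dg
      rw [Matrix.fromBlocks_diagonal]
      congr 1
      ext x
      rcases x with x | x <;> rfl
    rw [h4] at h3
    have h5 := reidx (fE n).symm (dg E (Sum.elim (fun _ : Unit => r) d))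
    have h6 : (dg E (Sum.elim (fun _ : Unit => r) d)).submatrix (fE n).symm (fE n).symm
        = dg E (fun j => Sum.elim (fun _ : Unit => r) d ((fE n).symm j)) := by
      unfold dg
      rw [Matrix.submatrix_diagonal_equiv]
      rfl
    rw [h6] at h5
    refine ⟨fun j => Sum.elim (fun _ : Unit => r) d ((fE n).symm j), ?_, ?_⟩
    · intro j
      change Sum.elim (fun _ : Unit => r) d ((fE n).symm j) ≠ 0
      rcases (fE n).symm j with x | x
      · exact hr
      · exact hd x
    · exact trans _ _ _ hiso (trans _ _ _ (reidx g H') (trans _ _ _ hisoS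
        (trans _ _ _ h3 h5)))

end SEP
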