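import Pool.Agent.Lib.SE.P.SpecH

/-!
# PROJECT SE-P: the signature of a hermitian form and of its diagonal form
-/

set_option autoImplicit false

open Filter Topology
open scoped ComplexConjugate Matrix

noncomputable section

namespace SEP

namespace H7Aux

variable {e : ℤ} {E : Type} [Field E]

theorem cT_map (q : QF e E) {n : ℕ} (P : Matrix (Fin n) (Fin n) E) :
    (q.cT P).map q.σ = (P.map q.σ)ᴴ := by
  ext i j
  rw [Matrix.conjTranspose_apply, Matrix.map_apply, Matrix.map_apply, QF.cT,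
    Matrix.transpose_apply, Matrix.map_apply, q.hσ]
  rfl

theorem form (q : QF e E) {n : ℕ} (H P : Matrix (Fin n) (Fin n) E) (d : Fin n → ℚ)
    (h : q.cT P * H * P = dg E d) (x y : Fin n → ℂ) :
    star ((P.map q.σ).mulVec x) ⬝ᵥ (H.map q.σ).mulVec ((P.map q.σ).mulVec y) =
      ∑ i, conj (x i) * ((d i : ℝ) * y i) := by
  have h1 : (P.map q.σ)ᴴ * H.map q.σ * P.map q.σ =
      Matrix.diagonal fun i => (((d i : ℝ)) : ℂ) := by
    rw [← cT_map, ← Matrix.map_mul, ← Matrix.map_mul, h, dg,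
      Matrix.diagonal_map (map_zero _)]
    congr 1
    funext i
    simp
  rw [Matrix.star_mulVec, ← Matrix.dotProduct_mulVec, Matrix.mulVec_mulVec, Matrix.mulVec_mulVec,
    h1]
  refine Finset.sum_congr rfl fun i _ => ?_
  rw [Matrix.mulVec_diagonal]
  rfl

theorem form_re (q : QF e E) {n : ℕ} (H P : Matrix (Fin n) (Fin n) E) (d : Fin n → ℚ)
    (h : q.cT P * H * P = dg E d) (x : Fin n → ℂ) :
    (star ((P.map q.σ).mulVec x) ⬝ᵥ (H.map q.σ).mulVec ((P.map q.σ).mulVec x)).re =
      ∑ i, (d i : ℝ) * Complex.normSq (x i) := by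
  rw [form q H P d h, Complex.re_sum]
  refine Finset.sum_congr rfl fun i _ => ?_
  have h1 : conj (x i) * ((d i : ℝ) * x i) = (((d i : ℝ) * Complex.normSq (x i) : ℝ) : ℂ) := by
    rw [Complex.ofReal_mul, Complex.normSq_eq_conj_mul_self]
    ring
  rw [h1, Complex.ofReal_re]

theorem rel (a b : ℂ) : ∃ α β : ℂ, (α ≠ 0 ∨ β ≠ 0) ∧ a * α + b * β = 0 := by
  by_cases ha : a = 0
  · exact ⟨1, 0, Or.inl one_ne_zero, by rw [ha, zero_mul, mul_zero, add_zero]⟩
  · exact ⟨b, -a, Or.inr (neg_ne_zero.2 ha), by ring⟩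

end H7Aux

open H7Aux in
theorem tH7 : S_H7 := by
  intro e E _ q n H d hd hiso hsig
  obtain ⟨P, Q, hPQ, hQP, hP⟩ := hiso
  obtain ⟨v, hv, hw⟩ := hsig
  have hPQ' : P.map q.σ * Q.map q.σ = 1 := by
    rw [← Matrix.map_mul, hPQ, Matrix.map_one _ (map_zero _) (map_one _)]
  have hQP' : Q.map q.σ * P.map q.σ = 1 := by
    rw [← Matrix.map_mul, hQP, Matrix.map_one _ (map_zero _) (map_one _)]
  set x : Fin n → ℂ := (Q.map q.σ).mulVec v with hx
  have hvx : v = (P.map q.σ).mulVec x := by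
    rw [hx, Matrix.mulVec_mulVec, hPQ', Matrix.one_mulVec]
  have hex : ∃ i, d i < 0 := by
    by_contra hno
    push Not at hno
    rw [hvx, form_re q H P d hP] at hv
    refine absurd hv (not_lt.2 (Finset.sum_nonneg fun i _ => ?_))
    exact mul_nonneg (by exact_mod_cast hno i) (Complex.normSq_nonneg _)
  obtain ⟨i, hi⟩ := hex
  refine ⟨i, hi, fun j hj => ?_⟩
  by_contra hij
  obtain ⟨α, β, hab, hrel⟩ := rel (conj (x i) * (d i : ℝ)) (conj (x j) * (d j : ℝ))
  set y : Fin n → ℂ := Pi.single i α + Pi.single j β with hy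
  have hyi : y i = α := by
    rw [hy, Pi.add_apply, Pi.single_eq_same, Pi.single_eq_of_ne (Ne.symm hij), add_zero]
  have hyj : y j = β := by
    rw [hy, Pi.add_apply, Pi.single_eq_same, Pi.single_eq_of_ne hij, zero_add]
  have hyk : ∀ k, k ≠ i → k ≠ j → y k = 0 := fun k h1 h2 => by
    rw [hy, Pi.add_apply, Pi.single_eq_of_ne h1, Pi.single_eq_of_ne h2, add_zero]
  have hy0 : (P.map q.σ).mulVec y ≠ 0 := by
    intro h0
    have h1 : y = 0 := by
      have h2 := congrArg (fun w => (Q.map q.σ).mulVec w) h0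
      simp only [Matrix.mulVec_mulVec, hQP', Matrix.one_mulVec, Matrix.mulVec_zero] at h2
      exact h2
    rcases hab with h | h
    · exact h (by rw [← hyi, h1]; rfl)
    · exact h (by rw [← hyj, h1]; rfl)
  have hsum : ∀ f : Fin n → ℂ, (∀ k, k ≠ i → k ≠ j → f k = 0) → ∑ k, f k = f i + f j := by
    intro f hf
    rw [← Finset.sum_pair (Ne.symm hij)]
    refine (Finset.sum_subset (Finset.subset_univ _) fun k _ hk => ?_).symm
    rw [Finset.mem_insert, Finset.mem_singleton, not_or] at hk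
    exact hf k hk.1 hk.2
  have horth : star v ⬝ᵥ (H.map q.σ).mulVec ((P.map q.σ).mulVec y) = 0 := by
    rw [hvx, form q H P d hP, hsum, hyi, hyj]
    · rw [← hrel]
      ring
    · intro k h1 h2
      rw [hyk k h1 h2, mul_zero, mul_zero]
  have hpos := hw _ hy0 horth
  rw [form_re q H P d hP] at hpos
  refine absurd hpos (not_lt.2 (Finset.sum_nonpos fun k _ => ?_))
  by_cases h1 : k = i
  · rw [h1]
    exact mul_nonpos_of_nonpos_of_nonneg (by exact_mod_cast hi.le) (Complex.normSq_nonneg _)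
  · by_cases h2 : k = j
    · rw [h2]
      exact mul_nonpos_of_nonpos_of_nonneg (by exact_mod_cast hj.le) (Complex.normSq_nonneg _)
    · rw [hyk k h1 h2, map_zero, mul_zero]

end SEP
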