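import Pool.Agent.Lib.SE.P.SpecH

set_option autoImplicit false

noncomputable section

namespace SEP

theorem tH8 : S_H8 := by
  refine ⟨?_, ?_⟩
  · intro E _ q r l j
    have hz : q.z ^ 2 = q.z - 1 := by
      have h := q.hz
      rw [Int.cast_one, one_mul] at h
      exact h
    have hinv : q.inv q.z = 1 - q.z := by
      have h := q.hinv
      rw [Int.cast_one] at h
      exact h
    have h1 : (1 - q.z) * q.z = 1 := by linear_combination -hz
    have e1 : q.z⁻¹ = 1 - q.z := (eq_inv_of_mul_eq_one_left h1).symm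
    have e2 : 1 - q.z⁻¹ = q.z := by rw [e1]; ring
    simp only [QF.HN, SEJ.Nm, inv_inv, e2, Int.cast_one]
    rcases lt_trichotomy l j with h | h | h
    · rw [if_neg h.ne, if_pos h, if_pos h.le, if_neg h.ne, e1]
      linear_combination (-2 * q.z ^ 2 + q.z + 2) * hz
    · rw [if_pos h, if_pos h.le, if_pos h, e1]
      linear_combination (-4 * q.z ^ 2 + 4 * q.z + 3) * hz
    · rw [if_neg h.ne', if_neg (not_lt.2 h.le), if_neg (not_le.2 h), if_neg h.ne', e1, hinv]
      linear_combination (-2 * q.z ^ 2 + 3 * q.z + 1) * hz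
  · intro E _ q r l j
    have : CharZero E := by
      refine ⟨fun a b hab => ?_⟩
      have h := congrArg q.σ hab
      rw [map_natCast, map_natCast] at h
      exact Nat.cast_injective h
    have hz : q.z ^ 2 = - 1 := by
      have h := q.hz
      rw [Int.cast_zero, zero_mul, zero_sub] at h
      exact h
    have hinv : q.inv q.z = - q.z := by
      have h := q.hinv
      rw [Int.cast_zero, zero_sub] at h
      exact h
    have h1 : (- q.z) * q.z = 1 := by linear_combination -hz
    have e1 : q.z⁻¹ = - q.z := (eq_inv_of_mul_eq_one_left h1).symm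
    have e3 : ((1 - q.z) / 2) * (1 + q.z) = 1 := by
      linear_combination (-1 / 2 : E) * hz
    have e2 : (1 + q.z)⁻¹ = (1 - q.z) / 2 := (eq_inv_of_mul_eq_one_left e3).symm
    have e4 : 1 - q.z⁻¹ = 1 + q.z := by rw [e1]; ring
    simp only [QF.HN, SEJ.Nm, inv_inv, e4, e2, Int.cast_zero]
    rcases lt_trichotomy l j with h | h | h
    · rw [if_neg h.ne, if_pos h, if_pos h.le, if_neg h.ne]
      linear_combination ((-q.z ^ 2 - q.z + 2) / 2) * hz
    · rw [if_pos h, if_pos h.le, if_pos h]
      linear_combination (-q.z ^ 2 + 2) * hz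
    · rw [if_neg h.ne', if_neg (not_lt.2 h.le), if_neg (not_le.2 h), if_neg h.ne', hinv]
      linear_combination ((-q.z ^ 2 + q.z + 2) / 2) * hz

end SEP
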