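import Pool.Agent.Lib.SE.P.SpecH

/-!
# PROJECT SE-P, module H9: `HN` of size `10` is `⟨1^9, -1⟩`
-/

set_option autoImplicit false

open scoped Matrix

noncomputable section

namespace SEP

namespace H9Aux

def A : Matrix (Fin 10) (Fin 10) ℤ :=
  !![-1,0,0,0,0,0,0,0,0,0; 0,1,0,1,1,1,1,1,1,1; 0,1,1,0,0,0,0,0,0,0; 0,0,1,0,1,1,1,1,1,1;
    0,0,0,0,1,0,0,0,0,0; 0,0,0,0,0,0,-1,0,0,0; 0,0,0,0,0,0,0,1,0,1; 0,0,0,0,0,0,0,1,1,0;
    0,0,0,0,0,0,0,0,1,0; 0,0,0,0,1,1,1,1,1,1]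

def B : Matrix (Fin 10) (Fin 10) ℤ :=
  !![2,1,1,1,1,1,1,1,1,1; 0,0,0,0,-1,-1,-1,-1,-1,-1; 0,0,-1,-1,0,0,0,0,0,0;
    0,0,0,0,-1,-1,-1,-1,-1,-1; 0,0,0,0,0,-1,0,0,0,0; 0,0,0,0,0,0,2,1,1,1; 0,0,0,0,0,0,0,0,0,0;
    0,0,0,0,0,0,0,0,-1,-1; 0,0,0,0,0,0,0,0,0,0; 0,0,0,0,0,0,1,1,1,1]

def QA : Matrix (Fin 10) (Fin 10) ℤ :=
  !![1,-2,0,-2,0,1,-2,0,-2,0; 0,1,2,-1,0,2,-1,0,-1,-3; 0,0,0,3,0,1,1,0,1,-3;
    0,2,-2,1,0,-1,2,0,2,0; 0,0,0,0,2,-2,1,0,1,1; 0,0,0,0,-2,-1,-1,0,-1,2; 0,0,0,0,0,1,-2,0,-2,0;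
    0,0,0,0,0,0,1,2,-1,0; 0,0,0,0,0,0,0,0,3,0; 0,0,0,0,0,0,2,-2,1,0]

def QB : Matrix (Fin 10) (Fin 10) ℤ :=
  !![-2,1,0,1,0,1,1,0,1,-3; 0,1,-1,2,0,-1,2,0,2,0; 0,0,0,0,0,-2,1,0,1,3;
    0,-1,1,-2,0,-1,-1,0,-1,3; 0,0,0,0,-1,1,-2,0,-2,1; 0,0,0,0,1,2,-1,0,-1,-1;
    0,0,0,0,0,-2,1,0,1,0; 0,0,0,0,0,0,1,-1,2,0; 0,0,0,0,0,0,0,0,0,0; 0,0,0,0,0,0,-1,1,-2,0]

def D : Matrix (Fin 10) (Fin 10) ℤ := Matrix.diagonal fun i => if i = Fin.last 9 then -1 else 1

def R : Matrix (Fin 10) (Fin 10) ℤ := fun l j => if l = j then 3 else if l < j then 2 else 1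

def I : Matrix (Fin 10) (Fin 10) ℤ := fun l j => if l = j then 0 else if l < j then -1 else 1

lemma e1 : A * QA - B * QB = 3 • (1 : Matrix (Fin 10) (Fin 10) ℤ) := by decide +kernel

lemma e2 : A * QB + B * QA + B * QB = 0 := by decide +kernel

lemma e3 : QA * A - QB * B = 3 • (1 : Matrix (Fin 10) (Fin 10) ℤ) := by decide +kernel

lemma e4 : QA * B + QB * A + QB * B = 0 := by decide +kernel

lemma e5 : Aᵀ * D * A + Bᵀ * D * A + Bᵀ * D * B = R := by decide +kernel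

lemma e6 : Aᵀ * D * B - Bᵀ * D * A = I := by decide +kernel

/-- integer matrices in `E` -/
def φ (E : Type) [Field E] : Matrix (Fin 10) (Fin 10) ℤ →+* Matrix (Fin 10) (Fin 10) E :=
  (Int.castRingHom E).mapMatrix

lemma φ_apply {E : Type} [Field E] (M : Matrix (Fin 10) (Fin 10) ℤ) (i j : Fin 10) :
    φ E M i j = (M i j : E) := rfl

/-- the product of `M + z N` and `M' + z N'` -/
lemma prd {E : Type} [Field E] (z : E) (hz : z ^ 2 = z - 1) (M N M' N' : Matrix (Fin 10) (Fin 10) ℤ) :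
    (φ E M + z • φ E N) * (φ E M' + z • φ E N') =
      φ E (M * M' - N * N') + z • φ E (M * N' + N * M' + N * N') := by
  rw [map_sub, map_add, map_add, map_mul, map_mul, map_mul, map_mul]
  have h : (φ E M + z • φ E N) * (φ E M' + z • φ E N') =
      φ E M * φ E M' + z • (φ E M * φ E N') + z • (φ E N * φ E M') +
        (z ^ 2) • (φ E N * φ E N') := by
    rw [add_mul, mul_add, mul_add, smul_mul_assoc, smul_mul_assoc, mul_smul_comm, mul_smul_comm,
      smul_smul, pow_two]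
    abel
  rw [h, hz, sub_smul, one_smul, smul_add, smul_add]
  abel

end H9Aux

open H9Aux in
theorem tH9 : S_H9 := by
  intro E _ q
  have hz : q.z ^ 2 = q.z - 1 := by
    have h := q.hz
    rw [Int.cast_one, one_mul] at h
    exact h
  have hinv : q.inv q.z = 1 - q.z := by
    have h := q.hinv
    rw [Int.cast_one] at h
    exact h
  have h3 : (3 : E) ≠ 0 := by
    intro h
    have h1 := congrArg q.σ h
    rw [map_ofNat, map_zero] at h1
    norm_num at h1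
  have hinvZ : ∀ n : ℤ, q.inv (n : E) = n := fun n => map_intCast q.inv n
  have hs : φ E (3 • (1 : Matrix (Fin 10) (Fin 10) ℤ)) = (3 : E) • (1 : Matrix (Fin 10) (Fin 10) E) := by
    rw [map_nsmul, map_one]
    ext i j
    rw [Matrix.smul_apply, Matrix.smul_apply, nsmul_eq_mul, smul_eq_mul]
    norm_num
  refine ⟨φ E A + q.z • φ E B, (3 : E)⁻¹ • (φ E QA + q.z • φ E QB), ?_, ?_, ?_⟩
  · show (φ E A + q.z • φ E B) * ((3 : E)⁻¹ • (φ E QA + q.z • φ E QB)) = 1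
    rw [mul_smul_comm, prd q.z hz, e1, e2, map_zero, smul_zero, add_zero, hs, smul_smul,
      inv_mul_cancel₀ h3, one_smul]
  · show ((3 : E)⁻¹ • (φ E QA + q.z • φ E QB)) * (φ E A + q.z • φ E B) = 1
    rw [smul_mul_assoc, prd q.z hz, e3, e4, map_zero, smul_zero, add_zero, hs, smul_smul,
      inv_mul_cancel₀ h3, one_smul]
  · have hcT : q.cT (φ E A + q.z • φ E B) = φ E (Aᵀ + Bᵀ) + q.z • φ E (-Bᵀ) := by
      ext i j
      show q.inv ((A j i : E) + q.z * (B j i : E)) =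
        (((Aᵀ + Bᵀ) i j : ℤ) : E) + q.z * (((-Bᵀ) i j : ℤ) : E)
      rw [map_add, map_mul, hinvZ, hinvZ, hinv, Matrix.add_apply, Matrix.neg_apply,
        Matrix.transpose_apply, Matrix.transpose_apply]
      push_cast
      ring
    have hD : (D0 E 9 : Matrix (Fin 10) (Fin 10) E) = φ E D + q.z • φ E 0 := by
      rw [map_zero, smul_zero, add_zero]
      ext i j
      show (Matrix.diagonal fun i => (((if i = Fin.last 9 then (-1 : ℚ) else 1 : ℚ)) : E)) i j =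
        ((Matrix.diagonal (fun i : Fin 10 => if i = Fin.last 9 then (-1 : ℤ) else 1) i j : ℤ) : E)
      by_cases hij : i = j
      · subst hij
        rw [Matrix.diagonal_apply_eq, Matrix.diagonal_apply_eq]
        by_cases hi : i = Fin.last 9
        · rw [if_pos hi, if_pos hi]
          push_cast
          rfl
        · rw [if_neg hi, if_neg hi]
          push_cast
          rfl
      · rw [Matrix.diagonal_apply_ne _ hij, Matrix.diagonal_apply_ne _ hij, Int.cast_zero]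
    have hmain : q.cT (φ E A + q.z • φ E B) * (D0 E 9 : Matrix (Fin 10) (Fin 10) E) *
        (φ E A + q.z • φ E B) = φ E R + q.z • φ E I := by
      rw [hcT, hD, prd q.z hz, prd q.z hz]
      have k1 : ((Aᵀ + Bᵀ) * D - -Bᵀ * 0) * A -
          ((Aᵀ + Bᵀ) * 0 + -Bᵀ * D + -Bᵀ * 0) * B = R := by
        rw [← e5]
        simp only [mul_zero, sub_zero, zero_add, add_zero, add_mul, neg_mul]
        abel
      have k2 : ((Aᵀ + Bᵀ) * D - -Bᵀ * 0) * B +
          ((Aᵀ + Bᵀ) * 0 + -Bᵀ * D + -Bᵀ * 0) * A +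
          ((Aᵀ + Bᵀ) * 0 + -Bᵀ * D + -Bᵀ * 0) * B = I := by
        rw [← e6]
        simp only [mul_zero, sub_zero, zero_add, add_zero, add_mul, neg_mul]
        abel
      rw [k1, k2]
    refine hmain.trans ?_
    ext l j
    rw [Matrix.add_apply, Matrix.smul_apply, φ_apply, φ_apply, QF.HN, smul_eq_mul]
    show (((if l = j then (3 : ℤ) else if l < j then 2 else 1 : ℤ)) : E) +
      q.z * (((if l = j then (0 : ℤ) else if l < j then -1 else 1 : ℤ)) : E) = _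
    by_cases hlj : l = j
    · rw [if_pos hlj, if_pos hlj, if_pos hlj]
      push_cast
      ring
    · rw [if_neg hlj, if_neg hlj, if_neg hlj]
      by_cases hlt : l < j
      · rw [if_pos hlt, if_pos hlt, if_pos hlt]
        push_cast
        ring
      · rw [if_neg hlt, if_neg hlt, if_neg hlt, hinv]
        push_cast
        ring

end SEP
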