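import Pool.Agent.Lib.SE.P.Spec

/-!
# PROJECT SE-P, module P1b: small representatives (helper92)
-/

set_option autoImplicit false

noncomputable section

namespace SEP

namespace P1bAux

/-- Reduction modulo `2 b`. -/
theorem red (w b : ℤ) (hb : b ≠ 0) : ∃ l : ℤ, |w - 2 * b * l| ≤ |b| := by
  have key : ∀ c : ℤ, 0 < c → ∃ l : ℤ, |w - 2 * c * l| ≤ c := by
    intro c hc
    refine ⟨(w + c) / (2 * c), ?_⟩
    have h1 := Int.emod_nonneg (w + c) (show (2 * c) ≠ 0 by omega)
    have h2 := Int.emod_lt_of_pos (w + c) (show 0 < 2 * c by omega)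
    have h3 := Int.emod_add_mul_ediv (w + c) (2 * c)
    rw [abs_le]
    constructor <;> linarith
  rcases lt_or_gt_of_ne hb with h | h
  · obtain ⟨l, hl⟩ := key (-b) (by omega)
    refine ⟨-l, ?_⟩
    rw [abs_of_neg h]
    have e : w - 2 * b * -l = w - 2 * -b * l := by ring
    rw [e]
    exact hl
  · obtain ⟨l, hl⟩ := key b h
    exact ⟨l, by rw [abs_of_pos h]; exact hl⟩

end P1bAux

open P1bAux in
/-- **P1b**: small representatives. -/
theorem tP1b : S_P1b := by
  intro hA e b he hb hd a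
  obtain ⟨u, v, huv⟩ := hA e b he hb hd a
  have hb0 : b ≠ 0 := hb.ne_zero
  obtain ⟨k, hk⟩ := red (2 * v) b hb0
  obtain ⟨l, hl⟩ := red (2 * u + e * (v - b * k)) b hb0
  refine ⟨u - b * l, v - b * k, ?_, ?_⟩
  · have h1 : nz e (u - b * l) (v - b * k) - a = (nz e u v - a) +
        b * (-(2 * u * l) + b * l ^ 2 - e * u * k - e * l * (v - b * k) - 2 * v * k + b * k ^ 2) := by
      unfold nz
      ring
    rw [h1]
    exact dvd_add huv (dvd_mul_right _ _)
  · have h1 : (2 * (v - b * k)) ^ 2 ≤ b ^ 2 := by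
      rw [← sq_abs b, ← sq_abs (2 * (v - b * k))]
      have e1 : 2 * (v - b * k) = 2 * v - 2 * b * k := by ring
      rw [e1]
      exact pow_le_pow_left₀ (abs_nonneg _) hk 2
    have h2 : (2 * (u - b * l) + e * (v - b * k)) ^ 2 ≤ b ^ 2 := by
      rw [← sq_abs b, ← sq_abs (2 * (u - b * l) + e * (v - b * k))]
      have e1 : 2 * (u - b * l) + e * (v - b * k) = 2 * u + e * (v - b * k) - 2 * b * l := by ring
      rw [e1]
      exact pow_le_pow_left₀ (abs_nonneg _) hl 2
    have h3 : 16 * nz e (u - b * l) (v - b * k) = 4 * (2 * (u - b * l) + e * (v - b * k)) ^ 2 +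
        (4 - e) * (2 * (v - b * k)) ^ 2 := by
      rcases he with rfl | rfl <;> unfold nz <;> ring
    rw [h3]
    rcases he with rfl | rfl <;> nlinarith

end SEP
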