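import Pool.Agent.Lib.SE.P.Spec

/-!
# PROJECT SE-P, module P1c: the composition of norms (helper94)
-/

set_option autoImplicit false

noncomputable section

namespace SEP

theorem tP1c : S_P1c := by
  rintro e a b b' t - hb' h1 ⟨x, y, z, hne, h2⟩
  by_cases hy : y = 0
  · subst hy
    refine ⟨x, 0, z, hne, ?_⟩
    rw [h2]
    simp [nq]
  · refine ⟨(t.1 * x.1 - t.2 * x.2 + (z.1 + e * z.2), t.1 * x.2 + t.2 * x.1 + e * t.2 * x.2 - z.2),
      (b' * y.1, b' * y.2),
      (t.1 * z.1 - t.2 * z.2 + a * (x.1 + e * x.2),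
        t.1 * z.2 + t.2 * z.1 + e * t.2 * z.2 - a * x.2), ?_, ?_⟩
    · intro h0
      refine hy ?_
      have h3 := congrArg (fun p => p.2.1) h0
      have h4 : b' * y.1 = 0 := congrArg Prod.fst h3
      have h5 : b' * y.2 = 0 := congrArg Prod.snd h3
      exact Prod.ext ((mul_eq_zero.1 h4).resolve_left hb') ((mul_eq_zero.1 h5).resolve_left hb')
    · simp only [nq] at h1 h2 ⊢
      linear_combination (t.1 ^ 2 + e * t.1 * t.2 + t.2 ^ 2 - a) * h2 -
        b' * (y.1 ^ 2 + e * y.1 * y.2 + y.2 ^ 2) * h1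

end SEP
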