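import Pool.Agent.Lib.SE.P.Spec

/-!
# PROJECT SE-P, module P1d: Legendre's descent
-/

set_option autoImplicit false

open MeasureTheory Filter Topology SEJ
open scoped ComplexConjugate

noncomputable section

namespace SEP

namespace P1dAux

lemma symm {e : ℤ} {a b : ℚ} (h : Slv e a b) : Slv e b a := by
  obtain ⟨x, y, z, h0, h1⟩ := h
  refine ⟨y, x, z, ?_, by linarith⟩
  intro h2
  apply h0
  simp only [Prod.mk_eq_zero] at h2 ⊢
  exact ⟨h2.2.1, h2.1, h2.2.2⟩

lemma square {e : ℤ} {a b b1 d : ℚ} (hd : d ≠ 0) (hb : b = d * d * b1) (h : Slv e a b1) :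
    Slv e a b := by
  obtain ⟨x, y, z, h0, h1⟩ := h
  refine ⟨x, (y.1 / d, y.2 / d), z, ?_, ?_⟩
  · intro h2
    apply h0
    simp only [Prod.mk_eq_zero] at h2 ⊢
    refine ⟨h2.1, ?_, h2.2.2⟩
    have h3 : y.1 = 0 := by
      have := h2.2.1.1
      rwa [div_eq_zero_iff, or_iff_left hd] at this
    have h4 : y.2 = 0 := by
      have := h2.2.1.2
      rwa [div_eq_zero_iff, or_iff_left hd] at this
    exact Prod.ext h3 h4
  · rw [h1, hb]
    simp only [nq]
    field_simp

lemma ram {e : ℤ} {a b b1 : ℚ} (he : e = 0 ∨ e = 1) (hb : b = (2 + e) * b1) (h : Slv e a b1) :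
    Slv e a b := by
  have h2e : (2 + (e : ℚ)) ≠ 0 := by
    rcases he with rfl | rfl <;> norm_num
  obtain ⟨x, y, z, h0, h1⟩ := h
  refine ⟨x, ((y.1 - y.2) / (2 + e), (y.1 + (1 + e) * y.2) / (2 + e)), z, ?_, ?_⟩
  · intro h2
    apply h0
    simp only [Prod.mk_eq_zero] at h2 ⊢
    refine ⟨h2.1, ?_, h2.2.2⟩
    have h3 : y.1 - y.2 = 0 := by
      have := h2.2.1.1
      rwa [div_eq_zero_iff, or_iff_left h2e] at this
    have h4 : y.1 + (1 + e) * y.2 = 0 := by
      have := h2.2.1.2
      rwa [div_eq_zero_iff, or_iff_left h2e] at this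
    have h5 : (2 + (e : ℚ)) * y.2 = 0 := by linarith
    have h6 : y.2 = 0 := by
      rcases mul_eq_zero.1 h5 with h | h
      · exact absurd h h2e
      · exact h
    exact Prod.ext (by simpa [h6] using h3) h6
  · rw [h1, hb]
    simp only [nq]
    rcases he with rfl | rfl
    · push_cast
      ring
    · push_cast
      ring

lemma nz_nonneg {e : ℤ} (he : e = 0 ∨ e = 1) (u v : ℤ) : 0 ≤ nz e u v := by
  unfold nz
  rcases he with rfl | rfl
  · nlinarith [sq_nonneg u, sq_nonneg v]
  · nlinarith [sq_nonneg (u + v), sq_nonneg u, sq_nonneg v]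

lemma nq_cast (e u v : ℤ) : nq e (u : ℚ) (v : ℚ) = (nz e u v : ℚ) := by
  unfold nq nz
  push_cast
  ring

lemma step (hB : ∀ e b : ℤ, (e = 0 ∨ e = 1) → Squarefree b → ¬ (2 + e) ∣ b → ∀ a : ℤ,
    ∃ u v : ℤ, b ∣ nz e u v - a ∧ 16 * nz e u v ≤ (8 - e) * b ^ 2) (hC : S_P1c)
    (e : ℤ) (he : e = 0 ∨ e = 1) (n : ℕ)
    (IH : ∀ a b : ℤ, a.natAbs + b.natAbs < n → a ≠ 0 → b ≠ 0 → (0 < a ∨ 0 < b) → Slv e a b)
    (a b : ℤ) (hn : a.natAbs + b.natAbs = n) (ha : a ≠ 0) (hb : b ≠ 0) (hs : 0 < a ∨ 0 < b)
    (hab : a.natAbs ≤ b.natAbs) : Slv e a b := by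
  by_cases hsq : Squarefree b
  · by_cases hr : (2 + e) ∣ b
    · obtain ⟨b1, hb1⟩ := hr
      have hb1' : b1 ≠ 0 := by
        rintro rfl
        exact hb (by rw [hb1, mul_zero])
      have h1 : b1.natAbs < b.natAbs := by
        rw [hb1, Int.natAbs_mul]
        have h2 : 0 < b1.natAbs := Int.natAbs_pos.2 hb1'
        have h3 : 2 ≤ (2 + e).natAbs := by
          rcases he with rfl | rfl <;> decide
        nlinarith
      have h4 : 0 < a ∨ 0 < b1 := by
        rcases hs with h | h
        · exact Or.inl h
        · right
          rw [hb1] at h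
          have h5 : (0 : ℤ) < 2 + e := by
            rcases he with rfl | rfl <;> norm_num
          exact (pos_iff_pos_of_mul_pos h).1 h5
      refine ram he ?_ (IH a b1 (by omega) ha hb1' h4)
      rw [hb1]
      push_cast
      ring
    · by_cases hb1 : b.natAbs = 1
      · have ha1 : a.natAbs = 1 := by
          have := Int.natAbs_pos.2 ha
          omega
        rcases Int.natAbs_eq a with h | h
        · rw [ha1] at h
          refine ⟨(1, 0), 0, (1, 0), ?_, ?_⟩
          · intro h2
            simp [Prod.mk_eq_zero] at h2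
          · rw [h]
            simp [nq]
        · rw [ha1] at h
          have hb0 : 0 < b := by
            rcases hs with h3 | h3
            · rw [h] at h3
              norm_num at h3
            · exact h3
          have hb2 : b = 1 := by omega
          refine ⟨0, (1, 0), (1, 0), ?_, ?_⟩
          · intro h2
            simp [Prod.mk_eq_zero] at h2
          · rw [hb2]
            simp [nq]
      · have hb0 : 0 < b.natAbs := Int.natAbs_pos.2 hb
        obtain ⟨u, v, ⟨b', hb'⟩, hle⟩ := hB e b he hsq hr a
        have hnz := nz_nonneg he u v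
        by_cases hb'0 : b' = 0
        · rw [hb'0, mul_zero, sub_eq_zero] at hb'
          refine ⟨(1, 0), 0, ((u : ℚ), (v : ℚ)), ?_, ?_⟩
          · intro h2
            simp [Prod.mk_eq_zero] at h2
          · have h3 := nq_cast e u v
            simp only
            rw [h3, hb']
            simp [nq]
        · have habs : |b'| < |b| := by
            have hbpos : 0 < |b| := abs_pos.2 hb
            have h2 : |b| * |b'| ≤ nz e u v + |a| := by
              rw [← abs_mul, ← hb']
              calc |nz e u v - a| ≤ |nz e u v| + |a| := abs_sub _ _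
                _ = nz e u v + |a| := by rw [abs_of_nonneg hnz]
            have h3 : |a| ≤ |b| := by
              rw [Int.abs_eq_natAbs, Int.abs_eq_natAbs]
              exact_mod_cast hab
            have h4 : 16 * nz e u v ≤ (8 - e) * |b| ^ 2 := by rw [sq_abs]; exact hle
            have h5 : 2 ≤ |b| := by
              rw [Int.abs_eq_natAbs]
              have : 2 ≤ b.natAbs := by omega
              exact_mod_cast this
            by_contra hcon
            push Not at hcon
            have h6 : |b| * |b| ≤ |b| * |b'| := by nlinarith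
            rcases he with rfl | rfl
            · have h7 : |b| ≠ 2 := by
                intro h8
                apply hr
                rw [show (2 : ℤ) + 0 = 2 from rfl, ← dvd_abs, h8]
              have h9 : 3 ≤ |b| := by omega
              nlinarith
            · nlinarith
          have hsg : 0 < a ∨ 0 < b' := by
            by_contra hcon
            push Not at hcon
            obtain ⟨h2, h3⟩ := hcon
            have ha' : a < 0 := lt_of_le_of_ne h2 ha
            have hbp : 0 < b := by
              rcases hs with h | h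
              · omega
              · exact h
            have h4 : 0 < b * b' := by
              rw [← hb']
              omega
            nlinarith
          have hlt : a.natAbs + b'.natAbs < n := by
            have : b'.natAbs < b.natAbs := by
              rw [Int.abs_eq_natAbs, Int.abs_eq_natAbs] at habs
              exact_mod_cast habs
            omega
          have h10 := IH a b' hlt ha hb'0 hsg
          refine hC e a b b' ((u : ℚ), (v : ℚ)) he (by exact_mod_cast hb'0) ?_ h10
          simp only
          rw [nq_cast]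
          have : ((nz e u v - a : ℤ) : ℚ) = ((b * b' : ℤ) : ℚ) := by rw [hb']
          push_cast at this
          linarith
  · rw [Squarefree] at hsq
    push Not at hsq
    obtain ⟨d, ⟨b1, hd⟩, hu⟩ := hsq
    have hb1' : b1 ≠ 0 := by
      rintro rfl
      exact hb (by rw [hd, mul_zero])
    have hd0 : d ≠ 0 := by
      rintro rfl
      exact hb (by rw [hd, zero_mul, zero_mul])
    have hd2 : 2 ≤ d.natAbs := by
      have h1 : 0 < d.natAbs := Int.natAbs_pos.2 hd0
      have h2 : d.natAbs ≠ 1 := fun h => hu (Int.isUnit_iff_natAbs_eq.2 h)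
      omega
    have h1 : b1.natAbs < b.natAbs := by
      rw [hd, Int.natAbs_mul, Int.natAbs_mul]
      have h2 : 0 < b1.natAbs := Int.natAbs_pos.2 hb1'
      have h3 : 4 ≤ d.natAbs * d.natAbs := by nlinarith
      nlinarith
    have h4 : 0 < a ∨ 0 < b1 := by
      rcases hs with h | h
      · exact Or.inl h
      · right
        rw [hd] at h
        exact (pos_iff_pos_of_mul_pos h).1 (mul_self_pos.2 hd0)
    refine square (d := (d : ℚ)) (by exact_mod_cast hd0) ?_ (IH a b1 (by omega) ha hb1' h4)
    rw [hd]
    push_cast
    ring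

lemma main (hA : S_P1a) : S_P1d := by
  intro hB hC e a b he ha hb hs
  have key : ∀ n : ℕ, ∀ a b : ℤ, a.natAbs + b.natAbs = n → a ≠ 0 → b ≠ 0 → (0 < a ∨ 0 < b) →
      Slv e a b := by
    intro n
    induction n using Nat.strong_induction_on with
    | _ n ih =>
      intro a b hn ha hb hs
      have IH : ∀ a b : ℤ, a.natAbs + b.natAbs < n → a ≠ 0 → b ≠ 0 → (0 < a ∨ 0 < b) →
          Slv e a b := fun a b h => ih _ h a b rfl
      rcases le_total a.natAbs b.natAbs with h | h
      · exact step (hB hA) hC e he n IH a b hn ha hb hs h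
      · exact symm (step (hB hA) hC e he n IH b a (by omega) hb ha hs.symm h)
  exact key _ a b rfl ha hb hs

end P1dAux

/-- P1d (`S_P1b` is an implication from `S_P1a`, so `S_P1a` is a hypothesis here). -/
theorem tP1d (hA : S_P1a) : S_P1d := P1dAux.main hA

end SEP
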