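import Pool.Agent.Lib.SE.P.Spec

/-!
# PROJECT SE-P, module P1e: binary hermitian forms represent numbers
-/

set_option autoImplicit false

noncomputable section

namespace SEP

namespace P1eAux

/-- the norm form is anisotropic -/
lemma aniso {e : ℤ} (he : e = 0 ∨ e = 1) {x y : ℚ} (h : nq e x y = 0) : x = 0 ∧ y = 0 := by
  unfold nq at h
  rcases he with rfl | rfl
  · push_cast at h
    have h1 : x ^ 2 = 0 := by nlinarith [sq_nonneg x, sq_nonneg y]
    have h2 : y ^ 2 = 0 := by nlinarith [sq_nonneg x, sq_nonneg y]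
    exact ⟨by simpa using h1, by simpa using h2⟩
  · push_cast at h
    have h1 : x ^ 2 = 0 := by nlinarith [sq_nonneg x, sq_nonneg y, sq_nonneg (x + y)]
    have h2 : y ^ 2 = 0 := by nlinarith [sq_nonneg x, sq_nonneg y, sq_nonneg (x + y)]
    exact ⟨by simpa using h1, by simpa using h2⟩

/-- scaling by a rational number -/
lemma nq_smul (e : ℤ) (t x y : ℚ) : nq e (t * x) (t * y) = t ^ 2 * nq e x y := by
  unfold nq
  ring

/-- the product with the conjugate -/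
lemma nq_mul_conj (e : ℤ) (x1 x2 z1 z2 : ℚ) :
    nq e (x1 * z1 + e * x1 * z2 + x2 * z2) (x2 * z1 - x1 * z2) = nq e x1 x2 * nq e z1 z2 := by
  unfold nq
  ring

/-- clearing a denominator -/
lemma clear (q : ℚ) : (((q.num * (q.den : ℤ) : ℤ)) : ℚ) = q * (q.den : ℚ) ^ 2 := by
  have h : q * (q.den : ℚ) = (q.num : ℚ) := Rat.mul_den_eq_num q
  push_cast
  rw [← h]
  ring

lemma clear_ne {q : ℚ} (h : q ≠ 0) : q.num * (q.den : ℤ) ≠ 0 :=
  mul_ne_zero (Rat.num_ne_zero.2 h) (by exact_mod_cast q.den_nz)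

lemma clear_pos {q : ℚ} (h : 0 < q) : 0 < q.num * (q.den : ℤ) :=
  mul_pos (Rat.num_pos.2 h) (by exact_mod_cast q.den_pos)

/-- the descent for rational coefficients -/
lemma slv (hD : ∀ e a b : ℤ, (e = 0 ∨ e = 1) → a ≠ 0 → b ≠ 0 → (0 < a ∨ 0 < b) → Slv e a b)
    (e : ℤ) (he : e = 0 ∨ e = 1) (a b : ℚ) (ha : a ≠ 0) (hb : b ≠ 0) (h : 0 < a ∨ 0 < b) :
    Slv e a b := by
  obtain ⟨x, y, z, h0, h1⟩ := hD e (a.num * (a.den : ℤ)) (b.num * (b.den : ℤ)) he (clear_ne ha)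
    (clear_ne hb) (h.imp clear_pos clear_pos)
  have had : (a.den : ℚ) ≠ 0 := by exact_mod_cast a.den_nz
  have hbd : (b.den : ℚ) ≠ 0 := by exact_mod_cast b.den_nz
  refine ⟨(a.den * x.1, a.den * x.2), (b.den * y.1, b.den * y.2), z, ?_, ?_⟩
  · intro h2
    apply h0
    simp only [Prod.mk_eq_zero, mul_eq_zero, had, hbd, false_or] at h2
    obtain ⟨⟨h3, h4⟩, ⟨h5, h6⟩, h7⟩ := h2
    rw [h7, show x = 0 from Prod.ext h3 h4, show y = 0 from Prod.ext h5 h6]
    rfl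
  · rw [h1, clear, clear]
    simp only [nq_smul]
    ring

end P1eAux

open P1eAux in
/-- P1e (the hypotheses of `S_P1d` are hypotheses here). -/
theorem tP1e (hB : S_P1b) (hC : S_P1c) : S_P1e := by
  intro hD e a b c he ha hb hc h1 h2
  have hs : 0 < a * c ∨ 0 < b * c := by
    rcases lt_or_gt_of_ne hc with h | h
    · rcases h2 h with h3 | h3
      · exact Or.inl (mul_pos_of_neg_of_neg h3 h)
      · exact Or.inr (mul_pos_of_neg_of_neg h3 h)
    · rcases h1 h with h3 | h3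
      · exact Or.inl (mul_pos h3 h)
      · exact Or.inr (mul_pos h3 h)
  obtain ⟨x, y, z, h0, hz⟩ := slv (hD hB hC) e he (a * c) (b * c) (mul_ne_zero ha hc)
    (mul_ne_zero hb hc) hs
  by_cases hN : nq e z.1 z.2 = 0
  · obtain ⟨hz1, hz2⟩ := aniso he hN
    have h3 : a * nq e x.1 x.2 + b * nq e y.1 y.2 = 0 := by
      rw [hN] at hz
      have h4 : c * (a * nq e x.1 x.2 + b * nq e y.1 y.2) = 0 := by linear_combination -hz
      exact (mul_eq_zero.1 h4).resolve_left hc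
    have hx : nq e x.1 x.2 ≠ 0 := by
      intro h4
      rw [h4, mul_zero, zero_add] at h3
      have h5 := (mul_eq_zero.1 h3).resolve_left hb
      obtain ⟨h6, h7⟩ := aniso he h4
      obtain ⟨h8, h9⟩ := aniso he h5
      apply h0
      rw [show x = 0 from Prod.ext h6 h7, show y = 0 from Prod.ext h8 h9,
        show z = 0 from Prod.ext hz1 hz2]
      rfl
    obtain ⟨r, hr⟩ : ∃ r : ℚ, a * nq e x.1 x.2 * r = c :=
      ⟨c / (a * nq e x.1 x.2), mul_div_cancel₀ c (mul_ne_zero ha hx)⟩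
    refine ⟨((r + 1) / 2 * x.1, (r + 1) / 2 * x.2), ((r - 1) / 2 * y.1, (r - 1) / 2 * y.2), ?_⟩
    simp only [nq_smul]
    linear_combination ((r - 1) / 2) ^ 2 * h3 + hr
  · refine ⟨(c / nq e z.1 z.2 * (x.1 * z.1 + e * x.1 * z.2 + x.2 * z.2),
      c / nq e z.1 z.2 * (x.2 * z.1 - x.1 * z.2)),
      (c / nq e z.1 z.2 * (y.1 * z.1 + e * y.1 * z.2 + y.2 * z.2),
      c / nq e z.1 z.2 * (y.2 * z.1 - y.1 * z.2)), ?_⟩
    simp only [nq_smul, nq_mul_conj]
    have h3 : a * ((c / nq e z.1 z.2) ^ 2 * (nq e x.1 x.2 * nq e z.1 z.2)) +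
        b * ((c / nq e z.1 z.2) ^ 2 * (nq e y.1 y.2 * nq e z.1 z.2)) =
        c * ((a * c * nq e x.1 x.2 + b * c * nq e y.1 y.2) / nq e z.1 z.2) := by
      field_simp
    rw [h3, ← hz, div_self hN, mul_one]

end SEP
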