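import Pool.Agent.Lib.SE.P.SpecH

/-!
# PROJECT SE-P: P2, the target (assembly of H1, H5, H6, H7) (helper79)
-/

set_option autoImplicit false

open Filter Topology
open scoped ComplexConjugate Matrix

noncomputable section

namespace SEP

/-- **(P2)** A hermitian form of signature `(n - 1, 1)` is a summand of `⟨1^N, -1⟩` with positive
complement. -/
theorem tP2 (h1 : S_H1)
    (h5 : ∀ {e : ℤ} {E : Type} [Field E] (q : QF e E) (N n l : ℕ), n + l = N + 1 → 1 ≤ l →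
      ∀ d : Fin n → ℚ, (∀ i, d i ≠ 0) → (∃! i, d i < 0) →
        ∃ a : Fin l → ℚ, (∀ i, 0 < a i) ∧ q.Iso (D0 E N) (dg E (Sum.elim d a)))
    (h6 : ∀ {e : ℤ} {E : Type} [Field E] (q : QF e E) (n : ℕ)
      (H : Matrix (Fin n) (Fin n) E), q.cT H = H → H.det ≠ 0 →
      ∃ d : Fin n → ℚ, (∀ i, d i ≠ 0) ∧ q.Iso H (dg E d))
    (h7 : S_H7) : S_P2 := by
  intro e E _ q N n l hnl hl H hH hdet hsig
  obtain ⟨hrefl, hsymm, htrans, -, hblock⟩ := h1 q
  obtain ⟨d, hd, hiso⟩ := h6 q n H hH hdet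
  obtain ⟨a, ha, hiso2⟩ := h5 q N n l hnl hl d hd (h7 q n H d hd hiso hsig)
  refine ⟨a, ha, htrans _ _ _ hiso2 ?_⟩
  have hdiag : dg E (Sum.elim d a) = Matrix.fromBlocks (dg E d) 0 0 (dg E a) := by
    unfold dg
    rw [Matrix.fromBlocks_diagonal]
    congr 1
    funext i
    cases i <;> rfl
  rw [hdiag]
  exact hblock _ _ _ _ (hsymm _ _ hiso) (hrefl _)

end SEP
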