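import Pool.Agent.Lib.SE.P.P1a
import Pool.Agent.Lib.SE.P.P1b
import Pool.Agent.Lib.SE.P.P1c
import Pool.Agent.Lib.SE.P.P1d
import Pool.Agent.Lib.SE.P.P1e
import Pool.Agent.Lib.SE.P.H1b
import Pool.Agent.Lib.SE.P.H2
import Pool.Agent.Lib.SE.P.H3
import Pool.Agent.Lib.SE.P.H4
import Pool.Agent.Lib.SE.P.H5
import Pool.Agent.Lib.SE.P.H6
import Pool.Agent.Lib.SE.P.H7
import Pool.Agent.Lib.SE.P.H8
import Pool.Agent.Lib.SE.P.H9
import Pool.Agent.Lib.SE.P.H10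
import Pool.Agent.Lib.SE.P.H11
import Pool.Agent.Lib.SE.P.P2
import Pool.Agent.Lib.SE.P.BrH

/-!
# PROJECT SE-P: P1 and P2 assembled (helper81)
-/

set_option autoImplicit false

namespace SEP

/-- every binary hermitian form over `E` represents all the rational numbers which the signs allow -/
theorem rep : ∀ (e : ℤ) (a b c : ℚ), (e = 0 ∨ e = 1) → a ≠ 0 → b ≠ 0 → c ≠ 0 →
    (0 < c → 0 < a ∨ 0 < b) → (c < 0 → a < 0 ∨ b < 0) →
    ∃ x y : ℚ × ℚ, a * nq e x.1 x.2 + b * nq e y.1 y.2 = c :=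
  tP1e tP1b tP1c (tP1d tP1a)

/-- **P2** without hypotheses -/
theorem s_P2 : S_P2 :=
  tP2 tH1b
    (tH5 tH1b fun q _ _ _ d i j c hij hi hj hc hp hn =>
      tH4 tH1b tH2 q (fun a b c ha hb hc hp hn => tH3 rep q a b c ha hb hc hp hn) d i j c hij hi
        hj hc hp hn)
    (tH6 tH1b) tH7

/-- the bridge without hypotheses -/
theorem s_BrH : S_BrH := brH tH1b s_P2 tH8 tH9 tH10 tH11

end SEP
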