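import Pool.Agent.Lib.SE.P.Spec

/-!
# PROJECT SE-P, P1a: residues as values of the norm form modulo a squarefree number
-/

set_option autoImplicit false

noncomputable section

namespace SEP

namespace P1aAux

theorem two : ∀ y : ZMod 2, y ^ 2 + ((1 : ℤ) : ZMod 2) * y * 0 + 0 ^ 2 = y := by decide

/-- every residue modulo `p` is a value of the norm form, in `ZMod p` -/
theorem zmod {p : ℕ} (hp : p.Prime) {e : ℤ} (he : e = 0 ∨ e = 1) (h3 : e = 1 → p ≠ 3)
    (x : ZMod p) : ∃ u v : ZMod p, u ^ 2 + (e : ZMod p) * u * v + v ^ 2 = x := by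
  have : Fact p.Prime := ⟨hp⟩
  rcases he with he | he
  · obtain ⟨u, v, h⟩ := ZMod.sq_add_sq p x
    exact ⟨u, v, by rw [he, Int.cast_zero, zero_mul, zero_mul, add_zero, h]⟩
  · have hp3 := h3 he
    subst he
    by_cases h2 : p = 2
    · subst h2
      exact ⟨x, 0, two x⟩
    · have hodd : Fintype.card (ZMod p) % 2 = 1 := by
        rw [ZMod.card]
        exact hp.eq_two_or_odd.resolve_left h2
      have h30 : (3 : ZMod p) ≠ 0 := by
        intro h
        have h4 : ((3 : ℕ) : ZMod p) = 0 := by exact_mod_cast h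
        rw [ZMod.natCast_eq_zero_iff] at h4
        exact hp3 ((Nat.prime_dvd_prime_iff_eq hp Nat.prime_three).1 h4)
      have h20 : (2 : ZMod p) ≠ 0 := by
        intro h
        have h4 : ((2 : ℕ) : ZMod p) = 0 := by exact_mod_cast h
        rw [ZMod.natCast_eq_zero_iff] at h4
        exact h2 ((Nat.prime_dvd_prime_iff_eq hp Nat.prime_two).1 h4)
      obtain ⟨s, v, h⟩ := FiniteField.exists_root_sum_quadratic
        (f := Polynomial.X ^ 2 - Polynomial.C (4 * x))
        (g := Polynomial.C (3 : ZMod p) * Polynomial.X ^ 2)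
        (Polynomial.degree_X_pow_sub_C (by norm_num) _)
        (Polynomial.degree_C_mul_X_pow 2 h30) hodd
      rw [Polynomial.eval_sub, Polynomial.eval_pow, Polynomial.eval_X, Polynomial.eval_C,
        Polynomial.eval_mul, Polynomial.eval_pow, Polynomial.eval_X, Polynomial.eval_C] at h
      refine ⟨(s - v) / 2, v, ?_⟩
      have h4 : ((s - v) / 2) ^ 2 + ((1 : ℤ) : ZMod p) * ((s - v) / 2) * v + v ^ 2 - x =
          (s ^ 2 - 4 * x + 3 * v ^ 2) / 4 := by
        have h40 : (4 : ZMod p) ≠ 0 := by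
          have : (4 : ZMod p) = 2 * 2 := by norm_num
          rw [this]
          exact mul_ne_zero h20 h20
        push_cast
        field_simp
        ring
      rw [h, zero_div] at h4
      exact sub_eq_zero.1 h4

theorem prime {p : ℕ} (hp : p.Prime) {e : ℤ} (he : e = 0 ∨ e = 1) (h3 : e = 1 → p ≠ 3)
    (a : ℤ) : ∃ u v : ℤ, (p : ℤ) ∣ nz e u v - a := by
  have : Fact p.Prime := ⟨hp⟩
  obtain ⟨u, v, h⟩ := zmod hp he h3 (a : ZMod p)
  obtain ⟨u, rfl⟩ := ZMod.intCast_surjective u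
  obtain ⟨v, rfl⟩ := ZMod.intCast_surjective v
  refine ⟨u, v, ?_⟩
  rw [← ZMod.intCast_zmod_eq_zero_iff_dvd]
  unfold nz
  push_cast
  rw [h, sub_self]

theorem nz_congr {m e u v u' v' : ℤ} (hu : m ∣ u - u') (hv : m ∣ v - v') :
    m ∣ nz e u v - nz e u' v' := by
  obtain ⟨s, hs⟩ := hu
  obtain ⟨t, ht⟩ := hv
  have h1 : u = u' + m * s := by linarith
  have h2 : v = v' + m * t := by linarith
  subst h1 h2
  unfold nz
  exact ⟨2 * u' * s + m * s ^ 2 + e * (u' * t + s * v' + m * s * t) + 2 * v' * t + m * t ^ 2,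
    by ring⟩

theorem crt {m n : ℤ} (h : IsCoprime m n) (x y : ℤ) : ∃ z : ℤ, m ∣ z - x ∧ n ∣ z - y := by
  obtain ⟨s, t, hst⟩ := h
  refine ⟨x * (t * n) + y * (s * m), ⟨(y - x) * s, ?_⟩, ⟨(x - y) * t, ?_⟩⟩
  · linear_combination x * hst
  · linear_combination y * hst

theorem coprime {m n e : ℤ} (h : IsCoprime m n) (hm : ∀ a : ℤ, ∃ u v : ℤ, m ∣ nz e u v - a)
    (hn : ∀ a : ℤ, ∃ u v : ℤ, n ∣ nz e u v - a) (a : ℤ) : ∃ u v : ℤ, m * n ∣ nz e u v - a := by
  obtain ⟨u1, v1, h1⟩ := hm a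
  obtain ⟨u2, v2, h2⟩ := hn a
  obtain ⟨u, hu1, hu2⟩ := crt h u1 u2
  obtain ⟨v, hv1, hv2⟩ := crt h v1 v2
  refine ⟨u, v, h.mul_dvd ?_ ?_⟩
  · have h3 := dvd_add (nz_congr (e := e) hu1 hv1) h1
    rwa [sub_add_sub_cancel] at h3
  · have h3 := dvd_add (nz_congr (e := e) hu2 hv2) h2
    rwa [sub_add_sub_cancel] at h3

theorem nat {e : ℤ} (he : e = 0 ∨ e = 1) (n : ℕ) : Squarefree n → (e = 1 → ¬ 3 ∣ n) →
    ∀ a : ℤ, ∃ u v : ℤ, (n : ℤ) ∣ nz e u v - a := by
  induction n using Nat.recOnPosPrimePosCoprime with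
  | prime_pow p n hp hn =>
    intro hsq h3 a
    have hn1 : n = 1 := by
      by_contra h
      have h2 : p * p ∣ p ^ n := by
        rw [← pow_two]
        exact pow_dvd_pow p (by omega)
      have h4 := hsq p h2
      rw [Nat.isUnit_iff] at h4
      exact hp.one_lt.ne' h4
    subst hn1
    rw [pow_one] at h3 ⊢
    exact prime hp he (fun h1 h5 => h3 h1 (by rw [h5])) a
  | zero =>
    intro hsq
    exact absurd hsq not_squarefree_zero
  | one =>
    intro _ _ a
    exact ⟨0, 0, by simp⟩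
  | coprime m n hm hn hmn ihm ihn =>
    intro hsq h3 a
    rw [Nat.cast_mul]
    exact coprime (Nat.isCoprime_iff_coprime.2 hmn)
      (ihm (hsq.squarefree_of_dvd (dvd_mul_right m n)) fun h h5 => h3 h (h5.mul_right n))
      (ihn (hsq.squarefree_of_dvd (dvd_mul_left n m)) fun h h5 => h3 h (h5.mul_left m)) a

end P1aAux

theorem tP1a : S_P1a := by
  intro e b he hb h3 a
  obtain ⟨u, v, h⟩ := P1aAux.nat he b.natAbs (Int.squarefree_natAbs.2 hb)
    (fun h1 h2 => h3 (by
      subst h1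
      have h4 : ((3 : ℕ) : ℤ) ∣ b := Int.natCast_dvd.2 h2
      exact_mod_cast h4)) a
  exact ⟨u, v, Int.natAbs_dvd.1 h⟩

end SEP
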