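import Pool.Agent.Lib.SE.P.SpecH

/-!
# PROJECT SE-P, module P4a (helper68): reflection times `i`
-/

set_option autoImplicit false

open scoped ComplexConjugate Matrix

noncomputable section

namespace SEP

namespace P4aAux

/-- the phase of a complex number -/
theorem phase (k : ℂ) : ∃ u : ℂ, conj u * u = 1 ∧ conj u * k = (‖k‖ : ℂ) := by
  by_cases hk : k = 0
  · exact ⟨1, by simp, by simp [hk]⟩
  · have hn : ((‖k‖ : ℝ) : ℂ) ≠ 0 := by
      rw [Complex.ofReal_ne_zero]
      exact norm_ne_zero_iff.2 hk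
    have hc : conj k * k = ((‖k‖ : ℝ) : ℂ) * ‖k‖ := by
      have h := Complex.conj_mul' k
      rw [h]
      ring
    refine ⟨k / ‖k‖, ?_, ?_⟩
    · rw [map_div₀, Complex.conj_ofReal, div_mul_div_comm, hc, div_self (mul_ne_zero hn hn)]
    · rw [map_div₀, Complex.conj_ofReal, div_mul_eq_mul_div, hc, mul_div_assoc, div_self hn, mul_one]

variable {N : ℕ} {H : Matrix (Fin N) (Fin N) ℂ}

theorem star_mulVec_dot (hH : H.IsHermitian) (u x : Fin N → ℂ) :
    star (H.mulVec u) ⬝ᵥ x = star u ⬝ᵥ H.mulVec x := by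
  rw [Matrix.star_mulVec, hH.eq, Matrix.dotProduct_mulVec]

theorem conj_B (hH : H.IsHermitian) (x y : Fin N → ℂ) :
    conj (star x ⬝ᵥ H.mulVec y) = star y ⬝ᵥ H.mulVec x := by
  have h : conj (star x ⬝ᵥ H.mulVec y) = star (H.mulVec y) ⬝ᵥ star (star x) :=
    (Matrix.star_dotProduct_star (H.mulVec y) (star x)).symm
  rw [h, star_star, star_mulVec_dot hH]

/-- the reflection -/
def refl (H : Matrix (Fin N) (Fin N) ℂ) (u : Fin N → ℂ) (t : ℂ) : Matrix (Fin N) (Fin N) ℂ :=
  1 - (2 / t) • Matrix.vecMulVec u (star (H.mulVec u))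

theorem W_sq (hH : H.IsHermitian) (u : Fin N → ℂ) :
    Matrix.vecMulVec u (star (H.mulVec u)) * Matrix.vecMulVec u (star (H.mulVec u)) =
      (star u ⬝ᵥ H.mulVec u) • Matrix.vecMulVec u (star (H.mulVec u)) := by
  ext i j
  simp only [Matrix.mul_apply, Matrix.vecMulVec_apply, Matrix.smul_apply, smul_eq_mul]
  rw [← star_mulVec_dot hH u u, dotProduct, Finset.sum_mul]
  exact Finset.sum_congr rfl fun k _ => by ring

theorem refl_sq (hH : H.IsHermitian) (u : Fin N → ℂ) (t : ℂ) (ht : star u ⬝ᵥ H.mulVec u = t) (h0 : t ≠ 0) :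
    refl H u t * refl H u t = 1 := by
  have h1 := W_sq hH u
  rw [ht] at h1
  unfold refl
  rw [Matrix.sub_mul, Matrix.mul_sub, Matrix.mul_sub, Matrix.one_mul, Matrix.mul_one, Matrix.one_mul,
    Matrix.smul_mul, Matrix.mul_smul, h1, smul_smul, smul_smul]
  have e1 : 2 / t * (2 / t) * t = 2 / t + 2 / t := by
    field_simp
    ring
  rw [e1, add_smul]
  abel

theorem refl_isom (hH : H.IsHermitian) (u : Fin N → ℂ) (t : ℂ) (ht : star u ⬝ᵥ H.mulVec u = t) (h0 : t ≠ 0)
    (hr : conj t = t) : (refl H u t)ᴴ * H * refl H u t = H := by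
  have hc : (2 / t : ℂ) = star (2 / t) := by
    change 2 / t = conj (2 / t)
    rw [map_div₀, hr]
    congr 1
    exact (map_ofNat (starRingEnd ℂ) 2).symm
  have h1 : H * Matrix.vecMulVec u (star (H.mulVec u)) =
      Matrix.vecMulVec (H.mulVec u) (star (H.mulVec u)) := Matrix.mul_vecMulVec _ _ _
  have h2 : (Matrix.vecMulVec u (star (H.mulVec u)))ᴴ * H =
      Matrix.vecMulVec (H.mulVec u) (star (H.mulVec u)) := by
    rw [Matrix.conjTranspose_vecMulVec, star_star, Matrix.vecMulVec_mul]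
    congr 1
    rw [Matrix.star_mulVec, hH.eq]
  have h3 : Matrix.vecMulVec (H.mulVec u) (star (H.mulVec u)) * Matrix.vecMulVec u (star (H.mulVec u)) =
      t • Matrix.vecMulVec (H.mulVec u) (star (H.mulVec u)) := by
    ext i j
    simp only [Matrix.mul_apply, Matrix.vecMulVec_apply, Matrix.smul_apply, smul_eq_mul]
    rw [← ht, ← star_mulVec_dot hH u u, dotProduct, Finset.sum_mul]
    exact Finset.sum_congr rfl fun k _ => by ring
  unfold refl
  rw [Matrix.conjTranspose_sub, Matrix.conjTranspose_one, Matrix.conjTranspose_smul, ← hc, Matrix.sub_mul,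
    Matrix.one_mul, Matrix.smul_mul, h2, Matrix.mul_sub, Matrix.mul_one, Matrix.sub_mul, Matrix.mul_smul,
    Matrix.mul_smul, h1, Matrix.smul_mul, h3, smul_smul, smul_smul]
  have e1 : 2 / t * (2 / t) * t = 2 / t + 2 / t := by
    field_simp
    ring
  rw [e1, add_smul]
  abel

theorem refl_apply (hH : H.IsHermitian) (u x : Fin N → ℂ) (t : ℂ) :
    (refl H u t).mulVec x = x - (2 / t * (star u ⬝ᵥ H.mulVec x)) • u := by
  unfold refl
  rw [Matrix.sub_mulVec, Matrix.one_mulVec, Matrix.smul_mulVec]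
  congr 1
  rw [mul_smul]
  congr 1
  ext i
  simp only [Matrix.mulVec, Matrix.vecMulVec_apply, dotProduct, Pi.smul_apply, smul_eq_mul]
  have h := star_mulVec_dot hH u x
  simp only [Matrix.mulVec, dotProduct] at h
  rw [← h, Finset.sum_mul]
  exact Finset.sum_congr rfl fun k _ => by ring

end P4aAux

open P4aAux in
theorem tP4a : S_P4a := by
  intro N H hH v w hv hw
  -- the two values
  obtain ⟨βv, hβv⟩ : ∃ t, t = star v ⬝ᵥ H.mulVec v := ⟨_, rfl⟩
  obtain ⟨βw, hβw⟩ : ∃ t, t = star w ⬝ᵥ H.mulVec w := ⟨_, rfl⟩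
  obtain ⟨k, hk⟩ : ∃ t, t = star v ⬝ᵥ H.mulVec w := ⟨_, rfl⟩
  have hv1 : conj βv = βv := by rw [hβv]; exact conj_B hH v v
  have hw1 : conj βw = βw := by rw [hβw]; exact conj_B hH w w
  rw [← hβv] at hv
  rw [← hβw] at hw
  have hv2 : βv = ((βv.re : ℝ) : ℂ) := (Complex.conj_eq_iff_real.1 hv1).elim fun r hr => by rw [hr]; simp
  have hw2 : βw = ((βw.re : ℝ) : ℂ) := (Complex.conj_eq_iff_real.1 hw1).elim fun r hr => by rw [hr]; simp
  obtain ⟨a, ha⟩ : ∃ t, t = βv.re := ⟨_, rfl⟩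
  obtain ⟨b, hb⟩ : ∃ t, t = βw.re := ⟨_, rfl⟩
  rw [← ha] at hv hv2
  rw [← hb] at hw hw2
  obtain ⟨u0, hu1, hu2⟩ := phase k
  have hba : 0 < b / a := div_pos_of_neg_of_neg hw hv
  obtain ⟨s, hs⟩ : ∃ s, s = Real.sqrt (b / a) := ⟨_, rfl⟩
  have hspos : 0 < s := by rw [hs]; exact Real.sqrt_pos.2 hba
  have hss : s * s = b / a := by rw [hs]; exact Real.mul_self_sqrt hba.le
  obtain ⟨l, hl⟩ : ∃ l : ℂ, l = s * u0 := ⟨_, rfl⟩
  have hcl : conj l = s * conj u0 := by rw [hl, map_mul, Complex.conj_ofReal]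
  have hll : conj l * l = ((b / a : ℝ) : ℂ) := by
    rw [hcl, hl, ← hss]
    push_cast
    linear_combination (s : ℂ) * s * hu1
  have hl0 : l ≠ 0 := by
    intro h
    rw [h, mul_zero] at hll
    have : (b / a : ℝ) = 0 := by exact_mod_cast hll.symm
    exact hba.ne' this
  obtain ⟨v', hv'⟩ : ∃ v', v' = l • v := ⟨_, rfl⟩
  obtain ⟨d, hd⟩ : ∃ d : ℝ, d = s * ‖k‖ := ⟨_, rfl⟩
  have hd0 : 0 ≤ d := by rw [hd]; exact mul_nonneg hspos.le (norm_nonneg _)
  have B1 : star v' ⬝ᵥ H.mulVec v' = (b : ℂ) := by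
    rw [hv', star_smul, smul_dotProduct, Matrix.mulVec_smul, dotProduct_smul, ← hβv, hv2, smul_eq_mul,
      smul_eq_mul, ← mul_assoc]
    change conj l * l * (a : ℂ) = b
    rw [hll]
    have ha0 : (a : ℂ) ≠ 0 := by
      rw [Complex.ofReal_ne_zero]
      exact hv.ne
    push_cast
    field_simp
  have B2 : star v' ⬝ᵥ H.mulVec w = (d : ℂ) := by
    rw [hv', star_smul, smul_dotProduct, ← hk, smul_eq_mul]
    change conj l * k = d
    rw [hcl, mul_assoc, hu2, hd]
    push_cast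
    ring
  have B3 : star w ⬝ᵥ H.mulVec v' = (d : ℂ) := by
    rw [← conj_B hH v' w, B2, Complex.conj_ofReal]
  have B4 : star w ⬝ᵥ H.mulVec w = (b : ℂ) := by rw [← hβw, hw2]
  obtain ⟨u, hu⟩ : ∃ u, u = v' - w := ⟨_, rfl⟩
  have B5 : star u ⬝ᵥ H.mulVec v' = (b : ℂ) - d := by
    rw [hu, star_sub, sub_dotProduct, B1, B3]
  have B6 : star u ⬝ᵥ H.mulVec u = ((2 * (b - d) : ℝ) : ℂ) := by
    rw [hu, star_sub, sub_dotProduct, Matrix.mulVec_sub, dotProduct_sub, dotProduct_sub, B1, B2, B3, B4]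
    push_cast
    ring
  obtain ⟨t, ht⟩ : ∃ t : ℂ, t = ((2 * (b - d) : ℝ) : ℂ) := ⟨_, rfl⟩
  rw [← ht] at B6
  have ht0 : t ≠ 0 := by
    rw [ht, Complex.ofReal_ne_zero]
    linarith
  have htr : conj t = t := by rw [ht, Complex.conj_ofReal]
  have hrv : (refl H u t).mulVec v' = w := by
    rw [refl_apply hH, B5]
    have e1 : 2 / t * ((b : ℂ) - d) = 1 := by
      have e2 : 2 * ((b : ℂ) - d) = t := by
        rw [ht]
        push_cast
        ring
      rw [div_mul_eq_mul_div, e2, div_self ht0]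
    rw [e1, one_smul, hu]
    abel
  have hsq := refl_sq hH u t B6 ht0
  have his := refl_isom hH u t B6 ht0 htr
  refine ⟨Complex.I • refl H u t, ?_, ?_, -Complex.I * l, ?_, ?_⟩
  · rw [Matrix.conjTranspose_smul, Matrix.smul_mul, Matrix.smul_mul, Matrix.mul_smul, smul_smul, his]
    have : star Complex.I * Complex.I = 1 := by
      change conj Complex.I * Complex.I = 1
      rw [Complex.conj_I, neg_mul, Complex.I_mul_I, neg_neg]
    rw [this, one_smul]
  · have h1 : (Complex.I • refl H u t + 1) * (1 - Complex.I • refl H u t) = (2 : ℂ) • 1 := by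
      rw [Matrix.add_mul, Matrix.one_mul, Matrix.mul_sub, Matrix.mul_one, Matrix.smul_mul, Matrix.mul_smul,
        smul_smul, hsq, Complex.I_mul_I, neg_smul, one_smul, two_smul]
      abel
    intro h0
    have h2 := congrArg Matrix.det h1
    rw [Matrix.det_mul, h0, zero_mul, Matrix.det_smul, Matrix.det_one, mul_one] at h2
    exact (pow_ne_zero _ (two_ne_zero)) h2.symm
  · exact mul_ne_zero (neg_ne_zero.2 Complex.I_ne_zero) hl0
  · have h1 : l • (refl H u t).mulVec v = w := by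
      rw [← Matrix.mulVec_smul, ← hv', hrv]
    rw [Matrix.smul_mulVec, smul_smul]
    have e1 : -Complex.I * l * Complex.I = l := by
      have := Complex.I_mul_I
      linear_combination (-l) * this
    rw [e1, h1]

end SEP
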