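import Pool.Agent.Lib.SE.P.SpecH

/-!
# PROJECT SE-P: P4b, Cayley transform and density (helper1)
-/

set_option autoImplicit false

open Filter Topology
open scoped ComplexConjugate Matrix

noncomputable section

namespace SEP

namespace P4bAux

variable {N : ℕ}

lemma inv_mem (F : Subfield ℂ) (M : Matrix (Fin N) (Fin N) ℂ) (hM : ∀ i j, M i j ∈ F)
    (hd : M.det ≠ 0) : ∀ i j, M⁻¹ i j ∈ F := by
  let MF : Matrix (Fin N) (Fin N) F := fun i j => ⟨M i j, hM i j⟩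
  have h1 : MF.map F.subtype = M := by
    ext i j
    rfl
  have h2 : F.subtype MF.det = M.det := by
    rw [RingHom.map_det, RingHom.mapMatrix_apply, h1]
  have h3 : MF.det ≠ 0 := by
    intro h
    apply hd
    rw [← h2, h, map_zero]
  have h4 : M * (MF⁻¹).map F.subtype = 1 := by
    have h5 : MF * MF⁻¹ = 1 := Matrix.mul_nonsing_inv _ (isUnit_iff_ne_zero.mpr h3)
    have h6 := congrArg (fun A : Matrix (Fin N) (Fin N) F => A.map F.subtype) h5
    simp only [Matrix.map_mul, h1] at h6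
    rw [h6]
    exact Matrix.map_one _ (map_zero _) (map_one _)
  intro i j
  rw [Matrix.inv_eq_right_inv h4]
  exact (MF⁻¹ i j).2

lemma mul_mem' (F : Subfield ℂ) (A B : Matrix (Fin N) (Fin N) ℂ) (hA : ∀ i j, A i j ∈ F)
    (hB : ∀ i j, B i j ∈ F) : ∀ i j, (A * B) i j ∈ F := by
  intro i j
  rw [Matrix.mul_apply]
  exact F.sum_mem fun k _ => F.mul_mem (hA i k) (hB k j)

lemma one_mem' (F : Subfield ℂ) : ∀ i j, (1 : Matrix (Fin N) (Fin N) ℂ) i j ∈ F := by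
  intro i j
  rw [Matrix.one_apply]
  split_ifs
  · exact F.one_mem
  · exact F.zero_mem

lemma dense_mat (F : Subfield ℂ) (hF : Dense (F : Set ℂ)) :
    Dense {Y : Matrix (Fin N) (Fin N) ℂ | ∀ i j, Y i j ∈ F} := by
  have h1 : Dense (Set.pi Set.univ fun _ : Fin N => (F : Set ℂ)) :=
    dense_pi Set.univ fun _ _ => hF
  have h2 : Dense (Set.pi Set.univ fun _ : Fin N => Set.pi Set.univ fun _ : Fin N => (F : Set ℂ)) :=
    dense_pi Set.univ fun _ _ => h1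
  have h3 : {Y : Matrix (Fin N) (Fin N) ℂ | ∀ i j, Y i j ∈ F} =
      Set.pi Set.univ fun _ : Fin N => Set.pi Set.univ fun _ : Fin N => (F : Set ℂ) := by
    ext Y
    exact ⟨fun h i _ j _ => h i j, fun h i j => h i trivial j trivial⟩
  rw [h3]
  exact h2

/-- the skew hermitian part -/
def sk (Y : Matrix (Fin N) (Fin N) ℂ) : Matrix (Fin N) (Fin N) ℂ := (2 : ℂ)⁻¹ • (Y - Yᴴ)

lemma sk_skew (Y : Matrix (Fin N) (Fin N) ℂ) : (sk Y)ᴴ = -sk Y := by
  unfold sk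
  rw [Matrix.conjTranspose_smul, Matrix.conjTranspose_sub, Matrix.conjTranspose_conjTranspose,
    ← smul_neg, neg_sub]
  congr 1
  simp

lemma sk_of_skew (Y : Matrix (Fin N) (Fin N) ℂ) (h : Yᴴ = -Y) : sk Y = Y := by
  unfold sk
  rw [h, sub_neg_eq_add, ← two_smul ℂ Y, smul_smul]
  norm_num

lemma sk_mem (F : Subfield ℂ) (hc : ∀ x ∈ F, conj x ∈ F) (Y : Matrix (Fin N) (Fin N) ℂ)
    (hY : ∀ i j, Y i j ∈ F) : ∀ i j, sk Y i j ∈ F := by
  intro i j
  unfold sk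
  rw [Matrix.smul_apply, Matrix.sub_apply, Matrix.conjTranspose_apply, smul_eq_mul]
  exact F.mul_mem (F.inv_mem (by exact_mod_cast natCast_mem F 2))
    (F.sub_mem (hY i j) (hc _ (hY j i)))

lemma sk_cont : Continuous (sk (N := N)) := by
  have h1 : Continuous fun Y : Matrix (Fin N) (Fin N) ℂ => Yᴴ := continuous_id.matrix_conjTranspose
  have h2 : Continuous fun Y : Matrix (Fin N) (Fin N) ℂ => Y - Yᴴ := continuous_id.sub h1
  exact h2.const_smul (2 : ℂ)⁻¹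

/-- the Cayley transform -/
def cay (H S : Matrix (Fin N) (Fin N) ℂ) : Matrix (Fin N) (Fin N) ℂ :=
  (1 + H⁻¹ * S) * (1 - H⁻¹ * S)⁻¹

lemma cay_isom (H S : Matrix (Fin N) (Fin N) ℂ) (hH : H.IsHermitian) (hd : H.det ≠ 0)
    (hS : Sᴴ = -S) (h1 : (1 - H⁻¹ * S).det ≠ 0) : (cay H S)ᴴ * H * cay H S = H := by
  set X := H⁻¹ * S with hX
  have hHX : H * X = S := by
    rw [hX, ← Matrix.mul_assoc, Matrix.mul_nonsing_inv _ (isUnit_iff_ne_zero.mpr hd),
      Matrix.one_mul]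
  have hXH : Xᴴ * H = -S := by
    have h2 : (H * X)ᴴ = Xᴴ * H := by
      rw [Matrix.conjTranspose_mul, hH.eq]
    rw [← h2, hHX, hS]
  have h3 : (1 + X)ᴴ * H * (1 + X) = (1 - X)ᴴ * H * (1 - X) := by
    simp only [Matrix.conjTranspose_add, Matrix.conjTranspose_sub, Matrix.conjTranspose_one]
    have h4 : (1 + Xᴴ) * H * (1 + X) = H + Xᴴ * H + H * X + Xᴴ * H * X := by
      noncomm_ring
    have h5 : (1 - Xᴴ) * H * (1 - X) = H - Xᴴ * H - H * X + Xᴴ * H * X := by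
      noncomm_ring
    rw [h4, h5, hXH, hHX]
    abel
  have hu : IsUnit (1 - X).det := isUnit_iff_ne_zero.mpr h1
  have h6 : cay H S = (1 + X) * (1 - X)⁻¹ := rfl
  rw [h6, Matrix.conjTranspose_mul]
  calc ((1 - X)⁻¹)ᴴ * (1 + X)ᴴ * H * ((1 + X) * (1 - X)⁻¹)
      = ((1 - X)⁻¹)ᴴ * ((1 + X)ᴴ * H * (1 + X)) * (1 - X)⁻¹ := by
        simp only [Matrix.mul_assoc]
    _ = ((1 - X)⁻¹)ᴴ * ((1 - X)ᴴ * H * (1 - X)) * (1 - X)⁻¹ := by rw [h3]
    _ = ((1 - X) * (1 - X)⁻¹)ᴴ * H * ((1 - X) * (1 - X)⁻¹) := by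
        rw [Matrix.conjTranspose_mul]
        simp only [Matrix.mul_assoc]
    _ = H := by
        rw [Matrix.mul_nonsing_inv _ hu, Matrix.conjTranspose_one, Matrix.one_mul, Matrix.mul_one]

lemma cay_mem (F : Subfield ℂ) (H S : Matrix (Fin N) (Fin N) ℂ) (hH : ∀ i j, H i j ∈ F)
    (hS : ∀ i j, S i j ∈ F) (hd : H.det ≠ 0) (h1 : (1 - H⁻¹ * S).det ≠ 0) :
    ∀ i j, cay H S i j ∈ F := by
  have h2 := inv_mem F H hH hd
  have h3 := mul_mem' F _ _ h2 hS
  refine mul_mem' F _ _ (fun i j => ?_) (inv_mem F _ (fun i j => ?_) h1)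
  · exact F.add_mem (one_mem' F i j) (h3 i j)
  · exact F.sub_mem (one_mem' F i j) (h3 i j)

lemma cay_cont (H S : Matrix (Fin N) (Fin N) ℂ) (h1 : (1 - H⁻¹ * S).det ≠ 0) :
    ContinuousAt (cay H) S := by
  have hc : Continuous fun S : Matrix (Fin N) (Fin N) ℂ => H⁻¹ * S :=
    continuous_const.matrix_mul continuous_id
  have ha : Continuous fun S : Matrix (Fin N) (Fin N) ℂ => 1 + H⁻¹ * S := continuous_const.add hc
  have hb : Continuous fun S : Matrix (Fin N) (Fin N) ℂ => 1 - H⁻¹ * S := continuous_const.sub hc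
  have hdet : Continuous fun S : Matrix (Fin N) (Fin N) ℂ => (1 - H⁻¹ * S).det := hb.matrix_det
  have hinv : ContinuousAt (fun S : Matrix (Fin N) (Fin N) ℂ => (1 - H⁻¹ * S)⁻¹) S := by
    have h2 : (fun S : Matrix (Fin N) (Fin N) ℂ => (1 - H⁻¹ * S)⁻¹) =
        fun S => ((1 - H⁻¹ * S).det)⁻¹ • (1 - H⁻¹ * S).adjugate := by
      funext S
      rw [Matrix.inv_def, Ring.inverse_eq_inv']
    rw [h2]
    exact (hdet.continuousAt.inv₀ h1).smul hb.matrix_adjugate.continuousAt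
  exact ha.continuousAt.mul hinv

end P4bAux

open P4bAux in
theorem tP4b : S_P4b := by
  intro F hF hc N H hH hHF hd g₀ hg hg1 U hU
  have hu : IsUnit (g₀ + 1).det := isUnit_iff_ne_zero.mpr hg1
  set X := (g₀ - 1) * (g₀ + 1)⁻¹ with hX
  have hXg : X * (g₀ + 1) = g₀ - 1 := by
    rw [hX, Matrix.mul_assoc, Matrix.nonsing_inv_mul _ hu, Matrix.mul_one]
  have hm : (1 - X) * (g₀ + 1) = (2 : ℂ) • (1 : Matrix (Fin N) (Fin N) ℂ) := by
    rw [Matrix.sub_mul, hXg, Matrix.one_mul, two_smul]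
    abel
  have hp : (1 + X) * (g₀ + 1) = (2 : ℂ) • g₀ := by
    rw [Matrix.add_mul, hXg, Matrix.one_mul, two_smul]
    abel
  have hdet1 : (1 - X).det ≠ 0 := by
    intro h0
    have h2 := congrArg Matrix.det hm
    rw [Matrix.det_mul, h0, zero_mul, Matrix.det_smul, Matrix.det_one, mul_one] at h2
    exact pow_ne_zero _ two_ne_zero h2.symm
  have hu1 : IsUnit (1 - X).det := isUnit_iff_ne_zero.mpr hdet1
  have hskew : (H * X)ᴴ = -(H * X) := by
    have h2 : (g₀ + 1)ᴴ * (Xᴴ * H + H * X) * (g₀ + 1) = 0 := by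
      have h3 : (g₀ + 1)ᴴ * Xᴴ = (g₀ - 1)ᴴ := by
        rw [← Matrix.conjTranspose_mul, hXg]
      have h4 : (g₀ + 1)ᴴ * (Xᴴ * H + H * X) * (g₀ + 1) =
          ((g₀ + 1)ᴴ * Xᴴ) * H * (g₀ + 1) + (g₀ + 1)ᴴ * H * (X * (g₀ + 1)) := by
        noncomm_ring
      rw [h4, h3, hXg, Matrix.conjTranspose_add, Matrix.conjTranspose_sub,
        Matrix.conjTranspose_one]
      have h5 : (g₀ᴴ - 1) * H * (g₀ + 1) + (g₀ᴴ + 1) * H * (g₀ - 1) =
          g₀ᴴ * H * g₀ + g₀ᴴ * H * g₀ - H - H := by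
        noncomm_ring
      rw [h5, hg]
      abel
    have hu' : IsUnit ((g₀ + 1)ᴴ).det := by
      rw [Matrix.det_conjTranspose]
      exact hu.star
    have h6 : Xᴴ * H + H * X = 0 := by
      have h7 : (Xᴴ * H + H * X) = ((g₀ + 1)ᴴ)⁻¹ * ((g₀ + 1)ᴴ * (Xᴴ * H + H * X) * (g₀ + 1)) *
          (g₀ + 1)⁻¹ := by
        rw [Matrix.mul_assoc ((g₀ + 1)ᴴ), ← Matrix.mul_assoc ((g₀ + 1)ᴴ)⁻¹,
          Matrix.nonsing_inv_mul _ hu', Matrix.one_mul, Matrix.mul_assoc,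
          Matrix.mul_nonsing_inv _ hu, Matrix.mul_one]
      rw [h7, h2, Matrix.mul_zero, Matrix.zero_mul]
    rw [Matrix.conjTranspose_mul, hH.eq]
    exact eq_neg_of_add_eq_zero_left h6
  have hHX : H⁻¹ * (H * X) = X := by
    rw [← Matrix.mul_assoc, Matrix.nonsing_inv_mul _ (isUnit_iff_ne_zero.mpr hd), Matrix.one_mul]
  have hcay : cay H (H * X) = g₀ := by
    unfold cay
    rw [hHX]
    have h2 : (1 + X) = g₀ * (1 - X) := by
      have h3 : (1 + X) * (g₀ + 1) = g₀ * (1 - X) * (g₀ + 1) := by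
        rw [hp, Matrix.mul_assoc, hm, Matrix.mul_smul, Matrix.mul_one]
      have h4 := congrArg (fun A => A * (g₀ + 1)⁻¹) h3
      simp only [Matrix.mul_assoc, Matrix.mul_nonsing_inv _ hu, Matrix.mul_one] at h4
      exact h4
    rw [h2, Matrix.mul_assoc, Matrix.mul_nonsing_inv _ hu1, Matrix.mul_one]
  have hsk : sk (H * X) = H * X := sk_of_skew _ hskew
  have hdet2 : (1 - H⁻¹ * (H * X)).det ≠ 0 := by
    rw [hHX]
    exact hdet1
  have hcont : ContinuousAt (cay H) (sk (H * X)) := by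
    rw [hsk]
    exact cay_cont H _ hdet2
  have hcont2 : ContinuousAt (fun Y : Matrix (Fin N) (Fin N) ℂ => cay H (sk Y)) (H * X) :=
    ContinuousAt.comp (f := sk) (g := cay H) hcont sk_cont.continuousAt
  have hU1 : ∀ᶠ Y in 𝓝 (H * X), cay H (sk Y) ∈ U := by
    have h2 : (fun Y : Matrix (Fin N) (Fin N) ℂ => cay H (sk Y)) (H * X) = g₀ := by
      show cay H (sk (H * X)) = g₀
      rw [hsk, hcay]
    rw [← h2] at hU
    exact hcont2 hU
  have hU2 : ∀ᶠ Y in 𝓝 (H * X), (1 - H⁻¹ * sk Y).det ≠ 0 := by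
    have hcd : Continuous fun Y : Matrix (Fin N) (Fin N) ℂ => (1 - H⁻¹ * sk Y).det :=
      (continuous_const.sub (continuous_const.matrix_mul sk_cont)).matrix_det
    refine hcd.continuousAt.eventually_ne ?_
    rw [hsk]
    exact hdet2
  obtain ⟨Y, ⟨hY1, hY2⟩, hYF⟩ := mem_closure_iff_nhds.mp (dense_mat (N := N) F hF (H * X)) _
    (hU1.and hU2)
  exact ⟨cay H (sk Y), hY1, cay_mem F H _ hHF (sk_mem F hc Y hYF) hd hY2,
    cay_isom H _ hH hd (sk_skew Y) hY2⟩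

end SEP
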