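import Pool.Agent.Lib.SE.P.SpecH

/-!
# PROJECT SE-P: P4 from P4a and P4b
-/

set_option autoImplicit false

open Filter Topology
open scoped ComplexConjugate Matrix

noncomputable section

namespace SEP

theorem tP4c : S_P4c := by
  intro h4a h4b F hF hc N H hH hHF hdet v w hv hw U hU
  obtain ⟨g₀, hg₀, hg1, z, hz, hzw⟩ := h4a N H hH v w hv hw
  have hcont : Continuous fun g : Matrix (Fin N) (Fin N) ℂ => z • g.mulVec v :=
    (Continuous.matrix_mulVec continuous_id continuous_const).const_smul z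
  have hU' : (fun g : Matrix (Fin N) (Fin N) ℂ => z • g.mulVec v) ⁻¹' U ∈ 𝓝 g₀ := by
    apply hcont.continuousAt
    change U ∈ 𝓝 (z • g₀.mulVec v)
    rw [hzw]
    exact hU
  obtain ⟨g, hgU, hgF, hgH⟩ := h4b F hF hc N H hH hHF hdet g₀ hg₀ hg1 _ hU'
  exact ⟨g, hgF, hgH, z, hz, hgU⟩

end SEP
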