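import Pool.Agent.Lib.SE.P.SpecQ

/-!
# PROJECT SE-P (helper96): the field `ℚ(√-3)`, `ℚ(i)`
-/

set_option autoImplicit false

open HC HC.SE SE
open scoped ComplexConjugate

noncomputable section

namespace SEP
namespace PDA

variable {e : ℤ} {E : Type} [Field E] {ζ : E}

/-- The conjugate of `ζ`. -/
theorem inv_zeta (h : IQ e E ζ) (inv : E ≃+* E) (σ : E →+* ℂ)
    (hσ : ∀ x, σ (inv x) = conj (σ x)) (him : 0 < (σ ζ).im) : inv ζ = (e : E) - ζ := by
  apply σ.injective
  rw [hσ, map_sub, map_intCast]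
  have h1 : σ ζ ^ 2 = (e : ℂ) * σ ζ - 1 := by
    rw [← map_pow, h.sq, map_sub, map_mul, map_intCast, map_one]
  have h2 : (conj (σ ζ)) ^ 2 = (e : ℂ) * conj (σ ζ) - 1 := by
    have h3 := congrArg conj h1
    rw [map_pow, map_sub, map_mul, map_one, map_intCast] at h3
    exact h3
  have h3 : σ ζ - conj (σ ζ) ≠ 0 := by
    intro h4
    have h5 := congrArg Complex.im h4
    rw [Complex.sub_im, Complex.conj_im, Complex.zero_im] at h5
    linarith
  have h4 : (σ ζ - conj (σ ζ)) * (conj (σ ζ) - ((e : ℂ) - σ ζ)) = 0 := by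
    linear_combination h1 - h2
  exact sub_eq_zero.1 ((mul_eq_zero.1 h4).resolve_left h3)

/-- `ζ` is a primitive root of unity. -/
theorem prim [CharZero E] (h : IQ e E ζ) : IsPrimitiveRoot ζ (me e) := by
  have hsq := h.sq
  rcases h.he with rfl | rfl
  · have h1 : me 0 = 4 := rfl
    rw [h1]
    have h2 : ζ ^ 2 = -1 := by
      rw [hsq]
      push_cast
      ring
    refine IsPrimitiveRoot.mk_of_lt ζ (by norm_num) ?_ ?_
    · linear_combination (ζ ^ 2 - 1) * h2
    · intro l hl0 hl4 hl
      interval_cases l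
      · rw [pow_one] at hl
        rw [hl] at h2
        norm_num at h2
      · rw [h2] at hl
        norm_num at hl
      · have h3 : ζ = -1 := by linear_combination ζ * h2 - hl
        rw [h3] at h2
        norm_num at h2
  · have h1 : me 1 = 6 := rfl
    rw [h1]
    have h2 : ζ ^ 2 = ζ - 1 := by
      rw [hsq]
      push_cast
      ring
    have h3 : ζ ^ 3 = -1 := by linear_combination (ζ + 1) * h2
    have hb : ∀ k : E, ζ = k → k ^ 2 = k - 1 := fun k hk => by rw [← hk, h2]
    refine IsPrimitiveRoot.mk_of_lt ζ (by norm_num) ?_ ?_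
    · linear_combination (ζ ^ 3 - 1) * h3
    · intro l hl0 hl6 hl
      interval_cases l
      · have h4 := hb 1 (by rw [pow_one] at hl; exact hl)
        norm_num at h4
      · have h4 := hb 2 (by linear_combination hl - h2)
        norm_num at h4
      · rw [h3] at hl
        norm_num at hl
      · have h4 := hb (-1) (by linear_combination ζ * h3 - hl)
        norm_num at h4
      · have h4 := hb 0 (by linear_combination ζ ^ 2 * h3 - h2 - hl)
        norm_num at h4

/-- The conjugate root. -/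
theorem IQ_inv [CharZero E] (h : IQ e E ζ) {ζ' : E} (hζ : ζ' = (e : E) - ζ) : IQ e E ζ' where
  he := h.he
  sq := by
    rw [hζ]
    linear_combination h.sq
  gen := fun x => by
    obtain ⟨p, q, hpq⟩ := h.gen x
    refine ⟨p + q * e, -q, ?_⟩
    rw [hpq, hζ]
    push_cast
    ring

/-- The field is cyclotomic. -/
theorem cyc [CharZero E] (h : IQ e E ζ) : IsCyclotomicExtension {me e} ℚ E := by
  refine ⟨fun {n} hn _ => ⟨ζ, by
    rw [Set.mem_singleton_iff.1 hn]
    exact prim h⟩, fun x => ?_⟩
  obtain ⟨p, q, rfl⟩ := h.gen x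
  refine add_mem (algebraMap_mem _ p) (mul_mem (algebraMap_mem _ q) (Algebra.subset_adjoin ?_))
  refine ⟨me e, Set.mem_singleton _, ?_, (prim h).pow_eq_one⟩
  unfold me
  split_ifs
  · norm_num
  · norm_num

theorem me_ne : me e ≠ 0 := by
  unfold me
  split_ifs
  · norm_num
  · norm_num

/-- An isomorphism of fields which respects the roots of unity. -/
theorem field_iso [NumberField E] (h : IQ e E ζ) (E' : Type) [Field E'] [NumberField E']
    (hc : IsCyclotomicExtension {me e} ℚ E') (ζ' : E') (hζ' : IsPrimitiveRoot ζ' (me e)) :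
    ∃ ε : E ≃+* E', ε ζ = ζ' := by
  have : NeZero (me e) := ⟨me_ne⟩
  have := cyc h
  have h1 : minpoly ℚ ((prim h).powerBasis ℚ).gen = minpoly ℚ (hζ'.powerBasis ℚ).gen := by
    rw [IsPrimitiveRoot.powerBasis_gen, IsPrimitiveRoot.powerBasis_gen,
      ← Polynomial.cyclotomic_eq_minpoly_rat (prim h) (Nat.pos_of_ne_zero me_ne),
      ← Polynomial.cyclotomic_eq_minpoly_rat hζ' (Nat.pos_of_ne_zero me_ne)]
  refine ⟨(((prim h).powerBasis ℚ).equivOfMinpoly (hζ'.powerBasis ℚ) h1).toRingEquiv, ?_⟩
  have h2 := PowerBasis.equivOfMinpoly_gen ((prim h).powerBasis ℚ) (hζ'.powerBasis ℚ) h1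
  rw [IsPrimitiveRoot.powerBasis_gen, IsPrimitiveRoot.powerBasis_gen] at h2
  exact h2

/-- Two actions which agree at `ζ`. -/
theorem act_eq [CharZero E] (h : IQ e E ζ) {V : Type} [AddCommGroup V] [Module ℂ V]
    (f g : E →+* Module.End ℂ V) (hζ : f ζ = g ζ) : f = g := by
  have hn : ∀ (n : ℤ) (F : Module.End ℂ V), (n : Module.End ℂ V) * F = (n : ℂ) • F := by
    intro n F
    ext v
    rw [Module.End.mul_apply, Module.End.intCast_apply, LinearMap.smul_apply,
      Int.cast_smul_eq_zsmul]
  have hq : ∀ q : ℚ, f (q : E) = g (q : E) := by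
    intro q
    have h1 : ((q.den : ℤ) : E) * (q : E) = (q.num : E) := by
      have h2 : ((q.den : ℤ) : ℚ) * q = (q.num : ℚ) := by
        have h3 := Rat.mul_den_eq_num q
        rw [mul_comm] at h3
        exact_mod_cast h3
      exact_mod_cast congrArg (fun x : ℚ => (x : E)) h2
    have h2 := congrArg f h1
    have h3 := congrArg g h1
    rw [map_mul, map_intCast, map_intCast, hn] at h2 h3
    have h4 : ((q.den : ℤ) : ℂ) ≠ 0 := by
      exact_mod_cast q.den_nz
    have h5 := h2.trans h3.symm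
    exact (smul_right_injective _ h4) h5
  ext1 x
  obtain ⟨p, q, rfl⟩ := h.gen x
  rw [map_add, map_mul, map_add, map_mul, hq, hq, hζ]

end PDA
end SEP
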