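import Pool.Agent.Lib.SE.P.PDA1
import Pool.Agent.Lib.SE.P.Fac

/-!
# PROJECT SE-P (helper96): lemmas for `S_PDA`
-/

set_option autoImplicit false

open HC HC.SE SE
open scoped ComplexConjugate Matrix

noncomputable section

namespace SEP
namespace PDA

variable {X : GF} {E : Type} [Field E] [NumberField E]

/-- The trace of a block with given signs. -/
theorem delta_sign {C : AV} {r : ℕ} (B : Blk X C E r) (φ : E →+* X.K) (ε : Fin r → Bool)
    (h : ∀ i v, B.b (φ, i) (Complex.I • v) = (if ε i then Complex.I else -Complex.I) * B.b (φ, i) v) :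
    B.δ φ = ∑ i, if ε i then Complex.I else -Complex.I := by
  unfold Blk.δ
  refine Finset.sum_congr rfl fun i _ => ?_
  have h1 : B.b (φ, i) ∘ₗ mulI C = (if ε i then Complex.I else -Complex.I) • B.b (φ, i) :=
    LinearMap.ext fun v => h i v
  rw [h1, map_smul, Module.Basis.coord_apply, Module.Basis.repr_self, Finsupp.single_eq_same,
    smul_eq_mul, mul_one]

theorem sum_sign {r : ℕ} (hr : 0 < r) : (∑ i : Fin r, if (decide (i.1 = 0) : Bool) then Complex.I
    else -Complex.I) = Complex.I - (r - 1) * Complex.I := by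
  obtain ⟨k, rfl⟩ : ∃ k, r = k + 1 := ⟨r - 1, by omega⟩
  rw [Fin.sum_univ_succ]
  have h1 : ∀ i : Fin k, (if (decide ((Fin.succ i).1 = 0) : Bool) then Complex.I
      else -Complex.I) = -Complex.I := fun i => by simp
  rw [Finset.sum_congr rfl fun i _ => h1 i, Finset.sum_const, Finset.card_univ, Fintype.card_fin]
  simp
  ring

/-- **The CM factor for `DA`.** -/
theorem exC (hCmx : S_Cmx) (hZi : S_Zi) (hDel : S_Del) {T : AV} {r : ℕ} (B : Blk X T E r) (e : ℤ)
    (ζ : E) (φ : E →+* X.K) (hI : IQ e E ζ) (him : 0 < (X.τ (φ ζ)).im) (hr : 0 < r)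
    (f : Fin r → ℂ) (hf : PicU B φ f) :
    ∃ (C : AV) (B₀ : Blk X C E r), IsCM C ∧ B₀.Pure ∧ ∀ ψ, B.δ ψ = B₀.δ ψ := by
  obtain ⟨C, B₀, h1, h2, h3⟩ := hCmx X E e ζ φ hI him r fun i => decide (i.1 = 0)
  refine ⟨C, B₀, h1, h2, fun ψ => ?_⟩
  obtain ⟨d1, d2⟩ := hDel hZi X T E r B e ζ φ hI him f hf
  have d3 : B₀.δ φ = Complex.I - (r - 1) * Complex.I :=
    (delta_sign B₀ φ _ h3).trans (sum_sign hr)
  rcases (hZi X T E r B e ζ φ hI him).2.1 ψ with rfl | rfl
  · rw [d1, d3]
  · rw [d2, S6.blk_odd B₀ h2, d3]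

/-- A hermitian matrix from its transform. -/
theorem herm_of {n m : Type} [Fintype n] [Fintype m] [DecidableEq n] [DecidableEq m]
    (inv : E ≃+* E) (hinv : ∀ x, inv (inv x) = x) (G : Matrix n n E) (M : Matrix m m E)
    (P : Matrix n m E) (P' : Matrix m n E) (hPP : P * P' = 1) (h : Pᵀ * G * P.map inv = M)
    (hM : ∀ i j, inv (M i j) = M j i) (i j : n) : inv (G i j) = G j i := by
  have hmul : ∀ {a b c : Type} [Fintype b] (A : Matrix a b E) (B : Matrix b c E),
      (A * B).map inv = A.map inv * B.map inv := fun A B => Matrix.map_mul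
  have h1 : P.map inv * P'.map inv = 1 := by
    rw [← hmul, hPP]
    exact Matrix.map_one inv (map_zero inv) (map_one inv)
  have h2 : P'ᵀ * Pᵀ = 1 := by
    rw [← Matrix.transpose_mul, hPP, Matrix.transpose_one]
  have h3 : G = P'ᵀ * M * P'.map inv := by
    rw [← h]
    calc G = (P'ᵀ * Pᵀ) * G * (P.map inv * P'.map inv) := by
          rw [h2, h1, Matrix.one_mul, Matrix.mul_one]
      _ = P'ᵀ * (Pᵀ * G * P.map inv) * P'.map inv := by
          simp only [Matrix.mul_assoc]
  have h4 : M.map inv = Mᵀ := by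
    ext a b
    exact hM a b
  have h5 : G.map inv = Gᵀ := by
    have e1 : (P'.map inv).map inv = P' := by
      ext a b
      exact hinv _
    have e2 : (P'ᵀ).map inv = (P'.map inv)ᵀ := rfl
    calc G.map inv = (P'ᵀ).map inv * M.map inv * (P'.map inv).map inv := by
          rw [h3, hmul, hmul]
      _ = (P'.map inv)ᵀ * Mᵀ * P' := by rw [e1, e2, h4]
      _ = Gᵀ := by
          rw [h3, Matrix.transpose_mul, Matrix.transpose_mul, Matrix.transpose_transpose,
            Matrix.mul_assoc]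
  exact congrFun (congrFun h5 i) j

end PDA
end SEP
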