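import Pool.Agent.Lib.SE.P.Spec
import Pool.Agent.Lib.SE.J.Def2

/-!
# PROJECT SE-P: P2 (hermitian forms in matrix form) and the two halves of P4 (helper81)

`E = ℚ(z)`, `z^2 = e z - 1` (`e = 1`: `ℚ(√-3)`, `e = 0`: `ℚ(i)`).
-/

set_option autoImplicit false

open Filter Topology
open scoped ComplexConjugate Matrix

noncomputable section

namespace SEP

/-- `E = ℚ(z)` with its conjugation `inv` and an embedding in `ℂ`. -/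
structure QF (e : ℤ) (E : Type) [Field E] where
  he : e = 0 ∨ e = 1
  z : E
  inv : E ≃+* E
  σ : E →+* ℂ
  hz : z ^ 2 = e * z - 1
  gen : ∀ x : E, ∃ a b : ℚ, x = a + b * z
  hinv : inv z = e - z
  hσ : ∀ x, σ (inv x) = conj (σ x)

variable {e : ℤ} {E : Type} [Field E]

/-- `Pᴴ` -/
def QF.cT (q : QF e E) {ι κ : Type} (P : Matrix ι κ E) : Matrix κ ι E := (P.map q.inv)ᵀ

/-- The hermitian matrices `H`, `H'` are equivalent over `E`. -/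
def QF.Iso (q : QF e E) {ι κ : Type} [Fintype ι] [Fintype κ] [DecidableEq ι] [DecidableEq κ]
    (H : Matrix ι ι E) (H' : Matrix κ κ E) : Prop :=
  ∃ (P : Matrix ι κ E) (Q : Matrix κ ι E), P * Q = 1 ∧ Q * P = 1 ∧ q.cT P * H * P = H'

/-- the diagonal matrix of rational numbers -/
def dg (E : Type) [Field E] {ι : Type} [DecidableEq ι] (d : ι → ℚ) : Matrix ι ι E :=
  Matrix.diagonal fun i => (d i : E)

/-- `diag (1, …, 1, -1)`, `N` ones -/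
def D0 (E : Type) [Field E] (N : ℕ) : Matrix (Fin (N + 1)) (Fin (N + 1)) E :=
  dg E fun i => if i = Fin.last N then -1 else 1

/-- (H1) `Iso` is an equivalence relation, stable under renaming the indices and under block sums. -/
def S_H1 : Prop := ∀ {e : ℤ} {E : Type} [Field E] (q : QF e E),
  (∀ {ι : Type} [Fintype ι] [DecidableEq ι] (H : Matrix ι ι E), q.Iso H H) ∧
  (∀ {ι κ : Type} [Fintype ι] [Fintype κ] [DecidableEq ι] [DecidableEq κ] (H : Matrix ι ι E)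
    (H' : Matrix κ κ E), q.Iso H H' → q.Iso H' H) ∧
  (∀ {ι κ ν : Type} [Fintype ι] [Fintype κ] [Fintype ν] [DecidableEq ι] [DecidableEq κ]
    [DecidableEq ν] (H : Matrix ι ι E) (H' : Matrix κ κ E) (H'' : Matrix ν ν E),
    q.Iso H H' → q.Iso H' H'' → q.Iso H H'') ∧
  (∀ {ι κ : Type} [Fintype ι] [Fintype κ] [DecidableEq ι] [DecidableEq κ] (f : κ ≃ ι)
    (H : Matrix ι ι E), q.Iso H (H.submatrix f f)) ∧
  (∀ {ι κ ι' κ' : Type} [Fintype ι] [Fintype κ] [DecidableEq ι] [DecidableEq κ] [Fintype ι']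
    [Fintype κ'] [DecidableEq ι'] [DecidableEq κ'] (A : Matrix ι ι E) (A' : Matrix κ κ E)
    (B : Matrix ι' ι' E) (B' : Matrix κ' κ' E), q.Iso A A' → q.Iso B B' →
    q.Iso (Matrix.fromBlocks A 0 0 B) (Matrix.fromBlocks A' 0 0 B'))

/-- (H2) A binary form which represents `c ≠ 0`.

PROOF: `P = !![x, -b ȳ; y, a x̄]`, `det P = a N(x) + b N(y) = c`, `Pᴴ diag(a,b) P = diag(c, a b c)`
(`ȳ = inv y`; rational numbers are fixed by `inv`; `inv (inv x) = x` by `hinv`, `gen`). Inverse of `P`: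
`c⁻¹ !![a x̄, b ȳ; -y, x]`. -/
def S_H2 : Prop := ∀ {e : ℤ} {E : Type} [Field E] (q : QF e E) (a b c : ℚ) (x y : E), c ≠ 0 →
  (a : E) * (q.inv x * x) + b * (q.inv y * y) = c →
  q.Iso (dg E ![a, b]) (dg E ![c, a * b * c])

/-- (H3) Representations, from P1e. PROOF: `inv (a + b z) * (a + b z) = nq e a b`
(`z (e - z) = 1`). -/
def S_H3 : Prop := (∀ (e : ℤ) (a b c : ℚ), (e = 0 ∨ e = 1) → a ≠ 0 → b ≠ 0 → c ≠ 0 →
    (0 < c → 0 < a ∨ 0 < b) → (c < 0 → a < 0 ∨ b < 0) →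
    ∃ x y : ℚ × ℚ, a * nq e x.1 x.2 + b * nq e y.1 y.2 = c) →
  ∀ {e : ℤ} {E : Type} [Field E] (q : QF e E) (a b c : ℚ), a ≠ 0 → b ≠ 0 → c ≠ 0 →
    (0 < c → 0 < a ∨ 0 < b) → (c < 0 → a < 0 ∨ b < 0) →
    ∃ x y : E, (a : E) * (q.inv x * x) + b * (q.inv y * y) = c

/-- (H4) A move in a diagonal form: `⟨a, b⟩ ≅ ⟨c, a b c⟩` with any further entries `d`. -/
def S_H4 : Prop := S_H1 → S_H2 → ∀ {e : ℤ} {E : Type} [Field E] (q : QF e E), (∀ a b c : ℚ, a ≠ 0 → b ≠ 0 →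
    c ≠ 0 → (0 < c → 0 < a ∨ 0 < b) → (c < 0 → a < 0 ∨ b < 0) →
    ∃ x y : E, (a : E) * (q.inv x * x) + b * (q.inv y * y) = c) →
  ∀ {ι : Type} [Fintype ι] [DecidableEq ι] (d : ι → ℚ) (i j : ι) (c : ℚ), i ≠ j → d i ≠ 0 →
    d j ≠ 0 → c ≠ 0 → (0 < c → 0 < d i ∨ 0 < d j) → (c < 0 → d i < 0 ∨ d j < 0) →
    q.Iso (dg E d) (dg E (Function.update (Function.update d i c) j (d i * d j * c)))

/-- (H5) THE EMBEDDING for diagonal forms: a form `⟨d_0, …, d_(n-1)⟩` with exactly one negative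
coefficient is a summand of `⟨1^N, -1⟩` with positive complement if `n ≤ N` (`n + l = N + 1`, `l ≥ 1`).

PROOF (moves H4): order the `d_i` such that `d_(n-1) < 0`. Start: `⟨1^N, -1⟩`, `D_0 = 1` (one of the ones).
Step `k = 1, …, n-1`: `⟨D_(k-1), 1⟩ ≅ ⟨d_k', D_k⟩`, `D_k = D_(k-1) d_k' > 0` (a new one is used; after the
steps `n` ones are used). At the end `⟨D_(n-1), -1⟩ ≅ ⟨d_(n-1), - D_(n-1) d_(n-1)⟩`. The rest is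
`- D_(n-1) d_(n-1) > 0` and `N - n` ones, together `l = N + 1 - n` positive numbers.
(Suggestion: prove by induction on the list of the positive `d_k` that
`⟨D⟩ + ⟨1^(k)⟩ ≅ ⟨d_1, …, d_k⟩ + ⟨D'⟩`, `D, D' > 0`.) -/
def S_H5 : Prop := S_H1 → (∀ {e : ℤ} {E : Type} [Field E] (q : QF e E) {ι : Type} [Fintype ι]
    [DecidableEq ι] (d : ι → ℚ) (i j : ι) (c : ℚ), i ≠ j → d i ≠ 0 → d j ≠ 0 → c ≠ 0 →
    (0 < c → 0 < d i ∨ 0 < d j) → (c < 0 → d i < 0 ∨ d j < 0) →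
    q.Iso (dg E d) (dg E (Function.update (Function.update d i c) j (d i * d j * c)))) →
  ∀ {e : ℤ} {E : Type} [Field E] (q : QF e E) (N n l : ℕ), n + l = N + 1 → 1 ≤ l →
  ∀ d : Fin n → ℚ, (∀ i, d i ≠ 0) → (∃! i, d i < 0) →
    ∃ a : Fin l → ℚ, (∀ i, 0 < a i) ∧ q.Iso (D0 E N) (dg E (Sum.elim d a))

/-- (H6) Diagonalisation of a nondegenerate hermitian matrix.

PROOF: induction on `n`. If `n > 0` there is `v` with `H(v,v) ≠ 0`: a diagonal entry, or all diagonal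
entries are `0` and `h = H_(ij) ≠ 0`: `v = e_i + t e_j`, `H(v,v) = t h + inv (t h)`, `t = h⁻¹` gives `2`.
Complete `v` to a basis, move the other basis vectors into `v^⊥`: block sum of `(H(v,v))` (a rational
number: fixed by `inv`) and a hermitian nondegenerate `(n-1) × (n-1)` matrix. -/
def S_H6 : Prop := S_H1 → ∀ {e : ℤ} {E : Type} [Field E] (q : QF e E) (n : ℕ)
  (H : Matrix (Fin n) (Fin n) E), q.cT H = H → H.det ≠ 0 →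
  ∃ d : Fin n → ℚ, (∀ i, d i ≠ 0) ∧ q.Iso H (dg E d)

/-- The hermitian matrix `H` has signature `(n - 1, 1)`. -/
def QF.Sig (q : QF e E) {ι : Type} [Fintype ι] (H : Matrix ι ι E) : Prop :=
  ∃ v : ι → ℂ, (star v ⬝ᵥ (H.map q.σ).mulVec v).re < 0 ∧
    ∀ w : ι → ℂ, w ≠ 0 → star v ⬝ᵥ (H.map q.σ).mulVec w = 0 →
      0 < (star w ⬝ᵥ (H.map q.σ).mulVec w).re

/-- (H7) The signature. PROOF: `(q.cT P).map σ = (P.map σ)ᴴ`, so with `P` complex invertible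
`H(P x, P x) = ∑ d_i |x_i|^2`. If no `d_i` is negative, `H ≥ 0`, against `v`. If `d_i, d_j < 0`,
`i ≠ j`, the plane `P (ℂ e_i + ℂ e_j)` (negative definite) contains `w ≠ 0` with `H(v, w) = 0`. -/
def S_H7 : Prop := ∀ {e : ℤ} {E : Type} [Field E] (q : QF e E) (n : ℕ)
  (H : Matrix (Fin n) (Fin n) E) (d : Fin n → ℚ), (∀ i, d i ≠ 0) → q.Iso H (dg E d) →
  q.Sig H → ∃! i, d i < 0

/-- **(P2)** THE TARGET. PROOF: H1, H5, H6, H7. -/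
def S_P2 : Prop := ∀ {e : ℤ} {E : Type} [Field E] (q : QF e E) (N n l : ℕ), n + l = N + 1 →
  1 ≤ l → ∀ H : Matrix (Fin n) (Fin n) E, q.cT H = H → H.det ≠ 0 → q.Sig H →
  ∃ a : Fin l → ℚ, (∀ i, 0 < a i) ∧ q.Iso (D0 E N) (Matrix.fromBlocks H 0 0 (dg E a))

/-! ## The form of `J(s)`, `b = (1, …, 1)` -/

/-- diagonal entries `2 + e`, entries `1 + e - z` above and `1 + e - inv z` below the diagonal -/
def QF.HN (q : QF e E) (r : ℕ) : Matrix (Fin r) (Fin r) E := fun l j =>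
  if l = j then 2 + e else if l < j then 1 + e - q.z else 1 + e - q.inv q.z

/-- (H8) `HN` and the matrix `Nm` of SE/J for `λ_j = z⁻¹ = e - z`: `HN = - (2 z - 1) Nm` (`e = 1`),
`HN = - z Nm` (`e = 0`). PROOF: `e = 1`: `1 - λ = z`, `1 - λ⁻¹ = 1 - z`, `z (1 - z) = 1`; `e = 0`:
`1 - λ = 1 + z`, `1 - λ⁻¹ = 1 - z`, `(1 + z)(1 - z) = 2`; three cases `l = j`, `l < j`, `l > j`. -/
def S_H8 : Prop :=
  (∀ {E : Type} [Field E] (q : QF 1 E) (r : ℕ) (l j : Fin r),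
    q.HN r l j = -(2 * q.z - 1) * SEJ.Nm (fun _ : Fin (r + 1) => q.z⁻¹) l j) ∧
  (∀ {E : Type} [Field E] (q : QF 0 E) (r : ℕ) (l j : Fin r),
    q.HN r l j = -q.z * SEJ.Nm (fun _ : Fin (r + 1) => q.z⁻¹) l j)

/-- (H9) `e = 1`: `HN` of size `10` is `⟨1^9, -1⟩`.

PROOF: `P = A + z B`, `Pᴴ D P = HN`, i.e. `AᵀDA + BᵀDB + BᵀDA = re`, `AᵀDB - BᵀDA = im` (integral
matrices, `decide`), inverse `Q = (QA + z QB) / 3`, with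
A= [[-1,0,0,0,0,0,0,0,0,0],[0,1,0,1,1,1,1,1,1,1],[0,1,1,0,0,0,0,0,0,0],[0,0,1,0,1,1,1,1,1,1],
[0,0,0,0,1,0,0,0,0,0],[0,0,0,0,0,0,-1,0,0,0],[0,0,0,0,0,0,0,1,0,1],[0,0,0,0,0,0,0,1,1,0],
[0,0,0,0,0,0,0,0,1,0],[0,0,0,0,1,1,1,1,1,1]]
B= [[2,1,1,1,1,1,1,1,1,1],[0,0,0,0,-1,-1,-1,-1,-1,-1],[0,0,-1,-1,0,0,0,0,0,0],
[0,0,0,0,-1,-1,-1,-1,-1,-1],[0,0,0,0,0,-1,0,0,0,0],[0,0,0,0,0,0,2,1,1,1],[0,0,0,0,0,0,0,0,0,0],
[0,0,0,0,0,0,0,0,-1,-1],[0,0,0,0,0,0,0,0,0,0],[0,0,0,0,0,0,1,1,1,1]]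
QA= [[1,-2,0,-2,0,1,-2,0,-2,0],[0,1,2,-1,0,2,-1,0,-1,-3],[0,0,0,3,0,1,1,0,1,-3],
[0,2,-2,1,0,-1,2,0,2,0],[0,0,0,0,2,-2,1,0,1,1],[0,0,0,0,-2,-1,-1,0,-1,2],[0,0,0,0,0,1,-2,0,-2,0],
[0,0,0,0,0,0,1,2,-1,0],[0,0,0,0,0,0,0,0,3,0],[0,0,0,0,0,0,2,-2,1,0]]
QB= [[-2,1,0,1,0,1,1,0,1,-3],[0,1,-1,2,0,-1,2,0,2,0],[0,0,0,0,0,-2,1,0,1,3],
[0,-1,1,-2,0,-1,-1,0,-1,3],[0,0,0,0,-1,1,-2,0,-2,1],[0,0,0,0,1,2,-1,0,-1,-1],
[0,0,0,0,0,-2,1,0,1,0],[0,0,0,0,0,0,1,-1,2,0],[0,0,0,0,0,0,0,0,0,0],[0,0,0,0,0,0,-1,1,-2,0]]. -/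
def S_H9 : Prop := ∀ {E : Type} [Field E] (q : QF 1 E), q.Iso (D0 E 9) (q.HN 10)

/-- (H10) `e = 0`: `HN` of size `6` is `⟨1^5, -1⟩`. PROOF: as H9 (`AᵀDA + BᵀDB = re`,
`AᵀDB - BᵀDA = im`, inverse `(QA + z QB) / 2`), with
A= [[1,1,1,1,1,1],[0,1,0,0,0,0],[0,0,1,0,0,0],[0,0,0,0,1,1],[0,0,0,0,0,1],[0,0,1,1,1,1]]
B= [[1,0,0,0,0,0],[0,0,-1,-1,-1,-1],[0,0,0,-1,0,0],[0,0,0,0,1,0],[0,0,0,0,0,0],[0,0,0,0,1,1]]
QA= [[1,-1,0,1,-1,-2],[0,2,0,1,1,0],[0,0,1,-1,1,1],[0,0,-1,-1,-1,1],[0,0,0,1,-1,0],[0,0,0,0,2,0]]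
QB= [[-1,1,0,1,1,0],[0,0,0,-1,1,2],[0,0,-1,-1,-1,1],[0,0,1,1,-1,-1],[0,0,0,-1,1,0],[0,0,0,0,0,0]]. -/
def S_H10 : Prop := ∀ {E : Type} [Field E] (q : QF 0 E), q.Iso (D0 E 5) (q.HN 6)

/-- (H11) Transposes and inverses. PROOF: apply `inv` to all entries of `P`; for a hermitian
invertible `H`: `H⁻¹ = (H⁻¹)ᴴ H H⁻¹`. -/
def S_H11 : Prop := ∀ {e : ℤ} {E : Type} [Field E] (q : QF e E) (N : ℕ)
  (H : Matrix (Fin (N + 1)) (Fin (N + 1)) E), q.Iso (D0 E N) H →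
  q.Iso (D0 E N) Hᵀ ∧ q.Iso (D0 E N) H⁻¹ ∧ q.Iso (D0 E N) (Hᵀ)⁻¹ ∧ IsUnit H.det ∧ q.cT H = H

/-! ## P4 -/

/-- (P4a) An isometry without eigenvalue `-1` which moves `v` to the line of `w`.

PROOF. Multiply `v` by a scalar such that `H(v,v) = H(w,w)` and `H(v,w)` is real. If
`u = v - w` has `H(u,u) ≠ 0`: the reflection `r(x) = x - 2 H(u,x) / H(u,u) u` maps `v` to `w`
(`H(u,u) = 2 H(u,v)`). If `H(u,u) = 0` then `H(v,w) = H(v,v)`, `u = v + w` has `H(u,u) = 4 H(v,v) ≠ 0` and its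
reflection maps `v` to `-w`. `g₀ = i r`: `(1 + i r)(1 - i r) = 1 + r^2 = 2`, so `det (g₀ + 1) ≠ 0`. -/
def S_P4a : Prop := ∀ (N : ℕ) (H : Matrix (Fin N) (Fin N) ℂ), H.IsHermitian →
  ∀ v w : Fin N → ℂ, (star v ⬝ᵥ H.mulVec v).re < 0 → (star w ⬝ᵥ H.mulVec w).re < 0 →
  ∃ g : Matrix (Fin N) (Fin N) ℂ, gᴴ * H * g = H ∧ (g + 1).det ≠ 0 ∧
    ∃ z : ℂ, z ≠ 0 ∧ z • g.mulVec v = w

/-- (P4b) Approximation of an isometry without eigenvalue `-1` by isometries over `F`.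

PROOF. `X₀ = (g₀ - 1)(g₀ + 1)⁻¹`, `X₀ᴴ H + H X₀ = 0`, `S₀ = H X₀` is skew hermitian, so a limit of skew
hermitian matrices `S` over `F` (entries above the diagonal: `F` is dense; on the diagonal
`(x - conj x) / 2`, `x ∈ F`). `X = H⁻¹ S`, `g = (1 + X)(1 - X)⁻¹`: continuous at `X₀`
(`1 - X₀ = 2 (g₀ + 1)⁻¹`), value `g₀`, isometry, entries in `F` (adjugate and determinant). -/
def S_P4b : Prop := ∀ (F : Subfield ℂ), Dense (F : Set ℂ) → (∀ x ∈ F, conj x ∈ F) →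
  ∀ (N : ℕ) (H : Matrix (Fin N) (Fin N) ℂ), H.IsHermitian → (∀ i j, H i j ∈ F) → H.det ≠ 0 →
  ∀ g₀ : Matrix (Fin N) (Fin N) ℂ, g₀ᴴ * H * g₀ = H → (g₀ + 1).det ≠ 0 →
  ∀ U ∈ 𝓝 g₀, ∃ g ∈ U, (∀ i j, g i j ∈ F) ∧ gᴴ * H * g = H

/-- (P4c) PROOF: P4a, P4b, continuity of `g ↦ z • g.mulVec v`. -/
def S_P4c : Prop := S_P4a → S_P4b → S_P4

end SEP
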